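import Mathlib

/-!
# Circulant theta: random configurations
-/

set_option autoImplicit false

namespace Pool.Agent.H976.C

open Finset Real

/-- Configurations. -/
abbrev Cfg (α : Type) : Type := α → Bool

section base

variable {α : Type} [Fintype α] [DecidableEq α]

/-- the weight of a configuration -/
noncomputable def wt (p : ℝ) (σ : Cfg α) : ℝ := ∏ e, if σ e = true then p else 1 - p

/-- Expectation. -/
noncomputable def Ep (p : ℝ) (f : Cfg α → ℝ) : ℝ := ∑ σ : Cfg α, wt p σ * f σ

theorem wt_nonneg (p : ℝ) (hp : 0 ≤ p) (hp1 : p ≤ 1) (σ : Cfg α) : 0 ≤ wt p σ := by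
  unfold wt
  refine Finset.prod_nonneg fun e _ => ?_
  split_ifs
  · exact hp
  · linarith

theorem fub (g : α → Bool → ℝ) :
    ∑ σ : Cfg α, ∏ e, g e (σ e) = ∏ e, (g e true + g e false) := by
  have h : ∀ e, g e true + g e false = ∑ b ∈ (univ : Finset Bool), g e b := by
    intro e
    rw [Fintype.sum_bool]
  rw [Finset.prod_congr rfl fun e _ => h e, Finset.prod_univ_sum, Fintype.piFinset_univ]

/-- Product functions. -/
theorem Ep_prod (p : ℝ) (a b : α → ℝ) :
    Ep p (fun σ : Cfg α => ∏ e, if σ e = true then a e else b e) =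
      ∏ e, (p * a e + (1 - p) * b e) := by
  unfold Ep wt
  have h := fub (α := α) (fun e c => if c = true then p * a e else (1 - p) * b e)
  simp only [if_true, Bool.false_eq_true, if_false] at h
  rw [← h]
  refine Finset.sum_congr rfl fun σ _ => ?_
  rw [← Finset.prod_mul_distrib]
  refine Finset.prod_congr rfl fun e _ => ?_
  split_ifs <;> rfl

theorem Ep_const (p c : ℝ) : Ep p (fun _ : Cfg α => c) = c := by
  have h := Ep_prod (α := α) p (fun _ => 1) (fun _ => 1)
  simp only [ite_self, Finset.prod_const_one, mul_one] at h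
  have h1 : ∏ _e : α, (p + (1 - p)) = 1 := by
    rw [show p + (1 - p) = 1 by ring, Finset.prod_const_one]
  rw [h1] at h
  unfold Ep at h ⊢
  rw [← Finset.sum_mul]
  simp only [mul_one] at h
  rw [h, one_mul]

theorem Ep_add (p : ℝ) (f g : Cfg α → ℝ) :
    Ep p (fun σ => f σ + g σ) = Ep p f + Ep p g := by
  simp only [Ep, mul_add, Finset.sum_add_distrib]

theorem Ep_sub (p : ℝ) (f g : Cfg α → ℝ) :
    Ep p (fun σ => f σ - g σ) = Ep p f - Ep p g := by
  simp only [Ep, mul_sub, Finset.sum_sub_distrib]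

theorem Ep_mul (p c : ℝ) (f : Cfg α → ℝ) :
    Ep p (fun σ => c * f σ) = c * Ep p f := by
  simp only [Ep, Finset.mul_sum]
  refine Finset.sum_congr rfl fun σ _ => ?_
  ring

theorem Ep_mul_right (p c : ℝ) (f : Cfg α → ℝ) :
    Ep p (fun σ => f σ * c) = Ep p f * c := by
  simp only [Ep, Finset.sum_mul]
  refine Finset.sum_congr rfl fun σ _ => ?_
  ring

theorem Ep_div (p c : ℝ) (f : Cfg α → ℝ) :
    Ep p (fun σ => f σ / c) = Ep p f / c := by
  simp only [Ep, Finset.sum_div]
  refine Finset.sum_congr rfl fun σ _ => ?_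
  ring

theorem Ep_sum (p : ℝ) {ι : Type} (s : Finset ι) (f : ι → Cfg α → ℝ) :
    Ep p (fun σ => ∑ i ∈ s, f i σ) = ∑ i ∈ s, Ep p (f i) := by
  simp only [Ep, Finset.mul_sum]
  exact Finset.sum_comm

theorem Ep_mono (p : ℝ) (hp : 0 ≤ p) (hp1 : p ≤ 1) (f g : Cfg α → ℝ)
    (h : ∀ σ, f σ ≤ g σ) : Ep p f ≤ Ep p g := by
  exact Finset.sum_le_sum fun σ _ => mul_le_mul_of_nonneg_left (h σ) (wt_nonneg p hp hp1 σ)

theorem Ep_nonneg (p : ℝ) (hp : 0 ≤ p) (hp1 : p ≤ 1) (f : Cfg α → ℝ)
    (h : ∀ σ, 0 ≤ f σ) : 0 ≤ Ep p f := by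
  exact Finset.sum_nonneg fun σ _ => mul_nonneg (wt_nonneg p hp hp1 σ) (h σ)

theorem abs_Ep_le (p : ℝ) (hp : 0 ≤ p) (hp1 : p ≤ 1) (f : Cfg α → ℝ) :
    |Ep p f| ≤ Ep p (fun σ => |f σ|) := by
  unfold Ep
  refine (Finset.abs_sum_le_sum_abs _ _).trans (le_of_eq ?_)
  refine Finset.sum_congr rfl fun σ _ => ?_
  rw [abs_mul, abs_of_nonneg (wt_nonneg p hp hp1 σ)]

/-- Cauchy-Schwarz. -/
theorem Ep_cs (p : ℝ) (hp : 0 ≤ p) (hp1 : p ≤ 1) (f g : Cfg α → ℝ) :
    (Ep p (fun σ => f σ * g σ)) ^ 2 ≤
      Ep p (fun σ => f σ ^ 2) * Ep p (fun σ => g σ ^ 2) := by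
  unfold Ep
  refine Finset.sum_sq_le_sum_mul_sum_of_sq_le_mul _
    (fun σ _ => mul_nonneg (wt_nonneg p hp hp1 σ) (sq_nonneg _))
    (fun σ _ => mul_nonneg (wt_nonneg p hp hp1 σ) (sq_nonneg _)) (fun σ _ => le_of_eq ?_)
  ring

theorem sq_Ep_le (p : ℝ) (hp : 0 ≤ p) (hp1 : p ≤ 1) (f : Cfg α → ℝ) :
    (Ep p f) ^ 2 ≤ Ep p (fun σ => f σ ^ 2) := by
  have h := Ep_cs p hp hp1 f (fun _ => 1)
  simp only [mul_one, one_pow, Ep_const] at h
  exact h

/-- the weight without one element -/
noncomputable def wte (p : ℝ) (e : α) (σ : Cfg α) : ℝ :=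
  ∏ e' ∈ univ.erase e, if σ e' = true then p else 1 - p

theorem wt_eq (p : ℝ) (e : α) (σ : Cfg α) :
    wt p σ = (if σ e = true then p else 1 - p) * wte p e σ :=
  (Finset.mul_prod_erase univ (fun e' => if σ e' = true then p else 1 - p) (mem_univ e)).symm

theorem wte_update (p : ℝ) (e : α) (σ : Cfg α) (b : Bool) :
    wte p e (Function.update σ e b) = wte p e σ := by
  unfold wte
  refine Finset.prod_congr rfl fun e' he' => ?_
  rw [Function.update_of_ne (Finset.ne_of_mem_erase he')]

/-- switching one element -/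
def fl (e : α) (σ : Cfg α) : Cfg α := Function.update σ e (!σ e)

theorem fl_inv (e : α) : Function.Involutive (fl e) := by
  intro σ
  unfold fl
  rw [Function.update_self, Bool.not_not, Function.update_idem, Function.update_eq_self]

theorem sum_fl (e : α) (F : Cfg α → ℝ) :
    ∑ σ : Cfg α, F σ = ∑ σ : Cfg α, F (fl e σ) :=
  (Equiv.sum_comp (Function.Involutive.toPerm (fl e) (fl_inv e)) F).symm

/-- Resampling one element. -/
theorem Ep_update (p : ℝ) (e : α) (f : Cfg α → ℝ) :
    Ep p (fun σ => p * f (Function.update σ e true) + (1 - p) * f (Function.update σ e false)) =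
      Ep p f := by
  have h1 : ∀ F : Cfg α → ℝ, 2 * Ep p F = ∑ σ : Cfg α, wte p e σ *
      (p * F (Function.update σ e true) + (1 - p) * F (Function.update σ e false)) := by
    intro F
    rw [two_mul]
    unfold Ep
    nth_rewrite 2 [sum_fl e]
    rw [← Finset.sum_add_distrib]
    refine Finset.sum_congr rfl fun σ _ => ?_
    rw [wt_eq p e σ, wt_eq p e (fl e σ)]
    unfold fl
    rw [wte_update, Function.update_self]
    rcases hb : σ e with _ | _
    · have h2 : Function.update σ e false = σ := by rw [← hb]; exact Function.update_eq_self _ _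
      rw [h2]
      simp only [Bool.false_eq_true, if_false, Bool.not_false, if_true]
      ring
    · have h2 : Function.update σ e true = σ := by rw [← hb]; exact Function.update_eq_self _ _
      rw [h2]
      simp only [Bool.false_eq_true, if_false, Bool.not_true, if_true]
      ring
  have h2 : 2 * Ep p (fun σ => p * f (Function.update σ e true) +
      (1 - p) * f (Function.update σ e false)) = 2 * Ep p f := by
    rw [h1, h1]
    refine Finset.sum_congr rfl fun σ _ => ?_
    simp only [Function.update_idem]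
    ring
  linarith

/-- Union of two configurations. -/
def cup (σ τ : Cfg α) : Cfg α := fun e => σ e || τ e

/-- The union of two independent configurations. -/
theorem Ep_cup (p q : ℝ) (f : Cfg α → ℝ) :
    Ep p (fun σ => Ep q (fun τ => f (cup σ τ))) = Ep (p + q - p * q) f := by
  have h1 : ∀ σ τ : Cfg α, f (cup σ τ) =
      ∑ u : Cfg α, (∏ e, if (σ e || τ e) = u e then (1 : ℝ) else 0) * f u := by
    intro σ τ
    rw [Finset.sum_eq_single (cup σ τ)]
    · rw [Finset.prod_congr rfl (g := fun _ => (1 : ℝ)), Finset.prod_const_one, one_mul]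
      intro e _
      exact if_pos rfl
    · intro u _ hu
      obtain ⟨e, he⟩ := Function.ne_iff.1 hu
      rw [Finset.prod_eq_zero (mem_univ e), zero_mul]
      exact if_neg fun h => he h.symm
    · intro h
      exact absurd (mem_univ _) h
  have h2 : ∀ u : Cfg α, ∑ σ : Cfg α, ∑ τ : Cfg α, wt p σ * (wt q τ *
      ∏ e, if (σ e || τ e) = u e then (1 : ℝ) else 0) = wt (p + q - p * q) u := by
    intro u
    have h3 : ∀ σ τ : Cfg α, wt p σ * (wt q τ *
        ∏ e, if (σ e || τ e) = u e then (1 : ℝ) else 0) =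
        ∏ e, ((if σ e = true then p else 1 - p) * ((if τ e = true then q else 1 - q) *
          (if (σ e || τ e) = u e then (1 : ℝ) else 0))) := by
      intro σ τ
      unfold wt
      rw [Finset.prod_mul_distrib, Finset.prod_mul_distrib]
    have h4 : ∀ σ : Cfg α, ∑ τ : Cfg α, wt p σ * (wt q τ *
        ∏ e, if (σ e || τ e) = u e then (1 : ℝ) else 0) = ∏ e,
        ((if σ e = true then p else 1 - p) * (q * (if (σ e || true) = u e then (1 : ℝ) else 0)) +
          (if σ e = true then p else 1 - p) *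
            ((1 - q) * (if (σ e || false) = u e then (1 : ℝ) else 0))) := by
      intro σ
      rw [Finset.sum_congr rfl fun τ _ => h3 σ τ]
      have h5 := fub (α := α) (fun e b => (if σ e = true then p else 1 - p) *
        ((if b = true then q else 1 - q) * (if (σ e || b) = u e then (1 : ℝ) else 0)))
      simp only [if_true, Bool.false_eq_true, if_false] at h5
      exact h5
    rw [Finset.sum_congr rfl fun σ _ => h4 σ]
    have h6 := fub (α := α) (fun e a =>
      (if a = true then p else 1 - p) * (q * (if (a || true) = u e then (1 : ℝ) else 0)) +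
          (if a = true then p else 1 - p) *
            ((1 - q) * (if (a || false) = u e then (1 : ℝ) else 0)))
    rw [h6]
    unfold wt
    refine Finset.prod_congr rfl fun e _ => ?_
    rcases u e with _ | _
    · simp only [Bool.or_true, Bool.or_false, if_true, Bool.false_eq_true, if_false,
        Bool.true_eq_false]
      ring
    · simp only [Bool.or_true, Bool.or_false, if_true, Bool.false_eq_true, if_false]
      ring
  unfold Ep
  calc ∑ σ : Cfg α, wt p σ * ∑ τ : Cfg α, wt q τ * f (cup σ τ)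
      = ∑ σ : Cfg α, ∑ τ : Cfg α, ∑ u : Cfg α, wt p σ * (wt q τ *
          ∏ e, if (σ e || τ e) = u e then (1 : ℝ) else 0) * f u := by
        refine Finset.sum_congr rfl fun σ _ => ?_
        rw [Finset.mul_sum]
        refine Finset.sum_congr rfl fun τ _ => ?_
        rw [h1, Finset.mul_sum, Finset.mul_sum]
        refine Finset.sum_congr rfl fun u _ => ?_
        ring
    _ = ∑ u : Cfg α, ∑ σ : Cfg α, ∑ τ : Cfg α, wt p σ * (wt q τ *
          ∏ e, if (σ e || τ e) = u e then (1 : ℝ) else 0) * f u := by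
        rw [Finset.sum_congr rfl fun σ _ => Finset.sum_comm, Finset.sum_comm]
    _ = ∑ u : Cfg α, wt (p + q - p * q) u * f u := by
        refine Finset.sum_congr rfl fun u _ => ?_
        rw [← h2 u, Finset.sum_mul]
        refine Finset.sum_congr rfl fun σ _ => ?_
        rw [Finset.sum_mul]

/-- Complement. -/
theorem Ep_compl (p : ℝ) (f : Cfg α → ℝ) :
    Ep p (fun σ => f (fun e => !σ e)) = Ep (1 - p) f := by
  have hinv : Function.Involutive (fun (σ : Cfg α) e => !σ e) := by
    intro σ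
    funext e
    exact Bool.not_not _
  have h0 := Equiv.sum_comp (Function.Involutive.toPerm _ hinv)
    (fun σ : Cfg α => wt (1 - p) σ * f σ)
  unfold Ep
  rw [← h0]
  refine Finset.sum_congr rfl fun σ _ => ?_
  have h : wt p σ = wt (1 - p) (fun e => !σ e) := by
    unfold wt
    refine Finset.prod_congr rfl fun e _ => ?_
    by_cases hb : σ e = true
    · simp [hb]
    · simp [hb]
  rw [h]
  rfl

open Classical in
/-- Probability. -/
noncomputable def Pp (p : ℝ) (P : Cfg α → Prop) : ℝ := Ep p (fun σ => if P σ then 1 else 0)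

theorem Pp_nonneg (p : ℝ) (hp : 0 ≤ p) (hp1 : p ≤ 1) (P : Cfg α → Prop) :
    0 ≤ Pp p P := by
  unfold Pp
  refine Ep_nonneg p hp hp1 _ fun σ => ?_
  split_ifs
  · exact zero_le_one
  · exact le_rfl

theorem Pp_mono (p : ℝ) (hp : 0 ≤ p) (hp1 : p ≤ 1) (P Q : Cfg α → Prop)
    (h : ∀ σ, P σ → Q σ) : Pp p P ≤ Pp p Q := by
  unfold Pp
  refine Ep_mono p hp hp1 _ _ fun σ => ?_
  by_cases hP : P σ
  · rw [if_pos hP, if_pos (h σ hP)]
  · rw [if_neg hP]
    split_ifs
    · exact zero_le_one
    · exact le_rfl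

theorem Pp_le_one (p : ℝ) (hp : 0 ≤ p) (hp1 : p ≤ 1) (P : Cfg α → Prop) :
    Pp p P ≤ 1 := by
  have h := Pp_mono p hp hp1 P (fun _ => True) (fun _ _ => trivial)
  have h2 : Pp p (fun _ : Cfg α => True) = 1 := by
    unfold Pp
    simp only [if_true]
    exact Ep_const p 1
  rw [h2] at h
  exact h

theorem Pp_not (p : ℝ) (P : Cfg α → Prop) : Pp p (fun σ => ¬ P σ) = 1 - Pp p P := by
  unfold Pp
  rw [← Ep_const (α := α) p 1, ← Ep_sub, Ep_const]
  congr 1
  funext σ
  by_cases h : P σ
  · rw [if_pos h, if_neg (not_not.2 h), sub_self]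
  · rw [if_neg h, if_pos h, sub_zero]

theorem Pp_or_le (p : ℝ) (hp : 0 ≤ p) (hp1 : p ≤ 1) (P Q : Cfg α → Prop) :
    Pp p (fun σ => P σ ∨ Q σ) ≤ Pp p P + Pp p Q := by
  unfold Pp
  rw [← Ep_add]
  refine Ep_mono p hp hp1 _ _ fun σ => ?_
  by_cases h : P σ
  · rw [if_pos (Or.inl h), if_pos h]
    split_ifs <;> norm_num
  · by_cases h2 : Q σ
    · rw [if_pos (Or.inr h2), if_neg h, if_pos h2, zero_add]
    · rw [if_neg (not_or.2 ⟨h, h2⟩), if_neg h, if_neg h2, zero_add]

/-- Markov's inequality. -/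
theorem Pp_markov (p : ℝ) (hp : 0 ≤ p) (hp1 : p ≤ 1) (f : Cfg α → ℝ)
    (hf : ∀ σ, 0 ≤ f σ) (c : ℝ) (hc : 0 < c) :
    Pp p (fun σ => c < f σ) ≤ Ep p f / c := by
  unfold Pp
  rw [← Ep_div]
  refine Ep_mono p hp hp1 _ _ fun σ => ?_
  by_cases h : c < f σ
  · rw [if_pos h, le_div_iff₀ hc, one_mul]
    exact h.le
  · rw [if_neg h]
    exact div_nonneg (hf σ) hc.le

/-! ### The orthonormal system -/

/-- The centred and normalised variable: mean `0`, variance `1`. -/
noncomputable def om (p : ℝ) (b : Bool) : ℝ :=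
  if b = true then √((1 - p) / p) else -√(p / (1 - p))

/-- The constant with `om ^ 2 = 1 + bb * om`. -/
noncomputable def bb (p : ℝ) : ℝ := (1 - 2 * p) / √(p * (1 - p))

theorem sq1 (p : ℝ) (_hp : 0 < p) (hp1 : p < 1) : √((1 - p) / p) = √(1 - p) / √p :=
  Real.sqrt_div (by linarith) p

theorem sq2 (p : ℝ) (hp : 0 < p) : √(p / (1 - p)) = √p / √(1 - p) :=
  Real.sqrt_div hp.le (1 - p)

theorem om_sq (p : ℝ) (hp : 0 < p) (hp1 : p < 1) (b : Bool) :
    om p b ^ 2 = 1 + bb p * om p b := by
  unfold om bb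
  rw [sq1 p hp hp1, sq2 p hp, Real.sqrt_mul hp.le]
  have ha : 0 < √p := Real.sqrt_pos.2 hp
  have hb : 0 < √(1 - p) := Real.sqrt_pos.2 (by linarith)
  have ha2 : √p ^ 2 = p := Real.sq_sqrt hp.le
  have hb2 : √(1 - p) ^ 2 = 1 - p := Real.sq_sqrt (by linarith)
  have hp' : (1 : ℝ) - p ≠ 0 := by linarith
  split_ifs
  · have h1 : (1 - 2 * p) / (√p * √(1 - p)) * (√(1 - p) / √p) = (1 - 2 * p) / √p ^ 2 := by
      field_simp
    rw [h1, div_pow, ha2, hb2]
    field_simp
    ring
  · have h1 : (1 - 2 * p) / (√p * √(1 - p)) * (-(√p / √(1 - p))) =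
        -((1 - 2 * p) / √(1 - p) ^ 2) := by
      field_simp
    rw [h1, neg_sq, div_pow, ha2, hb2]
    field_simp
    ring

theorem om_e0 (p : ℝ) (hp : 0 < p) (hp1 : p < 1) : p * om p true + (1 - p) * om p false = 0 := by
  unfold om
  simp only [if_true, Bool.false_eq_true, if_false]
  have ha : 0 < √p := Real.sqrt_pos.2 hp
  have hb : 0 < √(1 - p) := Real.sqrt_pos.2 (by linarith)
  have ha2 : √p ^ 2 = p := Real.sq_sqrt hp.le
  have hb2 : √(1 - p) ^ 2 = 1 - p := Real.sq_sqrt (by linarith)
  rw [sq1 p hp hp1, sq2 p hp]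
  have e1 : p * (√(1 - p) / √p) = √p * √(1 - p) := by
    nth_rewrite 1 [← ha2]
    field_simp
  have e2 : (1 - p) * -(√p / √(1 - p)) = -(√p * √(1 - p)) := by
    nth_rewrite 1 [← hb2]
    field_simp
  rw [e1, e2]
  ring

/-- The orthonormal system. -/
noncomputable def chi (p : ℝ) (A : Finset α) (σ : Cfg α) : ℝ := ∏ e ∈ A, om p (σ e)

theorem chi_empty (p : ℝ) (σ : Cfg α) : chi p ∅ σ = 1 := rfl

/-- A function which does not depend on `e`. -/
def Ind (e : α) (f : Cfg α → ℝ) : Prop := ∀ σ b, f (Function.update σ e b) = f σ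

theorem Ep_ind (p : ℝ) (e : α) (f : Cfg α → ℝ) (g : Bool → ℝ) (hf : Ind e f) :
    Ep p (fun σ => f σ * g (σ e)) = Ep p f * (p * g true + (1 - p) * g false) := by
  rw [← Ep_update p e (fun σ => f σ * g (σ e)), ← Ep_mul_right]
  congr 1
  funext σ
  rw [hf, hf, Function.update_self, Function.update_self]
  ring

theorem chi_ind (p : ℝ) (A : Finset α) (e : α) (he : e ∉ A) : Ind e (chi p A) := by
  intro σ b
  unfold chi
  refine Finset.prod_congr rfl fun e' he' => ?_
  rw [Function.update_of_ne]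
  rintro rfl
  exact he he'

theorem Ind.mul {e : α} {f g : Cfg α → ℝ} (hf : Ind e f) (hg : Ind e g) :
    Ind e (fun σ => f σ * g σ) := fun σ b => by simp only [hf σ b, hg σ b]

theorem Ind.add {e : α} {f g : Cfg α → ℝ} (hf : Ind e f) (hg : Ind e g) :
    Ind e (fun σ => f σ + g σ) := fun σ b => by simp only [hf σ b, hg σ b]

/-- Orthonormality. -/
theorem Ep_chi (p : ℝ) (hp : 0 < p) (hp1 : p < 1) (S T : Finset α) :
    Ep p (fun σ => chi p S σ * chi p T σ) = if S = T then 1 else 0 := by
  have e0 := om_e0 p hp hp1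
  have e1 : p * (om p true * om p true) + (1 - p) * (om p false * om p false) = 1 := by
    have h1 := om_sq p hp hp1 true
    have h2 := om_sq p hp hp1 false
    rw [sq] at h1 h2
    rw [h1, h2]
    linear_combination bb p * e0
  have h1 : ∀ (U : Finset α), ∀ σ : Cfg α,
      chi p U σ = ∏ e, if σ e = true then (if e ∈ U then om p true else 1)
        else (if e ∈ U then om p false else 1) := by
    intro U σ
    have h2 : ∏ e ∈ U, om p (σ e) = ∏ e, if e ∈ U then om p (σ e) else 1 := by
      rw [Finset.prod_ite_mem, Finset.univ_inter]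
    unfold chi
    rw [h2]
    refine Finset.prod_congr rfl fun e _ => ?_
    by_cases he : e ∈ U
    · simp only [he, if_true]
      rcases σ e <;> rfl
    · simp only [he, if_false, ite_self]
  have h3 : ∀ σ : Cfg α, chi p S σ * chi p T σ = ∏ e, if σ e = true then
      (if e ∈ S then om p true else 1) * (if e ∈ T then om p true else 1) else
      (if e ∈ S then om p false else 1) * (if e ∈ T then om p false else 1) := by
    intro σ
    rw [h1 S σ, h1 T σ, ← Finset.prod_mul_distrib]
    refine Finset.prod_congr rfl fun e _ => ?_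
    split_ifs <;> rfl
  have h4 : Ep p (fun σ => chi p S σ * chi p T σ) =
      ∏ e, (p * ((if e ∈ S then om p true else 1) * (if e ∈ T then om p true else 1)) +
        (1 - p) * ((if e ∈ S then om p false else 1) *
          (if e ∈ T then om p false else 1))) := by
    rw [← Ep_prod]
    exact congrArg (Ep p) (funext h3)
  rw [h4]
  by_cases hST : S = T
  · rw [if_pos hST, hST]
    refine Finset.prod_eq_one fun e _ => ?_
    split_ifs
    · exact e1
    · ring
  · rw [if_neg hST]
    have h5 : ∃ e, ¬ (e ∈ S ↔ e ∈ T) := by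
      by_contra hcon
      push Not at hcon
      exact hST (Finset.ext hcon)
    obtain ⟨e, he⟩ := h5
    refine Finset.prod_eq_zero (mem_univ e) ?_
    by_cases g1 : e ∈ S
    · have g2 : e ∉ T := fun g2 => he ⟨fun _ => g2, fun _ => g1⟩
      rw [if_pos g1, if_pos g1, if_neg g2, if_neg g2, mul_one, mul_one]
      exact e0
    · have g2 : e ∈ T := by
        by_contra g2
        exact he ⟨fun h => absurd h g1, fun h => absurd h g2⟩
      rw [if_neg g1, if_neg g1, if_pos g2, if_pos g2, one_mul, one_mul]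
      exact e0

theorem Ep_chi_one (p : ℝ) (hp : 0 < p) (hp1 : p < 1) (S : Finset α) :
    Ep p (fun σ => chi p S σ) = if S = ∅ then 1 else 0 := by
  have h := Ep_chi p hp hp1 S ∅
  simp only [chi_empty, mul_one] at h
  exact h

end base

end Pool.Agent.H976.C
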