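import Pool.Agent.H976.C.B

/-!
# Circulant theta: cosine transform on the cyclic group
-/

set_option autoImplicit false
set_option linter.unusedSectionVars false

namespace Pool.Agent.H976.C

open Finset Real

section four

variable {N : ℕ} [NeZero N]

/-- cosine -/
noncomputable def cs (k : ZMod N) : ℝ := (ZMod.stdAddChar k).re

/-- sine -/
noncomputable def sn (k : ZMod N) : ℝ := (ZMod.stdAddChar k).im

theorem cs_zero : cs (0 : ZMod N) = 1 := by
  unfold cs
  rw [AddChar.map_zero_eq_one]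
  rfl

theorem sn_zero : sn (0 : ZMod N) = 0 := by
  unfold sn
  rw [AddChar.map_zero_eq_one]
  rfl

theorem cs_neg (k : ZMod N) : cs (-k) = cs k := by
  unfold cs
  rw [AddChar.map_neg_eq_conj]
  exact Complex.conj_re _

theorem sn_neg (k : ZMod N) : sn (-k) = -sn k := by
  unfold sn
  rw [AddChar.map_neg_eq_conj]
  exact Complex.conj_im _

theorem cs_add (a b : ZMod N) : cs (a + b) = cs a * cs b - sn a * sn b := by
  unfold cs sn
  rw [AddChar.map_add_eq_mul, Complex.mul_re]

theorem sn_add (a b : ZMod N) : sn (a + b) = sn a * cs b + cs a * sn b := by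
  unfold cs sn
  rw [AddChar.map_add_eq_mul, Complex.mul_im]
  ring

theorem cs_sub (a b : ZMod N) : cs (a - b) = cs a * cs b + sn a * sn b := by
  rw [sub_eq_add_neg, cs_add, cs_neg, sn_neg]
  ring

theorem cs_mul_cs (a b : ZMod N) : cs a * cs b = (cs (a + b) + cs (a - b)) / 2 := by
  rw [cs_add, cs_sub]
  ring

theorem cs_sq_add (a : ZMod N) : cs a ^ 2 + sn a ^ 2 = 1 := by
  have h := cs_sub a a
  rw [sub_self, cs_zero] at h
  rw [h]
  ring

theorem abs_cs_le (k : ZMod N) : |cs k| ≤ 1 := by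
  rw [← sq_le_one_iff_abs_le_one]
  nlinarith [cs_sq_add k, sq_nonneg (sn k)]

theorem sum_cs (b : ZMod N) : ∑ x : ZMod N, cs (x * b) = if b = 0 then (N : ℝ) else 0 := by
  have h := AddChar.sum_mulShift (R' := ℂ) (ψ := ZMod.stdAddChar) b (ZMod.isPrimitive_stdAddChar N)
  have h2 := congrArg Complex.re h
  rw [Complex.re_sum] at h2
  unfold cs
  rw [h2]
  split_ifs
  · rw [ZMod.card]
    exact Complex.natCast_re N
  · simp

theorem sum_cs' (b : ZMod N) : ∑ x : ZMod N, cs (b * x) = if b = 0 then (N : ℝ) else 0 := by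
  rw [← sum_cs]
  exact Finset.sum_congr rfl fun x _ => by rw [mul_comm]

theorem cs_orth (a b : ZMod N) : ∑ t : ZMod N, cs (a * t) * cs (b * t) =
    N / 2 * ((if a = b then 1 else 0) + (if a = -b then 1 else 0)) := by
  have h1 : ∀ t : ZMod N, cs (a * t) * cs (b * t) = (cs ((a + b) * t) + cs ((a - b) * t)) / 2 := by
    intro t
    rw [cs_mul_cs, ← add_mul, ← sub_mul]
  simp only [h1]
  rw [← Finset.sum_div, Finset.sum_add_distrib, sum_cs', sum_cs']
  have e1 : (a + b = 0) ↔ a = -b := add_eq_zero_iff_eq_neg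
  have e2 : (a - b = 0) ↔ a = b := sub_eq_zero
  simp only [e1, e2]
  split_ifs <;> ring

theorem Nne : (N : ℝ) ≠ 0 := Nat.cast_ne_zero.2 (NeZero.ne N)

theorem Npos : (0 : ℝ) < N := Nat.cast_pos.2 (NeZero.pos N)

/-- mean -/
noncomputable def av (f : ZMod N → ℝ) : ℝ := (∑ t, f t) / N

/-- cosine transform -/
noncomputable def ft (f : ZMod N → ℝ) (k : ZMod N) : ℝ := (∑ s, f s * cs (k * s)) / N

/-- synthesis -/
noncomputable def sy (a : ZMod N → ℝ) (t : ZMod N) : ℝ := ∑ k, a k * cs (k * t)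

/-- even functions -/
def Ev (f : ZMod N → ℝ) : Prop := ∀ t, f (-t) = f t

theorem ft_ev (f : ZMod N → ℝ) : Ev (ft f) := by
  intro k
  unfold ft
  congr 1
  exact Finset.sum_congr rfl fun s _ => by rw [neg_mul, cs_neg]

theorem sy_ev (a : ZMod N → ℝ) : Ev (sy a) := by
  intro t
  unfold sy
  exact Finset.sum_congr rfl fun s _ => by rw [mul_neg, cs_neg]

theorem sum_orth (a : ZMod N → ℝ) (h : Ev a) (b : ZMod N) :
    ∑ k, a k * (N / 2 * ((if k = b then 1 else 0) + (if k = -b then 1 else 0))) = N * a b := by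
  have h1 : ∀ k : ZMod N, a k * (N / 2 * ((if k = b then 1 else 0) + (if k = -b then 1 else 0))) =
      N / 2 * (if k = b then a k else 0) + N / 2 * (if k = -b then a k else 0) := by
    intro k
    split_ifs <;> ring
  simp only [h1]
  rw [Finset.sum_add_distrib, ← Finset.mul_sum, ← Finset.mul_sum, Finset.sum_ite_eq',
    Finset.sum_ite_eq', if_pos (mem_univ _), if_pos (mem_univ _), h]
  ring

theorem ft_sy (a : ZMod N → ℝ) (h : Ev a) (b : ZMod N) : ft (sy a) b = a b := by
  unfold ft sy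
  have h1 : ∑ s, (∑ k, a k * cs (k * s)) * cs (b * s) =
      ∑ k, a k * (N / 2 * ((if k = b then 1 else 0) + (if k = -b then 1 else 0))) := by
    simp only [Finset.sum_mul]
    rw [Finset.sum_comm]
    refine Finset.sum_congr rfl fun k _ => ?_
    rw [← cs_orth, Finset.mul_sum]
    exact Finset.sum_congr rfl fun t _ => by ring
  rw [h1, sum_orth a h, mul_div_assoc, mul_comm, div_mul_cancel₀ _ Nne]

theorem sy_ft (f : ZMod N → ℝ) (h : Ev f) (t : ZMod N) : sy (ft f) t = f t := by
  unfold ft sy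
  have h1 : ∑ k, (∑ s, f s * cs (k * s)) / N * cs (k * t) = (∑ s, f s *
      (N / 2 * ((if s = t then 1 else 0) + (if s = -t then 1 else 0)))) / N := by
    have h2 : ∀ k : ZMod N, (∑ s, f s * cs (k * s)) / N * cs (k * t) =
        ((∑ s, f s * cs (k * s)) * cs (k * t)) / N := fun k => by ring
    simp only [h2]
    rw [← Finset.sum_div]
    congr 1
    simp only [Finset.sum_mul]
    rw [Finset.sum_comm]
    refine Finset.sum_congr rfl fun k _ => ?_
    rw [← cs_orth, Finset.mul_sum]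
    exact Finset.sum_congr rfl fun x _ => by rw [mul_comm x k, mul_comm x t]; ring
  rw [h1, sum_orth f h, mul_div_assoc, mul_comm, div_mul_cancel₀ _ Nne]

theorem av_sy_mul (a : ZMod N → ℝ) (h : Ev a) (f : ZMod N → ℝ) :
    av (fun t => sy a t * f t) = ∑ k, a k * ft f k := by
  unfold av sy ft
  simp only [Finset.sum_mul]
  rw [Finset.sum_comm, Finset.sum_div]
  refine Finset.sum_congr rfl fun k _ => ?_
  rw [← mul_div_assoc, Finset.mul_sum]
  congr 1
  exact Finset.sum_congr rfl fun t _ => by ring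

theorem av_sy_sq (a : ZMod N → ℝ) (h : Ev a) : av (fun t => sy a t ^ 2) = ∑ k, a k ^ 2 := by
  have h1 := av_sy_mul a h (sy a)
  simp only [← sq] at h1
  rw [h1]
  exact Finset.sum_congr rfl fun k _ => by rw [ft_sy a h, sq]

theorem parseval (f : ZMod N → ℝ) (h : Ev f) : av (fun t => f t ^ 2) = ∑ k, ft f k ^ 2 := by
  rw [← av_sy_sq _ (ft_ev f)]
  congr 1
  funext t
  rw [sy_ft f h]

theorem av_nonneg (f : ZMod N → ℝ) (h : ∀ t, 0 ≤ f t) : 0 ≤ av f :=
  div_nonneg (Finset.sum_nonneg fun t _ => h t) Npos.le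

theorem av_mono (f g : ZMod N → ℝ) (h : ∀ t, f t ≤ g t) : av f ≤ av g :=
  div_le_div_of_nonneg_right (Finset.sum_le_sum fun t _ => h t) Npos.le

theorem av_add (f g : ZMod N → ℝ) : av (fun t => f t + g t) = av f + av g := by
  unfold av
  rw [Finset.sum_add_distrib, add_div]

theorem av_sub (f g : ZMod N → ℝ) : av (fun t => f t - g t) = av f - av g := by
  unfold av
  rw [Finset.sum_sub_distrib, sub_div]

theorem av_mul (c : ℝ) (f : ZMod N → ℝ) : av (fun t => c * f t) = c * av f := by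
  unfold av
  rw [← Finset.mul_sum, mul_div_assoc]

theorem av_const (c : ℝ) : av (fun _ : ZMod N => c) = c := by
  unfold av
  rw [Finset.sum_const, card_univ, ZMod.card, nsmul_eq_mul, mul_div_assoc, mul_comm,
    div_mul_cancel₀ _ Nne]

theorem av_sum {ι : Type} (s : Finset ι) (f : ι → ZMod N → ℝ) :
    av (fun t => ∑ i ∈ s, f i t) = ∑ i ∈ s, av (f i) := by
  unfold av
  rw [Finset.sum_comm, Finset.sum_div]

theorem av_cs (f g : ZMod N → ℝ) : (av fun t => f t * g t) ^ 2 ≤
    av (fun t => f t ^ 2) * av (fun t => g t ^ 2) := by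
  unfold av
  rw [div_pow, div_mul_div_comm, ← sq]
  exact div_le_div_of_nonneg_right (Finset.sum_mul_sq_le_sq_mul_sq _ _ _) (sq_nonneg _)

theorem sq_av_le (f : ZMod N → ℝ) : (av f) ^ 2 ≤ av (fun t => f t ^ 2) := by
  have h := av_cs f (fun _ => 1)
  simp only [mul_one, one_pow, av_const] at h
  exact h

theorem bessel (f : ZMod N → ℝ) : ∑ k, ft f k ^ 2 ≤ av (fun t => f t ^ 2) := by
  have h0 : 0 ≤ av (fun t => (f t - sy (ft f) t) ^ 2) := av_nonneg _ fun t => sq_nonneg _
  have h1 : av (fun t => (f t - sy (ft f) t) ^ 2) = av (fun t => f t ^ 2) -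
      2 * av (fun t => sy (ft f) t * f t) + av (fun t => sy (ft f) t ^ 2) := by
    rw [← av_mul, ← av_sub, ← av_add]
    congr 1
    funext t
    ring
  rw [h1, av_sy_mul _ (ft_ev f), av_sy_sq _ (ft_ev f)] at h0
  have h2 : ∑ k, ft f k * ft f k = ∑ k, ft f k ^ 2 := by simp only [sq]
  rw [h2] at h0
  linarith

theorem ft_cs (a k : ZMod N) : ft (fun t => cs (a * t)) k =
    ((if a = k then 1 else 0) + (if a = -k then 1 else 0)) / 2 := by
  unfold ft
  rw [cs_orth, div_mul_eq_mul_div, div_div, mul_comm (2 : ℝ), mul_div_mul_left _ _ Nne]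

theorem ft_zero (f : ZMod N → ℝ) : ft f 0 = av f := by
  unfold ft av
  simp only [zero_mul, cs_zero, mul_one]

/-! ### classes -/

/-- The representative of the class `± k`. -/
def cls (k : ZMod N) : ZMod N := if k.val ≤ N / 2 then k else -k

theorem cls_neg (k : ZMod N) : cls (-k) = cls k := by
  by_cases h0 : k = 0
  · rw [h0, neg_zero]
  have hv : (-k).val = N - k.val := by
    rw [ZMod.neg_val, if_neg h0]
  have hpos : 0 < k.val := Nat.pos_of_ne_zero fun h => h0 ((ZMod.val_eq_zero k).1 h)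
  have hlt : k.val < N := ZMod.val_lt k
  unfold cls
  rw [hv]
  split_ifs with h1 h2 h2
  · apply ZMod.val_injective N
    rw [hv]
    omega
  · rfl
  · exact neg_neg k
  · omega

theorem cls_eq_iff (a b : ZMod N) : cls a = cls b ↔ a = b ∨ a = -b := by
  constructor
  · intro h
    unfold cls at h
    split_ifs at h
    · exact Or.inl h
    · exact Or.inr h
    · exact Or.inr (by rw [← h, neg_neg])
    · exact Or.inl (neg_injective h)
  · rintro (rfl | rfl)
    · rfl
    · exact cls_neg b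

theorem cls_zero_iff (a : ZMod N) : cls a = 0 ↔ a = 0 := by
  unfold cls
  split_ifs
  · rfl
  · exact neg_eq_zero

/-- the multiplier -/
noncomputable def ww (p : ℝ) (σ : Cfg (ZMod N)) (k : ZMod N) : ℝ :=
  if k + k = 0 then 0 else om p (σ (cls k))

theorem ww_neg (p : ℝ) (σ : Cfg (ZMod N)) (k : ZMod N) : ww p σ (-k) = ww p σ k := by
  unfold ww
  have h : -k + -k = 0 ↔ k + k = 0 := by rw [← neg_add, neg_eq_zero]
  rw [cls_neg]
  simp only [h]

/-- bound of the multiplier -/
noncomputable def MM (p : ℝ) : ℝ := √((1 - p) / p) + √(p / (1 - p))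

theorem MM_nonneg (p : ℝ) : 0 ≤ MM p := by
  unfold MM
  positivity

theorem abs_om_le (p : ℝ) (b : Bool) : |om p b| ≤ MM p := by
  unfold om MM
  split_ifs
  · rw [abs_of_nonneg (by positivity)]
    linarith [Real.sqrt_nonneg (p / (1 - p))]
  · rw [abs_neg, abs_of_nonneg (by positivity)]
    linarith [Real.sqrt_nonneg ((1 - p) / p)]

theorem abs_ww_le (p : ℝ) (σ : Cfg (ZMod N)) (k : ZMod N) : |ww p σ k| ≤ MM p := by
  unfold ww
  split_ifs
  · rw [abs_zero]
    exact MM_nonneg p
  · exact abs_om_le p _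

/-- the random multiplier operator -/
noncomputable def TT (p : ℝ) (σ : Cfg (ZMod N)) (f : ZMod N → ℝ) : ZMod N → ℝ :=
  sy (fun k => ww p σ k * ft f k)

theorem TT_ev (p : ℝ) (σ : Cfg (ZMod N)) (f : ZMod N → ℝ) : Ev (TT p σ f) := sy_ev _

theorem TT_cs (p : ℝ) (σ : Cfg (ZMod N)) (a t : ZMod N) :
    TT p σ (fun t => cs (a * t)) t = ww p σ a * cs (a * t) := by
  unfold TT sy
  simp only [ft_cs]
  have h1 : ∀ k : ZMod N, ww p σ k * (((if a = k then 1 else 0) + (if a = -k then 1 else 0)) / 2) *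
      cs (k * t) = (if a = k then ww p σ k * cs (k * t) / 2 else 0) +
        (if k = -a then ww p σ k * cs (k * t) / 2 else 0) := by
    intro k
    have e : (a = -k) ↔ (k = -a) := ⟨fun h => by rw [h, neg_neg], fun h => by rw [h, neg_neg]⟩
    simp only [e]
    split_ifs <;> ring
  simp only [h1]
  rw [Finset.sum_add_distrib, Finset.sum_ite_eq, Finset.sum_ite_eq', if_pos (mem_univ _),
    if_pos (mem_univ _), ww_neg, neg_mul, cs_neg]
  ring

theorem ft_sum {ι : Type} (s : Finset ι) (c : ι → ℝ) (f : ι → ZMod N → ℝ) (k : ZMod N) :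
    ft (fun t => ∑ i ∈ s, c i * f i t) k = ∑ i ∈ s, c i * ft (f i) k := by
  unfold ft
  simp only [Finset.sum_mul]
  rw [Finset.sum_comm, Finset.sum_div]
  refine Finset.sum_congr rfl fun i _ => ?_
  rw [← mul_div_assoc, Finset.mul_sum]
  congr 1
  exact Finset.sum_congr rfl fun t _ => by ring

theorem TT_sum (p : ℝ) (σ : Cfg (ZMod N)) {ι : Type} (s : Finset ι) (c : ι → ℝ)
    (f : ι → ZMod N → ℝ) (t : ZMod N) :
    TT p σ (fun t => ∑ i ∈ s, c i * f i t) t = ∑ i ∈ s, c i * TT p σ (f i) t := by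
  unfold TT sy
  simp only [ft_sum, Finset.mul_sum, Finset.sum_mul]
  rw [Finset.sum_comm]
  refine Finset.sum_congr rfl fun i _ => Finset.sum_congr rfl fun k _ => ?_
  ring

theorem ft_add (f g : ZMod N → ℝ) (k : ZMod N) :
    ft (fun t => f t + g t) k = ft f k + ft g k := by
  unfold ft
  simp only [add_mul]
  rw [Finset.sum_add_distrib, add_div]

theorem ft_sub (f g : ZMod N → ℝ) (k : ZMod N) :
    ft (fun t => f t - g t) k = ft f k - ft g k := by
  unfold ft
  simp only [sub_mul]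
  rw [Finset.sum_sub_distrib, sub_div]

theorem ft_mul (c : ℝ) (f : ZMod N → ℝ) (k : ZMod N) :
    ft (fun t => c * f t) k = c * ft f k := by
  unfold ft
  simp only [mul_assoc]
  rw [← Finset.mul_sum, mul_div_assoc]

theorem TT_add (p : ℝ) (σ : Cfg (ZMod N)) (f g : ZMod N → ℝ) (t : ZMod N) :
    TT p σ (fun t => f t + g t) t = TT p σ f t + TT p σ g t := by
  unfold TT sy
  simp only [ft_add]
  rw [← Finset.sum_add_distrib]
  exact Finset.sum_congr rfl fun k _ => by ring

theorem TT_sub (p : ℝ) (σ : Cfg (ZMod N)) (f g : ZMod N → ℝ) (t : ZMod N) :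
    TT p σ (fun t => f t - g t) t = TT p σ f t - TT p σ g t := by
  unfold TT sy
  simp only [ft_sub]
  rw [← Finset.sum_sub_distrib]
  exact Finset.sum_congr rfl fun k _ => by ring

theorem TT_mul (p : ℝ) (σ : Cfg (ZMod N)) (c : ℝ) (f : ZMod N → ℝ) (t : ZMod N) :
    TT p σ (fun t => c * f t) t = c * TT p σ f t := by
  unfold TT sy
  simp only [ft_mul]
  rw [Finset.mul_sum]
  exact Finset.sum_congr rfl fun k _ => by ring

theorem TT_norm (p : ℝ) (σ : Cfg (ZMod N)) (f : ZMod N → ℝ) :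
    av (fun t => TT p σ f t ^ 2) ≤ MM p ^ 2 * av (fun t => f t ^ 2) := by
  unfold TT
  rw [av_sy_sq _ (fun k => by rw [ww_neg, ft_ev f k])]
  calc ∑ k, (ww p σ k * ft f k) ^ 2 ≤ ∑ k, MM p ^ 2 * ft f k ^ 2 := by
        refine Finset.sum_le_sum fun k _ => ?_
        rw [mul_pow]
        refine mul_le_mul_of_nonneg_right ?_ (sq_nonneg _)
        rw [← sq_abs (ww p σ k)]
        exact pow_le_pow_left₀ (abs_nonneg _) (abs_ww_le p σ k) 2
    _ = MM p ^ 2 * ∑ k, ft f k ^ 2 := by rw [Finset.mul_sum]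
    _ ≤ _ := mul_le_mul_of_nonneg_left (bessel f) (sq_nonneg _)

end four

end Pool.Agent.H976.C
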