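import Pool.Agent.H976.C.T3

/-!
# Circulant theta: the average over all connection sets
-/

set_option autoImplicit false
set_option linter.unusedSectionVars false

namespace Pool.Agent.H976.C

open Finset Real

theorem avg_powerset {α : Type} [Fintype α] [DecidableEq α] (e : ℕ → α) (A : Finset ℕ) :
    ∀ g : Finset ℕ → ℝ, Set.InjOn e (A : Set ℕ) →
      Ep (1 / 2) (fun σ : Cfg α => g (A.filter fun v => σ (e v) = true)) =
        (∑ S ∈ A.powerset, g S) / 2 ^ #A := by
  induction A using Finset.induction_on with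
  | empty =>
    intro g _
    simp only [Finset.filter_empty, Finset.powerset_empty, Finset.sum_singleton, card_empty,
      pow_zero, div_one]
    exact Ep_const _ _
  | insert a A ha ih =>
    intro g hinj
    have hinj' : Set.InjOn e (A : Set ℕ) := hinj.mono (by
      rw [coe_insert]
      exact Set.subset_insert _ _)
    have hne : ∀ v ∈ A, e v ≠ e a := by
      intro v hv h
      have := hinj (mem_coe.2 (mem_insert_of_mem hv)) (mem_coe.2 (mem_insert_self a A)) h
      rw [this] at hv
      exact ha hv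
    have f1 : ∀ σ : Cfg α, ((insert a A).filter fun v => Function.update σ (e a) true (e v) = true) =
        insert a (A.filter fun v => σ (e v) = true) := by
      intro σ
      rw [Finset.filter_insert, if_pos (by rw [Function.update_self])]
      congr 1
      refine Finset.filter_congr fun v hv => ?_
      rw [Function.update_of_ne (hne v hv)]
    have f2 : ∀ σ : Cfg α, ((insert a A).filter fun v => Function.update σ (e a) false (e v) = true) =
        A.filter fun v => σ (e v) = true := by
      intro σ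
      rw [Finset.filter_insert, if_neg (by rw [Function.update_self]; exact Bool.false_ne_true)]
      refine Finset.filter_congr fun v hv => ?_
      rw [Function.update_of_ne (hne v hv)]
    rw [← Ep_update (1 / 2) (e a)]
    have h1 := ih (fun S => g (insert a S)) hinj'
    have h2 := ih g hinj'
    rw [Finset.sum_powerset_insert ha, card_insert_of_notMem ha]
    simp only [f1, f2]
    rw [Ep_add, Ep_mul, Ep_mul, h1, h2, pow_succ]
    have : (2 : ℝ) ^ #A ≠ 0 := by positivity
    field_simp
    ring

theorem cls_val {N : ℕ} [NeZero N] (k : ZMod N) (hk : k ≠ 0) :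
    (cls k).val = min k.val (-k).val ∧ 1 ≤ (cls k).val ∧ (cls k).val ≤ N / 2 := by
  have hv : (-k).val = N - k.val := by
    rw [ZMod.neg_val, if_neg hk]
  have hpos : 0 < k.val := Nat.pos_of_ne_zero fun h => hk ((ZMod.val_eq_zero k).1 h)
  have hlt : k.val < N := ZMod.val_lt k
  unfold cls
  split_ifs with h
  · refine ⟨?_, hpos, h⟩
    rw [hv, min_eq_left]
    omega
  · rw [hv]
    refine ⟨?_, by omega, by omega⟩
    rw [min_eq_right]
    omega

theorem cond_iff (m : ℕ) (σ : Cfg (ZMod (m + 1))) (i j : Fin (m + 1)) :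
    (SimpleGraph.fromRel (fun a b : Fin (m + 1) => min (b - a).val (a - b).val ∈
      (Icc 1 ((m + 1) / 2)).filter (fun v => σ ((v : ℕ) : ZMod (m + 1)) = true))).Adj i j ↔
    (i ≠ j ∧ σ (cls ((show ZMod (m + 1) from i) - (show ZMod (m + 1) from j))) = true) := by
  rw [SimpleGraph.fromRel_adj]
  refine and_congr_right fun hij => ?_
  set k : ZMod (m + 1) := (show ZMod (m + 1) from i) - (show ZMod (m + 1) from j) with hk
  have hk0 : k ≠ 0 := fun h => hij (sub_eq_zero.1 h)
  obtain ⟨h1, h2, h3⟩ := cls_val k hk0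
  have e1 : (i - j).val = k.val := rfl
  have e2 : (j - i).val = (-k).val := by
    rw [hk, neg_sub]
    rfl
  have e3 : (((cls k).val : ℕ) : ZMod (m + 1)) = cls k := ZMod.natCast_zmod_val _
  rw [e1, e2, min_comm (-k).val k.val, or_self, ← h1, mem_filter, mem_Icc, e3]
  constructor
  · exact fun h => h.2
  · exact fun h => ⟨⟨h2, h3⟩, h⟩

theorem FR (m : ℕ) :
    (∑ S ∈ (Finset.Icc 1 ((m + 1) / 2)).powerset,
            sSup {r : ℝ | ∃ B : Matrix (Fin (m + 1)) (Fin (m + 1)) ℝ,
              B.PosSemidef ∧ B.trace = 1 ∧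
              (∀ i j : Fin (m + 1),
                (SimpleGraph.fromRel
                  (fun a b : Fin (m + 1) => min (b - a).val (a - b).val ∈ S)).Adj i j →
                  B i j = 0) ∧
              r = ∑ i, ∑ j, B i j}) / (2 : ℝ) ^ ((m + 1) / 2) =
    Ep (1 / 2) (fun τ : Cfg (ZMod (m + 1)) => Th τ) := by
  have h := avg_powerset (fun v : ℕ => (v : ZMod (m + 1))) (Finset.Icc 1 ((m + 1) / 2))
    (fun S => sSup {r : ℝ | ∃ B : Matrix (Fin (m + 1)) (Fin (m + 1)) ℝ,
              B.PosSemidef ∧ B.trace = 1 ∧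
              (∀ i j : Fin (m + 1),
                (SimpleGraph.fromRel
                  (fun a b : Fin (m + 1) => min (b - a).val (a - b).val ∈ S)).Adj i j →
                  B i j = 0) ∧
              r = ∑ i, ∑ j, B i j}) (by
      intro a ha b hb hab
      have ha' := Finset.mem_Icc.1 (mem_coe.1 ha)
      have hb' := Finset.mem_Icc.1 (mem_coe.1 hb)
      have hab' : ((a : ℕ) : ZMod (m + 1)) = ((b : ℕ) : ZMod (m + 1)) := hab
      rw [ZMod.natCast_eq_natCast_iff'] at hab'
      rw [Nat.mod_eq_of_lt (by omega), Nat.mod_eq_of_lt (by omega)] at hab'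
      exact hab')
  rw [Nat.card_Icc, Nat.add_sub_cancel] at h
  rw [← h]
  congr 1
  funext σ
  unfold Th
  congr 1
  ext r
  constructor
  · rintro ⟨B, h1, h2, h3, h4⟩
    exact ⟨B, h1, h2, fun i j hij hs => h3 i j ((cond_iff m σ i j).2 ⟨hij, hs⟩), h4⟩
  · rintro ⟨B, h1, h2, h3, h4⟩
    exact ⟨B, h1, h2, fun i j hij => h3 i j ((cond_iff m σ i j).1 hij).1
      ((cond_iff m σ i j).1 hij).2, h4⟩

theorem main : Filter.Tendsto
      (fun n : ℕ =>
        ((∑ S ∈ (Finset.Icc 1 (n / 2)).powerset,
            sSup {r : ℝ | ∃ B : Matrix (Fin n) (Fin n) ℝ,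
              B.PosSemidef ∧ B.trace = 1 ∧
              (∀ i j : Fin n,
                (SimpleGraph.fromRel
                  (fun a b : Fin n => min (b - a).val (a - b).val ∈ S)).Adj i j →
                  B i j = 0) ∧
              r = ∑ i, ∑ j, B i j}) / (2 : ℝ) ^ (n / 2)) / Real.sqrt (n : ℝ))
      Filter.atTop (nhds 1) := by
  rw [Metric.tendsto_atTop]
  intro ε hε
  obtain ⟨n₁, h₁⟩ := UP (half_pos hε)
  obtain ⟨n₂, h₂⟩ := LO (half_pos hε)
  refine ⟨n₁ + n₂ + 1, fun n hn => ?_⟩
  rcases n with _ | m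
  · omega
  have a₁ := h₁ (m + 1) (by omega)
  have a₂ := h₂ (m + 1) (by omega)
  rw [FR m]
  have hs : 0 < √((m + 1 : ℕ) : ℝ) := sqrtN_pos (m + 1)
  rw [Real.dist_eq, abs_lt]
  constructor
  · rw [lt_sub_iff_add_lt, lt_div_iff₀ hs]
    nlinarith
  · rw [sub_lt_iff_lt_add, div_lt_iff₀ hs]
    nlinarith

end Pool.Agent.H976.C
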