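import Pool.Agent.H976.C.Q

/-!
# Circulant theta: forests
-/

set_option autoImplicit false
set_option linter.unusedSectionVars false

namespace Pool.Agent.H976.C

open Finset Real

/-- forests -/
def Sig {ι : Type} [Fintype ι] [DecidableEq ι] (T : ι → Tree) : Shp where
  X := Σ i, (T i).X
  V := Σ i, (T i).V
  S v := ((T v.1).S v.2).map ⟨Sigma.mk v.1, sigma_mk_injective⟩
  leaf x := ⟨x.1, (T x.1).leaf x.2⟩
  leafS := by
    rintro ⟨i, x⟩
    simp only [(T i).leafS, map_singleton]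
    rfl
  ne := by
    rintro ⟨i, v⟩
    exact Finset.map_nonempty.2 ((T i).ne v)

section sig

variable {ι : Type} [Fintype ι] [DecidableEq ι] (T : ι → Tree) {N : ℕ} [NeZero N]

theorem Sig_mem (i : ι) (x : (T i).X) (v : (T i).V) :
    (⟨i, x⟩ : (Sig T).X) ∈ (Sig T).S ⟨i, v⟩ ↔ x ∈ (T i).S v := by
  constructor
  · intro h
    obtain ⟨x', hx', e⟩ := Finset.mem_map.1 h
    have e' : x' = x := by
      have := Sigma.mk.inj e
      exact eq_of_heq this.2
    rwa [← e']
  · intro h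
    exact Finset.mem_map.2 ⟨x, h, rfl⟩

theorem Sig_fst (y : (Sig T).X) (w : (Sig T).V) (h : y ∈ (Sig T).S w) : y.1 = w.1 := by
  obtain ⟨x', hx', e⟩ := Finset.mem_map.1 h
  rw [← e]
  rfl

theorem Sig_vl (k : (Sig T).X → ZMod N) (i : ι) (v : (T i).V) :
    (Sig T).vl k ⟨i, v⟩ = (T i).vl (fun x => k ⟨i, x⟩) v := by
  unfold Shp.vl
  exact Finset.sum_map _ _ _

theorem Sig_rh (k : (Sig T).X → ZMod N) :
    (Sig T).rh k = ∑ i, (T i).rh (fun x => k ⟨i, x⟩) := by
  unfold Shp.rh
  exact Fintype.sum_sigma _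

theorem Sig_inj : Function.Injective (Sig T).S := by
  rintro ⟨i, v⟩ ⟨j, w⟩ h
  obtain ⟨y, hy⟩ := (Sig T).ne ⟨i, v⟩
  have h1 := Sig_fst T y _ hy
  have h2 := Sig_fst T y ⟨j, w⟩ (h ▸ hy)
  have h3 : i = j := h1.symm.trans h2
  subst h3
  have h4 : (T i).S v = (T i).S w := by
    ext x
    rw [← Sig_mem, ← Sig_mem, h]
  rw [(T i).inj h4]

end sig

/-- most labellings are generic -/
theorem card_nongen (H : Shp) (hS : Function.Injective H.S) (N : ℕ) [NeZero N] :
    #(univ.filter fun k : H.X → ZMod N => k ∉ H.gs N) * N ≤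
      3 * Fintype.card (H.V × H.V) * N ^ Fintype.card H.X := by
  classical
  set Q : H.V × H.V → Finset (H.X → ZMod N) := fun u =>
    (univ.filter fun k => H.vl k u.1 + H.vl k u.2 = 0) ∪
      (univ.filter fun k => u.1 ≠ u.2 ∧ H.vl k u.1 = H.vl k u.2) with hQ
  have h1 : (univ.filter fun k : H.X → ZMod N => k ∉ H.gs N) ⊆
      (univ : Finset (H.V × H.V)).biUnion Q := by
    intro k hk
    have hk2 := (mem_filter.1 hk).2
    rw [H.mem_gs] at hk2
    unfold GenD at hk2
    push Not at hk2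
    obtain ⟨u, -, w, -, h⟩ := hk2
    rw [mem_biUnion]
    refine ⟨(u, w), mem_univ _, ?_⟩
    simp only [hQ, mem_union, mem_filter, mem_univ, true_and]
    by_cases h0 : H.vl k u + H.vl k w = 0
    · exact Or.inl h0
    · exact Or.inr (h h0)
  have h2 : ∀ u ∈ (univ : Finset (H.V × H.V)), #(Q u) * N ≤ 3 * N ^ Fintype.card H.X := by
    rintro ⟨u, w⟩ -
    obtain ⟨x0, hx0⟩ := H.ne u
    have a1 : #(univ.filter fun k : H.X → ZMod N => H.vl k u + H.vl k w = 0) * N ≤
        2 * N ^ Fintype.card H.X := by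
      have h3 := card_lf (N := N) (fun x => (if x ∈ H.S u then sgz true else 0) +
        (if x ∈ H.S w then sgz true else 0)) x0 (by
          by_cases hb : x0 ∈ H.S w <;> simp [hx0, hb, sgz]) 0
      have h4 : ((if x0 ∈ H.S u then sgz true else 0) +
        (if x0 ∈ H.S w then sgz true else 0)).natAbs ≤ 2 := by
          by_cases hb : x0 ∈ H.S w <;> simp [hx0, hb, sgz]
      refine le_trans ?_ (h3.trans (Nat.mul_le_mul_right _ h4))
      refine Nat.mul_le_mul_right _ (Finset.card_le_card ?_)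
      intro k hk
      rw [mem_filter] at hk ⊢
      refine ⟨mem_univ _, ?_⟩
      rw [lf_add, lf_ind, lf_ind]
      simp only [sg, if_true]
      exact hk.2
    have a2 : #(univ.filter fun k : H.X → ZMod N => u ≠ w ∧ H.vl k u = H.vl k w) * N ≤
        1 * N ^ Fintype.card H.X := by
      by_cases huw : u = w
      · have h3 : (univ.filter fun k : H.X → ZMod N => u ≠ w ∧ H.vl k u = H.vl k w) = ∅ := by
          rw [Finset.filter_eq_empty_iff]
          intro k _ h
          exact h.1 huw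
        rw [h3, card_empty, zero_mul]
        exact Nat.zero_le _
      · have h3 : ∃ x1, ¬ (x1 ∈ H.S u ↔ x1 ∈ H.S w) := by
          by_contra hcon
          push Not at hcon
          exact huw (hS (Finset.ext hcon))
        obtain ⟨x1, hx1⟩ := h3
        have h5 : ((if x1 ∈ H.S u then sgz true else 0) -
            (if x1 ∈ H.S w then sgz true else 0)).natAbs = 1 := by
          by_cases b1 : x1 ∈ H.S u <;> by_cases b2 : x1 ∈ H.S w <;> simp [b1, b2, sgz] at hx1 ⊢
        have h4 := card_lf (N := N) (fun x => (if x ∈ H.S u then sgz true else 0) -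
          (if x ∈ H.S w then sgz true else 0)) x1 (by
            intro h0
            rw [show ((if x1 ∈ H.S u then sgz true else 0) -
              (if x1 ∈ H.S w then sgz true else 0)) = 0 from h0] at h5
            exact absurd h5 (by norm_num)) 0
        rw [h5] at h4
        refine le_trans ?_ h4
        refine Nat.mul_le_mul_right _ (Finset.card_le_card ?_)
        intro k hk
        rw [mem_filter] at hk ⊢
        refine ⟨mem_univ _, ?_⟩
        rw [lf_sub, lf_ind, lf_ind]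
        simp only [sg, if_true]
        exact sub_eq_zero.2 hk.2.2
    calc #(Q (u, w)) * N ≤ (#(univ.filter fun k : H.X → ZMod N => H.vl k u + H.vl k w = 0) +
          #(univ.filter fun k : H.X → ZMod N => u ≠ w ∧ H.vl k u = H.vl k w)) * N :=
          Nat.mul_le_mul_right _ (Finset.card_union_le _ _)
      _ ≤ 2 * N ^ Fintype.card H.X + 1 * N ^ Fintype.card H.X := by
          rw [add_mul]
          exact Nat.add_le_add a1 a2
      _ = _ := by ring
  calc #(univ.filter fun k : H.X → ZMod N => k ∉ H.gs N) * N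
      ≤ #((univ : Finset (H.V × H.V)).biUnion Q) * N :=
        Nat.mul_le_mul_right _ (Finset.card_le_card h1)
    _ ≤ (∑ u : H.V × H.V, #(Q u)) * N := Nat.mul_le_mul_right _ Finset.card_biUnion_le
    _ = ∑ u : H.V × H.V, #(Q u) * N := Finset.sum_mul _ _ _
    _ ≤ ∑ _u : H.V × H.V, 3 * N ^ Fintype.card H.X := Finset.sum_le_sum h2
    _ = _ := by rw [Finset.sum_const, card_univ, smul_eq_mul]; ring

/-! ### The trivial pattern -/

/-- adding a tree -/
def opt {ι : Type} (τ : Tree) (T : ι → Tree) : Option ι → Tree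
  | none => τ
  | some i => T i

section triv

variable {ι : Type} [Fintype ι] [DecidableEq ι] (τ : Tree) (T : ι → Tree) {N : ℕ} [NeZero N]

/-- joining labellings -/
def jn (x : (τ.X → ZMod N) × ((Sig T).X → ZMod N)) : (Sig (opt τ T)).X → ZMod N
  | ⟨none, a⟩ => x.1 a
  | ⟨some i, a⟩ => x.2 ⟨i, a⟩

/-- splitting labellings -/
def sp (k : (Sig (opt τ T)).X → ZMod N) : (τ.X → ZMod N) × ((Sig T).X → ZMod N) :=
  (fun a => k ⟨none, a⟩, fun y => k ⟨some y.1, y.2⟩)

theorem jn_sp (k : (Sig (opt τ T)).X → ZMod N) : jn τ T (sp τ T k) = k := by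
  funext y
  rcases y with ⟨_ | i, a⟩ <;> rfl

theorem sp_jn (x : (τ.X → ZMod N) × ((Sig T).X → ZMod N)) : sp τ T (jn τ T x) = x := rfl

theorem opt_vl_none (k : (Sig (opt τ T)).X → ZMod N) (v : τ.V) :
    (Sig (opt τ T)).vl k ⟨none, v⟩ = τ.vl (sp τ T k).1 v := Sig_vl (opt τ T) k none v

theorem opt_vl_some (k : (Sig (opt τ T)).X → ZMod N) (w : (Sig T).V) :
    (Sig (opt τ T)).vl k ⟨some w.1, w.2⟩ = (Sig T).vl (sp τ T k).2 w := by
  rw [Sig_vl (opt τ T) k (some w.1) w.2]
  rcases w with ⟨i, v⟩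
  rw [Sig_vl T _ i v]
  rfl

theorem opt_rh (k : (Sig (opt τ T)).X → ZMod N) :
    (Sig (opt τ T)).rh k = τ.rh (sp τ T k).1 + (Sig T).rh (sp τ T k).2 := by
  rw [Sig_rh, Fintype.sum_option, Sig_rh T]
  rfl

theorem opt_card : Fintype.card (Sig (opt τ T)).X = Fintype.card τ.X + Fintype.card (Sig T).X := by
  have h1 : Fintype.card (Sig (opt τ T)).X = ∑ o, Fintype.card (opt τ T o).X :=
    Fintype.card_sigma
  have h2 : Fintype.card (Sig T).X = ∑ i, Fintype.card (T i).X := Fintype.card_sigma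
  rw [h1, h2, Fintype.sum_option]
  rfl

theorem opt_mon (p : ℝ) (σ : Cfg (ZMod N)) (k : (Sig (opt τ T)).X → ZMod N) :
    monD p σ univ ((Sig (opt τ T)).vl k) =
      monD p σ univ (τ.vl (sp τ T k).1) * monD p σ univ ((Sig T).vl (sp τ T k).2) := by
  unfold monD
  have h1 : ∏ v : (Sig (opt τ T)).V, ww p σ ((Sig (opt τ T)).vl k v) =
      ∏ o, ∏ v : (opt τ T o).V, ww p σ ((Sig (opt τ T)).vl k ⟨o, v⟩) :=
    Fintype.prod_sigma _
  have h2 : ∏ v : (Sig T).V, ww p σ ((Sig T).vl (sp τ T k).2 v) =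
      ∏ i, ∏ v : (T i).V, ww p σ ((Sig T).vl (sp τ T k).2 ⟨i, v⟩) :=
    Fintype.prod_sigma _
  rw [h1, h2, Fintype.prod_option]
  congr 1
  · exact Finset.prod_congr rfl fun v _ => by rw [opt_vl_none]
  · exact Finset.prod_congr rfl fun i _ => Finset.prod_congr rfl fun v _ => by
      rw [← opt_vl_some]

theorem sp_mem (k : (Sig (opt τ T)).X → ZMod N) :
    k ∈ (Sig (opt τ T)).gs N ↔
      sp τ T k ∈ PP N (∅ : Finset (τ.V × (Sig T).V × Bool)) := by
  rw [Shp.mem_gs, mem_PP]
  constructor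
  · intro h
    refine ⟨⟨?_, ?_⟩, ?_⟩
    · intro u _ w _
      obtain ⟨a1, a2⟩ := h ⟨none, u⟩ (mem_univ _) ⟨none, w⟩ (mem_univ _)
      rw [opt_vl_none, opt_vl_none] at a1 a2
      refine ⟨a1, fun hne => a2 fun h' => hne ?_⟩
      exact eq_of_heq (Sigma.mk.inj h').2
    · rintro u - w -
      obtain ⟨a1, a2⟩ := h ⟨some u.1, u.2⟩ (mem_univ _) ⟨some w.1, w.2⟩ (mem_univ _)
      rw [opt_vl_some, opt_vl_some] at a1 a2
      refine ⟨a1, fun hne => a2 fun h' => hne ?_⟩
      rcases u with ⟨i, u⟩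
      rcases w with ⟨j, w⟩
      obtain ⟨h1, h2⟩ := Sigma.mk.inj h'
      have h3 : i = j := Option.some.inj h1
      subst h3
      exact congrArg (fun a => (⟨i, a⟩ : (Sig T).V)) (eq_of_heq h2)
    · rw [Finset.eq_empty_iff_forall_notMem]
      rintro ⟨v, w, s⟩ hq
      unfold rel at hq
      simp only [mem_filter, mem_univ, true_and] at hq
      obtain ⟨a1, a2⟩ := h ⟨none, v⟩ (mem_univ _) ⟨some w.1, w.2⟩ (mem_univ _)
      rw [opt_vl_none, opt_vl_some] at a1 a2
      rcases s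
      · simp only [sg, Bool.false_eq_true, if_false] at hq
        exact a1 (by rw [hq, neg_add_cancel])
      · simp only [sg, if_true] at hq
        refine a2 (fun h' => ?_) hq
        have := (Sigma.mk.inj h').1
        exact absurd this (by simp)
  · rintro ⟨⟨g1, g2⟩, g3⟩
    have g4 : ∀ v w, τ.vl (sp τ T k).1 v + (Sig T).vl (sp τ T k).2 w ≠ 0 ∧
        τ.vl (sp τ T k).1 v ≠ (Sig T).vl (sp τ T k).2 w := by
      intro v w
      have h5 : ∀ s, τ.vl (sp τ T k).1 v ≠ sg s ((Sig T).vl (sp τ T k).2 w) := by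
        intro s h5
        have h6 : (v, w, s) ∈ rel τ.toShp (Sig T) (sp τ T k).1 (sp τ T k).2 := by
          unfold rel
          simp only [mem_filter, mem_univ, true_and]
          exact h5
        rw [g3] at h6
        simp at h6
      refine ⟨fun h6 => h5 false ?_, fun h6 => h5 true ?_⟩
      · simp only [sg, Bool.false_eq_true, if_false]
        exact eq_neg_of_add_eq_zero_left h6
      · simp only [sg, if_true]
        exact h6
    rintro ⟨_ | i, u⟩ - ⟨_ | j, w⟩ -
    · rw [opt_vl_none, opt_vl_none]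
      obtain ⟨a1, a2⟩ := g1 u (mem_univ _) w (mem_univ _)
      exact ⟨a1, fun hne => a2 fun h' => hne (by rw [h'])⟩
    · have e2 := opt_vl_some τ T k ⟨j, w⟩
      simp only at e2
      rw [opt_vl_none, e2]
      exact ⟨(g4 u ⟨j, w⟩).1, fun _ => (g4 u ⟨j, w⟩).2⟩
    · have e2 := opt_vl_some τ T k ⟨i, u⟩
      simp only at e2
      rw [opt_vl_none, e2, add_comm]
      exact ⟨(g4 w ⟨i, u⟩).1, fun _ => Ne.symm (g4 w ⟨i, u⟩).2⟩
    · have e1 := opt_vl_some τ T k ⟨i, u⟩
      have e2 := opt_vl_some τ T k ⟨j, w⟩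
      simp only at e1 e2
      rw [e1, e2]
      obtain ⟨a1, a2⟩ := g2 ⟨i, u⟩ (mem_univ _) ⟨j, w⟩ (mem_univ _)
      refine ⟨a1, fun hne => a2 fun h' => hne ?_⟩
      obtain ⟨h1, h2⟩ := Sigma.mk.inj h'
      subst h1
      rw [eq_of_heq h2]

/-- The trivial pattern gives the larger forest. -/
theorem HH_triv (p : ℝ) (N : ℕ) [NeZero N] (σ : Cfg (ZMod N)) (t : ZMod N) :
    HH p (∅ : Finset (τ.V × (Sig T).V × Bool)) N σ t = Shp.F p (Sig (opt τ T)) N σ t := by
  unfold HH Shp.F
  rw [opt_card]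
  congr 1
  refine Finset.sum_nbij' (jn τ T) (sp τ T) ?_ ?_ ?_ ?_ ?_
  · intro x hx
    rw [sp_mem, sp_jn]
    exact hx
  · intro k hk
    exact (sp_mem τ T k).1 hk
  · intro x _
    exact sp_jn τ T x
  · intro k _
    exact jn_sp τ T k
  · intro x _
    rw [opt_mon, opt_rh, sp_jn]

end triv

end Pool.Agent.H976.C
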