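import Pool.Agent.H976.C.B

/-!
# Circulant theta: polynomials of bounded degree
-/

set_option autoImplicit false
set_option linter.unusedSectionVars false

namespace Pool.Agent.H976.C

open Finset Real

section deg

variable {α : Type} [Fintype α] [DecidableEq α]

/-- Functions of degree at most `d`. -/
def Dg (p : ℝ) (d : ℕ) : Submodule ℝ (Cfg α → ℝ) :=
  Submodule.span ℝ {f | ∃ A : Finset α, #A ≤ d ∧ f = chi p A}

theorem chi_mem (p : ℝ) (d : ℕ) (A : Finset α) (h : #A ≤ d) : chi p A ∈ Dg p d :=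
  Submodule.subset_span ⟨A, h, rfl⟩

theorem Dg_mono (p : ℝ) {d e : ℕ} (h : d ≤ e) : (Dg p d : Submodule ℝ (Cfg α → ℝ)) ≤ Dg p e := by
  refine Submodule.span_mono ?_
  rintro f ⟨A, hA, rfl⟩
  exact ⟨A, hA.trans h, rfl⟩

theorem const_mem (p : ℝ) (d : ℕ) (c : ℝ) : (fun _ : Cfg α => c) ∈ Dg p d := by
  have h := (Dg p d).smul_mem c (chi_mem (α := α) p d ∅ (by simp))
  have e : c • chi p (∅ : Finset α) = fun _ => c := by
    funext σ
    simp [chi]
  rw [e] at h
  exact h

theorem om_mul_mem (p : ℝ) (hp : 0 < p) (hp1 : p < 1) (d : ℕ) (e : α) (f : Cfg α → ℝ)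
    (hf : f ∈ Dg p d) : (fun σ => om p (σ e) * f σ) ∈ Dg p (d + 1) := by
  refine Submodule.span_induction (p := fun f _ => (fun σ => om p (σ e) * f σ) ∈ Dg p (d + 1))
    ?_ ?_ ?_ ?_ hf
  · rintro f ⟨A, hA, rfl⟩
    by_cases he : e ∈ A
    · have h1 : (fun σ => om p (σ e) * chi p A σ) = chi p (A.erase e) + bb p • chi p A := by
        funext σ
        simp only [Pi.add_apply, Pi.smul_apply, smul_eq_mul]
        unfold chi
        rw [← Finset.mul_prod_erase A (fun e => om p (σ e)) he, ← mul_assoc, ← sq,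
          om_sq p hp hp1]
        ring
      rw [h1]
      refine Submodule.add_mem _ (chi_mem p _ _ ?_) (Submodule.smul_mem _ _ (chi_mem p _ _ ?_))
      · exact (Finset.card_erase_le).trans (by omega)
      · omega
    · have h1 : (fun σ => om p (σ e) * chi p A σ) = chi p (insert e A) := by
        funext σ
        unfold chi
        rw [Finset.prod_insert he]
      rw [h1]
      refine chi_mem p _ _ ?_
      rw [Finset.card_insert_of_notMem he]
      omega
  · have h1 : (fun σ => om p (σ e) * (0 : Cfg α → ℝ) σ) = 0 := by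
      funext σ
      simp
    rw [h1]
    exact Submodule.zero_mem _
  · intro f g _ _ h1 h2
    have h3 : (fun σ => om p (σ e) * (f + g) σ) =
        (fun σ => om p (σ e) * f σ) + fun σ => om p (σ e) * g σ := by
      funext σ
      simp only [Pi.add_apply]
      ring
    rw [h3]
    exact Submodule.add_mem _ h1 h2
  · intro c f _ h1
    have h3 : (fun σ => om p (σ e) * (c • f) σ) = c • fun σ => om p (σ e) * f σ := by
      funext σ
      simp only [Pi.smul_apply, smul_eq_mul]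
      ring
    rw [h3]
    exact Submodule.smul_mem _ _ h1

theorem chi_mul_mem (p : ℝ) (hp : 0 < p) (hp1 : p < 1) (d : ℕ) (A : Finset α) (f : Cfg α → ℝ)
    (hf : f ∈ Dg p d) : (fun σ => chi p A σ * f σ) ∈ Dg p (#A + d) := by
  induction A using Finset.induction_on with
  | empty => simpa [chi] using hf
  | insert e A he ih =>
    have h1 := om_mul_mem p hp hp1 _ e _ ih
    have h2 : (fun σ => om p (σ e) * (chi p A σ * f σ)) = fun σ => chi p (insert e A) σ * f σ := by
      funext σ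
      unfold chi
      rw [Finset.prod_insert he]
      ring
    rw [h2] at h1
    rw [Finset.card_insert_of_notMem he]
    exact Dg_mono p (by omega) h1

theorem mul_mem (p : ℝ) (hp : 0 < p) (hp1 : p < 1) (d e : ℕ) (f g : Cfg α → ℝ)
    (hf : f ∈ Dg p d) (hg : g ∈ Dg p e) : (fun σ => f σ * g σ) ∈ Dg p (d + e) := by
  refine Submodule.span_induction (p := fun f _ => (fun σ => f σ * g σ) ∈ Dg p (d + e))
    ?_ ?_ ?_ ?_ hf
  · rintro f ⟨A, hA, rfl⟩
    exact Dg_mono p (by omega) (chi_mul_mem p hp hp1 e A g hg)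
  · have h1 : (fun σ => (0 : Cfg α → ℝ) σ * g σ) = 0 := by
      funext σ
      simp
    rw [h1]
    exact Submodule.zero_mem _
  · intro f f' _ _ h1 h2
    have h3 : (fun σ => (f + f') σ * g σ) = (fun σ => f σ * g σ) + fun σ => f' σ * g σ := by
      funext σ
      simp only [Pi.add_apply]
      ring
    rw [h3]
    exact Submodule.add_mem _ h1 h2
  · intro c f _ h1
    have h3 : (fun σ => (c • f) σ * g σ) = c • fun σ => f σ * g σ := by
      funext σ
      simp only [Pi.smul_apply, smul_eq_mul]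
      ring
    rw [h3]
    exact Submodule.smul_mem _ _ h1

/-- expansions -/
noncomputable def ex (p : ℝ) (S : Finset α) (c : Finset α → ℝ) (σ : Cfg α) : ℝ :=
  ∑ A ∈ S.powerset, c A * chi p A σ

theorem exists_ex (p : ℝ) (d : ℕ) (f : Cfg α → ℝ) (hf : f ∈ Dg p d) :
    ∃ c : Finset α → ℝ, (∀ A, d < #A → c A = 0) ∧ f = ex p univ c := by
  refine Submodule.span_induction (p := fun f _ =>
    ∃ c : Finset α → ℝ, (∀ A, d < #A → c A = 0) ∧ f = ex p univ c) ?_ ?_ ?_ ?_ hf
  · rintro f ⟨A, hA, rfl⟩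
    refine ⟨fun B => if B = A then 1 else 0, ?_, ?_⟩
    · intro B hB
      refine if_neg ?_
      rintro rfl
      omega
    · funext σ
      unfold ex
      simp
  · exact ⟨fun _ => 0, fun _ _ => rfl, by funext σ; simp [ex]⟩
  · rintro f g _ _ ⟨c, hc, rfl⟩ ⟨c', hc', rfl⟩
    refine ⟨fun A => c A + c' A, fun A hA => by simp only [hc A hA, hc' A hA, add_zero], ?_⟩
    funext σ
    simp only [ex, Pi.add_apply, add_mul, Finset.sum_add_distrib]
  · rintro a f _ ⟨c, hc, rfl⟩
    refine ⟨fun A => a * c A, fun A hA => by simp only [hc A hA, mul_zero], ?_⟩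
    funext σ
    simp only [ex, Pi.smul_apply, smul_eq_mul, Finset.mul_sum, mul_assoc]

theorem ex_insert (p : ℝ) (e : α) (S : Finset α) (he : e ∉ S) (c : Finset α → ℝ) (σ : Cfg α) :
    ex p (insert e S) c σ = ex p S c σ +
      ex p S (fun A => if e ∈ A then 0 else c (insert e A)) σ * om p (σ e) := by
  unfold ex
  rw [Finset.sum_powerset_insert he, Finset.sum_mul]
  congr 1
  refine Finset.sum_congr rfl fun A hA => ?_
  have h1 : e ∉ A := fun h => he (Finset.mem_powerset.1 hA h)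
  simp only [if_neg h1]
  unfold chi
  rw [Finset.prod_insert h1]
  ring

theorem ex_ind (p : ℝ) (e : α) (S : Finset α) (he : e ∉ S) (c : Finset α → ℝ) :
    Ind e (ex p S c) := by
  intro σ b
  unfold ex
  refine Finset.sum_congr rfl fun A hA => ?_
  rw [chi_ind p A e (fun h => he (Finset.mem_powerset.1 hA h))]

theorem om_moments (p : ℝ) (hp : 0 < p) (hp1 : p < 1) :
    (p * om p true + (1 - p) * om p false = 0) ∧
    (p * om p true ^ 2 + (1 - p) * om p false ^ 2 = 1) ∧
    (p * om p true ^ 3 + (1 - p) * om p false ^ 3 = bb p) ∧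
    (p * om p true ^ 4 + (1 - p) * om p false ^ 4 = 1 + bb p ^ 2) := by
  have e0 := om_e0 p hp hp1
  have h1 := om_sq p hp hp1 true
  have h2 := om_sq p hp hp1 false
  have h13 : om p true ^ 3 = om p true + bb p * (1 + bb p * om p true) := by
    rw [pow_succ, h1]
    linear_combination bb p * h1
  have h23 : om p false ^ 3 = om p false + bb p * (1 + bb p * om p false) := by
    rw [pow_succ, h2]
    linear_combination bb p * h2
  have h14 : om p true ^ 4 = (1 + bb p * om p true) ^ 2 := by rw [← h1]; ring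
  have h24 : om p false ^ 4 = (1 + bb p * om p false) ^ 2 := by rw [← h2]; ring
  refine ⟨e0, ?_, ?_, ?_⟩
  · rw [h1, h2]
    linear_combination bb p * e0
  · rw [h13, h23]
    linear_combination (1 + bb p ^ 2) * e0
  · rw [h14, h24]
    linear_combination (2 * bb p + bb p ^ 3) * e0 + bb p ^ 2 * p * h1 + bb p ^ 2 * (1 - p) * h2

/-- the constant -/
noncomputable def kk (p : ℝ) : ℝ := 3 + |bb p|

theorem kk_pos (p : ℝ) : 0 < kk p := by
  unfold kk
  positivity

theorem hyp_alg (b k a₄ b₄ m t x y K : ℝ) (hk : k = 3 + |b|) (hx : 0 ≤ x) (hy : 0 ≤ y)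
    (hK : 0 ≤ K) (h1 : a₄ ≤ (K * k * x) ^ 2) (h2 : b₄ ≤ (K * y) ^ 2) (_hm : 0 ≤ m) (hb4 : 0 ≤ b₄)
    (h3 : m ^ 2 ≤ a₄ * b₄) (h4 : 2 * |t| ≤ m + b₄) :
    a₄ + 6 * m + 4 * b * t + (1 + b ^ 2) * b₄ ≤ (K * k * (x + y)) ^ 2 := by
  have hk0 : 0 ≤ k := by rw [hk]; positivity
  have hm1 : m ≤ K * k * x * (K * y) := by
    have h5 : m ^ 2 ≤ (K * k * x * (K * y)) ^ 2 := by
      calc m ^ 2 ≤ a₄ * b₄ := h3
        _ ≤ (K * k * x) ^ 2 * (K * y) ^ 2 := mul_le_mul h1 h2 hb4 (sq_nonneg _)
        _ = _ := by ring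
    exact (abs_le_of_sq_le_sq' h5 (by positivity)).2
  have hb0 : 0 ≤ |b| := abs_nonneg b
  have h5 : 4 * b * t ≤ 2 * |b| * (m + b₄) := by
    have h6 : b * t ≤ |b| * |t| := by rw [← abs_mul]; exact le_abs_self _
    nlinarith
  have h6 : b ^ 2 = |b| ^ 2 := (sq_abs b).symm
  have h7 : (6 + 2 * |b|) * m ≤ (6 + 2 * |b|) * (K * k * x * (K * y)) :=
    mul_le_mul_of_nonneg_left hm1 (by positivity)
  have h8 : (1 + |b| ^ 2 + 2 * |b|) * b₄ ≤ (1 + |b| ^ 2 + 2 * |b|) * (K * y) ^ 2 :=
    mul_le_mul_of_nonneg_left h2 (by positivity)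
  have h9 : (1 + |b| ^ 2 + 2 * |b|) * (K * y) ^ 2 ≤ k ^ 2 * (K * y) ^ 2 := by
    refine mul_le_mul_of_nonneg_right ?_ (sq_nonneg _)
    rw [hk]
    nlinarith
  have h10 : (6 + 2 * |b|) * (K * k * x * (K * y)) = 2 * k * (K * k * x * (K * y)) := by
    rw [hk]
    ring
  rw [h6]
  nlinarith

theorem hyp_ex (p : ℝ) (hp : 0 < p) (hp1 : p < 1) (S : Finset α) : ∀ (d : ℕ) (c : Finset α → ℝ),
    (∀ A, d < #A → c A = 0) →
    Ep p (fun σ => ex p S c σ ^ 4) ≤ (kk p ^ d * ∑ A ∈ S.powerset, c A ^ 2) ^ 2 := by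
  induction S using Finset.induction_on with
  | empty =>
    intro d c _
    have h1 : (fun σ => ex p ∅ c σ ^ 4) = fun _ : Cfg α => c ∅ ^ 4 := by
      funext σ
      simp [ex, chi]
    rw [h1, Ep_const]
    simp only [powerset_empty, sum_singleton]
    have h2 : (1 : ℝ) ≤ kk p ^ d := one_le_pow₀ (by unfold kk; linarith [abs_nonneg (bb p)])
    have h3 : c ∅ ^ 2 ≤ kk p ^ d * c ∅ ^ 2 := le_mul_of_one_le_left (sq_nonneg _) h2
    have h4 := pow_le_pow_left₀ (sq_nonneg _) h3 2
    calc c ∅ ^ 4 = (c ∅ ^ 2) ^ 2 := by ring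
      _ ≤ _ := h4
  | insert e S he ih =>
    intro d c hc
    set c' : Finset α → ℝ := fun A => if e ∈ A then 0 else c (insert e A) with hc'
    have hsum : ∑ A ∈ (insert e S).powerset, c A ^ 2 =
        ∑ A ∈ S.powerset, c A ^ 2 + ∑ A ∈ S.powerset, c' A ^ 2 := by
      rw [Finset.sum_powerset_insert he]
      congr 1
      refine Finset.sum_congr rfl fun A hA => ?_
      have h1 : e ∉ A := fun h => he (Finset.mem_powerset.1 hA h)
      simp only [hc', if_neg h1]
    have hE : ∀ (F : Cfg α → ℝ) (j : ℕ), Ind e F → Ep p (fun σ => F σ * om p (σ e) ^ j) =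
        Ep p F * (p * om p true ^ j + (1 - p) * om p false ^ j) := fun F j hF =>
      Ep_ind p e F (fun b => om p b ^ j) hF
    have hi0 := ex_ind p e S he c
    have hi1 := ex_ind p e S he c'
    have hexp : Ep p (fun σ => ex p (insert e S) c σ ^ 4) =
        Ep p (fun σ => ex p S c σ ^ 4) + 6 * Ep p (fun σ => ex p S c σ ^ 2 * ex p S c' σ ^ 2) +
        4 * bb p * Ep p (fun σ => ex p S c σ * ex p S c' σ ^ 3) +
        (1 + bb p ^ 2) * Ep p (fun σ => ex p S c' σ ^ 4) := by
      obtain ⟨m1, m2, m3, m4⟩ := om_moments p hp hp1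
      have a1 := hE (fun σ => ex p S c σ ^ 3 * ex p S c' σ) 1
        (fun σ b => by simp only [hi0 σ b, hi1 σ b])
      have a2 := hE (fun σ => ex p S c σ ^ 2 * ex p S c' σ ^ 2) 2
        (fun σ b => by simp only [hi0 σ b, hi1 σ b])
      have a3 := hE (fun σ => ex p S c σ * ex p S c' σ ^ 3) 3
        (fun σ b => by simp only [hi0 σ b, hi1 σ b])
      have a4 := hE (fun σ => ex p S c' σ ^ 4) 4
        (fun σ b => by simp only [hi1 σ b])
      simp only [pow_one] at a1
      rw [m1] at a1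
      rw [m2] at a2
      rw [m3] at a3
      rw [m4] at a4
      have h1 : (fun σ => ex p (insert e S) c σ ^ 4) = fun σ : Cfg α => ex p S c σ ^ 4 +
          (4 * ((ex p S c σ ^ 3 * ex p S c' σ) * om p (σ e)) +
          (6 * ((ex p S c σ ^ 2 * ex p S c' σ ^ 2) * om p (σ e) ^ 2) +
          (4 * ((ex p S c σ * ex p S c' σ ^ 3) * om p (σ e) ^ 3) +
          ((ex p S c' σ ^ 4) * om p (σ e) ^ 4)))) := by
        funext σ
        rw [ex_insert p e S he c σ]
        ring
      rw [h1, Ep_add, Ep_add, Ep_add, Ep_add, Ep_mul, Ep_mul, Ep_mul, a1, a2, a3, a4]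
      ring
    rcases d with _ | d
    · -- degree zero
      have hz : ∀ A, c' A = 0 := by
        intro A
        simp only [hc']
        split_ifs with h
        · rfl
        · exact hc _ (by rw [Finset.card_insert_of_notMem h]; omega)
      have hz2 : ∀ σ : Cfg α, ex p S c' σ = 0 := by
        intro σ
        unfold ex
        exact Finset.sum_eq_zero fun A _ => by rw [hz A, zero_mul]
      rw [hexp, hsum]
      simp only [hz2, hz]
      have h2 := ih 0 c hc
      simp only [ne_eq, OfNat.ofNat_ne_zero, not_false_eq_true, zero_pow, mul_zero, Ep_const,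
        add_zero, sum_const_zero]
      exact h2
    · have hc1 : ∀ A, d < #A → c' A = 0 := by
        intro A hA
        simp only [hc']
        split_ifs with h
        · rfl
        · exact hc _ (by rw [Finset.card_insert_of_notMem h]; omega)
      rw [hexp, hsum, pow_succ]
      have h1 := ih (d + 1) c hc
      have h2 := ih d c' hc1
      refine hyp_alg (bb p) (kk p) _ _ _ _ _ _ (kk p ^ d) rfl
        (Finset.sum_nonneg fun _ _ => sq_nonneg _) (Finset.sum_nonneg fun _ _ => sq_nonneg _)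
        (pow_nonneg (kk_pos p).le _) ?_ h2 ?_ ?_ ?_ ?_
      · rw [← pow_succ]
        exact h1
      · exact Ep_nonneg p hp.le hp1.le _ fun σ => by positivity
      · exact Ep_nonneg p hp.le hp1.le _ fun σ => by positivity
      · have h3 := Ep_cs p hp.le hp1.le (fun σ => ex p S c σ ^ 2) (fun σ => ex p S c' σ ^ 2)
        simp only [← pow_mul] at h3
        exact h3
      · have h3 := abs_Ep_le p hp.le hp1.le (fun σ => ex p S c σ * ex p S c' σ ^ 3)
        have h4 : 2 * Ep p (fun σ => |ex p S c σ * ex p S c' σ ^ 3|) ≤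
            Ep p (fun σ => ex p S c σ ^ 2 * ex p S c' σ ^ 2) + Ep p (fun σ => ex p S c' σ ^ 4) := by
          rw [← Ep_mul, ← Ep_add]
          refine Ep_mono p hp.le hp1.le _ _ fun σ => ?_
          generalize ex p S c σ = x
          generalize ex p S c' σ = y
          have h5 : |x * y ^ 3| = |x| * |y| * y ^ 2 := by
            rw [abs_mul, abs_pow, ← sq_abs y]
            ring
          rw [h5]
          have h6 : x ^ 2 = |x| ^ 2 := (sq_abs x).symm
          have h7 : y ^ 4 = |y| ^ 2 * y ^ 2 := by rw [sq_abs]; ring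
          rw [h6, h7]
          nlinarith [mul_nonneg (sq_nonneg (|x| - |y|)) (sq_nonneg y)]
        linarith

theorem parseval_ex (p : ℝ) (hp : 0 < p) (hp1 : p < 1) (S : Finset α) (c : Finset α → ℝ) :
    Ep p (fun σ => ex p S c σ ^ 2) = ∑ A ∈ S.powerset, c A ^ 2 := by
  have h1 : (fun σ => ex p S c σ ^ 2) = fun σ : Cfg α => ∑ A ∈ S.powerset, ∑ B ∈ S.powerset,
      (c A * c B) * (chi p A σ * chi p B σ) := by
    funext σ
    unfold ex
    rw [sq, Finset.sum_mul_sum]
    refine Finset.sum_congr rfl fun A _ => Finset.sum_congr rfl fun B _ => ?_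
    ring
  rw [h1, Ep_sum]
  refine Finset.sum_congr rfl fun A hA => ?_
  rw [Ep_sum]
  rw [Finset.sum_eq_single A]
  · rw [Ep_mul, Ep_chi p hp hp1, if_pos rfl]
    ring
  · intro B _ hB
    rw [Ep_mul, Ep_chi p hp hp1, if_neg (Ne.symm hB), mul_zero]
  · intro h
    exact absurd hA h

/-- Hypercontractivity. -/
theorem hyp (p : ℝ) (hp : 0 < p) (hp1 : p < 1) (d : ℕ) (f : Cfg α → ℝ) (hf : f ∈ Dg p d) :
    Ep p (fun σ => f σ ^ 4) ≤ (kk p ^ d * Ep p (fun σ => f σ ^ 2)) ^ 2 := by
  obtain ⟨c, hc, rfl⟩ := exists_ex p d f hf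
  rw [parseval_ex p hp hp1]
  exact hyp_ex p hp hp1 univ d c hc

/-- Second moment of a product. -/
theorem hyp_mul (p : ℝ) (hp : 0 < p) (hp1 : p < 1) (d e : ℕ) (f g : Cfg α → ℝ)
    (hf : f ∈ Dg p d) (hg : g ∈ Dg p e) :
    Ep p (fun σ => (f σ * g σ) ^ 2) ≤
      kk p ^ (d + e) * (Ep p (fun σ => f σ ^ 2) * Ep p (fun σ => g σ ^ 2)) := by
  have h1 := Ep_cs p hp.le hp1.le (fun σ => f σ ^ 2) (fun σ => g σ ^ 2)
  simp only [← pow_mul] at h1
  have h2 := hyp p hp hp1 d f hf
  have h3 := hyp p hp hp1 e g hg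
  have hE : ∀ f : Cfg α → ℝ, 0 ≤ Ep p (fun σ => f σ ^ 2) := fun f =>
    Ep_nonneg p hp.le hp1.le _ fun σ => sq_nonneg _
  have h4 : Ep p (fun σ => f σ ^ (2 * 2)) * Ep p (fun σ => g σ ^ (2 * 2)) ≤
      (kk p ^ (d + e) * (Ep p (fun σ => f σ ^ 2) * Ep p (fun σ => g σ ^ 2))) ^ 2 := by
    calc _ ≤ (kk p ^ d * Ep p (fun σ => f σ ^ 2)) ^ 2 * (kk p ^ e * Ep p (fun σ => g σ ^ 2)) ^ 2 :=
          mul_le_mul h2 h3 (Ep_nonneg p hp.le hp1.le _ fun σ => by positivity) (sq_nonneg _)
      _ = _ := by rw [pow_add]; ring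
  have h5 : (fun σ => (f σ * g σ) ^ 2) = fun σ : Cfg α => f σ ^ 2 * g σ ^ 2 := by
    funext σ
    ring
  rw [h5]
  exact (abs_le_of_sq_le_sq' (h1.trans h4) (mul_nonneg (pow_nonneg (kk_pos p).le _)
    (mul_nonneg (hE f) (hE g)))).2

end deg

end Pool.Agent.H976.C
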