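import Pool.Agent.H976.C.W

/-!
# Circulant theta: the iteration
-/

set_option autoImplicit false
set_option linter.unusedSectionVars false

namespace Pool.Agent.H976.C

open Finset Real

/-- the tree with one leaf -/
def leafT : Tree where
  X := Unit
  V := Unit
  S := fun _ => {()}
  leaf := fun _ => ()
  leafS := fun _ => rfl
  ne := fun _ => ⟨(), mem_singleton_self _⟩
  root := ()
  rootS := rfl
  inj := fun _ _ _ => rfl

/-- the spike -/
noncomputable def ee (N : ℕ) [NeZero N] (t : ZMod N) : ℝ := if t = 0 then √N else 0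

section base

variable {p : ℝ}

theorem ft_ee (N : ℕ) [NeZero N] (k : ZMod N) : ft (ee N) k = (√N)⁻¹ := by
  unfold ft ee
  rw [Finset.sum_eq_single 0 (fun t _ ht => by rw [if_neg ht, zero_mul])
    (fun h => absurd (mem_univ _) h), if_pos rfl, mul_zero, cs_zero, mul_one]
  have h := sqrtN_pos N
  have h2 := Real.mul_self_sqrt (Nat.cast_nonneg (α := ℝ) N)
  rw [← h2, Real.sqrt_mul_self h.le]
  field_simp

theorem TT_ee (N : ℕ) [NeZero N] (σ : Cfg (ZMod N)) (t : ZMod N) :
    TT p σ (ee N) t = Shp.F p leafT.toShp N σ t := by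
  classical
  unfold TT sy Shp.F
  have h1 : Fintype.card leafT.X = 1 := rfl
  rw [h1, pow_one, Finset.sum_div]
  have h2 : ∑ k : ZMod N, ww p σ k * ft (ee N) k * cs (k * t) =
      ∑ k : leafT.X → ZMod N, ww p σ (k ()) * ft (ee N) (k ()) * cs (k () * t) :=
    (Fintype.sum_bijective (fun k : Unit → ZMod N => k ())
      (Equiv.funUnique Unit (ZMod N)).bijective _ _ fun k => rfl).symm
  rw [h2]
  symm
  rw [← Finset.sum_subset (Finset.subset_univ (leafT.gs N))]
  · refine Finset.sum_congr rfl fun k _ => ?_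
    have h3 : monD p σ univ (leafT.vl k) = ww p σ (k ()) := by
      exact (Finset.prod_singleton (fun u : Unit => ww p σ (leafT.vl k u)) ()).trans
        (congrArg (ww p σ) (leafT.vl_leaf k ()))
    have h4 : leafT.rh k = k () := by
      exact Finset.sum_singleton (fun u : Unit => k u) ()
    rw [h3, h4, ft_ee]
    ring
  · intro k _ hk
    have h5 : k () + k () = 0 := by
      by_contra h6
      refine hk ((leafT.mem_gs k).2 ?_)
      intro u _ w _
      have h7 : ∀ v, leafT.vl k v = k () := fun v => leafT.vl_leaf k v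
      rw [h7, h7]
      exact ⟨h6, fun h => absurd rfl h⟩
    unfold ww
    rw [if_pos h5]
    ring

theorem card_two (N : ℕ) [NeZero N] : #(univ.filter fun k : ZMod N => k + k = 0) ≤ 2 := by
  classical
  have h1 := card_lf (N := N) (fun _ : Unit => (2 : ℤ)) () (by norm_num) 0
  have h2 : #(univ.filter fun k : ZMod N => k + k = 0) ≤
      #(univ.filter fun k : Unit → ZMod N => lf (fun _ : Unit => (2 : ℤ)) k = 0) := by
    refine Finset.card_le_card_of_injOn (fun k _ => k) ?_ ?_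
    · intro k hk
      simp only [coe_filter, mem_univ, true_and, Set.mem_setOf_eq] at hk ⊢
      unfold lf
      rw [Fintype.sum_unique]
      push_cast
      rw [two_mul]
      exact hk
    · intro a _ b _ h
      exact congrFun h ()
  have h3 : Fintype.card Unit = 1 := rfl
  rw [h3, pow_one] at h1
  have h4 := Nat.le_of_mul_le_mul_right h1 (NeZero.pos N)
  have h5 : (2 : ℤ).natAbs = 2 := rfl
  rw [h5] at h4
  exact h2.trans h4

theorem Ep_ww_sq (hp : 0 < p) (hp1 : p < 1) (N : ℕ) [NeZero N] (k : ZMod N) :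
    Ep p (fun σ : Cfg (ZMod N) => ww p σ k ^ 2) = if k + k = 0 then 0 else 1 := by
  unfold ww
  split_ifs with h
  · have : (fun σ : Cfg (ZMod N) => (0 : ℝ) ^ 2) = fun _ => 0 := by
      funext σ
      norm_num
    rw [this, Ep_const]
  · have h1 := Ep_chi p hp hp1 ({cls k} : Finset (ZMod N)) {cls k}
    rw [if_pos rfl] at h1
    rw [← h1]
    congr 1
    funext σ
    unfold chi
    rw [Finset.prod_singleton, sq]

theorem Cv_leaf (hp : 0 < p) (hp1 : p < 1) :
    Cv p (Shp.F p leafT.toShp) (Shp.F p leafT.toShp) 1 := by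
  refine ⟨2, fun N _ => ?_⟩
  have h1 : ip p (Shp.F p leafT.toShp) (Shp.F p leafT.toShp) N =
      (N - #(univ.filter fun k : ZMod N => k + k = 0)) / N := by
    unfold ip
    have e1 : ∀ σ : Cfg (ZMod N), av (fun t => Shp.F p leafT.toShp N σ t *
        Shp.F p leafT.toShp N σ t) = ∑ k, ww p σ k ^ 2 * (N : ℝ)⁻¹ := by
      intro σ
      have e2 : (fun t => Shp.F p leafT.toShp N σ t * Shp.F p leafT.toShp N σ t) =
          fun t => sy (fun k => ww p σ k * ft (ee N) k) t ^ 2 := by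
        funext t
        rw [← TT_ee, sq]
        rfl
      rw [e2, av_sy_sq]
      · refine Finset.sum_congr rfl fun k _ => ?_
        rw [ft_ee, mul_pow, inv_pow, Real.sq_sqrt (Nat.cast_nonneg N)]
      · intro k
        simp only [ww_neg, ft_ee]
    simp only [e1]
    rw [Ep_sum]
    simp only [Ep_mul_right, Ep_ww_sq hp hp1]
    rw [← Finset.sum_mul, ← div_eq_mul_inv]
    congr 1
    have e3 : ∀ k : ZMod N, (if k + k = 0 then (0 : ℝ) else 1) = 1 - if k + k = 0 then 1 else 0 := by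
      intro k
      split_ifs <;> ring
    simp only [e3]
    rw [Finset.sum_sub_distrib, Finset.sum_const, card_univ, ZMod.card, nsmul_eq_mul, mul_one,
      ← Finset.sum_filter, Finset.sum_const, nsmul_eq_mul, mul_one]
  have hN := Npos (N := N)
  have h2 : ((#(univ.filter fun k : ZMod N => k + k = 0) : ℕ) : ℝ) ≤ 2 := by
    exact_mod_cast card_two N
  have h3 : (N - (#(univ.filter fun k : ZMod N => k + k = 0) : ℝ)) / N - 1 =
      -((#(univ.filter fun k : ZMod N => k + k = 0) : ℝ) / N) := by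
    field_simp
    ring
  rw [h1, h3, abs_neg, abs_of_nonneg (by positivity)]
  have hs := sqrtN_pos N
  have hs1 : (1 : ℝ) ≤ √N := by
    rw [Real.one_le_sqrt]
    exact_mod_cast NeZero.one_le (n := N)
  calc (#(univ.filter fun k : ZMod N => k + k = 0) : ℝ) / N ≤ 2 / N :=
        div_le_div_of_nonneg_right h2 hN.le
    _ ≤ 2 / √N := by
        refine div_le_div_of_nonneg_left (by norm_num) hs ?_
        have h4 : √(N : ℝ) * 1 ≤ √N * √N := mul_le_mul_of_nonneg_left hs1 hs.le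
        rw [mul_one, Real.mul_self_sqrt (Nat.cast_nonneg N)] at h4
        exact h4

theorem kap_leaf (hp : 0 < p) (hp1 : p < 1) : kap leafT leafT = 1 :=
  (Cv_kap hp hp1 leafT leafT).unique (Cv_leaf hp hp1)

theorem kap_comm (hp : 0 < p) (hp1 : p < 1) (τ τ' : Tree) : kap τ τ' = kap τ' τ :=
  (Cv_kap hp hp1 τ τ').unique (Cv_kap hp hp1 τ' τ).symm

theorem kap_leaf_join (hp : 0 < p) (hp1 : p < 1) {ι : Type} [Fintype ι] [DecidableEq ι]
    [Nontrivial ι] (T : ι → Tree) : kap leafT (join T) = 0 := by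
  refine (Cv_kap hp hp1 leafT (join T)).unique ⟨0, fun N _ => ?_⟩
  rw [ip_F hp hp1, Finset.sum_eq_zero]
  · simp
  · rintro ⟨k, k'⟩ hx
    have hx := Finset.mem_product.1 hx
    refine if_neg ?_
    intro h
    have h1 : #(cset univ (leafT.vl k)) = 1 := by
      exact (congrArg card (Finset.image_singleton (fun u : Unit => cls (leafT.vl k u)) ())).trans
        (card_singleton _)
    have h2 : #(cset univ ((join T).vl k')) = Fintype.card (join T).V := by
      unfold cset
      rw [Finset.card_image_of_injOn (((join T).mem_gs k').1 hx.2).inj, card_univ]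
    have h3 : Fintype.card (join T).V = Fintype.card (Sig T).V + 1 :=
      Fintype.card_option (α := (Sig T).V)
    obtain ⟨i, -⟩ := exists_pair_ne ι
    have h4 : 0 < Fintype.card (Sig T).V :=
      Fintype.card_pos_iff.2 ⟨⟨i, (T i).root⟩⟩
    have h5 : #(cset univ (leafT.vl k)) = #(cset univ ((join T).vl k')) := by
      have h6 : cset univ (leafT.vl k) = cset univ ((join T).vl k') := h
      rw [h6]
    omega

end base

/-! ### The step -/

/-- the new family -/
abbrev JJ (D : ℕ) (J : Type) : Type := Option (Σ d : Fin D, (Fin ((d : ℕ) + 2) → J))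

/-- the new trees -/
def trn {D : ℕ} {J : Type} (tr : J → Tree) : JJ D J → Tree
  | none => leafT
  | some x => join fun i => tr (x.2 i)

/-- the new coefficients -/
noncomputable def nx {D : ℕ} {J : Type} (a s : ℝ) (c : Fin D → ℝ) (α : J → ℝ) : JJ D J → ℝ
  | none => s⁻¹ * a
  | some x => s⁻¹ * c x.1 * ∏ i, α (x.2 i)

/-- one step of the iteration, before the multiplier -/
noncomputable def Psi {D : ℕ} (a : ℝ) (c : Fin D → ℝ) (G : MF) : MF := fun N _ σ t =>
  a * ee N t + ∑ d : Fin D, c d * He ((d : ℕ) + 2) (G N σ t)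

/-- one step of the iteration -/
noncomputable def nxt (p : ℝ) {D : ℕ} (a s : ℝ) (c : Fin D → ℝ) (G : MF) : MF := fun N _ σ t =>
  s⁻¹ * TT p σ (Psi a c G N σ) t

section step

variable {p : ℝ} {J : Type} [Fintype J] {tr : J → Tree} {D : ℕ}

theorem CC_join (hp : 0 < p) (hp1 : p < 1) {α β : J → ℝ} (hα : CC tr α α = 1)
    (hβ : CC tr β β = 1) (d e : ℕ) :
    ∑ j : Fin (d + 2) → J, ∑ j' : Fin (e + 2) → J, (∏ i, α (j i)) * (∏ i, β (j' i)) *
      kap (join fun i => tr (j i)) (join fun i => tr (j' i)) =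
      if d = e then ((d + 2).factorial : ℝ) * CC tr α β ^ (d + 2) else 0 := by
  have h1 : Cv p (Wk p tr (fun _ : Fin (d + 2) => α)) (Wk p tr (fun _ : Fin (e + 2) => β))
      (∑ j : Fin (d + 2) → J, ∑ j' : Fin (e + 2) → J, (∏ i, α (j i)) * (∏ i, β (j' i)) *
      kap (join fun i => tr (j i)) (join fun i => tr (j' i))) := by
    refine Cv.sum_left univ (fun j : Fin (d + 2) → J => fun N _ σ t =>
      (∏ i, α (j i)) * Shp.F p (Sig fun i => tr (j i)) N σ t) _ _ fun j _ => ?_
    refine Cv.sum_right univ _ (fun j' : Fin (e + 2) → J => fun N _ σ t =>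
      (∏ i, β (j' i)) * Shp.F p (Sig fun i => tr (j' i)) N σ t) _ fun j' _ => ?_
    have h2 := Cv_Sig (p := p) (fun i => tr (j i)) (fun i => tr (j' i)) hp hp1
    exact ((h2.smul_left (∏ i, α (j i))).smul_right (∏ i, β (j' i))).congr (fun N _ σ t => rfl)
      (fun N _ σ t => rfl) (by ring)
  have h2 := h1.unique (Cv_WW hp hp1 hα hβ (d + 2) (e + 2))
  rw [h2]
  by_cases h : d = e
  · rw [if_pos h, if_pos (by omega)]
  · rw [if_neg h, if_neg (by omega)]

theorem CC_nx (hp : 0 < p) (hp1 : p < 1) {α β : J → ℝ} (hα : CC tr α α = 1)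
    (hβ : CC tr β β = 1) (a s : ℝ) (c : Fin D → ℝ) :
    CC (trn tr) (nx a s c α) (nx a s c β) = s⁻¹ ^ 2 * (a ^ 2 + ∑ d : Fin D, c d ^ 2 *
      (((d : ℕ) + 2).factorial : ℝ) * CC tr α β ^ ((d : ℕ) + 2)) := by
  unfold CC
  rw [Fintype.sum_option]
  simp only [Fintype.sum_option]
  have e1 : ∀ x : (Σ d : Fin D, (Fin ((d : ℕ) + 2) → J)),
      kap (trn tr (none : JJ D J)) (trn tr (some x)) = 0 := fun x =>
    kap_leaf_join hp hp1 fun i => tr (x.2 i)
  have e2 : ∀ x : (Σ d : Fin D, (Fin ((d : ℕ) + 2) → J)),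
      kap (trn tr (some x)) (trn tr (none : JJ D J)) = 0 := fun x => by
    rw [kap_comm hp hp1]
    exact e1 x
  have e3 : kap (trn tr (none : JJ D J)) (trn tr (none : JJ D J)) = 1 := kap_leaf hp hp1
  simp only [e1, e2, e3, mul_zero, mul_one, Finset.sum_const_zero, add_zero, zero_add]
  have e4 : ∑ x : (Σ d : Fin D, (Fin ((d : ℕ) + 2) → J)),
      ∑ y : (Σ d : Fin D, (Fin ((d : ℕ) + 2) → J)),
      nx a s c α (some x) * nx a s c β (some y) * kap (trn tr (some x)) (trn tr (some y)) =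
      s⁻¹ ^ 2 * ∑ d : Fin D, c d ^ 2 *
      (((d : ℕ) + 2).factorial : ℝ) * CC tr α β ^ ((d : ℕ) + 2) := by
    rw [Fintype.sum_sigma]
    have e5 : ∀ (d : Fin D), ∑ j : Fin ((d : ℕ) + 2) → J,
        ∑ y : (Σ d : Fin D, (Fin ((d : ℕ) + 2) → J)),
        nx a s c α (some ⟨d, j⟩) * nx a s c β (some y) *
          kap (trn tr (some ⟨d, j⟩)) (trn tr (some y)) =
        s⁻¹ ^ 2 * (c d ^ 2 * (((d : ℕ) + 2).factorial : ℝ) * CC tr α β ^ ((d : ℕ) + 2)) := by
      intro d
      simp only [Fintype.sum_sigma]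
      rw [Finset.sum_comm]
      have e6 : ∀ e : Fin D, ∑ j : Fin ((d : ℕ) + 2) → J, ∑ j' : Fin ((e : ℕ) + 2) → J,
          nx a s c α (some ⟨d, j⟩) * nx a s c β (some ⟨e, j'⟩) *
          kap (trn tr (some ⟨d, j⟩)) (trn tr (some ⟨e, j'⟩)) =
          s⁻¹ ^ 2 * (c d * c e) * (if d = e then (((d : ℕ) + 2).factorial : ℝ) *
            CC tr α β ^ ((d : ℕ) + 2) else 0) := by
        intro e
        have h1 := CC_join hp hp1 hα hβ (d : ℕ) (e : ℕ)
        have h2 : ((d : ℕ) = (e : ℕ)) ↔ d = e := Fin.val_inj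
        simp only [h2] at h1
        rw [← h1, Finset.mul_sum]
        refine Finset.sum_congr rfl fun j _ => ?_
        rw [Finset.mul_sum]
        refine Finset.sum_congr rfl fun j' _ => ?_
        simp only [nx, trn]
        ring
      simp only [e6]
      rw [Finset.sum_eq_single d]
      · rw [if_pos rfl]
        ring
      · intro e _ he
        rw [if_neg (Ne.symm he), mul_zero]
      · intro h
        exact absurd (mem_univ _) h
    simp only [e5]
    rw [Finset.mul_sum]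
  have e7 : nx a s c α (none : JJ D J) = s⁻¹ * a := rfl
  have e8 : nx a s c β (none : JJ D J) = s⁻¹ * a := rfl
  rw [e4, e7, e8]
  unfold CC
  ring

theorem nxt_Gf (hp : 0 < p) (hp1 : p < 1) {G : MF} {α : J → ℝ} (hα : CC tr α α = 1)
    (hG : Neg p (fun N _ σ t => G N σ t - Gf p tr α N σ t)) (a s : ℝ) (c : Fin D → ℝ) :
    Neg p (fun N _ σ t => nxt p a s c G N σ t - Gf p (trn tr) (nx a s c α) N σ t) := by
  have h1 : ∀ d : Fin D, Neg p (fun N _ σ t =>
      TT p σ (fun t => He ((d : ℕ) + 2) (G N σ t)) t - ∑ j : Fin ((d : ℕ) + 2) → J,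
        (∏ i, α (j i)) * Shp.F p (join fun i => tr (j i)).toShp N σ t) := by
    intro d
    have h2 := (He_Wk hp hp1 hα hG ((d : ℕ) + 2)).TT hp hp1
    have h3 : Neg p (fun N _ σ t => ∑ j : Fin ((d : ℕ) + 2) → J, (∏ i, α (j i)) *
        (TT p σ (Shp.F p (Sig fun i => tr (j i)) N σ) t -
          Shp.F p (join fun i => tr (j i)).toShp N σ t)) :=
      Neg.sum hp hp1 univ _ fun j _ => (T_rule (fun i => tr (j i)) p hp hp1).smul _
    refine (h2.add hp hp1 h3).congr fun N _ σ t => ?_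
    rw [TT_sub]
    have h4 : TT p σ (fun t => Wk p tr (fun _ : Fin ((d : ℕ) + 2) => α) N σ t) t =
        ∑ j : Fin ((d : ℕ) + 2) → J, (∏ i, α (j i)) *
          TT p σ (Shp.F p (Sig fun i => tr (j i)) N σ) t :=
      TT_sum p σ univ (fun j : Fin ((d : ℕ) + 2) → J => ∏ i, α (j i))
        (fun j => Shp.F p (Sig fun i => tr (j i)) N σ) t
    rw [h4]
    simp only [mul_sub]
    rw [Finset.sum_sub_distrib]
    ring
  have h2 : Neg p (fun N _ σ t => ∑ d : Fin D, (s⁻¹ * c d) *
      (TT p σ (fun t => He ((d : ℕ) + 2) (G N σ t)) t - ∑ j : Fin ((d : ℕ) + 2) → J,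
        (∏ i, α (j i)) * Shp.F p (join fun i => tr (j i)).toShp N σ t)) :=
    Neg.sum hp hp1 univ _ fun d _ => (h1 d).smul _
  refine h2.congr fun N _ σ t => ?_
  unfold nxt Gf Psi
  rw [TT_add p σ (fun t => a * ee N t), TT_mul p σ a (ee N), TT_ee, TT_sum p σ univ c
    (fun d : Fin D => fun t => He ((d : ℕ) + 2) (G N σ t)), Fintype.sum_option, Fintype.sum_sigma]
  simp only [nx, trn, mul_sub]
  rw [Finset.sum_sub_distrib]
  have e1 : ∀ d : Fin D, ∑ j : Fin ((d : ℕ) + 2) → J, s⁻¹ * c d * (∏ i, α (j i)) *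
      Shp.F p (join fun i => tr (j i)).toShp N σ t =
      s⁻¹ * c d * ∑ j : Fin ((d : ℕ) + 2) → J, (∏ i, α (j i)) *
        Shp.F p (join fun i => tr (j i)).toShp N σ t := by
    intro d
    rw [Finset.mul_sum]
    exact Finset.sum_congr rfl fun j _ => by ring
  simp only [e1]
  rw [mul_add, Finset.mul_sum]
  have e2 : ∀ d : Fin D, s⁻¹ * (c d * TT p σ (fun t => He ((d : ℕ) + 2) (G N σ t)) t) =
      s⁻¹ * c d * TT p σ (fun t => He ((d : ℕ) + 2) (G N σ t)) t := fun d => by ring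
  simp only [e2]
  ring

end step

/-- two families with a common expansion -/
def Pair (p : ℝ) (G H : MF) (ρ : ℝ) : Prop :=
  ∃ (J : Type) (_ : Fintype J) (tr : J → Tree) (α β : J → ℝ),
    CC tr α α = 1 ∧ CC tr β β = 1 ∧ CC tr α β = ρ ∧
    Neg p (fun N _ σ t => G N σ t - Gf p tr α N σ t) ∧
    Neg p (fun N _ σ t => H N σ t - Gf p tr β N σ t)

theorem Pair.step {p : ℝ} (hp : 0 < p) (hp1 : p < 1) {G H : MF} {ρ : ℝ} (h : Pair p G H ρ)
    {D : ℕ} (a s : ℝ) (c : Fin D → ℝ) (hs : s ≠ 0)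
    (hs2 : s ^ 2 = a ^ 2 + ∑ d : Fin D, c d ^ 2 * (((d : ℕ) + 2).factorial : ℝ)) :
    Pair p (nxt p a s c G) (nxt p a s c H) (s⁻¹ ^ 2 * (a ^ 2 + ∑ d : Fin D, c d ^ 2 *
      (((d : ℕ) + 2).factorial : ℝ) * ρ ^ ((d : ℕ) + 2))) := by
  obtain ⟨J, _, tr, α, β, hα, hβ, hαβ, hG, hH⟩ := h
  refine ⟨JJ D J, inferInstance, trn tr, nx a s c α, nx a s c β, ?_, ?_, ?_,
    nxt_Gf hp hp1 hα hG a s c, nxt_Gf hp hp1 hβ hH a s c⟩
  · rw [CC_nx hp hp1 hα hα]
    simp only [hα, one_pow, mul_one]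
    rw [← hs2, ← mul_pow, inv_mul_cancel₀ hs, one_pow]
  · rw [CC_nx hp hp1 hβ hβ]
    simp only [hβ, one_pow, mul_one]
    rw [← hs2, ← mul_pow, inv_mul_cancel₀ hs, one_pow]
  · rw [CC_nx hp hp1 hα hβ, hαβ]

theorem Pair.base {p : ℝ} (hp : 0 < p) (hp1 : p < 1)
    {D : ℕ} (a s : ℝ) (c : Fin D → ℝ) (hs : s ≠ 0)
    (hs2 : s ^ 2 = a ^ 2 + ∑ d : Fin D, c d ^ 2 * (((d : ℕ) + 2).factorial : ℝ)) :
    Pair p (Shp.F p leafT.toShp) (nxt p a s c (Shp.F p leafT.toShp)) (s⁻¹ * a) := by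
  set tr : Unit → Tree := fun _ => leafT with htr
  have hα : CC tr (fun _ => 1) (fun _ => 1) = 1 := by
    unfold CC
    simp only [htr]
    rw [Fintype.sum_unique, Fintype.sum_unique, kap_leaf hp hp1]
    norm_num
  have hG : Neg p (fun N _ σ t => Shp.F p leafT.toShp N σ t - Gf p tr (fun _ => 1) N σ t) := by
    refine (Neg.zero (p := p)).congr fun N _ σ t => ?_
    unfold Gf
    rw [Fintype.sum_unique]
    simp only [htr]
    ring
  set δ : JJ D Unit → ℝ := fun x => if x = none then 1 else 0 with hδ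
  have key : ∀ v : JJ D Unit → ℝ, CC (trn tr) δ v = v none := by
    intro v
    unfold CC
    rw [Fintype.sum_option]
    simp only [Fintype.sum_option]
    have e1 : ∀ x : (Σ d : Fin D, (Fin ((d : ℕ) + 2) → Unit)),
        kap (trn tr (none : JJ D Unit)) (trn tr (some x)) = 0 := fun x =>
      kap_leaf_join hp hp1 fun i => tr (x.2 i)
    have e3 : kap (trn tr (none : JJ D Unit)) (trn tr (none : JJ D Unit)) = 1 :=
      kap_leaf hp hp1
    simp only [e1, e3, hδ, mul_zero, mul_one, Finset.sum_const_zero, add_zero, zero_mul,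
      if_true, one_mul]
    simp
  refine ⟨JJ D Unit, inferInstance, trn tr, δ, nx a s c (fun _ => 1), ?_, ?_, ?_, ?_,
    nxt_Gf hp hp1 hα hG a s c⟩
  · rw [key]
    simp [hδ]
  · rw [CC_nx hp hp1 hα hα]
    simp only [hα, one_pow, mul_one]
    rw [← hs2, ← mul_pow, inv_mul_cancel₀ hs, one_pow]
  · rw [key]
    rfl
  · refine (Neg.zero (p := p)).congr fun N _ σ t => ?_
    unfold Gf
    rw [Fintype.sum_option]
    simp only [hδ]
    simp [trn]

/-- the iterates -/
noncomputable def GG (p : ℝ) {D : ℕ} (a s : ℝ) (c : Fin D → ℝ) : ℕ → MF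
  | 0 => Shp.F p leafT.toShp
  | (m + 1) => nxt p a s c (GG p a s c m)

/-- the correlations -/
noncomputable def rho {D : ℕ} (a s : ℝ) (c : Fin D → ℝ) : ℕ → ℝ
  | 0 => s⁻¹ * a
  | (m + 1) => s⁻¹ ^ 2 * (a ^ 2 + ∑ d : Fin D, c d ^ 2 *
      (((d : ℕ) + 2).factorial : ℝ) * rho a s c m ^ ((d : ℕ) + 2))

theorem pair_GG {p : ℝ} (hp : 0 < p) (hp1 : p < 1)
    {D : ℕ} (a s : ℝ) (c : Fin D → ℝ) (hs : s ≠ 0)
    (hs2 : s ^ 2 = a ^ 2 + ∑ d : Fin D, c d ^ 2 * (((d : ℕ) + 2).factorial : ℝ)) (m : ℕ) :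
    Pair p (GG p a s c m) (GG p a s c (m + 1)) (rho a s c m) := by
  induction m with
  | zero => exact Pair.base hp hp1 a s c hs hs2
  | succ m ih => exact ih.step hp hp1 a s c hs hs2

end Pool.Agent.H976.C
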