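import Pool.Agent.H976.C.K

/-!
# Circulant theta: the multiplier on forests, covariances
-/

set_option autoImplicit false
set_option linter.unusedSectionVars false

namespace Pool.Agent.H976.C

open Finset Real

/-- Chaoses of isomorphic shapes. -/
theorem F_iso (p : ℝ) (H H' : Shp) (eX : H.X ≃ H'.X) (eV : H.V ≃ H'.V)
    (hS : ∀ v x, x ∈ H.S v ↔ eX x ∈ H'.S (eV v)) (N : ℕ) [NeZero N] (σ : Cfg (ZMod N))
    (t : ZMod N) : Shp.F p H N σ t = Shp.F p H' N σ t := by
  have hvl : ∀ (k : H'.X → ZMod N) (v : H.V), H.vl (k ∘ eX) v = H'.vl k (eV v) := by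
    intro k v
    unfold Shp.vl
    refine Finset.sum_nbij eX ?_ ?_ ?_ ?_
    · intro x hx
      exact (hS v x).1 hx
    · intro a _ b _ h
      exact eX.injective h
    · intro y hy
      refine ⟨eX.symm y, ?_, eX.apply_symm_apply y⟩
      rw [mem_coe, hS, eX.apply_symm_apply]
      exact hy
    · intro x _
      rfl
  have hrh : ∀ (k : H'.X → ZMod N), H.rh (k ∘ eX) = H'.rh k := by
    intro k
    unfold Shp.rh
    exact Equiv.sum_comp eX k
  have hgs : ∀ (k : H'.X → ZMod N), k ∘ eX ∈ H.gs N ↔ k ∈ H'.gs N := by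
    intro k
    rw [Shp.mem_gs, Shp.mem_gs]
    constructor
    · intro h u _ w _
      have := h (eV.symm u) (mem_univ _) (eV.symm w) (mem_univ _)
      rw [hvl, hvl, eV.apply_symm_apply, eV.apply_symm_apply] at this
      exact ⟨this.1, fun hne => this.2 fun h' => hne (eV.symm.injective h')⟩
    · intro h u _ w _
      have := h (eV u) (mem_univ _) (eV w) (mem_univ _)
      rw [hvl, hvl]
      exact ⟨this.1, fun hne => this.2 fun h' => hne (eV.injective h')⟩
  have hmon : ∀ (k : H'.X → ZMod N), monD p σ univ (H.vl (k ∘ eX)) = monD p σ univ (H'.vl k) := by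
    intro k
    unfold monD
    rw [← Equiv.prod_comp eV]
    exact Finset.prod_congr rfl fun v _ => by rw [hvl]
  unfold Shp.F
  rw [Fintype.card_congr eX]
  congr 1
  refine Finset.sum_nbij' (fun k => k ∘ eX.symm) (fun k => k ∘ eX) ?_ ?_ ?_ ?_ ?_
  · intro k hk
    rw [← hgs]
    have : (k ∘ eX.symm) ∘ eX = k := by
      funext x
      simp
    rw [this]
    exact hk
  · intro k hk
    exact (hgs k).2 hk
  · intro k _
    funext x
    simp
  · intro k _
    funext x
    simp
  · intro k _
    have : (k ∘ eX.symm) ∘ eX = k := by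
      funext x
      simp
    rw [← hmon (k ∘ eX.symm), ← hrh (k ∘ eX.symm), this]

/-- the forest with one tree -/
theorem F_one (p : ℝ) {ι : Type} [Fintype ι] [DecidableEq ι] [Unique ι] (T : ι → Tree) (N : ℕ)
    [NeZero N] (σ : Cfg (ZMod N)) (t : ZMod N) :
    Shp.F p (Sig T) N σ t = Shp.F p (T default).toShp N σ t := by
  symm
  refine F_iso p _ _ (Equiv.ofBijective (fun x => (⟨default, x⟩ : (Sig T).X)) ⟨?_, ?_⟩)
    (Equiv.ofBijective (fun x => (⟨default, x⟩ : (Sig T).V)) ⟨?_, ?_⟩) ?_ N σ t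
  · intro a b h
    exact eq_of_heq (Sigma.mk.inj h).2
  · rintro ⟨i, x⟩
    obtain rfl := Unique.eq_default i
    exact ⟨x, rfl⟩
  · intro a b h
    exact eq_of_heq (Sigma.mk.inj h).2
  · rintro ⟨i, x⟩
    obtain rfl := Unique.eq_default i
    exact ⟨x, rfl⟩
  · intro v x
    exact (Sig_mem T default x v).symm

/-- the empty forest -/
theorem F_empty (p : ℝ) {ι : Type} [Fintype ι] [DecidableEq ι] [IsEmpty ι] (T : ι → Tree) (N : ℕ)
    [NeZero N] (σ : Cfg (ZMod N)) (t : ZMod N) : Shp.F p (Sig T) N σ t = 1 := by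
  haveI h1 : IsEmpty (Sig T).X := ⟨fun x => isEmptyElim x.1⟩
  haveI h2 : IsEmpty (Sig T).V := ⟨fun x => isEmptyElim x.1⟩
  unfold Shp.F
  have h3 : (Sig T).gs N = univ := by
    ext k
    rw [Shp.mem_gs]
    simp only [mem_univ, iff_true]
    intro u
    exact isEmptyElim u
  have h4 : Fintype.card (Sig T).X = 0 := Fintype.card_eq_zero
  rw [h3, h4, pow_zero, div_one]
  have h5 : ∀ k : (Sig T).X → ZMod N, (Sig T).rh k = 0 := by
    intro k
    unfold Shp.rh
    exact Fintype.sum_empty _
  have h6 : ∀ k : (Sig T).X → ZMod N, monD p σ univ ((Sig T).vl k) = 1 := by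
    intro k
    unfold monD
    exact Fintype.prod_empty _
  simp only [h5, h6, zero_mul, cs_zero, mul_one]
  rw [Finset.sum_const, card_univ, Fintype.card_fun, h4, pow_zero, one_smul]

/-- reindexing -/
theorem F_reindex (p : ℝ) {ι ι' : Type} [Fintype ι] [DecidableEq ι] [Fintype ι'] [DecidableEq ι']
    (e : ι ≃ ι') (T : ι' → Tree) (N : ℕ) [NeZero N] (σ : Cfg (ZMod N)) (t : ZMod N) :
    Shp.F p (Sig fun i => T (e i)) N σ t = Shp.F p (Sig T) N σ t := by
  refine F_iso p _ _ (Equiv.ofBijective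
      (fun x : (Sig fun i => T (e i)).X => (⟨e x.1, x.2⟩ : (Sig T).X)) ⟨?_, ?_⟩)
    (Equiv.ofBijective
      (fun x : (Sig fun i => T (e i)).V => (⟨e x.1, x.2⟩ : (Sig T).V)) ⟨?_, ?_⟩) ?_ N σ t
  · rintro ⟨i, a⟩ ⟨j, b⟩ h
    obtain ⟨h1, h2⟩ := Sigma.mk.inj h
    have h3 : i = j := e.injective h1
    subst h3
    have h4 := eq_of_heq h2
    change a = b at h4
    rw [h4]
  · rintro ⟨i, x⟩
    obtain ⟨j, rfl⟩ := e.surjective i
    exact ⟨⟨j, x⟩, rfl⟩
  · rintro ⟨i, a⟩ ⟨j, b⟩ h
    obtain ⟨h1, h2⟩ := Sigma.mk.inj h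
    have h3 : i = j := e.injective h1
    subst h3
    have h4 := eq_of_heq h2
    change a = b at h4
    rw [h4]
  · rintro ⟨i, x⟩
    obtain ⟨j, rfl⟩ := e.surjective i
    exact ⟨⟨j, x⟩, rfl⟩
  · rintro ⟨i, v⟩ ⟨j, x⟩
    constructor
    · intro h
      have h1 : j = i := Sig_fst (fun i => T (e i)) _ _ h
      subst h1
      exact (Sig_mem T (e j) x v).2 ((Sig_mem (fun i => T (e i)) j x v).1 h)
    · intro h
      have h1 : e j = e i := Sig_fst T _ _ h
      have h2 := e.injective h1
      subst h2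
      exact (Sig_mem (fun i => T (e i)) j x v).2 ((Sig_mem T (e j) x v).1 h)

/-! ### Joining trees -/

section join

variable {ι : Type} [Fintype ι] [DecidableEq ι] [Nontrivial ι] (T : ι → Tree)

theorem Sig_X_nonempty (i : ι) : ∃ y : (Sig T).X, y.1 = i := by
  obtain ⟨x, -⟩ := (T i).ne (T i).root
  exact ⟨⟨i, x⟩, rfl⟩

theorem Sig_S_ne (v : (Sig T).V) : ∃ y, y ∉ (Sig T).S v := by
  obtain ⟨i, hi⟩ := exists_ne v.1
  obtain ⟨y, hy⟩ := Sig_X_nonempty T i
  refine ⟨y, fun h => hi ?_⟩
  rw [← hy, Sig_fst T y v h]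

/-- joining trees -/
def join : Tree where
  X := (Sig T).X
  V := Option (Sig T).V
  S v := v.elim univ (Sig T).S
  leaf x := some ((Sig T).leaf x)
  leafS x := (Sig T).leafS x
  ne := by
    rintro (_ | v)
    · obtain ⟨i, -⟩ := exists_pair_ne ι
      obtain ⟨y, -⟩ := Sig_X_nonempty T i
      exact ⟨y, mem_univ _⟩
    · exact (Sig T).ne v
  root := none
  rootS := rfl
  inj := by
    rintro (_ | v) (_ | w) h
    · rfl
    · obtain ⟨y, hy⟩ := Sig_S_ne T w
      simp only [Option.elim] at h
      exact absurd (by rw [← h]; exact mem_univ y) hy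
    · obtain ⟨y, hy⟩ := Sig_S_ne T v
      simp only [Option.elim] at h
      exact absurd (by rw [h]; exact mem_univ y) hy
    · simp only [Option.elim] at h
      rw [Sig_inj T h]

variable {N : ℕ} [NeZero N]

theorem join_vl_some (k : (Sig T).X → ZMod N) (v : (Sig T).V) :
    (join T).vl k (some v) = (Sig T).vl k v := rfl

theorem join_vl_none (k : (Sig T).X → ZMod N) : (join T).vl k none = (Sig T).rh k := rfl

theorem join_rh (k : (Sig T).X → ZMod N) : (join T).rh k = (Sig T).rh k := rfl

theorem join_gs (k : (Sig T).X → ZMod N) : k ∈ (join T).gs N ↔ k ∈ (Sig T).gs N ∧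
    (Sig T).rh k + (Sig T).rh k ≠ 0 ∧ ∀ v s, (Sig T).rh k ≠ sg s ((Sig T).vl k v) := by
  have a0 : k ∈ (join T).gs N ↔ GenD univ ((join T).vl k) := (join T).mem_gs k
  have a0' : k ∈ (Sig T).gs N ↔ GenD univ ((Sig T).vl k) := (Sig T).mem_gs k
  constructor
  · intro h
    have h := a0.1 h
    refine ⟨a0'.2 fun u _ w _ => ?_, (h none (mem_univ _) none (mem_univ _)).1, fun v s hs => ?_⟩
    · have := h (some u) (mem_univ _) (some w) (mem_univ _)
      exact ⟨this.1, fun hne => this.2 fun h' => hne (Option.some.inj h')⟩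
    · have := h none (mem_univ _) (some v) (mem_univ _)
      rw [join_vl_none, join_vl_some, hs] at this
      rcases s
      · simp only [sg, Bool.false_eq_true, if_false] at this
        exact this.1 (neg_add_cancel _)
      · simp only [sg, if_true] at this
        exact this.2 (by simp) rfl
  · rintro ⟨h1, h2, h3⟩
    have h1 := a0'.1 h1
    refine a0.2 ?_
    rintro (_ | u) - (_ | w) -
    · exact ⟨h2, fun h => absurd rfl h⟩
    · rw [join_vl_none, join_vl_some]
      refine ⟨fun h => h3 w false ?_, fun _ h => h3 w true ?_⟩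
      · simp only [sg, Bool.false_eq_true, if_false]
        exact eq_neg_of_add_eq_zero_left h
      · simp only [sg, if_true]
        exact h
    · rw [join_vl_none, join_vl_some]
      refine ⟨fun h => h3 u false ?_, fun _ h => h3 u true ?_⟩
      · simp only [sg, Bool.false_eq_true, if_false]
        exact eq_neg_of_add_eq_zero_right h
      · simp only [sg, if_true]
        exact h.symm
    · rw [join_vl_some, join_vl_some]
      obtain ⟨a1, a2⟩ := h1 u (mem_univ _) w (mem_univ _)
      exact ⟨a1, fun hne => a2 fun h' => hne (by rw [h'])⟩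

theorem join_mon (p : ℝ) (σ : Cfg (ZMod N)) (k : (Sig T).X → ZMod N) :
    monD p σ univ ((join T).vl k) = ww p σ ((Sig T).rh k) * monD p σ univ ((Sig T).vl k) := by
  unfold monD
  have h1 : ∏ v : Option (Sig T).V, ww p σ ((join T).vl k v) =
      ww p σ ((join T).vl k none) * ∏ v : (Sig T).V, ww p σ ((join T).vl k (some v)) :=
    Fintype.prod_option _
  exact h1

theorem card_bad (v : (Sig T).V) (s : Bool) :
    #((Sig T).gs N |>.filter fun k => (Sig T).rh k = sg s ((Sig T).vl k v)) * N ≤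
      1 * N ^ Fintype.card (Sig T).X := by
  obtain ⟨y, hy⟩ := Sig_S_ne T v
  have h1 := card_lf (N := N) (fun x => 1 - (if x ∈ (Sig T).S v then sgz s else 0)) y
    (by simp [hy]) 0
  have h2 : (1 - (if y ∈ (Sig T).S v then sgz s else 0)).natAbs = 1 := by simp [hy]
  rw [h2] at h1
  refine le_trans (Nat.mul_le_mul_right _ (Finset.card_le_card ?_)) h1
  intro k hk
  rw [mem_filter] at hk ⊢
  refine ⟨mem_univ _, ?_⟩
  rw [lf_sub, lf_ind]
  have h3 : lf (fun _ => 1) k = (Sig T).rh k := by
    unfold lf Shp.rh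
    exact Finset.sum_congr rfl fun x _ => by simp
  rw [h3, hk.2, sub_self]

theorem shape_cnt (H : Shp) (I : Finset (H.X → ZMod N)) (D : Finset H.V)
    (hD : ∀ k ∈ I, ∀ l ∈ I, (∀ u ∈ D, H.vl k u = H.vl l u) → H.rh k = H.rh l → k = l) :
    #{x ∈ I ×ˢ I | cset D (H.vl x.1) = cset D (H.vl x.2) ∧
      (H.rh x.1 = H.rh x.2 ∨ H.rh x.1 = -H.rh x.2)} ≤
      (Fintype.card H.V * 2) ^ Fintype.card H.V * 2 * #I := by
  classical
  have h1 := cnt (A := H.X → ZMod N) I D (fun k => H.vl k) (fun k => H.rh k) {0} (by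
      intro i hi j hj hij hr
      rw [mem_singleton, sub_eq_zero]
      exact hD i hi j hj hij hr)
  rw [card_singleton, mul_one] at h1
  exact h1

/-- The multiplier applied to a forest with at least two trees. -/
theorem T_rule (p : ℝ) (hp : 0 < p) (hp1 : p < 1) :
    Neg p (fun N _ σ t => TT p σ (Shp.F p (Sig T) N σ) t - Shp.F p (join T).toShp N σ t) := by
  classical
  set H := Sig T with hH
  set n := Fintype.card H.X with hn
  -- the two kinds of terms
  have key : ∀ (v : H.V) (s : Bool) (D : Finset H.V), univ \ {v} ⊆ D →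
      Neg p (fun N _ σ t => (∑ k ∈ (H.gs N).filter (fun k => H.rh k = sg s (H.vl k v)),
        monD p σ D (H.vl k) * cs (H.rh k * t)) / √N ^ n) := by
    intro v s D hD
    refine neg_of_count p hp hp1 D n ((Fintype.card H.V * 2) ^ Fintype.card H.V * 2) _ ?_
    intro N _
    refine ⟨H.X → ZMod N, (H.gs N).filter (fun k => H.rh k = sg s (H.vl k v)), fun k => H.vl k,
      fun k => H.rh k, fun k hk => ?_, fun σ t => rfl, ?_⟩
    · have h1 := (H.mem_gs k).1 (mem_filter.1 hk).1
      exact fun u _ w _ => h1 u (mem_univ _) w (mem_univ _)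
    · have h1 := shape_cnt H ((H.gs N).filter (fun k => H.rh k = sg s (H.vl k v))) D (by
        intro k hk l hl h hr
        have h2 : ∀ u, H.vl k u = H.vl l u := by
          intro u
          by_cases hu : u = v
          · subst hu
            rw [(sg_swap s _ _).1 (mem_filter.1 hk).2, (sg_swap s _ _).1 (mem_filter.1 hl).2, hr]
          · exact h u (hD (by simp [hu]))
        funext x
        rw [← H.vl_leaf k x, ← H.vl_leaf l x]
        exact h2 _)
      have h2 := card_bad (N := N) T v s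
      rw [one_mul] at h2
      generalize #((H.gs N).filter (fun k => H.rh k = sg s (H.vl k v))) = A at h1 h2
      calc _ ≤ (Fintype.card H.V * 2) ^ Fintype.card H.V * 2 * A * N :=
            Nat.mul_le_mul_right _ h1
        _ = (Fintype.card H.V * 2) ^ Fintype.card H.V * 2 * (A * N) := by ring
        _ ≤ _ := Nat.mul_le_mul_left _ h2
  have hsum : Neg p (fun N _ σ t => ∑ v : H.V, ∑ s : Bool,
      ((∑ k ∈ (H.gs N).filter (fun k => H.rh k = sg s (H.vl k v)),
        monD p σ (univ \ {v}) (H.vl k) * cs (H.rh k * t)) / √N ^ n +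
      bb p * ((∑ k ∈ (H.gs N).filter (fun k => H.rh k = sg s (H.vl k v)),
        monD p σ univ (H.vl k) * cs (H.rh k * t)) / √N ^ n))) := by
    refine Neg.sum hp hp1 _ (fun v => fun N _ σ t => ∑ s : Bool,
      ((∑ k ∈ (H.gs N).filter (fun k => H.rh k = sg s (H.vl k v)),
        monD p σ (univ \ {v}) (H.vl k) * cs (H.rh k * t)) / √N ^ n +
      bb p * ((∑ k ∈ (H.gs N).filter (fun k => H.rh k = sg s (H.vl k v)),
        monD p σ univ (H.vl k) * cs (H.rh k * t)) / √N ^ n))) fun v _ => ?_
    refine Neg.sum hp hp1 _ (fun s => fun N _ σ t =>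
      ((∑ k ∈ (H.gs N).filter (fun k => H.rh k = sg s (H.vl k v)),
        monD p σ (univ \ {v}) (H.vl k) * cs (H.rh k * t)) / √N ^ n +
      bb p * ((∑ k ∈ (H.gs N).filter (fun k => H.rh k = sg s (H.vl k v)),
        monD p σ univ (H.vl k) * cs (H.rh k * t)) / √N ^ n))) fun s _ => ?_
    exact (key v s _ (Finset.Subset.refl _)).add hp hp1
      ((key v s univ (Finset.subset_univ _)).smul (bb p))
  refine hsum.congr fun N _ σ t => ?_
  -- the multiplier
  have e1 : TT p σ (Shp.F p H N σ) t = (∑ k ∈ H.gs N, ww p σ (H.rh k) * monD p σ univ (H.vl k) *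
      cs (H.rh k * t)) / √N ^ n := by
    have h1 : Shp.F p H N σ = fun t => ∑ k ∈ H.gs N, (monD p σ univ (H.vl k) / √N ^ n) *
        cs (H.rh k * t) := by
      funext t
      unfold Shp.F
      rw [Finset.sum_div]
      exact Finset.sum_congr rfl fun k _ => by ring
    rw [h1, TT_sum, Finset.sum_div]
    refine Finset.sum_congr rfl fun k _ => ?_
    rw [TT_cs]
    ring
  obtain ⟨J, hJ⟩ : ∃ J : Finset (H.X → ZMod N), J = (join T).gs N := ⟨_, rfl⟩
  have hJm : ∀ k : H.X → ZMod N, k ∈ J ↔ k ∈ H.gs N ∧ H.rh k + H.rh k ≠ 0 ∧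
      ∀ v s, H.rh k ≠ sg s (H.vl k v) := by
    intro k
    rw [hJ]
    exact join_gs T k
  have e2 : Shp.F p (join T).toShp N σ t = (∑ k ∈ J,
      ww p σ (H.rh k) * monD p σ univ (H.vl k) * cs (H.rh k * t)) / √N ^ n := by
    unfold Shp.F
    have h1 : Fintype.card (join T).X = n := rfl
    rw [h1, hJ]
    congr 1
    refine Finset.sum_congr rfl fun k _ => ?_
    rw [join_mon, join_rh]
  have e3 : ∑ k ∈ H.gs N, ww p σ (H.rh k) * monD p σ univ (H.vl k) * cs (H.rh k * t) =
      ∑ k ∈ J, ww p σ (H.rh k) * monD p σ univ (H.vl k) * cs (H.rh k * t) +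
      ∑ v : H.V, ∑ s : Bool, ∑ k ∈ (H.gs N).filter (fun k => H.rh k = sg s (H.vl k v)),
        ww p σ (H.rh k) * monD p σ univ (H.vl k) * cs (H.rh k * t) := by
    have h1 : ∑ v : H.V, ∑ s : Bool, ∑ k ∈ (H.gs N).filter (fun k => H.rh k = sg s (H.vl k v)),
        ww p σ (H.rh k) * monD p σ univ (H.vl k) * cs (H.rh k * t) =
        ∑ k ∈ H.gs N, (∑ q : H.V × Bool, if H.rh k = sg q.2 (H.vl k q.1) then (1 : ℝ) else 0) *
          (ww p σ (H.rh k) * monD p σ univ (H.vl k) * cs (H.rh k * t)) := by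
      simp only [Finset.sum_filter, Finset.sum_mul, Fintype.sum_prod_type, ite_mul, one_mul,
        zero_mul]
      rw [Finset.sum_comm' (t' := univ) (s' := fun _ => univ) (by simp)]
      have h2 : ∀ v : H.V, ∑ s : Bool, ∑ k ∈ H.gs N, (if H.rh k = sg s (H.vl k v) then
          ww p σ (H.rh k) * monD p σ univ (H.vl k) * cs (H.rh k * t) else 0) =
          ∑ k ∈ H.gs N, ∑ s : Bool, (if H.rh k = sg s (H.vl k v) then
          ww p σ (H.rh k) * monD p σ univ (H.vl k) * cs (H.rh k * t) else 0) :=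
        fun v => Finset.sum_comm
      first
        | (simp only [h2]; exact Finset.sum_comm)
        | (rw [Finset.sum_comm]; simp only [h2]; exact Finset.sum_comm)
    rw [h1]
    have h2 : ∑ k ∈ J, ww p σ (H.rh k) * monD p σ univ (H.vl k) * cs (H.rh k * t) =
        ∑ k ∈ H.gs N, (if k ∈ J then (1 : ℝ) else 0) *
          (ww p σ (H.rh k) * monD p σ univ (H.vl k) * cs (H.rh k * t)) := by
      simp only [ite_mul, one_mul, zero_mul]
      rw [← Finset.sum_filter]
      refine Finset.sum_congr ?_ fun _ _ => rfl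
      ext k
      rw [mem_filter]
      exact ⟨fun h => ⟨((hJm k).1 h).1, h⟩, fun h => h.2⟩
    rw [h2, ← Finset.sum_add_distrib]
    refine Finset.sum_congr rfl fun k hk => ?_
    by_cases h0 : H.rh k + H.rh k = 0
    · have h3 : ww p σ (H.rh k) = 0 := by
        unfold ww
        rw [if_pos h0]
      rw [h3]
      ring
    · by_cases h4 : k ∈ J
      · have h5 : ∑ q : H.V × Bool, (if H.rh k = sg q.2 (H.vl k q.1) then (1 : ℝ) else 0) = 0 := by
          refine Finset.sum_eq_zero fun q _ => ?_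
          rw [if_neg (((hJm k).1 h4).2.2 q.1 q.2)]
        rw [h5, if_pos h4]
        ring
      · have h5 : ∃ v s, H.rh k = sg s (H.vl k v) := by
          by_contra hcon
          push Not at hcon
          exact h4 ((hJm k).2 ⟨hk, h0, hcon⟩)
        obtain ⟨v, s, hvs⟩ := h5
        have hG := (H.mem_gs k).1 hk
        have h6 : ∑ q : H.V × Bool, (if H.rh k = sg q.2 (H.vl k q.1) then (1 : ℝ) else 0) = 1 := by
          rw [Finset.sum_eq_single (v, s)]
          · rw [if_pos hvs]
          · rintro ⟨w, s'⟩ _ hne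
            rw [if_neg]
            intro h7
            simp only at h7
            rw [hvs] at h7
            have h8 : v = w ∧ s = s' := by
              rcases s <;> rcases s' <;> simp only [sg, Bool.false_eq_true, if_false, if_true] at h7
              · refine ⟨?_, rfl⟩
                by_contra hvw
                exact (hG v (mem_univ _) w (mem_univ _)).2 hvw (neg_injective h7)
              · exact absurd (by rw [← h7, add_neg_cancel]) (hG v (mem_univ _) w (mem_univ _)).1
              · exact absurd (by rw [h7, neg_add_cancel]) (hG v (mem_univ _) w (mem_univ _)).1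
              · refine ⟨?_, rfl⟩
                by_contra hvw
                exact (hG v (mem_univ _) w (mem_univ _)).2 hvw h7
            exact hne (by rw [h8.1, h8.2])
          · intro h
            exact absurd (mem_univ _) h
        rw [h6, if_neg h4]
        ring
  have e4 : ∀ (v : H.V) (s : Bool), ∀ k ∈ (H.gs N).filter (fun k => H.rh k = sg s (H.vl k v)),
      ww p σ (H.rh k) * monD p σ univ (H.vl k) * cs (H.rh k * t) =
      monD p σ (univ \ {v}) (H.vl k) * cs (H.rh k * t) +
        bb p * (monD p σ univ (H.vl k) * cs (H.rh k * t)) := by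
    intro v s k hk
    rw [mem_filter] at hk
    have hG := (H.mem_gs k).1 hk.1
    have h1 : monD p σ univ (H.vl k) = monD p σ (univ \ {v}) (H.vl k) * ww p σ (H.vl k v) := by
      unfold monD
      rw [← Finset.prod_sdiff (Finset.subset_univ {v}), Finset.prod_singleton]
    have h2 : ww p σ (H.rh k) = ww p σ (H.vl k v) := by
      rw [hk.2, ww_sg]
    have h3 : ww p σ (H.vl k v) * ww p σ (H.vl k v) = 1 + bb p * ww p σ (H.vl k v) := by
      unfold ww
      rw [if_neg (hG v (mem_univ _) v (mem_univ _)).1, ← sq, om_sq p hp hp1]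
    rw [h2, h1]
    linear_combination (monD p σ (univ \ {v}) (H.vl k) * cs (H.rh k * t)) * h3
  rw [e1, e2, e3]
  have e5 : ∀ (v : H.V) (s : Bool), (∑ k ∈ (H.gs N).filter (fun k => H.rh k = sg s (H.vl k v)),
        monD p σ (univ \ {v}) (H.vl k) * cs (H.rh k * t)) / √N ^ n +
      bb p * ((∑ k ∈ (H.gs N).filter (fun k => H.rh k = sg s (H.vl k v)),
        monD p σ univ (H.vl k) * cs (H.rh k * t)) / √N ^ n) =
      (∑ k ∈ (H.gs N).filter (fun k => H.rh k = sg s (H.vl k v)),
        ww p σ (H.rh k) * monD p σ univ (H.vl k) * cs (H.rh k * t)) / √N ^ n := by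
    intro v s
    rw [Finset.sum_congr rfl (e4 v s), Finset.sum_add_distrib, ← Finset.mul_sum]
    ring
  simp only [e5]
  simp only [← Finset.sum_div]
  ring

end join

end Pool.Agent.H976.C
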