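import Pool.Agent.H976.C.R

/-!
# Circulant theta: the product rule, continued
-/

set_option autoImplicit false
set_option linter.unusedSectionVars false

namespace Pool.Agent.H976.C

open Finset Real

open Classical in
/-- perfect patterns -/
noncomputable def PFs (τ : Tree) (H : Shp) : Finset (Finset (τ.V × H.V × Bool)) :=
  univ.filter fun R => PF (H1 := τ.toShp) (H2 := H) τ.root R

theorem mem_PFs {τ : Tree} {H : Shp} {R : Finset (τ.V × H.V × Bool)} :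
    R ∈ PFs τ H ↔ PF (H1 := τ.toShp) (H2 := H) τ.root R := by
  unfold PFs
  simp

/-- the covariance of two trees -/
noncomputable def kap (τ τ' : Tree) : ℝ := #(PFs τ τ'.toShp)

section tr

variable {ι : Type} [Fintype ι] [DecidableEq ι] {τ : Tree} {T : ι → Tree}

/-- inclusion of the patterns of a component -/
def inc (j : ι) (R' : Finset (τ.V × (T j).V × Bool)) : Finset (τ.V × (Sig T).V × Bool) :=
  R'.image fun q => (q.1, ⟨j, q.2.1⟩, q.2.2)

theorem incf_inj (j : ι) : Function.Injective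
    (fun q : τ.V × (T j).V × Bool => ((q.1, ⟨j, q.2.1⟩, q.2.2) : τ.V × (Sig T).V × Bool)) := by
  rintro ⟨v, w, s⟩ ⟨v', w', s'⟩ h
  simp only [Prod.mk.injEq] at h
  obtain ⟨h1, h2, h3⟩ := h
  have h4 := eq_of_heq (Sigma.mk.inj h2).2
  rw [h1, h3, h4]

theorem mem_inc (j : ι) (R' : Finset (τ.V × (T j).V × Bool)) (q : τ.V × (T j).V × Bool) :
    ((q.1, ⟨j, q.2.1⟩, q.2.2) : τ.V × (Sig T).V × Bool) ∈ inc j R' ↔ q ∈ R' := by
  unfold inc
  rw [mem_image]
  constructor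
  · rintro ⟨q', hq', h⟩
    rwa [← incf_inj j h]
  · intro h
    exact ⟨q, h, rfl⟩

theorem inc_fst (j : ι) (R' : Finset (τ.V × (T j).V × Bool)) {q : τ.V × (Sig T).V × Bool}
    (hq : q ∈ inc j R') : ∃ q' ∈ R', q = (q'.1, ⟨j, q'.2.1⟩, q'.2.2) := by
  unfold inc at hq
  rw [mem_image] at hq
  obtain ⟨q', hq', h⟩ := hq
  exact ⟨q', hq', h.symm⟩

theorem EE_inc (j : ι) (R' : Finset (τ.V × (T j).V × Bool)) (v : τ.V) (y : (T j).X) :
    EE (H1 := τ.toShp) (H2 := Sig T) (inc j R') v ⟨j, y⟩ =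
      EE (H1 := τ.toShp) (H2 := (T j).toShp) R' v y := by
  unfold EE inc
  rw [Finset.sum_image fun a _ b _ h => incf_inj j h]
  refine Finset.sum_congr rfl fun q _ => ?_
  exact if_congr (and_congr Iff.rfl (Sig_mem T j y q.2.1)) rfl rfl

theorem EE_inc_ne (j : ι) (R' : Finset (τ.V × (T j).V × Bool)) (v : τ.V) (y : (Sig T).X)
    (hy : y.1 ≠ j) : EE (H1 := τ.toShp) (H2 := Sig T) (inc j R') v y = 0 := by
  unfold EE
  refine Finset.sum_eq_zero fun q hq => ?_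
  obtain ⟨q', -, rfl⟩ := inc_fst j R' hq
  rw [if_neg]
  rintro ⟨-, h⟩
  exact hy (Sig_fst T y _ h)

theorem M1_inc (j : ι) (R' : Finset (τ.V × (T j).V × Bool)) (v : τ.V) :
    v ∈ M1 (H1 := τ.toShp) (H2 := Sig T) (inc j R') ↔
      v ∈ M1 (H1 := τ.toShp) (H2 := (T j).toShp) R' := by
  rw [mem_M1, mem_M1]
  constructor
  · rintro ⟨q, hq, rfl⟩
    obtain ⟨q', hq', rfl⟩ := inc_fst j R' hq
    exact ⟨q', hq', rfl⟩
  · rintro ⟨q, hq, rfl⟩
    exact ⟨_, (mem_inc j R' q).2 hq, rfl⟩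

theorem M2_inc (j : ι) (R' : Finset (τ.V × (T j).V × Bool)) (w : (T j).V) :
    (⟨j, w⟩ : (Sig T).V) ∈ M2 (H1 := τ.toShp) (H2 := Sig T) (inc j R') ↔
      w ∈ M2 (H1 := τ.toShp) (H2 := (T j).toShp) R' := by
  constructor
  · intro h0
    obtain ⟨q, hq, h⟩ := mem_M2.1 h0
    obtain ⟨q', hq', rfl⟩ := inc_fst j R' hq
    exact mem_M2.2 ⟨q', hq', eq_of_heq (Sigma.mk.inj h).2⟩
  · intro h0
    obtain ⟨q, hq, rfl⟩ := mem_M2.1 h0
    exact mem_M2.2 ⟨_, (mem_inc j R' q).2 hq, rfl⟩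

theorem M2_inc_ne (j : ι) (R' : Finset (τ.V × (T j).V × Bool)) (w : (Sig T).V)
    (hw : w ∈ M2 (H1 := τ.toShp) (H2 := Sig T) (inc j R')) : w.1 = j := by
  obtain ⟨q, hq, rfl⟩ := mem_M2.1 hw
  obtain ⟨q', -, rfl⟩ := inc_fst j R' hq
  rfl

theorem inc_card (j : ι) (R' : Finset (τ.V × (T j).V × Bool)) :
    #(univ.filter fun y : (Sig T).X => (Sig T).leaf y ∈
      M2 (H1 := τ.toShp) (H2 := Sig T) (inc j R')) =
    #(univ.filter fun y : (T j).X => (T j).leaf y ∈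
      M2 (H1 := τ.toShp) (H2 := (T j).toShp) R') := by
  symm
  refine Finset.card_nbij (fun a => (⟨j, a⟩ : (Sig T).X)) ?_ ?_ ?_
  · intro a ha
    rw [mem_coe, mem_filter] at ha ⊢
    exact ⟨mem_univ _, (M2_inc j R' _).2 ha.2⟩
  · intro a _ b _ h
    exact eq_of_heq (Sigma.mk.inj h).2
  · rintro ⟨i, a⟩ h
    rw [mem_coe, mem_filter] at h
    have h2 := M2_inc_ne j R' _ h.2
    change i = j at h2
    subst h2
    exact ⟨a, mem_coe.2 (mem_filter.2 ⟨mem_univ _, (M2_inc i R' _).1 h.2⟩), rfl⟩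

theorem PF_inc (j : ι) (R' : Finset (τ.V × (T j).V × Bool)) :
    PF (H1 := τ.toShp) (H2 := Sig T) τ.root (inc j R') ↔
      PF (H1 := τ.toShp) (H2 := (T j).toShp) τ.root R' := by
  constructor
  · intro h
    refine ⟨?_, fun v => (M1_inc j R' v).1 (h.m1 v), ?_, ?_, ?_, ?_⟩
    · intro q hq q' hq'
      have h1 := h.fn _ ((mem_inc j R' q).2 hq) _ ((mem_inc j R' q').2 hq')
      refine ⟨fun e => incf_inj (T := T) j (h1.1 e), fun e => incf_inj (T := T) j (h1.2 ?_)⟩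
      rw [e]
    · intro w y hy
      have h1 := h.m2 ⟨j, w⟩ ⟨j, y⟩ ((Sig_mem T j y w).2 hy)
      exact (M2_inc (T := T) j R' w).symm.trans (h1.trans (M2_inc (T := T) j R' ((T j).leaf y)))
    · intro v y
      have h1 := h.idn v ⟨j, y⟩
      unfold Idn at h1 ⊢
      simp only [EE_inc] at h1
      exact h1
    · intro y
      have h1 := h.tot ⟨j, y⟩
      rw [EE_inc] at h1
      rw [h1]
      have h2 : (Sig T).leaf ⟨j, y⟩ ∈ M2 (H1 := τ.toShp) (H2 := Sig T) (inc j R') ↔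
        (T j).leaf y ∈ M2 (H1 := τ.toShp) (H2 := (T j).toShp) R' := M2_inc j R' ((T j).leaf y)
      simp only [h2]
    · rw [← inc_card, h.card]
  · intro h
    refine ⟨?_, fun v => (M1_inc j R' v).2 (h.m1 v), ?_, ?_, ?_, ?_⟩
    · intro q hq q' hq'
      obtain ⟨a, ha, rfl⟩ := inc_fst j R' hq
      obtain ⟨b, hb, rfl⟩ := inc_fst j R' hq'
      have h1 := h.fn a ha b hb
      refine ⟨fun e => ?_, fun e => ?_⟩
      · rw [h1.1 e]
      · rw [h1.2 (eq_of_heq (Sigma.mk.inj e).2)]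
    · rintro ⟨i, w⟩ ⟨i', y⟩ hy
      have h0 : i' = i := Sig_fst T _ _ hy
      subst h0
      by_cases hi : i' = j
      · subst hi
        have h1 := h.m2 w y ((Sig_mem T i' y w).1 hy)
        exact (M2_inc i' R' w).trans (h1.trans (M2_inc (T := T) i' R' ((T i').leaf y)).symm)
      · exact ⟨fun h1 => absurd (M2_inc_ne j R' _ h1) hi,
          fun h1 => absurd (M2_inc_ne j R' _ h1) hi⟩
    · rintro v ⟨i, y⟩
      unfold Idn
      by_cases hi : i = j
      · subst hi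
        have h1 := h.idn v y
        unfold Idn at h1
        simp only [EE_inc]
        exact h1
      · rw [EE_inc_ne j R' v ⟨i, y⟩ hi]
        exact Finset.sum_eq_zero fun x _ => EE_inc_ne j R' _ ⟨i, y⟩ hi
    · rintro ⟨i, y⟩
      by_cases hi : i = j
      · subst hi
        have h1 := h.tot y
        rw [EE_inc, h1]
        have h2 : (Sig T).leaf ⟨i, y⟩ ∈ M2 (H1 := τ.toShp) (H2 := Sig T) (inc i R') ↔
          (T i).leaf y ∈ M2 (H1 := τ.toShp) (H2 := (T i).toShp) R' := M2_inc i R' ((T i).leaf y)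
        simp only [h2]
      · rw [EE_inc_ne j R' _ ⟨i, y⟩ hi, if_neg]
        exact fun h1 => absurd (M2_inc_ne j R' _ h1) hi
    · rw [inc_card, h.card]

theorem PF_exists {R : Finset (τ.V × (Sig T).V × Bool)}
    (hR : PF (H1 := τ.toShp) (H2 := Sig T) τ.root R) : ∃ j, ∃ R', R = inc (T := T) j R' := by
  obtain ⟨j, hj⟩ := PF_comp hR
  refine ⟨j, univ.filter fun q => ((q.1, ⟨j, q.2.1⟩, q.2.2) : τ.V × (Sig T).V × Bool) ∈ R, ?_⟩
  ext q
  constructor
  · intro hq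
    have h1 : q.2.1.1 = j := (PF_comp_node hR hj q.2.1).1 (mem_M2.2 ⟨q, hq, rfl⟩)
    rcases q with ⟨v, ⟨i, w⟩, s⟩
    change i = j at h1
    subst h1
    unfold inc
    rw [mem_image]
    exact ⟨(v, w, s), mem_filter.2 ⟨mem_univ _, hq⟩, rfl⟩
  · intro hq
    obtain ⟨q', hq', rfl⟩ := inc_fst j _ hq
    exact (mem_filter.1 hq').2

theorem sum_PFs (f : Finset (τ.V × (Sig T).V × Bool) → ℝ) :
    ∑ R ∈ PFs τ (Sig T), f R = ∑ j, ∑ R' ∈ PFs τ (T j).toShp, f (inc j R') := by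
  rw [Finset.sum_sigma']
  symm
  refine Finset.sum_bij (fun x _ => inc x.1 x.2) ?_ ?_ ?_ ?_
  · rintro ⟨j, R'⟩ h
    rw [mem_sigma] at h
    exact mem_PFs.2 ((PF_inc j R').2 (mem_PFs.1 h.2))
  · rintro ⟨j, R'⟩ h ⟨j', R''⟩ h' e
    rw [mem_sigma] at h h'
    simp only at e
    have h1 := mem_PFs.1 h.2
    obtain ⟨q, hq, -⟩ := mem_M1.1 (h1.m1 τ.root)
    have h2 := (mem_inc j R' q).2 hq
    rw [e] at h2
    obtain ⟨q'', -, h3⟩ := inc_fst j' R'' h2
    have h4 : j = j' := by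
      simp only [Prod.mk.injEq] at h3
      exact (Sigma.mk.inj h3.2.1).1
    subst h4
    have h5 : R' = R'' := by
      ext a
      rw [← mem_inc (T := T) j R' a, e, mem_inc]
    rw [h5]
  · intro R hR
    rw [mem_PFs] at hR
    obtain ⟨j, R', rfl⟩ := PF_exists hR
    exact ⟨⟨j, R'⟩, mem_sigma.2 ⟨mem_univ _, mem_PFs.2 ((PF_inc j R').1 hR)⟩, rfl⟩
  · intro x _
    rfl

end tr

/-- The product rule. -/
theorem PR (p : ℝ) (hp : 0 < p) (hp1 : p < 1) {ι : Type} [Fintype ι] [DecidableEq ι] (τ : Tree)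
    (T : ι → Tree) :
    Neg p (fun N _ σ t => Shp.F p τ.toShp N σ t * Shp.F p (Sig T) N σ t -
      Shp.F p (Sig (opt τ T)) N σ t -
      ∑ j, kap τ (T j) * Shp.F p (Sig (rst T j)) N σ t) := by
  classical
  have hA : Neg p (fun N _ σ t => ∑ R ∈ univ.filter (fun R : Finset (τ.V × (Sig T).V × Bool) =>
      R ∉ PFs τ (Sig T) ∧ R ≠ ∅), HH (H1 := τ.toShp) (H2 := Sig T) p R N σ t) := by
    refine Neg.sum hp hp1 _ (fun R => HH (H1 := τ.toShp) (H2 := Sig T) p R) fun R hR => ?_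
    rw [mem_filter, mem_PFs] at hR
    exact HH_neg p hp hp1 τ.root τ.rootS R (nonempty_iff_ne_empty.2 hR.2.2) hR.2.1
  have hB : Neg p (fun N _ σ t => ∑ j, ∑ R' ∈ PFs τ (T j).toShp,
      (HH (H1 := τ.toShp) (H2 := Sig T) p (inc j R') N σ t -
        Shp.F p (Sig (rst T j)) N σ t)) := by
    refine Neg.sum hp hp1 _ (fun j => fun N _ σ t => ∑ R' ∈ PFs τ (T j).toShp,
      (HH (H1 := τ.toShp) (H2 := Sig T) p (inc j R') N σ t -
        Shp.F p (Sig (rst T j)) N σ t)) fun j _ => ?_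
    refine Neg.sum hp hp1 _ (fun R' => fun N _ σ t =>
      (HH (H1 := τ.toShp) (H2 := Sig T) p (inc j R') N σ t -
        Shp.F p (Sig (rst T j)) N σ t)) fun R' hR' => ?_
    have h1 := (PF_inc (T := T) j R').2 (mem_PFs.1 hR')
    have h2 := HH_perf p hp hp1 τ.root _ h1
    have hj : ∀ y : (Sig T).X, ((Sig T).leaf y ∈
        M2 (H1 := τ.toShp) (H2 := Sig T) (inc j R') ↔ y.1 = j) := by
      obtain ⟨j', hj'⟩ := PF_comp h1
      obtain ⟨q, hq, -⟩ := mem_M1.1 (h1.m1 τ.root)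
      have h3 := (PF_comp_node h1 hj' q.2.1).1 (mem_M2.2 ⟨q, hq, rfl⟩)
      have h4 := M2_inc_ne j R' q.2.1 (mem_M2.2 ⟨q, hq, rfl⟩)
      have h5 : j' = j := h3.symm.trans h4
      intro y
      exact (hj' y).trans ⟨fun h => h.trans h5, fun h => h.trans h5.symm⟩
    have h3 := HB_perf p hp hp1 h1 hj
    refine (h2.add hp hp1 h3).congr fun N _ σ t => ?_
    ring
  refine (hA.add hp hp1 hB).congr fun N _ σ t => ?_
  rw [FF_HH, ← HH_triv τ T]
  have h0 : (∅ : Finset (τ.V × (Sig T).V × Bool)) ∉ PFs τ (Sig T) := by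
    rw [mem_PFs]
    intro h
    obtain ⟨q, hq, -⟩ := mem_M1.1 (h.m1 τ.root)
    simp at hq
  have h1 : ∑ R : Finset (τ.V × (Sig T).V × Bool), HH (H1 := τ.toShp) (H2 := Sig T) p R N σ t =
      ∑ R ∈ PFs τ (Sig T), HH (H1 := τ.toShp) (H2 := Sig T) p R N σ t +
      (HH (H1 := τ.toShp) (H2 := Sig T) p ∅ N σ t +
      ∑ R ∈ univ.filter (fun R : Finset (τ.V × (Sig T).V × Bool) =>
        R ∉ PFs τ (Sig T) ∧ R ≠ ∅), HH (H1 := τ.toShp) (H2 := Sig T) p R N σ t) := by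
    rw [← Finset.sum_filter_add_sum_filter_not univ (fun R => R ∈ PFs τ (Sig T))]
    congr 1
    · refine Finset.sum_congr ?_ fun _ _ => rfl
      ext R
      simp
    · have h2 := Finset.add_sum_erase (univ.filter fun R : Finset (τ.V × (Sig T).V × Bool) =>
        R ∉ PFs τ (Sig T)) (fun R => HH (H1 := τ.toShp) (H2 := Sig T) p R N σ t)
        (mem_filter.2 ⟨mem_univ _, h0⟩)
      rw [← h2]
      congr 1
      refine Finset.sum_congr ?_ fun _ _ => rfl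
      ext R
      rw [mem_erase, mem_filter, mem_filter]
      tauto
  rw [h1, sum_PFs]
  have h2 : ∀ j, ∑ R' ∈ PFs τ (T j).toShp,
      (HH (H1 := τ.toShp) (H2 := Sig T) p (inc j R') N σ t - Shp.F p (Sig (rst T j)) N σ t) =
      ∑ R' ∈ PFs τ (T j).toShp, HH (H1 := τ.toShp) (H2 := Sig T) p (inc j R') N σ t -
        kap τ (T j) * Shp.F p (Sig (rst T j)) N σ t := by
    intro j
    rw [Finset.sum_sub_distrib, Finset.sum_const, nsmul_eq_mul]
    rfl
  simp only [h2]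
  rw [Finset.sum_sub_distrib]
  ring

end Pool.Agent.H976.C
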