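import Pool.Agent.H976.C.H
import Pool.Agent.H976.C.F

/-!
# Circulant theta: second moments and counting
-/

set_option autoImplicit false
set_option linter.unusedSectionVars false

namespace Pool.Agent.H976.C

open Finset Real

section cnt

variable {N : ℕ} [NeZero N]

/-- sign -/
def sg (s : Bool) (a : ZMod N) : ZMod N := if s = true then a else -a

/-- linear form -/
def lf {X : Type} [Fintype X] (c : X → ℤ) (k : X → ZMod N) : ZMod N := ∑ x, (c x : ZMod N) * k x

theorem card_lf {X : Type} [Fintype X] [DecidableEq X] (c : X → ℤ) (x0 : X) (h : c x0 ≠ 0)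
    (b : ZMod N) :
    #{k : X → ZMod N | lf c k = b} * N ≤ (c x0).natAbs * N ^ Fintype.card X := by
  have hc : 0 < (c x0).natAbs := Int.natAbs_pos.2 h
  have key : ∀ u u' : ZMod N, (c x0 : ZMod N) * u = (c x0 : ZMod N) * u' →
      ((c x0).natAbs * u.val) / N = ((c x0).natAbs * u'.val) / N → u = u' := by
    intro u u' h1 h2
    have h3 : ((c x0).natAbs : ZMod N) * u = ((c x0).natAbs : ZMod N) * u' := by
      rcases Int.natAbs_eq (c x0) with h4 | h4
      · rw [h4, Int.cast_natCast] at h1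
        exact h1
      · rw [h4, Int.cast_neg, Int.cast_natCast, neg_mul, neg_mul] at h1
        exact neg_injective h1
    have h4 : (((c x0).natAbs * u.val : ℕ) : ZMod N) = (((c x0).natAbs * u'.val : ℕ) : ZMod N) := by
      push_cast
      rw [ZMod.natCast_zmod_val, ZMod.natCast_zmod_val]
      exact h3
    rw [ZMod.natCast_eq_natCast_iff'] at h4
    have h5 : (c x0).natAbs * u.val = (c x0).natAbs * u'.val := by
      rw [← Nat.div_add_mod ((c x0).natAbs * u.val) N, ← Nat.div_add_mod ((c x0).natAbs * u'.val) N,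
        h2, h4]
    exact ZMod.val_injective N (Nat.eq_of_mul_eq_mul_left hc h5)
  have hlt : ∀ u : ZMod N, ((c x0).natAbs * u.val) / N < (c x0).natAbs := by
    intro u
    rw [Nat.div_lt_iff_lt_mul (NeZero.pos N)]
    exact Nat.mul_lt_mul_of_pos_left (ZMod.val_lt u) hc
  have h1 : #((univ.filter fun k : X → ZMod N => lf c k = b) ×ˢ (univ : Finset (ZMod N))) ≤
      #((univ : Finset (Fin (c x0).natAbs)) ×ˢ (univ : Finset (X → ZMod N))) := by
    refine Finset.card_le_card_of_injOn
      (fun q => ((⟨((c x0).natAbs * (q.1 x0).val) / N, hlt _⟩ : Fin (c x0).natAbs),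
        Function.update q.1 x0 q.2)) (fun q _ => by simp) ?_
    rintro ⟨k, z⟩ hk ⟨k', z'⟩ hk' hq
    simp only [coe_product, coe_filter, mem_univ, true_and, coe_univ, Set.mem_prod,
      Set.mem_setOf_eq, Set.mem_univ, and_true] at hk hk'
    simp only [Prod.mk.injEq, Fin.mk.injEq] at hq
    obtain ⟨q1, q2⟩ := hq
    have hz : z = z' := by
      have := congrFun q2 x0
      rw [Function.update_self, Function.update_self] at this
      exact this
    have hne : ∀ x, x ≠ x0 → k x = k' x := by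
      intro x hx
      have := congrFun q2 x
      rw [Function.update_of_ne hx, Function.update_of_ne hx] at this
      exact this
    have h0 : k x0 = k' x0 := by
      refine key _ _ ?_ q1
      unfold lf at hk hk'
      rw [← Finset.add_sum_erase univ _ (mem_univ x0)] at hk hk'
      have h2 : ∑ x ∈ univ.erase x0, (c x : ZMod N) * k x =
          ∑ x ∈ univ.erase x0, (c x : ZMod N) * k' x :=
        Finset.sum_congr rfl fun x hx => by rw [hne x (Finset.ne_of_mem_erase hx)]
      rw [← hk', h2] at hk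
      exact add_right_cancel hk
    have hkk : k = k' := by
      funext x
      by_cases hx : x = x0
      · rw [hx, h0]
      · exact hne x hx
    rw [hkk, hz]
  rw [card_product, card_product, card_univ, card_univ, card_univ, Fintype.card_fin, ZMod.card,
    Fintype.card_fun, ZMod.card] at h1
  exact h1

/-- product of the multipliers over the nodes in `D` -/
noncomputable def monD (p : ℝ) (σ : Cfg (ZMod N)) {U : Type} (D : Finset U) (a : U → ZMod N) : ℝ :=
  ∏ u ∈ D, ww p σ (a u)

/-- the values on `D` have distinct nonzero classes -/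
def GenD {U : Type} (D : Finset U) (a : U → ZMod N) : Prop :=
  ∀ u ∈ D, ∀ w ∈ D, a u + a w ≠ 0 ∧ (u ≠ w → a u ≠ a w)

theorem GenD.ne_zero {U : Type} {D : Finset U} {a : U → ZMod N} (h : GenD D a) {u : U}
    (hu : u ∈ D) : a u ≠ 0 := by
  intro h0
  have := (h u hu u hu).1
  rw [h0, add_zero] at this
  exact this rfl

theorem GenD.inj {U : Type} {D : Finset U} {a : U → ZMod N} (h : GenD D a) :
    Set.InjOn (fun u => cls (a u)) (D : Set U) := by
  intro u hu w hw huw
  by_contra hne
  rcases (cls_eq_iff _ _).1 huw with h1 | h1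
  · exact (h u hu w hw).2 hne h1
  · exact (h u hu w hw).1 (by rw [h1, neg_add_cancel])

/-- the set of classes -/
def cset {U : Type} (D : Finset U) (a : U → ZMod N) : Finset (ZMod N) :=
  D.image (fun u => cls (a u))

theorem monD_eq (p : ℝ) (σ : Cfg (ZMod N)) {U : Type} (D : Finset U) (a : U → ZMod N)
    (h : GenD D a) : monD p σ D a = chi p (cset D a) σ := by
  unfold monD chi cset
  rw [Finset.prod_image h.inj]
  refine Finset.prod_congr rfl fun u hu => ?_
  unfold ww
  rw [if_neg (h u hu u hu).1]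

theorem card_cset {U : Type} (D : Finset U) (a : U → ZMod N) : #(cset D a) ≤ #D :=
  Finset.card_image_le

/-- second moments of a random sum -/
theorem L2 (p : ℝ) (hp : 0 < p) (hp1 : p < 1) {ι U : Type} (I : Finset ι) (D : Finset U)
    (β : ι → ℝ) (a : ι → U → ZMod N) (r : ι → ZMod N) (B : ℝ) (hB : ∀ i ∈ I, |β i| ≤ B)
    (hG : ∀ i ∈ I, GenD D (a i)) :
    ∑ t, Ep p (fun σ => (∑ i ∈ I, β i * (monD p σ D (a i) * cs (r i * t))) ^ 2) ≤
      N * B ^ 2 * #{x ∈ I ×ˢ I | cset D (a x.1) = cset D (a x.2) ∧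
        (r x.1 = r x.2 ∨ r x.1 = -r x.2)} := by
  have h1 : ∀ t, Ep p (fun σ => (∑ i ∈ I, β i * (monD p σ D (a i) * cs (r i * t))) ^ 2) =
      ∑ x ∈ I ×ˢ I, (if cset D (a x.1) = cset D (a x.2) then
        β x.1 * β x.2 * (cs (r x.1 * t) * cs (r x.2 * t)) else 0) := by
    intro t
    have h2 : (fun σ => (∑ i ∈ I, β i * (monD p σ D (a i) * cs (r i * t))) ^ 2) =
        fun σ : Cfg (ZMod N) => ∑ x ∈ I ×ˢ I, (β x.1 * β x.2 * (cs (r x.1 * t) * cs (r x.2 * t))) *
          (chi p (cset D (a x.1)) σ * chi p (cset D (a x.2)) σ) := by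
      funext σ
      rw [sq, Finset.sum_mul_sum, ← Finset.sum_product']
      refine Finset.sum_congr rfl fun x hx => ?_
      rw [mem_product] at hx
      rw [monD_eq p σ D _ (hG _ hx.1), monD_eq p σ D _ (hG _ hx.2)]
      ring
    rw [h2, Ep_sum]
    refine Finset.sum_congr rfl fun x _ => ?_
    rw [Ep_mul, Ep_chi p hp hp1]
    split_ifs
    · ring
    · ring
  simp only [h1]
  rw [Finset.sum_comm, Finset.card_filter, Nat.cast_sum, Finset.mul_sum]
  refine Finset.sum_le_sum fun x hx => ?_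
  rw [mem_product] at hx
  by_cases hc : cset D (a x.1) = cset D (a x.2)
  · simp only [hc, if_true, true_and]
    rw [← Finset.mul_sum, cs_orth]
    have hb : |β x.1 * β x.2| ≤ B ^ 2 := by
      rw [abs_mul, sq]
      exact mul_le_mul (hB _ hx.1) (hB _ hx.2) (abs_nonneg _)
        ((abs_nonneg _).trans (hB _ hx.1))
    have hb2 := (abs_le.1 hb).2
    have hN : (0 : ℝ) < N := Npos
    have hB0 : 0 ≤ B ^ 2 := sq_nonneg _
    by_cases e1 : r x.1 = r x.2
    · by_cases e2 : r x.1 = -r x.2
      · rw [if_pos e1, if_pos e2, if_pos (Or.inl e1)]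
        push_cast
        nlinarith
      · rw [if_pos e1, if_neg e2, if_pos (Or.inl e1)]
        push_cast
        nlinarith
    · by_cases e2 : r x.1 = -r x.2
      · rw [if_neg e1, if_pos e2, if_pos (Or.inr e2)]
        push_cast
        nlinarith
      · rw [if_neg e1, if_neg e2, if_neg (not_or.2 ⟨e1, e2⟩)]
        push_cast
        linarith
  · simp only [hc, if_false, false_and, sum_const_zero]
    simp

/-- second moments of a random sum at one point -/
theorem L2p (p : ℝ) (hp : 0 < p) (hp1 : p < 1) {ι U : Type} (I : Finset ι) (D : Finset U)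
    (β : ι → ℝ) (a : ι → U → ZMod N) (r : ι → ZMod N) (B : ℝ) (hB : ∀ i ∈ I, |β i| ≤ B)
    (hG : ∀ i ∈ I, GenD D (a i)) (t : ZMod N) :
    Ep p (fun σ => (∑ i ∈ I, β i * (monD p σ D (a i) * cs (r i * t))) ^ 2) ≤
      B ^ 2 * #{x ∈ I ×ˢ I | cset D (a x.1) = cset D (a x.2)} := by
  have h1 : Ep p (fun σ => (∑ i ∈ I, β i * (monD p σ D (a i) * cs (r i * t))) ^ 2) =
      ∑ x ∈ I ×ˢ I, (if cset D (a x.1) = cset D (a x.2) then
        β x.1 * β x.2 * (cs (r x.1 * t) * cs (r x.2 * t)) else 0) := by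
    have h2 : (fun σ => (∑ i ∈ I, β i * (monD p σ D (a i) * cs (r i * t))) ^ 2) =
        fun σ : Cfg (ZMod N) => ∑ x ∈ I ×ˢ I, (β x.1 * β x.2 * (cs (r x.1 * t) * cs (r x.2 * t))) *
          (chi p (cset D (a x.1)) σ * chi p (cset D (a x.2)) σ) := by
      funext σ
      rw [sq, Finset.sum_mul_sum, ← Finset.sum_product']
      refine Finset.sum_congr rfl fun x hx => ?_
      rw [mem_product] at hx
      rw [monD_eq p σ D _ (hG _ hx.1), monD_eq p σ D _ (hG _ hx.2)]
      ring
    rw [h2, Ep_sum]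
    refine Finset.sum_congr rfl fun x _ => ?_
    rw [Ep_mul, Ep_chi p hp hp1]
    split_ifs
    · ring
    · ring
  rw [h1, Finset.card_filter, Nat.cast_sum, Finset.mul_sum]
  refine Finset.sum_le_sum fun x hx => ?_
  rw [mem_product] at hx
  by_cases hc : cset D (a x.1) = cset D (a x.2)
  · simp only [hc, if_true]
    have hb : |β x.1 * β x.2 * (cs (r x.1 * t) * cs (r x.2 * t))| ≤ B ^ 2 := by
      rw [abs_mul, abs_mul, abs_mul, sq]
      have c1 := abs_cs_le (r x.1 * t)
      have c2 := abs_cs_le (r x.2 * t)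
      have hB0 : 0 ≤ B := (abs_nonneg _).trans (hB _ hx.1)
      calc |β x.1| * |β x.2| * (|cs (r x.1 * t)| * |cs (r x.2 * t)|) ≤ (B * B) * (1 * 1) := by
            refine mul_le_mul (mul_le_mul (hB _ hx.1) (hB _ hx.2) (abs_nonneg _) hB0)
              (mul_le_mul c1 c2 (abs_nonneg _) zero_le_one) (by positivity) (by positivity)
        _ = B * B := by ring
    push_cast
    rw [mul_one]
    exact (abs_le.1 hb).2
  · simp [hc]

theorem sg_of_cls (a b : ZMod N) (h : cls a = cls b) : ∃ s, b = sg s a := by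
  rcases (cls_eq_iff _ _).1 h with h1 | h1
  · exact ⟨true, by simp [sg, h1]⟩
  · exact ⟨false, by simp [sg, h1]⟩

/-- number of coincidences -/
theorem cnt {A U : Type} [AddCommGroup A] [Fintype A] [DecidableEq A] [Fintype U] [DecidableEq U]
    (I : Finset A) (D : Finset U) (a : A → U → ZMod N) (r : A → ZMod N) (W : Finset A)
    (hW : ∀ i ∈ I, ∀ j ∈ I, (∀ u ∈ D, a i u = a j u) → r i = r j → i - j ∈ W) :
    #{x ∈ I ×ˢ I | cset D (a x.1) = cset D (a x.2) ∧ (r x.1 = r x.2 ∨ r x.1 = -r x.2)} ≤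
      (Fintype.card U * 2) ^ Fintype.card U * 2 * (#I * #W) := by
  classical
  set Q : (U → U × Bool) × Bool → Finset (A × A) := fun ϖ => {x ∈ I ×ˢ I |
    (∀ u ∈ D, a x.2 u = sg (ϖ.1 u).2 (a x.1 (ϖ.1 u).1)) ∧ r x.2 = sg ϖ.2 (r x.1)} with hQ
  have h1 : {x ∈ I ×ˢ I | cset D (a x.1) = cset D (a x.2) ∧ (r x.1 = r x.2 ∨ r x.1 = -r x.2)} ⊆
      (univ : Finset ((U → U × Bool) × Bool)).biUnion Q := by
    intro x hx
    rw [mem_filter] at hx
    obtain ⟨hx1, hx2, hx3⟩ := hx
    have h2 : ∀ u, ∃ q : U × Bool, u ∈ D → a x.2 u = sg q.2 (a x.1 q.1) := by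
      intro u
      by_cases hu : u ∈ D
      · have h3 : cls (a x.2 u) ∈ cset D (a x.1) := by
          rw [hx2]
          exact Finset.mem_image_of_mem _ hu
        obtain ⟨u', -, hu'⟩ := Finset.mem_image.1 h3
        obtain ⟨s, hs⟩ := sg_of_cls _ _ hu'
        exact ⟨(u', s), fun _ => hs⟩
      · exact ⟨(u, true), fun h => absurd h hu⟩
    choose q hq using h2
    have h4 : ∃ s, r x.2 = sg s (r x.1) := by
      rcases hx3 with h | h
      · exact ⟨true, by simp [sg, h]⟩
      · exact ⟨false, by simp [sg, h]⟩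
    obtain ⟨s, hs⟩ := h4
    rw [mem_biUnion]
    exact ⟨(q, s), mem_univ _, by rw [hQ, mem_filter]; exact ⟨hx1, hq, hs⟩⟩
  have h2 : ∀ ϖ ∈ (univ : Finset ((U → U × Bool) × Bool)), #(Q ϖ) ≤ #I * #W := by
    intro ϖ _
    have h3 : #(Q ϖ) ≤ #W * #((Q ϖ).image Prod.fst) := by
      refine Finset.card_le_mul_card_image _ _ fun i hi => ?_
      rcases Finset.eq_empty_or_nonempty ({x ∈ Q ϖ | x.1 = i}) with h4 | ⟨⟨i0, j0⟩, h4⟩
      · rw [h4, card_empty]
        exact Nat.zero_le _
      · refine Finset.card_le_card_of_injOn (fun x => x.2 - j0) ?_ ?_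
        · rintro ⟨i1, j1⟩ h5
          rw [coe_filter, Set.mem_setOf_eq] at h5
          rw [mem_filter] at h4
          simp only [hQ, mem_filter, mem_product] at h4 h5
          obtain ⟨⟨⟨a1, a2⟩, a3, a4⟩, a5⟩ := h4
          obtain ⟨⟨⟨b1, b2⟩, b3, b4⟩, b5⟩ := h5
          subst a5 b5
          refine hW _ b2 _ a2 (fun u hu => ?_) ?_
          · rw [a3 u hu, b3 u hu]
          · rw [a4, b4]
        · rintro ⟨i1, j1⟩ h5 ⟨i2, j2⟩ h6 h7
          rw [coe_filter, Set.mem_setOf_eq] at h5 h6
          have e1 : i1 = i2 := h5.2.trans h6.2.symm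
          have e2 : j1 = j2 := sub_left_injective h7
          rw [e1, e2]
    have h4 : #((Q ϖ).image Prod.fst) ≤ #I := by
      refine Finset.card_le_card ?_
      intro i hi
      obtain ⟨x, hx, rfl⟩ := Finset.mem_image.1 hi
      simp only [hQ, mem_filter, mem_product] at hx
      exact hx.1.1
    calc #(Q ϖ) ≤ #W * #((Q ϖ).image Prod.fst) := h3
      _ ≤ #W * #I := Nat.mul_le_mul_left _ h4
      _ = #I * #W := Nat.mul_comm _ _
  refine (Finset.card_le_card h1).trans ((Finset.card_biUnion_le_card_mul _ _ _ h2).trans ?_)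
  rw [card_univ, Fintype.card_prod, Fintype.card_fun, Fintype.card_prod, Fintype.card_bool]

end cnt

end Pool.Agent.H976.C
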