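import Pool.Agent.H976.C.X

/-!
# Circulant theta: domination
-/

set_option autoImplicit false
set_option linter.unusedSectionVars false

namespace Pool.Agent.H976.C

open Finset Real

theorem Pp_cup {α : Type} [Fintype α] [DecidableEq α] (p q : ℝ) (P : Cfg α → Prop) :
    Pp (p + q - p * q) P = Ep p (fun σ => Pp q (fun τ => P (cup σ τ))) := by
  classical
  unfold Pp
  rw [← Ep_cup p q (fun σ => if P σ then (1 : ℝ) else 0)]

section dom

variable {N : ℕ} [NeZero N]

/-- even coefficients supported on a random set -/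
def Sup (τ : Cfg (ZMod N)) (V : ZMod N → ℝ) : Prop :=
  Ev V ∧ (∀ k, k + k = 0 → V k = 0) ∧ ∀ k, τ (cls k) = false → V k = 0

theorem Sup.add {σ τ : Cfg (ZMod N)} {V W : ZMod N → ℝ} (hV : Sup σ V) (hW : Sup τ W) :
    Sup (cup σ τ) (fun k => V k + W k) := by
  refine ⟨fun k => ?_, fun k hk => ?_, fun k hk => ?_⟩
  · simp only [hV.1 k, hW.1 k]
  · simp only [hV.2.1 k hk, hW.2.1 k hk, add_zero]
  · unfold cup at hk
    rw [Bool.or_eq_false_iff] at hk
    simp only [hV.2.2 k hk.1, hW.2.2 k hk.2, add_zero]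

theorem Sup.smul {σ : Cfg (ZMod N)} {V : ZMod N → ℝ} (hV : Sup σ V) (c : ℝ) :
    Sup σ (fun k => c * V k) := by
  refine ⟨fun k => ?_, fun k hk => ?_, fun k hk => ?_⟩
  · simp only [hV.1 k]
  · simp only [hV.2.1 k hk, mul_zero]
  · simp only [hV.2.2 k hk, mul_zero]

theorem sy_add (V W : ZMod N → ℝ) (t : ZMod N) :
    sy (fun k => V k + W k) t = sy V t + sy W t := by
  unfold sy
  rw [← Finset.sum_add_distrib]
  exact Finset.sum_congr rfl fun k _ => by ring

theorem sy_smul (c : ℝ) (V : ZMod N → ℝ) (t : ZMod N) :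
    sy (fun k => c * V k) t = c * sy V t := by
  unfold sy
  rw [Finset.mul_sum]
  exact Finset.sum_congr rfl fun k _ => by ring

theorem Ep_ww_mul {p : ℝ} (hp : 0 < p) (hp1 : p < 1) (k k' : ZMod N) :
    Ep p (fun σ : Cfg (ZMod N) => ww p σ k * ww p σ k') =
      if k + k = 0 then 0 else (if k' = k then 1 else 0) + (if k' = -k then 1 else 0) := by
  by_cases h : k + k = 0
  · rw [if_pos h]
    have e : (fun σ : Cfg (ZMod N) => ww p σ k * ww p σ k') = fun _ => 0 := by
      funext σ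
      simp [ww, h]
    rw [e, Ep_const]
  · rw [if_neg h]
    have hne : k ≠ -k := by
      intro h1
      apply h
      nth_rewrite 1 [h1]
      exact neg_add_cancel k
    by_cases h' : k' + k' = 0
    · have e : (fun σ : Cfg (ZMod N) => ww p σ k * ww p σ k') = fun _ => 0 := by
        funext σ
        simp [ww, h']
      rw [e, Ep_const, if_neg, if_neg, add_zero]
      · intro h1
        apply h
        rw [h1, ← neg_add, neg_eq_zero] at h'
        exact h'
      · intro h1
        apply h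
        rw [h1] at h'
        exact h'
    · have e : (fun σ : Cfg (ZMod N) => ww p σ k * ww p σ k') =
          fun σ => chi p {cls k} σ * chi p {cls k'} σ := by
        funext σ
        simp [ww, h, h', chi]
      rw [e, Ep_chi p hp hp1]
      have h2 : (({cls k} : Finset (ZMod N)) = {cls k'}) ↔ (k' = k ∨ k' = -k) := by
        rw [Finset.singleton_inj, eq_comm, cls_eq_iff]
      simp only [h2]
      by_cases h3 : k' = k
      · rw [if_pos (Or.inl h3), if_pos h3, if_neg (by rw [h3]; exact hne), add_zero]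
      · by_cases h4 : k' = -k
        · rw [if_pos (Or.inr h4), if_neg h3, if_pos h4, zero_add]
        · rw [if_neg (by tauto), if_neg h3, if_neg h4, add_zero]

theorem TT_second {p : ℝ} (hp : 0 < p) (hp1 : p < 1) (Y : ZMod N → ℝ) (t : ZMod N) :
    Ep p (fun σ => TT p σ Y t ^ 2) ≤ 2 * av (fun t => Y t ^ 2) := by
  set β : ZMod N → ℝ := fun k => ft Y k * cs (k * t) with hβ
  have hβe : ∀ k, β (-k) = β k := by
    intro k
    simp only [hβ]
    rw [ft_ev, neg_mul, cs_neg]
  have e1 : ∀ σ : Cfg (ZMod N), TT p σ Y t ^ 2 =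
      ∑ k, ∑ k', (β k * β k') * (ww p σ k * ww p σ k') := by
    intro σ
    unfold TT sy
    rw [sq, Finset.sum_mul_sum]
    refine Finset.sum_congr rfl fun k _ => Finset.sum_congr rfl fun k' _ => ?_
    simp only [hβ]
    ring
  simp only [e1]
  rw [Ep_sum]
  have e2 : ∀ k, Ep p (fun σ => ∑ k', (β k * β k') * (ww p σ k * ww p σ k')) ≤ 2 * β k ^ 2 := by
    intro k
    rw [Ep_sum]
    simp only [Ep_mul, Ep_ww_mul hp hp1]
    by_cases h : k + k = 0
    · simp only [if_pos h, mul_zero, Finset.sum_const_zero]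
      positivity
    · simp only [if_neg h, mul_add, mul_ite, mul_one, mul_zero]
      rw [Finset.sum_add_distrib, Finset.sum_ite_eq', Finset.sum_ite_eq', if_pos (mem_univ _),
        if_pos (mem_univ _), hβe]
      apply le_of_eq
      ring
  refine (Finset.sum_le_sum fun k _ => e2 k).trans ?_
  rw [← Finset.mul_sum]
  refine mul_le_mul_of_nonneg_left ?_ (by norm_num)
  refine le_trans (Finset.sum_le_sum fun k _ => ?_) (bessel Y)
  simp only [hβ]
  rw [mul_pow]
  refine mul_le_of_le_one_right (sq_nonneg _) ?_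
  rw [sq_le_one_iff_abs_le_one]
  exact abs_cs_le _

theorem kk_sq {p : ℝ} (hp : 0 < p) (hp4 : p ≤ 1 / 4) : kk p ^ 2 ≤ 8 / p := by
  have h1 : bb p ^ 2 ≤ 4 / (3 * p) := by
    unfold bb
    rw [div_pow, Real.sq_sqrt (mul_nonneg hp.le (by linarith)), div_le_div_iff₀
      (mul_pos hp (by linarith)) (by positivity)]
    nlinarith [mul_pos hp hp, mul_pos (mul_pos hp hp) hp]
  have h2 : kk p ^ 2 ≤ 18 + 2 * bb p ^ 2 := by
    unfold kk
    nlinarith [sq_nonneg (3 - |bb p|), sq_abs (bb p)]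
  have h3 : 18 + 2 * (4 / (3 * p)) ≤ 8 / p := by
    rw [show 18 + 2 * (4 / (3 * p)) = (18 * p + 8 / 3) / p by field_simp; norm_num]
    exact div_le_div_of_nonneg_right (by linarith) hp.le
  linarith

theorem TT_fourth {p : ℝ} (hp : 0 < p) (hp4 : p ≤ 1 / 4) (Y : ZMod N → ℝ) (t : ZMod N) :
    Ep p (fun σ => TT p σ Y t ^ 4) ≤ 32 / p * (av (fun t => Y t ^ 2)) ^ 2 := by
  have hp1 : p < 1 := by linarith
  have hm : (fun σ : Cfg (ZMod N) => TT p σ Y t) ∈ Dg p 1 :=
    TT_mem hp hp1 0 (fun _ => Y) (fun t => const_mem p 0 (Y t)) t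
  have h1 := hyp p hp hp1 1 _ hm
  rw [pow_one] at h1
  refine h1.trans ?_
  have h2 := TT_second hp hp1 Y t
  have h3 : 0 ≤ Ep p (fun σ => TT p σ Y t ^ 2) := Ep_sq_nonneg hp hp1 _
  rw [mul_pow]
  calc kk p ^ 2 * Ep p (fun σ => TT p σ Y t ^ 2) ^ 2
      ≤ (8 / p) * (2 * av (fun t => Y t ^ 2)) ^ 2 :=
        mul_le_mul (kk_sq hp hp4) (pow_le_pow_left₀ h3 h2 2) (sq_nonneg _) (by positivity)
    _ = _ := by ring

/-- Domination. -/
theorem dom (I : ℕ) : ∀ (q θ u : ℝ) (Y : ZMod N → ℝ), 0 < q → q ≤ 1 / 2 → 0 < θ → 0 < u →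
    Ev Y → av (fun t => Y t ^ 2) ≤ u → N * u ≤ θ ^ 2 * 16 ^ I →
    Pp q (fun τ => ¬ ∃ V, Sup τ V ∧ ∀ t, Y t ≤ θ + sy V t) ≤ 32768 * u / (θ ^ 2 * q ^ 3) := by
  induction I with
  | zero =>
    intro q θ u Y hq hq2 hθ hu hY hYu hN
    have h1 : ∀ τ : Cfg (ZMod N), ∃ V, Sup τ V ∧ ∀ t, Y t ≤ θ + sy V t := by
      intro τ
      refine ⟨fun _ => 0, ⟨fun _ => rfl, fun _ _ => rfl, fun _ _ => rfl⟩, fun t => ?_⟩
      have e : sy (fun _ : ZMod N => (0 : ℝ)) t = 0 := by
        unfold sy
        simp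
      rw [e, add_zero]
      have h2 : Y t ^ 2 ≤ θ ^ 2 := by
        have h3 : Y t ^ 2 ≤ ∑ t, Y t ^ 2 :=
          Finset.single_le_sum (f := fun t => Y t ^ 2) (fun t _ => sq_nonneg _) (mem_univ t)
        have h4 : ∑ t, Y t ^ 2 = N * av (fun t => Y t ^ 2) := by
          unfold av
          have := Nne (N := N)
          field_simp
        have h5 := mul_le_mul_of_nonneg_left hYu (Npos (N := N)).le
        rw [pow_zero, mul_one] at hN
        linarith
      exact le_of_sq_le_sq h2 hθ.le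
    have h2 : Pp q (fun τ : Cfg (ZMod N) => ¬ ∃ V, Sup τ V ∧ ∀ t, Y t ≤ θ + sy V t) = 0 := by
      have h3 := Pp_mono q hq.le (by linarith) (fun τ : Cfg (ZMod N) =>
        ¬ ∃ V, Sup τ V ∧ ∀ t, Y t ≤ θ + sy V t) (fun _ => False)
        (fun τ hτ => hτ (h1 τ))
      have h4 : Pp q (fun _ : Cfg (ZMod N) => False) = 0 := by
        unfold Pp
        simp only [if_false]
        exact Ep_const q 0
      exact le_antisymm (h3.trans h4.le) (Pp_nonneg q hq.le (by linarith) _)
    rw [h2]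
    positivity
  | succ I ih =>
    intro q θ u Y hq hq2 hθ hu hY hYu hN
    have hq1 : q ≤ 1 := by linarith
    by_cases hbig : θ ^ 2 < 32 * u
    · refine (Pp_le_one q hq.le hq1 _).trans ?_
      rw [le_div_iff₀ (by positivity), one_mul]
      have h1 : q ^ 3 ≤ 1 := pow_le_one₀ hq.le hq1
      have h2 : θ ^ 2 * q ^ 3 ≤ θ ^ 2 * 1 := mul_le_mul_of_nonneg_left h1 (sq_nonneg _)
      linarith
    push Not at hbig
    set q1 : ℝ := q / 2 with hq1d
    set q2 : ℝ := (q - q1) / (1 - q1) with hq2d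
    have a1 : 0 < q1 := by positivity
    have a2 : q1 ≤ 1 / 4 := by rw [hq1d]; linarith
    have a3 : q1 < 1 := by linarith
    have a4 : (0 : ℝ) < 1 - q1 := by linarith
    have a5 : 0 < q2 := by
      rw [hq2d]
      refine div_pos ?_ a4
      rw [hq1d]
      linarith
    have a6 : q2 ≤ 1 / 2 := by
      rw [hq2d, div_le_iff₀ a4, hq1d]
      linarith
    have a7 : q / 2 ≤ q2 := by
      rw [hq2d, le_div_iff₀ a4, hq1d]
      nlinarith
    have a8 : q1 + q2 - q1 * q2 = q := by
      rw [hq2d]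
      field_simp
      ring
    set κ : ℝ := √((1 - q1) / q1) with hκ
    have hκ4 : κ ^ 4 ≤ 1 / q1 ^ 2 := by
      have h1 : κ ^ 2 = (1 - q1) / q1 := Real.sq_sqrt (div_nonneg a4.le a1.le)
      have h2 : κ ^ 4 = ((1 - q1) / q1) ^ 2 := by rw [← h1]; ring
      rw [h2, div_pow]
      refine div_le_div_of_nonneg_right ?_ (sq_nonneg _)
      exact pow_le_one₀ a4.le (by linarith)
    set n : Cfg (ZMod N) → ZMod N → ℝ := fun σ t => κ * TT q1 σ Y t with hn
    set Y' : Cfg (ZMod N) → ZMod N → ℝ := fun σ t => max (|n σ t| - θ / 4) 0 with hY'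
    have hY'sq : ∀ σ t, Y' σ t ^ 2 ≤ κ ^ 4 * TT q1 σ Y t ^ 4 / θ ^ 2 := by
      intro σ t
      rw [le_div_iff₀ (by positivity)]
      have h1 : κ ^ 4 * TT q1 σ Y t ^ 4 = (|n σ t| ^ 2) ^ 2 := by
        simp only [hn]
        rw [sq_abs]
        ring
      rw [h1]
      simp only [hY']
      rcases le_total (|n σ t| - θ / 4) 0 with h2 | h2
      · rw [max_eq_right h2]
        have : 0 ≤ (|n σ t| ^ 2) ^ 2 := by positivity
        simpa using this
      · rw [max_eq_left h2]
        have h3 : (|n σ t| - θ / 4) * θ ≤ |n σ t| ^ 2 := by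
          nlinarith [sq_nonneg (|n σ t| - θ / 2)]
        have h4 : 0 ≤ (|n σ t| - θ / 4) * θ := mul_nonneg h2 hθ.le
        calc (|n σ t| - θ / 4) ^ 2 * θ ^ 2 = ((|n σ t| - θ / 4) * θ) ^ 2 := by ring
          _ ≤ _ := pow_le_pow_left₀ h4 h3 2
    have hu2 : (av (fun t => Y t ^ 2)) ^ 2 ≤ u ^ 2 :=
      pow_le_pow_left₀ (av_nonneg _ fun t => sq_nonneg _) hYu 2
    have hmean : Ep q1 (fun σ => av (fun t => Y' σ t ^ 2)) ≤ 256 * u ^ 2 / (θ ^ 2 * q ^ 3) := by
      have h1 : ∀ σ : Cfg (ZMod N), av (fun t => Y' σ t ^ 2) ≤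
          av (fun t => κ ^ 4 * TT q1 σ Y t ^ 4 / θ ^ 2) := fun σ => av_mono _ _ (hY'sq σ)
      refine (Ep_mono q1 a1.le a3.le _ _ h1).trans ?_
      unfold av
      rw [Ep_div, Ep_sum, div_le_iff₀ Npos]
      have h2 : ∀ t : ZMod N, Ep q1 (fun σ => κ ^ 4 * TT q1 σ Y t ^ 4 / θ ^ 2) ≤
          256 * u ^ 2 / (θ ^ 2 * q ^ 3) := by
        intro t
        rw [Ep_div, Ep_mul]
        have h3 := TT_fourth a1 a2 Y t
        have h4 : 0 ≤ Ep q1 (fun σ => TT q1 σ Y t ^ 4) :=
          Ep_nonneg q1 a1.le a3.le _ fun σ => by positivity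
        calc κ ^ 4 * Ep q1 (fun σ => TT q1 σ Y t ^ 4) / θ ^ 2
            ≤ (1 / q1 ^ 2) * (32 / q1 * u ^ 2) / θ ^ 2 := by
              refine div_le_div_of_nonneg_right ?_ (sq_nonneg _)
              refine mul_le_mul hκ4 (h3.trans ?_) h4 (by positivity)
              exact mul_le_mul_of_nonneg_left hu2 (by positivity)
          _ = _ := by
              rw [hq1d]
              field_simp
              ring
      calc _ ≤ ∑ _t : ZMod N, 256 * u ^ 2 / (θ ^ 2 * q ^ 3) := Finset.sum_le_sum fun t _ => h2 t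
        _ = _ := by
            rw [Finset.sum_const, card_univ, ZMod.card, nsmul_eq_mul, mul_comm]
    have hbad : Pp q1 (fun σ => u / 64 < av (fun t => Y' σ t ^ 2)) ≤
        16384 * u / (θ ^ 2 * q ^ 3) := by
      refine (Pp_markov q1 a1.le a3.le _ (fun σ => av_nonneg _ fun t => sq_nonneg _) (u / 64)
        (by positivity)).trans ?_
      rw [div_le_iff₀ (by positivity)]
      refine hmean.trans (le_of_eq ?_)
      field_simp
      norm_num
    have hgood : ∀ σ : Cfg (ZMod N), Pp q2 (fun τ => ¬ ∃ V, Sup (cup σ τ) V ∧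
        ∀ t, Y t ≤ θ + sy V t) ≤
        (if u / 64 < av (fun t => Y' σ t ^ 2) then 1 else 0) + 16384 * u / (θ ^ 2 * q ^ 3) := by
      intro σ
      have hnn : 0 ≤ 16384 * u / (θ ^ 2 * q ^ 3) := by positivity
      by_cases hb : u / 64 < av (fun t => Y' σ t ^ 2)
      · rw [if_pos hb]
        have := Pp_le_one q2 a5.le (by linarith) (fun τ => ¬ ∃ V, Sup (cup σ τ) V ∧
          ∀ t, Y t ≤ θ + sy V t)
        linarith
      · rw [if_neg hb, zero_add]
        push Not at hb
        have hev : Ev (Y' σ) := by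
          intro t
          simp only [hY', hn]
          rw [TT_ev]
        have h1 := ih q2 (θ / 2) (u / 64) (Y' σ) a5 a6 (by positivity) (by positivity) hev hb (by
          have hN' : N * u ≤ θ ^ 2 * (16 ^ I * 16) := by
            rw [← pow_succ]
            exact hN
          have : (θ / 2) ^ 2 * 16 ^ I = θ ^ 2 * (16 ^ I * 16) / 64 := by ring
          rw [this]
          linarith)
        have h2 : Pp q2 (fun τ => ¬ ∃ V, Sup (cup σ τ) V ∧ ∀ t, Y t ≤ θ + sy V t) ≤
            Pp q2 (fun τ => ¬ ∃ V, Sup τ V ∧ ∀ t, Y' σ t ≤ θ / 2 + sy V t) := by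
          refine Pp_mono q2 a5.le (by linarith) _ _ fun τ hτ h3 => hτ ?_
          obtain ⟨V, hV, hVt⟩ := h3
          set b : ZMod N → ℝ := fun k => (1 / q1) * bc σ Y k with hb1
          have hbs : Sup σ b := by
            refine Sup.smul ⟨fun k => ?_, fun k hk => ?_, fun k hk => ?_⟩ _
            · have h : -k + -k = 0 ↔ k + k = 0 := by rw [← neg_add, neg_eq_zero]
              unfold bc
              rw [cls_neg, ft_ev Y k]
              simp only [h]
            · unfold bc
              rw [if_pos hk]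
            · unfold bc
              rw [hk]
              simp
          refine ⟨fun k => b k + V k, hbs.add hV, fun t => ?_⟩
          rw [sy_add]
          have h4 : sy b t = Y t - ZZ Y t + n σ t := by
            have h5 := bc_sy a1 a3 σ Y hY t
            simp only [hb1]
            rw [sy_smul, h5]
            simp only [hn]
            rw [← hκ]
            field_simp
          have h5 : |ZZ Y t| ≤ θ / 4 := by
            have h6 := ZZ_sq Y t
            have h7 : ∑ k ∈ univ.filter (fun k : ZMod N => k + k = 0), ft Y k ^ 2 ≤ u := by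
              refine le_trans ?_ ((bessel Y).trans hYu)
              exact Finset.sum_le_sum_of_subset_of_nonneg (Finset.filter_subset _ _)
                fun _ _ _ => sq_nonneg _
            refine abs_le_of_sq_le_sq ?_ (by positivity)
            nlinarith
          have h6 := hVt t
          have h7 : |n σ t| - θ / 4 ≤ Y' σ t := le_max_left _ _
          have h8 := neg_abs_le (n σ t)
          have h9 := (abs_le.1 h5).2
          rw [h4]
          linarith
        have h3 : 32768 * (u / 64) / ((θ / 2) ^ 2 * q2 ^ 3) ≤ 16384 * u / (θ ^ 2 * q ^ 3) := by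
          have h4 : (q / 2) ^ 3 ≤ q2 ^ 3 := pow_le_pow_left₀ (by positivity) a7 3
          calc 32768 * (u / 64) / ((θ / 2) ^ 2 * q2 ^ 3)
              ≤ 32768 * (u / 64) / ((θ / 2) ^ 2 * (q / 2) ^ 3) := by
                refine div_le_div_of_nonneg_left (by positivity) (by positivity) ?_
                exact mul_le_mul_of_nonneg_left h4 (by positivity)
            _ = _ := by
                field_simp
                norm_num
        exact h2.trans (h1.trans h3)
    have hfin : Pp q (fun τ : Cfg (ZMod N) => ¬ ∃ V, Sup τ V ∧ ∀ t, Y t ≤ θ + sy V t) =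
        Ep q1 (fun σ => Pp q2 (fun τ => ¬ ∃ V, Sup (cup σ τ) V ∧
        ∀ t, Y t ≤ θ + sy V t)) := by
      rw [← a8]
      exact Pp_cup q1 q2 _
    rw [hfin]
    refine (Ep_mono q1 a1.le a3.le _ _ hgood).trans ?_
    rw [Ep_add, Ep_const]
    have hb2 : Ep q1 (fun σ => if u / 64 < av (fun t => Y' σ t ^ 2) then (1 : ℝ) else 0) ≤
        16384 * u / (θ ^ 2 * q ^ 3) := by
      have := hbad
      unfold Pp at this
      convert this using 3
    have h5 : 32768 * u / (θ ^ 2 * q ^ 3) = 16384 * u / (θ ^ 2 * q ^ 3) +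
        16384 * u / (θ ^ 2 * q ^ 3) := by ring
    rw [h5]
    exact add_le_add hb2 le_rfl

/-- Domination, final form. -/
theorem dom' (q θ u : ℝ) (Y : ZMod N → ℝ) (hq : 0 < q) (hq2 : q ≤ 1 / 2) (hθ : 0 < θ)
    (hu : 0 < u) (hY : Ev Y) (hYu : av (fun t => Y t ^ 2) ≤ u) :
    Pp q (fun τ => ¬ ∃ V, Sup τ V ∧ ∀ t, Y t ≤ θ + sy V t) ≤ 32768 * u / (θ ^ 2 * q ^ 3) := by
  obtain ⟨I, hI⟩ := pow_unbounded_of_one_lt (N * u / θ ^ 2) (show (1 : ℝ) < 16 by norm_num)
  refine dom I q θ u Y hq hq2 hθ hu hY hYu ?_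
  rw [div_lt_iff₀ (by positivity)] at hI
  linarith

end dom

end Pool.Agent.H976.C
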