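import Pool.Agent.H976.C.S

/-!
# Circulant theta: coincidence patterns
-/

set_option autoImplicit false
set_option linter.unusedSectionVars false

namespace Pool.Agent.H976.C

open Finset Real

/-- integer sign -/
def sgz (s : Bool) : ℤ := if s = true then 1 else -1

theorem sgz_sq (s : Bool) : sgz s * sgz s = 1 := by
  rcases s <;> simp [sgz]

section sgn

variable {N : ℕ} [NeZero N]

theorem sg_inj (s : Bool) {a b : ZMod N} (h : sg s a = sg s b) : a = b := by
  rcases s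
  · simp only [sg, Bool.false_eq_true, if_false] at h
    exact neg_injective h
  · simpa [sg] using h

theorem sg_sg (s : Bool) (a : ZMod N) : sg s (sg s a) = a := by
  rcases s <;> simp [sg]

theorem sg_swap (s : Bool) (a b : ZMod N) : a = sg s b ↔ b = sg s a := by
  constructor
  · rintro rfl
    rw [sg_sg]
  · rintro rfl
    rw [sg_sg]

theorem sg_eq_mul (s : Bool) (a : ZMod N) : sg s a = (sgz s : ZMod N) * a := by
  rcases s <;> simp [sg, sgz]

theorem sg_sub (s : Bool) (a b : ZMod N) : sg s (a - b) = sg s a - sg s b := by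
  rw [sg_eq_mul, sg_eq_mul, sg_eq_mul]
  ring

theorem cls_sg (s : Bool) (a : ZMod N) : cls (sg s a) = cls a := by
  rcases s
  · simp only [sg, Bool.false_eq_true, if_false]
    exact cls_neg a
  · simp [sg]

theorem ww_sg (p : ℝ) (σ : Cfg (ZMod N)) (s : Bool) (a : ZMod N) : ww p σ (sg s a) = ww p σ a := by
  rcases s
  · simp only [sg, Bool.false_eq_true, if_false]
    exact ww_neg p σ a
  · simp [sg]

end sgn

section pat

variable (H1 H2 : Shp)

/-- the coincidences of two labellings -/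
def rel {N : ℕ} [NeZero N] (k1 : H1.X → ZMod N) (k2 : H2.X → ZMod N) :
    Finset (H1.V × H2.V × Bool) :=
  univ.filter fun q => H1.vl k1 q.1 = sg q.2.2 (H2.vl k2 q.2.1)

variable {H1 H2}

/-- functional patterns -/
def Fn (R : Finset (H1.V × H2.V × Bool)) : Prop :=
  ∀ q ∈ R, ∀ q' ∈ R, (q.1 = q'.1 → q = q') ∧ (q.2.1 = q'.2.1 → q = q')

/-- matched nodes of the first shape -/
def M1 (R : Finset (H1.V × H2.V × Bool)) : Finset H1.V := R.image fun q => q.1

/-- matched nodes of the second shape -/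
def M2 (R : Finset (H1.V × H2.V × Bool)) : Finset H2.V := R.image fun q => q.2.1

/-- pairs of generic labellings with the coincidences `R` -/
noncomputable def PP (N : ℕ) [NeZero N] (R : Finset (H1.V × H2.V × Bool)) :
    Finset ((H1.X → ZMod N) × (H2.X → ZMod N)) :=
  (H1.gs N ×ˢ H2.gs N).filter fun x => rel H1 H2 x.1 x.2 = R

/-- the differences -/
def WW (N : ℕ) [NeZero N] (R : Finset (H1.V × H2.V × Bool)) :
    Finset ((H1.X → ZMod N) × (H2.X → ZMod N)) :=
  univ.filter fun z => (∀ q ∈ R, H1.vl z.1 q.1 = sg q.2.2 (H2.vl z.2 q.2.1)) ∧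
    (∀ v, v ∉ M1 R → H1.vl z.1 v = 0) ∧ (∀ w, w ∉ M2 R → H2.vl z.2 w = 0) ∧
    H1.rh z.1 + H2.rh z.2 = 0

variable {N : ℕ} [NeZero N] {R : Finset (H1.V × H2.V × Bool)}

theorem mem_PP {x : (H1.X → ZMod N) × (H2.X → ZMod N)} : x ∈ PP N R ↔
    (GenD univ (H1.vl x.1) ∧ GenD univ (H2.vl x.2)) ∧ rel H1 H2 x.1 x.2 = R := by
  unfold PP
  rw [mem_filter, mem_product, H1.mem_gs, H2.mem_gs]

theorem PP_rel {x : (H1.X → ZMod N) × (H2.X → ZMod N)} (hx : x ∈ PP N R)
    (q : H1.V × H2.V × Bool) : q ∈ R ↔ H1.vl x.1 q.1 = sg q.2.2 (H2.vl x.2 q.2.1) := by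
  have h := (mem_PP.1 hx).2
  rw [← h]
  unfold rel
  simp

theorem mem_M1 {v : H1.V} : v ∈ M1 R ↔ ∃ q ∈ R, q.1 = v := by
  unfold M1
  rw [mem_image]

theorem mem_M2 {w : H2.V} : w ∈ M2 R ↔ ∃ q ∈ R, q.2.1 = w := by
  unfold M2
  rw [mem_image]

theorem Fn_of_PP {x : (H1.X → ZMod N) × (H2.X → ZMod N)} (hx : x ∈ PP N R) : Fn R := by
  obtain ⟨⟨g1, g2⟩, -⟩ := mem_PP.1 hx
  rintro ⟨v, w, s⟩ hq ⟨v', w', s'⟩ hq'
  rw [PP_rel hx] at hq hq'
  simp only at hq hq'
  refine ⟨fun h => ?_, fun h => ?_⟩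
  · simp only at h
    subst h
    rw [hq] at hq'
    rcases s <;> rcases s' <;> simp only [sg, Bool.false_eq_true, if_false, if_true] at hq'
    · have h1 : w = w' := by
        by_contra hne
        exact (g2 w (mem_univ _) w' (mem_univ _)).2 hne (neg_injective hq')
      rw [h1]
    · exact absurd (by rw [← hq', add_neg_cancel]) (g2 w (mem_univ _) w' (mem_univ _)).1
    · exact absurd (by rw [hq', neg_add_cancel]) (g2 w (mem_univ _) w' (mem_univ _)).1
    · have h1 : w = w' := by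
        by_contra hne
        exact (g2 w (mem_univ _) w' (mem_univ _)).2 hne hq'
      rw [h1]
  · simp only at h
    subst h
    rcases s <;> rcases s' <;> simp only [sg, Bool.false_eq_true, if_false, if_true] at hq hq'
    · have h1 : v = v' := by
        by_contra hne
        exact (g1 v (mem_univ _) v' (mem_univ _)).2 hne (by rw [hq, hq'])
      rw [h1]
    · exact absurd (by rw [hq, hq', neg_add_cancel]) (g1 v (mem_univ _) v' (mem_univ _)).1
    · exact absurd (by rw [hq, hq', add_neg_cancel]) (g1 v (mem_univ _) v' (mem_univ _)).1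
    · have h1 : v = v' := by
        by_contra hne
        exact (g1 v (mem_univ _) v' (mem_univ _)).2 hne (by rw [hq, hq'])
      rw [h1]

theorem mem_WW {z : (H1.X → ZMod N) × (H2.X → ZMod N)} : z ∈ WW N R ↔
    (∀ q ∈ R, H1.vl z.1 q.1 = sg q.2.2 (H2.vl z.2 q.2.1)) ∧
    (∀ v, v ∉ M1 R → H1.vl z.1 v = 0) ∧ (∀ w, w ∉ M2 R → H2.vl z.2 w = 0) ∧
    H1.rh z.1 + H2.rh z.2 = 0 := by
  unfold WW
  rw [mem_filter]
  simp only [mem_univ, true_and]

theorem WW_inj1 {z z' : (H1.X → ZMod N) × (H2.X → ZMod N)} (hz : z ∈ WW N R) (hz' : z' ∈ WW N R)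
    (h : z.1 = z'.1) : z = z' := by
  rw [mem_WW] at hz hz'
  refine Prod.ext h ?_
  funext y
  rw [← H2.vl_leaf z.2 y, ← H2.vl_leaf z'.2 y]
  by_cases hy : H2.leaf y ∈ M2 R
  · obtain ⟨q, hq, hqy⟩ := mem_M2.1 hy
    have h1 := hz.1 q hq
    have h2 := hz'.1 q hq
    rw [hqy] at h1 h2
    rw [h] at h1
    exact sg_inj _ (h1.symm.trans h2)
  · rw [hz.2.2.1 _ hy, hz'.2.2.1 _ hy]

theorem WW_inj2 {z z' : (H1.X → ZMod N) × (H2.X → ZMod N)} (hz : z ∈ WW N R) (hz' : z' ∈ WW N R)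
    (h : ∀ y, H2.leaf y ∈ M2 R → z.2 y = z'.2 y) : z = z' := by
  rw [mem_WW] at hz hz'
  have h2 : z.2 = z'.2 := by
    funext y
    by_cases hy : H2.leaf y ∈ M2 R
    · exact h y hy
    · rw [← H2.vl_leaf z.2 y, ← H2.vl_leaf z'.2 y, hz.2.2.1 _ hy, hz'.2.2.1 _ hy]
  refine Prod.ext ?_ h2
  funext x
  rw [← H1.vl_leaf z.1 x, ← H1.vl_leaf z'.1 x]
  by_cases hx : H1.leaf x ∈ M1 R
  · obtain ⟨q, hq, hqx⟩ := mem_M1.1 hx
    have h3 := hz.1 q hq
    have h4 := hz'.1 q hq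
    rw [hqx] at h3 h4
    rw [h3, h4, h2]
  · rw [hz.2.1 _ hx, hz'.2.1 _ hx]

theorem card_WW1 : #(WW N R) ≤ N ^ Fintype.card H1.X := by
  have h := Finset.card_le_card_of_injOn (s := WW N R) (t := (univ : Finset (H1.X → ZMod N)))
    (fun z => z.1) (fun _ _ => by simp) (fun z hz z' hz' h => WW_inj1 hz hz' h)
  rwa [card_univ, Fintype.card_fun, ZMod.card] at h

theorem card_WW2 : #(WW N R) ≤ N ^ #(univ.filter fun y => H2.leaf y ∈ M2 R) := by
  have h := Finset.card_le_card_of_injOn (s := WW N R)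
    (t := (univ : Finset ({y // H2.leaf y ∈ M2 R} → ZMod N)))
    (fun z y => z.2 y.1) (fun _ _ => by simp)
    (fun z hz z' hz' h => WW_inj2 hz hz' fun y hy => congrFun h ⟨y, hy⟩)
  rwa [card_univ, Fintype.card_fun, ZMod.card, Fintype.card_subtype] at h

theorem PP_inj {x x' : (H1.X → ZMod N) × (H2.X → ZMod N)} (hx : x ∈ PP N R) (hx' : x' ∈ PP N R)
    (hall : ∀ a, H1.leaf a ∈ M1 R) (h : x.2 = x'.2) : x = x' := by
  refine Prod.ext ?_ h
  funext a
  rw [← H1.vl_leaf x.1 a, ← H1.vl_leaf x'.1 a]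
  obtain ⟨q, hq, hqa⟩ := mem_M1.1 (hall a)
  have h1 := (PP_rel hx q).1 hq
  have h2 := (PP_rel hx' q).1 hq
  rw [hqa] at h1 h2
  rw [h1, h2, h]

theorem card_PP (hall : ∀ a, H1.leaf a ∈ M1 R) : #(PP N R) ≤ N ^ Fintype.card H2.X := by
  have h := Finset.card_le_card_of_injOn (s := PP N R) (t := (univ : Finset (H2.X → ZMod N)))
    (fun z => z.2) (fun _ _ => by simp) (fun z hz z' hz' h => PP_inj hz hz' hall h)
  rwa [card_univ, Fintype.card_fun, ZMod.card] at h

/-- A node which is matched while one of its leaves is not, or conversely. -/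
theorem half1 (v : H1.V) (x0 : H1.X) (hx0 : x0 ∈ H1.S v)
    (h : ¬ (v ∈ M1 R ↔ H1.leaf x0 ∈ M1 R)) :
    #(PP N R) * #(WW N R) * N ≤ N ^ Fintype.card H1.X * N ^ Fintype.card H2.X := by
  have h1 : #((PP N R ×ˢ WW N R) ×ˢ (univ : Finset (ZMod N))) ≤
      #((univ : Finset (H1.X → ZMod N)) ×ˢ (univ : Finset (H2.X → ZMod N))) := by
    refine Finset.card_le_card_of_injOn (fun q =>
      (Function.update (q.1.1.1 + q.1.2.1) x0 q.2, q.1.1.2)) (fun _ _ => by simp) ?_
    rintro ⟨⟨k, z⟩, c⟩ hk ⟨⟨k', z'⟩, c'⟩ hk' hq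
    rw [coe_product, coe_product, Set.mem_prod, Set.mem_prod] at hk hk'
    obtain ⟨⟨hk, hz⟩, -⟩ := hk
    obtain ⟨⟨hk', hz'⟩, -⟩ := hk'
    simp only [Prod.mk.injEq] at hq
    obtain ⟨e1, e2⟩ := hq
    simp only [mem_coe] at hk hz hk' hz'
    have hc : c = c' := by
      have := congrFun e1 x0
      rwa [Function.update_self, Function.update_self] at this
    have hne : ∀ x, x ≠ x0 → k.1 x + z.1 x = k'.1 x + z'.1 x := by
      intro x hx
      have := congrFun e1 x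
      rwa [Function.update_of_ne hx, Function.update_of_ne hx] at this
    have hm : ∀ x, H1.leaf x ∈ M1 R → k.1 x = k'.1 x := by
      intro x hx
      obtain ⟨q, hq, hqx⟩ := mem_M1.1 hx
      have g1 := (PP_rel hk q).1 hq
      have g2 := (PP_rel hk' q).1 hq
      rw [hqx, H1.vl_leaf] at g1 g2
      rw [g1, g2, e2]
    have hu : ∀ x, H1.leaf x ∉ M1 R → z.1 x = 0 ∧ z'.1 x = 0 := by
      intro x hx
      rw [← H1.vl_leaf z.1 x, ← H1.vl_leaf z'.1 x]
      exact ⟨(mem_WW.1 hz).2.1 _ hx, (mem_WW.1 hz').2.1 _ hx⟩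
    have hkne : ∀ x, x ≠ x0 → k.1 x = k'.1 x := by
      intro x hx
      by_cases hxm : H1.leaf x ∈ M1 R
      · exact hm x hxm
      · have := hne x hx
        rw [(hu x hxm).1, (hu x hxm).2, add_zero, add_zero] at this
        exact this
    have hzne : ∀ x, x ≠ x0 → z.1 x = z'.1 x := by
      intro x hx
      have := hne x hx
      rw [hkne x hx] at this
      exact add_left_cancel this
    have hlast : ∀ a b : H1.X → ZMod N, (∀ x, x ≠ x0 → a x = b x) → H1.vl a v = H1.vl b v →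
        a x0 = b x0 := by
      intro a b hab hv
      unfold Shp.vl at hv
      rw [← Finset.add_sum_erase _ _ hx0, ← Finset.add_sum_erase _ _ hx0,
        Finset.sum_congr rfl fun x hx => hab x (Finset.ne_of_mem_erase hx)] at hv
      exact add_right_cancel hv
    have hk0 : k.1 x0 = k'.1 x0 ∧ z.1 x0 = z'.1 x0 := by
      by_cases hxm : H1.leaf x0 ∈ M1 R
      · have hv : v ∉ M1 R := fun hv => h ⟨fun _ => hxm, fun _ => hv⟩
        refine ⟨hm x0 hxm, hlast _ _ hzne ?_⟩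
        rw [(mem_WW.1 hz).2.1 _ hv, (mem_WW.1 hz').2.1 _ hv]
      · have hv : v ∈ M1 R := by
          by_contra hv
          exact h ⟨fun g => absurd g hv, fun g => absurd g hxm⟩
        obtain ⟨q, hq, hqv⟩ := mem_M1.1 hv
        have g1 := (PP_rel hk q).1 hq
        have g2 := (PP_rel hk' q).1 hq
        rw [hqv] at g1 g2
        refine ⟨hlast _ _ hkne ?_, ?_⟩
        · rw [g1, g2, e2]
        · rw [(hu x0 hxm).1, (hu x0 hxm).2]
    have hkk : k = k' := by
      refine Prod.ext ?_ e2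
      funext x
      by_cases hx : x = x0
      · rw [hx, hk0.1]
      · exact hkne x hx
    have hzz : z = z' := by
      refine WW_inj1 hz hz' ?_
      funext x
      by_cases hx : x = x0
      · rw [hx, hk0.2]
      · exact hzne x hx
    rw [hkk, hzz, hc]
  rw [card_product, card_product, card_product, card_univ, card_univ, card_univ,
    Fintype.card_fun, Fintype.card_fun, ZMod.card] at h1
  exact h1

/-- swapping the shapes -/
def swp (R : Finset (H1.V × H2.V × Bool)) : Finset (H2.V × H1.V × Bool) :=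
  R.image fun q => (q.2.1, q.1, q.2.2)

theorem mem_swp {q : H2.V × H1.V × Bool} : q ∈ swp R ↔ (q.2.1, q.1, q.2.2) ∈ R := by
  unfold swp
  rw [mem_image]
  constructor
  · rintro ⟨q', hq', rfl⟩
    exact hq'
  · intro h
    exact ⟨_, h, rfl⟩

theorem M1_swp : M1 (swp R) = M2 R := by
  ext w
  rw [mem_M1, mem_M2]
  constructor
  · rintro ⟨q, hq, rfl⟩
    exact ⟨_, mem_swp.1 hq, rfl⟩
  · rintro ⟨q, hq, rfl⟩
    exact ⟨(q.2.1, q.1, q.2.2), mem_swp.2 hq, rfl⟩

theorem M2_swp : M2 (swp R) = M1 R := by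
  ext w
  rw [mem_M1, mem_M2]
  constructor
  · rintro ⟨q, hq, rfl⟩
    exact ⟨_, mem_swp.1 hq, rfl⟩
  · rintro ⟨q, hq, rfl⟩
    exact ⟨(q.2.1, q.1, q.2.2), mem_swp.2 hq, rfl⟩

theorem card_PP_swp : #(PP N R) ≤ #(PP N (swp R)) := by
  refine Finset.card_le_card_of_injOn Prod.swap ?_ (fun _ _ _ _ h => Prod.swap_injective h)
  intro x hx
  rw [mem_coe] at hx ⊢
  have h1 := mem_PP.1 hx
  rw [mem_PP]
  refine ⟨⟨h1.1.2, h1.1.1⟩, ?_⟩
  ext q
  rw [mem_swp, PP_rel hx]
  unfold rel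
  simp only [mem_filter, mem_univ, true_and, Prod.fst_swap, Prod.snd_swap]
  exact sg_swap _ _ _

theorem card_WW_swp : #(WW N R) ≤ #(WW N (swp R)) := by
  refine Finset.card_le_card_of_injOn Prod.swap ?_ (fun _ _ _ _ h => Prod.swap_injective h)
  intro x hx
  rw [mem_coe] at hx ⊢
  rw [mem_WW] at hx ⊢
  rw [M1_swp, M2_swp]
  refine ⟨fun q hq => ?_, hx.2.2.1, hx.2.1, ?_⟩
  · have h1 := hx.1 _ (mem_swp.1 hq)
    exact (sg_swap _ _ _).1 h1
  · rw [← hx.2.2.2, add_comm]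
    rfl

theorem half2 (v : H2.V) (x0 : H2.X) (hx0 : x0 ∈ H2.S v)
    (h : ¬ (v ∈ M2 R ↔ H2.leaf x0 ∈ M2 R)) :
    #(PP N R) * #(WW N R) * N ≤ N ^ Fintype.card H1.X * N ^ Fintype.card H2.X := by
  have h1 := half1 (N := N) (R := swp R) v x0 hx0 (by rwa [M1_swp])
  calc #(PP N R) * #(WW N R) * N ≤ #(PP N (swp R)) * #(WW N (swp R)) * N :=
        Nat.mul_le_mul_right _ (Nat.mul_le_mul card_PP_swp card_WW_swp)
    _ ≤ N ^ Fintype.card H2.X * N ^ Fintype.card H1.X := h1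
    _ = _ := Nat.mul_comm _ _

/-- the integer form of a node of the first shape -/
def EE (R : Finset (H1.V × H2.V × Bool)) (v : H1.V) (y : H2.X) : ℤ :=
  ∑ q ∈ R, if q.1 = v ∧ y ∈ H2.S q.2.1 then sgz q.2.2 else 0

/-- the integer form of a leaf of the second shape -/
def DD (R : Finset (H1.V × H2.V × Bool)) (y : H2.X) (x : H1.X) : ℤ :=
  ∑ q ∈ R, if q.2.1 = H2.leaf y ∧ x ∈ H1.S q.1 then sgz q.2.2 else 0

theorem EE_of (hR : Fn R) {q : H1.V × H2.V × Bool} (hq : q ∈ R) (y : H2.X) :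
    EE R q.1 y = if y ∈ H2.S q.2.1 then sgz q.2.2 else 0 := by
  unfold EE
  rw [Finset.sum_eq_single q]
  · simp only [true_and]
  · intro q' hq' hne
    rw [if_neg]
    rintro ⟨h1, -⟩
    exact hne ((hR q' hq' q hq).1 h1)
  · intro h
    exact absurd hq h

theorem DD_of (hR : Fn R) {q : H1.V × H2.V × Bool} (hq : q ∈ R) {y : H2.X}
    (hy : q.2.1 = H2.leaf y) (x : H1.X) :
    DD R y x = if x ∈ H1.S q.1 then sgz q.2.2 else 0 := by
  unfold DD
  rw [Finset.sum_eq_single q]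
  · simp only [hy, true_and]
  · intro q' hq' hne
    rw [if_neg]
    rintro ⟨h1, -⟩
    exact hne ((hR q' hq' q hq).2 (h1.trans hy.symm))
  · intro h
    exact absurd hq h

theorem DD_not {y : H2.X} (hy : H2.leaf y ∉ M2 R) (x : H1.X) : DD R y x = 0 := by
  unfold DD
  refine Finset.sum_eq_zero fun q hq => ?_
  rw [if_neg]
  rintro ⟨h1, -⟩
  exact hy (mem_M2.2 ⟨q, hq, h1⟩)

theorem lf_ind (H : Shp) (v : H.V) (s : Bool) (k : H.X → ZMod N) :
    lf (fun y => if y ∈ H.S v then sgz s else 0) k = sg s (H.vl k v) := by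
  unfold lf Shp.vl
  rw [sg_eq_mul, Finset.mul_sum]
  rw [← Finset.sum_filter_add_sum_filter_not univ (fun y => y ∈ H.S v)]
  have h1 : ∑ x ∈ univ.filter (fun y => ¬ y ∈ H.S v),
      (((if x ∈ H.S v then sgz s else 0 : ℤ)) : ZMod N) * k x = 0 := by
    refine Finset.sum_eq_zero fun x hx => ?_
    rw [if_neg (mem_filter.1 hx).2]
    simp
  rw [h1, add_zero]
  have h2 : univ.filter (fun y => y ∈ H.S v) = H.S v := by
    ext y
    simp
  rw [h2]
  refine Finset.sum_congr rfl fun x hx => ?_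
  simp only [if_pos hx]

theorem lf_EE (hR : Fn R) {q : H1.V × H2.V × Bool} (hq : q ∈ R) (k : H2.X → ZMod N) :
    lf (EE R q.1) k = sg q.2.2 (H2.vl k q.2.1) := by
  rw [← lf_ind]
  congr 1
  funext y
  exact EE_of hR hq y

theorem lf_DD (hR : Fn R) {q : H1.V × H2.V × Bool} (hq : q ∈ R) {y : H2.X}
    (hy : q.2.1 = H2.leaf y) (k : H1.X → ZMod N) :
    lf (DD R y) k = sg q.2.2 (H1.vl k q.1) := by
  rw [← lf_ind]
  congr 1
  funext x
  exact DD_of hR hq hy x

theorem lf_sum {X ι : Type} [Fintype X] (s : Finset ι) (c : ι → X → ℤ) (k : X → ZMod N) :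
    lf (fun x => ∑ i ∈ s, c i x) k = ∑ i ∈ s, lf (c i) k := by
  unfold lf
  rw [Finset.sum_comm]
  refine Finset.sum_congr rfl fun x _ => ?_
  rw [Int.cast_sum, Finset.sum_mul]

theorem lf_sub {X : Type} [Fintype X] (c c' : X → ℤ) (k : X → ZMod N) :
    lf (fun x => c x - c' x) k = lf c k - lf c' k := by
  unfold lf
  rw [← Finset.sum_sub_distrib]
  refine Finset.sum_congr rfl fun x _ => ?_
  push_cast
  ring

theorem lf_add {X : Type} [Fintype X] (c c' : X → ℤ) (k : X → ZMod N) :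
    lf (fun x => c x + c' x) k = lf c k + lf c' k := by
  unfold lf
  rw [← Finset.sum_add_distrib]
  refine Finset.sum_congr rfl fun x _ => ?_
  push_cast
  ring

/-- the identity of a node -/
def Idn (R : Finset (H1.V × H2.V × Bool)) (v : H1.V) (y : H2.X) : Prop :=
  ∑ x ∈ H1.S v, EE R (H1.leaf x) y = EE R v y

theorem card_PP_idn (hR : Fn R) (hall : ∀ a, H1.leaf a ∈ M1 R) {v : H1.V} (hv : v ∈ M1 R)
    {y0 : H2.X} (h : ¬ Idn R v y0) :
    #(PP N R) * N ≤ (∑ x ∈ H1.S v, EE R (H1.leaf x) y0 - EE R v y0).natAbs *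
      N ^ Fintype.card H2.X := by
  have h1 := card_lf (N := N) (fun y => ∑ x ∈ H1.S v, EE R (H1.leaf x) y - EE R v y) y0
    (sub_ne_zero.2 h) 0
  refine le_trans (Nat.mul_le_mul_right _ ?_) h1
  refine Finset.card_le_card_of_injOn (fun z => z.2) ?_
    (fun z hz z' hz' h => PP_inj hz hz' hall h)
  intro x hx
  rw [mem_coe] at hx
  rw [coe_filter, Set.mem_setOf_eq]
  refine ⟨mem_univ _, ?_⟩
  rw [lf_sub, lf_sum]
  obtain ⟨q, hq, hqv⟩ := mem_M1.1 hv
  have h2 : ∀ a ∈ H1.S v, lf (EE R (H1.leaf a)) x.2 = x.1 a := by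
    intro a _
    obtain ⟨q', hq', hqa⟩ := mem_M1.1 (hall a)
    have h3 := (PP_rel hx q').1 hq'
    rw [← lf_EE hR hq', hqa, H1.vl_leaf] at h3
    exact h3.symm
  rw [Finset.sum_congr rfl h2]
  have h4 := (PP_rel hx q).1 hq
  rw [← lf_EE hR hq, hqv] at h4
  rw [← h4]
  unfold Shp.vl
  rw [sub_self]

/-- the integer form of the total value -/
def TD (R : Finset (H1.V × H2.V × Bool)) (x : H1.X) : ℤ := 1 + ∑ y, DD R y x

theorem card_WW_TD (hR : Fn R) {x0 : H1.X} (h : TD R x0 ≠ 0) :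
    #(WW N R) * N ≤ (TD R x0).natAbs * N ^ Fintype.card H1.X := by
  have h1 := card_lf (N := N) (TD R) x0 h 0
  refine le_trans (Nat.mul_le_mul_right _ ?_) h1
  refine Finset.card_le_card_of_injOn (fun z => z.1) ?_
    (fun z hz z' hz' h => WW_inj1 hz hz' h)
  intro z hz
  rw [mem_coe] at hz
  rw [coe_filter, Set.mem_setOf_eq]
  refine ⟨mem_univ _, ?_⟩
  rw [mem_WW] at hz
  rw [← hz.2.2.2]
  unfold TD
  rw [lf_add, lf_sum]
  congr 1
  · unfold lf Shp.rh
    exact Finset.sum_congr rfl fun x _ => by simp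
  · unfold Shp.rh
    refine Finset.sum_congr rfl fun y _ => ?_
    by_cases hy : H2.leaf y ∈ M2 R
    · obtain ⟨q, hq, hqy⟩ := mem_M2.1 hy
      rw [lf_DD hR hq hqy, hz.1 q hq, sg_sg, hqy, H2.vl_leaf]
    · have h2 : DD R y = fun _ => 0 := funext fun x => DD_not hy x
      rw [h2, ← H2.vl_leaf z.2 y, hz.2.2.1 _ hy]
      simp [lf]

/-- `D E = 1` on the matched leaves -/
theorem DE (hR : Fn R) (hid : ∀ v y, Idn R v y) (y y' : H2.X) :
    ∑ x, DD R y x * EE R (H1.leaf x) y' =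
      if H2.leaf y ∈ M2 R ∧ y = y' then 1 else 0 := by
  by_cases hy : H2.leaf y ∈ M2 R
  · obtain ⟨q, hq, hqy⟩ := mem_M2.1 hy
    have h1 : ∀ x, DD R y x * EE R (H1.leaf x) y' =
        if x ∈ H1.S q.1 then sgz q.2.2 * EE R (H1.leaf x) y' else 0 := by
      intro x
      rw [DD_of hR hq hqy]
      split_ifs <;> ring
    simp only [h1]
    rw [Finset.sum_ite_mem, Finset.univ_inter, ← Finset.mul_sum]
    have h2 := hid q.1 y'
    unfold Idn at h2
    have h4 : y' ∈ H2.S q.2.1 ↔ y' = y := by rw [hqy, H2.leafS, mem_singleton]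
    rw [h2, EE_of hR hq]
    by_cases h3 : y' = y
    · rw [if_pos (h4.2 h3), if_pos ⟨hy, h3.symm⟩, sgz_sq]
    · rw [if_neg fun h => h3 (h4.1 h), if_neg fun h => h3 h.2.symm, mul_zero]
  · rw [if_neg fun h => hy h.1]
    exact Finset.sum_eq_zero fun x _ => by rw [DD_not hy, zero_mul]

theorem card_matched_le (hR : Fn R) (hid : ∀ v y, Idn R v y) :
    #(univ.filter fun y => H2.leaf y ∈ M2 R) ≤ Fintype.card H1.X := by
  have hinj : Function.Injective (fun (u : {y // H2.leaf y ∈ M2 R} → ZMod 2) (x : H1.X) =>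
      ∑ y, ((EE R (H1.leaf x) y.1 : ℤ) : ZMod 2) * u y) := by
    have hrec : ∀ (u : {y // H2.leaf y ∈ M2 R} → ZMod 2) (y0 : {y // H2.leaf y ∈ M2 R}),
        ∑ x, ((DD R y0.1 x : ℤ) : ZMod 2) * (∑ y, ((EE R (H1.leaf x) y.1 : ℤ) : ZMod 2) * u y) =
          u y0 := by
      intro u y0
      simp only [Finset.mul_sum]
      rw [Finset.sum_comm]
      have h1 : ∀ y : {y // H2.leaf y ∈ M2 R},
          ∑ x, ((DD R y0.1 x : ℤ) : ZMod 2) * (((EE R (H1.leaf x) y.1 : ℤ) : ZMod 2) * u y) =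
          if y0 = y then u y else 0 := by
        intro y
        have h2 : ∑ x, ((DD R y0.1 x : ℤ) : ZMod 2) *
            (((EE R (H1.leaf x) y.1 : ℤ) : ZMod 2) * u y) =
            ((∑ x, DD R y0.1 x * EE R (H1.leaf x) y.1 : ℤ) : ZMod 2) * u y := by
          rw [Int.cast_sum, Finset.sum_mul]
          refine Finset.sum_congr rfl fun x _ => ?_
          push_cast
          ring
        rw [h2, DE hR hid]
        by_cases h3 : y0 = y
        · rw [if_pos h3, if_pos ⟨y0.2, by rw [h3]⟩]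
          simp
        · rw [if_neg h3, if_neg fun h => h3 (Subtype.ext h.2)]
          simp
      simp only [h1]
      rw [Finset.sum_ite_eq, if_pos (mem_univ _)]
    intro u u' h
    funext y0
    rw [← hrec u y0, ← hrec u' y0]
    refine Finset.sum_congr rfl fun x _ => ?_
    have := congrFun h x
    simp only at this
    rw [this]
  have h1 := Fintype.card_le_of_injective _ hinj
  rw [Fintype.card_fun, Fintype.card_fun, ZMod.card, Fintype.card_subtype] at h1
  exact (Nat.pow_le_pow_iff_right (by norm_num)).1 h1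

/-- perfect patterns -/
structure PF (r : H1.V) (R : Finset (H1.V × H2.V × Bool)) : Prop where
  fn : Fn R
  m1 : ∀ v, v ∈ M1 R
  m2 : ∀ w, ∀ y ∈ H2.S w, (w ∈ M2 R ↔ H2.leaf y ∈ M2 R)
  idn : ∀ v y, Idn R v y
  tot : ∀ y, EE R r y = if H2.leaf y ∈ M2 R then -1 else 0
  card : #(univ.filter fun y => H2.leaf y ∈ M2 R) = Fintype.card H1.X

/-- Classification of the patterns. -/
theorem classify (r : H1.V) (hr : H1.S r = univ) (hR : Fn R) (hne : R.Nonempty) :
    PF r R ∨ ∃ C : ℕ, ∀ (N : ℕ) [NeZero N],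
      #(PP N R) * #(WW N R) * N ≤ C * (N ^ Fintype.card H1.X * N ^ Fintype.card H2.X) := by
  by_cases c1 : ∀ v, ∀ x ∈ H1.S v, (v ∈ M1 R ↔ H1.leaf x ∈ M1 R)
  swap
  · push Not at c1
    obtain ⟨v, x, hx, h⟩ := c1
    refine Or.inr ⟨1, fun N _ => ?_⟩
    rw [one_mul]
    refine half1 v x hx fun h' => ?_
    rcases h with h | h
    · exact h.2 (h'.1 h.1)
    · exact h.1 (h'.2 h.2)
  by_cases c2 : ∀ w, ∀ y ∈ H2.S w, (w ∈ M2 R ↔ H2.leaf y ∈ M2 R)
  swap
  · push Not at c2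
    obtain ⟨v, x, hx, h⟩ := c2
    refine Or.inr ⟨1, fun N _ => ?_⟩
    rw [one_mul]
    refine half2 v x hx fun h' => ?_
    rcases h with h | h
    · exact h.2 (h'.1 h.1)
    · exact h.1 (h'.2 h.2)
  have hr1 : r ∈ M1 R := by
    obtain ⟨q, hq⟩ := hne
    obtain ⟨x, hx⟩ := H1.ne q.1
    have h1 : q.1 ∈ M1 R := mem_M1.2 ⟨q, hq, rfl⟩
    have h2 := (c1 q.1 x hx).1 h1
    exact (c1 r x (by rw [hr]; exact mem_univ _)).2 h2
  have hall : ∀ a, H1.leaf a ∈ M1 R := fun a =>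
    (c1 r a (by rw [hr]; exact mem_univ _)).1 hr1
  have hallv : ∀ v, v ∈ M1 R := by
    intro v
    obtain ⟨x, hx⟩ := H1.ne v
    exact (c1 v x hx).2 (hall x)
  by_cases c3 : ∀ v y, Idn R v y
  swap
  · push Not at c3
    obtain ⟨v, y0, h⟩ := c3
    refine Or.inr ⟨(∑ x ∈ H1.S v, EE R (H1.leaf x) y0 - EE R v y0).natAbs, fun N _ => ?_⟩
    have h1 := card_PP_idn (N := N) hR hall (hallv v) h
    have h2 := card_WW1 (N := N) (R := R)
    calc #(PP N R) * #(WW N R) * N = (#(PP N R) * N) * #(WW N R) := by ring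
      _ ≤ ((∑ x ∈ H1.S v, EE R (H1.leaf x) y0 - EE R v y0).natAbs * N ^ Fintype.card H2.X) *
          N ^ Fintype.card H1.X := Nat.mul_le_mul h1 h2
      _ = _ := by ring
  by_cases c4 : ∀ x, TD R x = 0
  swap
  · push Not at c4
    obtain ⟨x0, h⟩ := c4
    refine Or.inr ⟨(TD R x0).natAbs, fun N _ => ?_⟩
    have h1 := card_WW_TD (N := N) hR h
    have h2 := card_PP (N := N) hall
    calc #(PP N R) * #(WW N R) * N = #(PP N R) * (#(WW N R) * N) := by ring
      _ ≤ N ^ Fintype.card H2.X * ((TD R x0).natAbs * N ^ Fintype.card H1.X) :=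
          Nat.mul_le_mul h2 h1
      _ = _ := by ring
  have hle := card_matched_le hR c3
  by_cases c5 : #(univ.filter fun y => H2.leaf y ∈ M2 R) = Fintype.card H1.X
  swap
  · refine Or.inr ⟨1, fun N _ => ?_⟩
    have h1 := card_WW2 (N := N) (R := R)
    have h2 := card_PP (N := N) hall
    have h3 : N ^ #(univ.filter fun y => H2.leaf y ∈ M2 R) * N ≤ N ^ Fintype.card H1.X := by
      rw [← pow_succ]
      exact Nat.pow_le_pow_right (NeZero.pos N) (by omega)
    calc #(PP N R) * #(WW N R) * N = #(PP N R) * (#(WW N R) * N) := by ring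
      _ ≤ N ^ Fintype.card H2.X * N ^ Fintype.card H1.X :=
          Nat.mul_le_mul h2 ((Nat.mul_le_mul_right _ h1).trans h3)
      _ = _ := by ring
  refine Or.inl ⟨hR, hallv, c2, c3, fun y' => ?_, c5⟩
  have h1 : ∑ x, TD R x * EE R (H1.leaf x) y' = 0 :=
    Finset.sum_eq_zero fun x _ => by rw [c4, zero_mul]
  have h2 : ∑ x, TD R x * EE R (H1.leaf x) y' = EE R r y' +
      ∑ y, ∑ x, DD R y x * EE R (H1.leaf x) y' := by
    unfold TD
    simp only [add_mul, one_mul, Finset.sum_mul]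
    rw [Finset.sum_add_distrib, Finset.sum_comm]
    congr 1
    have h3 := c3 r y'
    unfold Idn at h3
    rw [hr] at h3
    exact h3
  simp only [DE hR c3] at h2
  have h4 : ∑ y, (if H2.leaf y ∈ M2 R ∧ y = y' then (1 : ℤ) else 0) =
      if H2.leaf y' ∈ M2 R then 1 else 0 := by
    rw [Finset.sum_eq_single y']
    · simp
    · intro y _ hy
      rw [if_neg fun h => hy h.2]
    · intro h
      exact absurd (mem_univ _) h
  rw [h4, h1] at h2
  split_ifs at h2 ⊢ <;> linarith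

end pat

end Pool.Agent.H976.C
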