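import Pool.Agent.H976.C.P

/-!
# Circulant theta: product of two chaoses
-/

set_option autoImplicit false
set_option linter.unusedSectionVars false

namespace Pool.Agent.H976.C

open Finset Real

section prod

variable {H1 H2 : Shp}

/-- the product is a sum over pairs of labellings -/
theorem FF (p : ℝ) (H1 H2 : Shp) (N : ℕ) [NeZero N] (σ : Cfg (ZMod N)) (t : ZMod N) :
    Shp.F p H1 N σ t * Shp.F p H2 N σ t =
      (∑ x ∈ H1.gs N ×ˢ H2.gs N, monD p σ univ (H1.vl x.1) * monD p σ univ (H2.vl x.2) *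
        cs ((H1.rh x.1 + H2.rh x.2) * t)) / √N ^ (Fintype.card H1.X + Fintype.card H2.X) := by
  unfold Shp.F
  rw [div_mul_div_comm, pow_add]
  congr 1
  rw [Finset.sum_mul_sum, Finset.sum_product]
  refine Finset.sum_congr rfl fun k1 _ => ?_
  have hneg : ∀ G : (H2.X → ZMod N) → ℝ, ∑ k2 ∈ H2.gs N, G k2 = ∑ k2 ∈ H2.gs N, G (-k2) := by
    intro G
    refine Finset.sum_nbij' (fun k => -k) (fun k => -k) ?_ ?_ ?_ ?_ ?_
    · exact fun k hk => H2.neg_mem_gs k hk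
    · exact fun k hk => H2.neg_mem_gs k hk
    · exact fun k _ => neg_neg k
    · exact fun k _ => neg_neg k
    · exact fun k _ => by rw [neg_neg]
  have hm : ∀ k2 : H2.X → ZMod N, monD p σ univ (H2.vl (-k2)) = monD p σ univ (H2.vl k2) := by
    intro k2
    unfold monD
    exact Finset.prod_congr rfl fun v _ => by rw [H2.vl_neg, ww_neg]
  have h1 : ∀ k2 : H2.X → ZMod N,
      monD p σ univ (H1.vl k1) * cs (H1.rh k1 * t) *
        (monD p σ univ (H2.vl k2) * cs (H2.rh k2 * t)) =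
      (monD p σ univ (H1.vl k1) * monD p σ univ (H2.vl k2) * cs ((H1.rh k1 + H2.rh k2) * t) +
        monD p σ univ (H1.vl k1) * monD p σ univ (H2.vl (-k2)) *
          cs ((H1.rh k1 + H2.rh (-k2)) * t)) / 2 := by
    intro k2
    rw [hm, H2.rh_neg, ← sub_eq_add_neg, add_mul, sub_mul]
    have h2 := cs_mul_cs (H1.rh k1 * t) (H2.rh k2 * t)
    linear_combination (monD p σ univ (H1.vl k1) * monD p σ univ (H2.vl k2)) * h2
  simp only [h1]
  rw [← Finset.sum_div, Finset.sum_add_distrib,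
    ← hneg fun k2 => monD p σ univ (H1.vl k1) * monD p σ univ (H2.vl k2) *
      cs ((H1.rh k1 + H2.rh k2) * t)]
  ring

/-- the part of the product with coincidences `R` -/
noncomputable def HH (p : ℝ) (R : Finset (H1.V × H2.V × Bool)) : MF := fun N _ σ t =>
  (∑ x ∈ PP N R, monD p σ univ (H1.vl x.1) * monD p σ univ (H2.vl x.2) *
    cs ((H1.rh x.1 + H2.rh x.2) * t)) / √N ^ (Fintype.card H1.X + Fintype.card H2.X)

theorem FF_HH (p : ℝ) (H1 H2 : Shp) (N : ℕ) [NeZero N] (σ : Cfg (ZMod N)) (t : ZMod N) :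
    Shp.F p H1 N σ t * Shp.F p H2 N σ t =
      ∑ R : Finset (H1.V × H2.V × Bool), HH p R N σ t := by
  rw [FF]
  unfold HH
  rw [← Finset.sum_div]
  congr 1
  exact (Finset.sum_fiberwise (H1.gs N ×ˢ H2.gs N) (fun x => rel H1 H2 x.1 x.2) _).symm

/-- remaining nodes -/
def Dset (R : Finset (H1.V × H2.V × Bool)) (B : Finset H1.V) : Finset (H1.V ⊕ H2.V) :=
  ((univ \ M1 R) ∪ B).disjSum (univ \ M2 R)

/-- values of the nodes -/
def av2 {N : ℕ} [NeZero N] (x : (H1.X → ZMod N) × (H2.X → ZMod N)) : H1.V ⊕ H2.V → ZMod N :=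
  Sum.elim (H1.vl x.1) (H2.vl x.2)

/-- the part of the product with coincidences `R` and repeated nodes `B` -/
noncomputable def HB (p : ℝ) (R : Finset (H1.V × H2.V × Bool)) (B : Finset H1.V) : MF :=
  fun N _ σ t => (∑ x ∈ PP N R, monD p σ (Dset R B) (av2 x) *
    cs ((H1.rh x.1 + H2.rh x.2) * t)) / √N ^ (Fintype.card H1.X + Fintype.card H2.X)

variable {N : ℕ} [NeZero N] {R : Finset (H1.V × H2.V × Bool)}

theorem mon_split (p : ℝ) (hp : 0 < p) (hp1 : p < 1) (σ : Cfg (ZMod N))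
    {x : (H1.X → ZMod N) × (H2.X → ZMod N)} (hx : x ∈ PP N R) :
    monD p σ univ (H1.vl x.1) * monD p σ univ (H2.vl x.2) =
      ∑ B ∈ (M1 R).powerset, bb p ^ #B * monD p σ (Dset R B) (av2 x) := by
  have hR := Fn_of_PP hx
  obtain ⟨⟨g1, g2⟩, -⟩ := mem_PP.1 hx
  have e1 : monD p σ univ (H1.vl x.1) = (∏ v ∈ univ \ M1 R, ww p σ (H1.vl x.1 v)) *
      ∏ v ∈ M1 R, ww p σ (H1.vl x.1 v) := by
    unfold monD
    rw [Finset.prod_sdiff (Finset.subset_univ _)]
  have e2 : monD p σ univ (H2.vl x.2) = (∏ v ∈ univ \ M2 R, ww p σ (H2.vl x.2 v)) *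
      ∏ v ∈ M2 R, ww p σ (H2.vl x.2 v) := by
    unfold monD
    rw [Finset.prod_sdiff (Finset.subset_univ _)]
  have e3 : ∏ v ∈ M2 R, ww p σ (H2.vl x.2 v) = ∏ v ∈ M1 R, ww p σ (H1.vl x.1 v) := by
    unfold M1 M2
    rw [Finset.prod_image (fun q hq q' hq' h => (hR q hq q' hq').2 h),
      Finset.prod_image (fun q hq q' hq' h => (hR q hq q' hq').1 h)]
    refine Finset.prod_congr rfl fun q hq => ?_
    rw [(PP_rel hx q).1 hq, ww_sg]
  have e4 : (∏ v ∈ M1 R, ww p σ (H1.vl x.1 v)) * ∏ v ∈ M1 R, ww p σ (H1.vl x.1 v) =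
      ∑ B ∈ (M1 R).powerset, ∏ v ∈ B, bb p * ww p σ (H1.vl x.1 v) := by
    rw [← Finset.prod_mul_distrib, ← Finset.prod_one_add]
    refine Finset.prod_congr rfl fun v _ => ?_
    unfold ww
    rw [if_neg (g1 v (mem_univ v) v (mem_univ v)).1, ← sq, om_sq p hp hp1]
  have e5 : ∀ B ∈ (M1 R).powerset, bb p ^ #B * monD p σ (Dset R B) (av2 x) =
      (∏ v ∈ univ \ M1 R, ww p σ (H1.vl x.1 v)) * (∏ v ∈ univ \ M2 R, ww p σ (H2.vl x.2 v)) *
        ∏ v ∈ B, bb p * ww p σ (H1.vl x.1 v) := by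
    intro B hB
    unfold monD Dset av2
    rw [Finset.prod_disjSum, Finset.prod_union, Finset.prod_mul_distrib, Finset.prod_const]
    · simp only [Sum.elim_inl, Sum.elim_inr]
      ring
    · exact Finset.disjoint_of_subset_right (Finset.mem_powerset.1 hB) Finset.sdiff_disjoint
  rw [Finset.sum_congr rfl e5, ← Finset.mul_sum, ← e4, e1, e2, e3]
  ring

theorem GenD_av2 {B : Finset H1.V} {x : (H1.X → ZMod N) × (H2.X → ZMod N)} (hx : x ∈ PP N R) :
    GenD (Dset R B) (av2 x) := by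
  obtain ⟨⟨g1, g2⟩, -⟩ := mem_PP.1 hx
  have key : ∀ v w, w ∉ M2 R → H1.vl x.1 v + H2.vl x.2 w ≠ 0 ∧ H1.vl x.1 v ≠ H2.vl x.2 w := by
    intro v w hw
    constructor
    · intro h
      refine hw (mem_M2.2 ⟨(v, w, false), (PP_rel hx _).2 ?_, rfl⟩)
      simp only [sg, Bool.false_eq_true, if_false]
      exact eq_neg_of_add_eq_zero_left h
    · intro h
      refine hw (mem_M2.2 ⟨(v, w, true), (PP_rel hx _).2 ?_, rfl⟩)
      simp only [sg, if_true]
      exact h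
  intro u hu w hw
  unfold Dset at hu hw
  rw [Finset.mem_disjSum] at hu hw
  rcases hu with ⟨v, hv, rfl⟩ | ⟨v, hv, rfl⟩ <;> rcases hw with ⟨w, hw, rfl⟩ | ⟨w, hw, rfl⟩
  · obtain ⟨a1, a2⟩ := g1 v (mem_univ _) w (mem_univ _)
    exact ⟨a1, fun h => a2 fun h' => h (by rw [h'])⟩
  · obtain ⟨a1, a2⟩ := key v w (by simpa using hw)
    exact ⟨a1, fun _ => a2⟩
  · obtain ⟨a1, a2⟩ := key w v (by simpa using hv)
    refine ⟨?_, fun _ => Ne.symm a2⟩
    rw [add_comm]
    exact a1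
  · obtain ⟨a1, a2⟩ := g2 v (mem_univ _) w (mem_univ _)
    exact ⟨a1, fun h => a2 fun h' => h (by rw [h'])⟩

theorem diff_WW {B : Finset H1.V} {i j : (H1.X → ZMod N) × (H2.X → ZMod N)} (hi : i ∈ PP N R)
    (hj : j ∈ PP N R) (h : ∀ u ∈ Dset R B, av2 i u = av2 j u)
    (hr : H1.rh i.1 + H2.rh i.2 = H1.rh j.1 + H2.rh j.2) :
    i - j ∈ WW N R ∧ ∀ v ∈ B, H1.vl (i - j).1 v = 0 := by
  have h1 : ∀ v, v ∉ M1 R ∨ v ∈ B → H1.vl (i - j).1 v = 0 := by
    intro v hv
    have h2 := h (Sum.inl v) (by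
      unfold Dset
      rw [Finset.inl_mem_disjSum, mem_union, mem_sdiff]
      rcases hv with hv | hv
      · exact Or.inl ⟨mem_univ _, hv⟩
      · exact Or.inr hv)
    rw [Prod.fst_sub, H1.vl_sub]
    exact sub_eq_zero.2 h2
  have h3 : ∀ w, w ∉ M2 R → H2.vl (i - j).2 w = 0 := by
    intro w hw
    have h2 := h (Sum.inr w) (by
      unfold Dset
      rw [Finset.inr_mem_disjSum, mem_sdiff]
      exact ⟨mem_univ _, hw⟩)
    rw [Prod.snd_sub, H2.vl_sub]
    exact sub_eq_zero.2 h2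
  refine ⟨mem_WW.2 ⟨fun q hq => ?_, fun v hv => h1 v (Or.inl hv), h3, ?_⟩,
    fun v hv => h1 v (Or.inr hv)⟩
  · rw [Prod.fst_sub, Prod.snd_sub, H1.vl_sub, H2.vl_sub, sg_sub, (PP_rel hi q).1 hq,
      (PP_rel hj q).1 hq]
  · rw [Prod.fst_sub, Prod.snd_sub, H1.rh_sub, H2.rh_sub]
    linear_combination hr

/-- A part of the product is negligible as soon as the number of coincidences is small. -/
theorem HB_neg (p : ℝ) (hp : 0 < p) (hp1 : p < 1) (R : Finset (H1.V × H2.V × Bool))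
    (B : Finset H1.V) (C : ℕ)
    (h : ∀ (N : ℕ) [NeZero N], ∃ W : Finset ((H1.X → ZMod N) × (H2.X → ZMod N)),
      (∀ z ∈ WW N R, (∀ v ∈ B, H1.vl z.1 v = 0) → z ∈ W) ∧
      #(PP N R) * #W * N ≤ C * (N ^ Fintype.card H1.X * N ^ Fintype.card H2.X)) :
    Neg p (HB p R B) := by
  refine neg_of_count p hp hp1 (Dset R B) (Fintype.card H1.X + Fintype.card H2.X)
    ((Fintype.card (H1.V ⊕ H2.V) * 2) ^ Fintype.card (H1.V ⊕ H2.V) * 2 * C) (HB p R B) ?_
  intro N _
  obtain ⟨W, hW1, hW2⟩ := h N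
  refine ⟨(H1.X → ZMod N) × (H2.X → ZMod N), PP N R, av2, fun x => H1.rh x.1 + H2.rh x.2,
    fun i hi => GenD_av2 hi, fun σ t => rfl, ?_⟩
  have h1 := cnt (A := (H1.X → ZMod N) × (H2.X → ZMod N)) (PP N R) (Dset R B) av2
    (fun x => H1.rh x.1 + H2.rh x.2) W (fun i hi j hj h2 h3 => by
      obtain ⟨h4, h5⟩ := diff_WW hi hj h2 h3
      exact hW1 _ h4 h5)
  calc _ ≤ (Fintype.card (H1.V ⊕ H2.V) * 2) ^ Fintype.card (H1.V ⊕ H2.V) * 2 *
        (#(PP N R) * #W) * N := Nat.mul_le_mul_right _ h1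
    _ = (Fintype.card (H1.V ⊕ H2.V) * 2) ^ Fintype.card (H1.V ⊕ H2.V) * 2 *
        (#(PP N R) * #W * N) := by ring
    _ ≤ (Fintype.card (H1.V ⊕ H2.V) * 2) ^ Fintype.card (H1.V ⊕ H2.V) * 2 *
        (C * (N ^ Fintype.card H1.X * N ^ Fintype.card H2.X)) := Nat.mul_le_mul_left _ hW2
    _ = _ := by rw [pow_add]; ring

theorem HH_eq (p : ℝ) (hp : 0 < p) (hp1 : p < 1) (R : Finset (H1.V × H2.V × Bool)) (N : ℕ)
    [NeZero N] (σ : Cfg (ZMod N)) (t : ZMod N) :
    HH p R N σ t = ∑ B ∈ (M1 R).powerset, bb p ^ #B * HB p R B N σ t := by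
  unfold HH HB
  have h1 : ∀ B ∈ (M1 R).powerset, bb p ^ #B * ((∑ x ∈ PP N R, monD p σ (Dset R B) (av2 x) *
      cs ((H1.rh x.1 + H2.rh x.2) * t)) / √N ^ (Fintype.card H1.X + Fintype.card H2.X)) =
      (∑ x ∈ PP N R, bb p ^ #B * monD p σ (Dset R B) (av2 x) *
      cs ((H1.rh x.1 + H2.rh x.2) * t)) / √N ^ (Fintype.card H1.X + Fintype.card H2.X) := by
    intro B _
    rw [← mul_div_assoc, Finset.mul_sum]
    congr 1
    exact Finset.sum_congr rfl fun x _ => by ring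
  rw [Finset.sum_congr rfl h1, ← Finset.sum_div, Finset.sum_comm]
  congr 1
  refine Finset.sum_congr rfl fun x hx => ?_
  rw [mon_split p hp hp1 σ hx, Finset.sum_mul]

/-- Non-perfect patterns are negligible. -/
theorem HH_neg (p : ℝ) (hp : 0 < p) (hp1 : p < 1) (r : H1.V) (hr : H1.S r = univ)
    (R : Finset (H1.V × H2.V × Bool)) (hne : R.Nonempty) (hR : ¬ PF r R) : Neg p (HH p R) := by
  by_cases hF : Fn R
  · have hC : ∃ C : ℕ, ∀ (N : ℕ) [NeZero N],
      #(PP N R) * #(WW N R) * N ≤ C * (N ^ Fintype.card H1.X * N ^ Fintype.card H2.X) := by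
      rcases classify r hr hF hne with h | h
      · exact absurd h hR
      · exact h
    obtain ⟨C, hC⟩ := hC
    have h1 : Neg p (fun N _ σ t => ∑ B ∈ (M1 R).powerset, bb p ^ #B * HB p R B N σ t) := by
      refine Neg.sum hp hp1 _ (fun B => fun N _ σ t => bb p ^ #B * HB p R B N σ t) fun B _ => ?_
      refine Neg.smul ?_ _
      exact HB_neg p hp hp1 R B C fun N _ => ⟨WW N R, fun z hz _ => hz, hC N⟩
    exact h1.congr fun N _ σ t => HH_eq p hp hp1 R N σ t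
  · refine Neg.zero.congr fun N _ σ t => ?_
    unfold HH
    have h1 : PP N R = ∅ := by
      rw [Finset.eq_empty_iff_forall_notMem]
      intro x hx
      exact hF (Fn_of_PP hx)
    rw [h1]
    simp

/-- In perfect patterns only `B = ∅` counts. -/
theorem HH_perf (p : ℝ) (hp : 0 < p) (hp1 : p < 1) (r : H1.V)
    (R : Finset (H1.V × H2.V × Bool)) (hR : PF r R) :
    Neg p (fun N _ σ t => HH p R N σ t - HB p R ∅ N σ t) := by
  have h1 : Neg p (fun N _ σ t => ∑ B ∈ (M1 R).powerset.erase ∅,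
      bb p ^ #B * HB p R B N σ t) := by
    refine Neg.sum hp hp1 _ (fun B => fun N _ σ t => bb p ^ #B * HB p R B N σ t) fun B hB => ?_
    refine Neg.smul ?_ _
    obtain ⟨v0, hv0⟩ := Finset.nonempty_iff_ne_empty.2 (Finset.ne_of_mem_erase hB)
    obtain ⟨x0, hx0⟩ := H1.ne v0
    refine HB_neg p hp hp1 R B 1 fun N _ => ⟨(WW N R).filter fun z => H1.vl z.1 v0 = 0,
      fun z hz h => mem_filter.2 ⟨hz, h v0 hv0⟩, ?_⟩
    have h2 : #((WW N R).filter fun z => H1.vl z.1 v0 = 0) * N ≤ N ^ Fintype.card H1.X := by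
      have h3 := card_lf (N := N) (fun x => if x ∈ H1.S v0 then sgz true else 0) x0
        (by simp [hx0, sgz]) 0
      have h4 : (if x0 ∈ H1.S v0 then sgz true else 0).natAbs = 1 := by simp [hx0, sgz]
      rw [h4, one_mul] at h3
      refine le_trans (Nat.mul_le_mul_right _ ?_) h3
      refine Finset.card_le_card_of_injOn (fun z => z.1) ?_ ?_
      · intro z hz
        rw [mem_coe, mem_filter] at hz
        rw [coe_filter, Set.mem_setOf_eq]
        refine ⟨mem_univ _, ?_⟩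
        rw [lf_ind]
        simp only [sg, if_true]
        exact hz.2
      · intro z hz z' hz' h
        rw [mem_coe, mem_filter] at hz hz'
        exact WW_inj1 hz.1 hz'.1 h
    have h5 := card_PP (N := N) (R := R) (fun a => hR.m1 _)
    calc #(PP N R) * #((WW N R).filter fun z => H1.vl z.1 v0 = 0) * N =
          #(PP N R) * (#((WW N R).filter fun z => H1.vl z.1 v0 = 0) * N) := by ring
      _ ≤ N ^ Fintype.card H2.X * N ^ Fintype.card H1.X := Nat.mul_le_mul h5 h2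
      _ = _ := by ring
  refine h1.congr fun N _ σ t => ?_
  rw [HH_eq p hp hp1 R N σ t, ← Finset.add_sum_erase _ _ (Finset.empty_mem_powerset (M1 R))]
  simp

end prod

end Pool.Agent.H976.C
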