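import Pool.Agent.H976.C.G

/-!
# Circulant theta: the product rule
-/

set_option autoImplicit false
set_option linter.unusedSectionVars false

namespace Pool.Agent.H976.C

open Finset Real

section perf

variable {ι : Type} [Fintype ι] [DecidableEq ι] (τ : Tree) (T : ι → Tree)

/-- the remaining forest -/
def rst (j : ι) : {i // i ≠ j} → Tree := fun i => T i.1

/-- restriction of labellings -/
def pull {N : ℕ} [NeZero N] (j : ι) (k : (Sig T).X → ZMod N) : (Sig (rst T j)).X → ZMod N :=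
  fun y => k ⟨y.1.1, y.2⟩

/-- embedding of nodes -/
def embV (j : ι) (u : (Sig (rst T j)).V) : (Sig T).V := ⟨u.1.1, u.2⟩

theorem embV_inj (j : ι) : Function.Injective (embV T j) := by
  rintro ⟨⟨i, hi⟩, u⟩ ⟨⟨i', hi'⟩, u'⟩ h
  obtain ⟨h1, h2⟩ := Sigma.mk.inj h
  simp only at h1
  subst h1
  have h3 := eq_of_heq h2
  simp only at h3
  rw [h3]

variable {N : ℕ} [NeZero N]

theorem pull_vl (j : ι) (k : (Sig T).X → ZMod N) (u : (Sig (rst T j)).V) :
    (Sig (rst T j)).vl (pull T j k) u = (Sig T).vl k (embV T j u) := by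
  rcases u with ⟨i, u⟩
  rw [Sig_vl (rst T j) _ i u]
  exact (Sig_vl T k i.1 u).symm

theorem pull_rh (j : ι) (k : (Sig T).X → ZMod N) :
    (Sig T).rh k = (T j).rh (fun a => k ⟨j, a⟩) + (Sig (rst T j)).rh (pull T j k) := by
  rw [Sig_rh, Sig_rh]
  have h1 := Fintype.sum_eq_add_sum_compl (M := ZMod N) j (fun i => (T i).rh (fun x => k ⟨i, x⟩))
  rw [h1]
  congr 1
  have h2 : ∑ i ∈ ({j} : Finset ι)ᶜ, (T i).rh (fun x => k ⟨i, x⟩) =
      ∑ i : {i // i ≠ j}, (T i.1).rh (fun x => k ⟨i.1, x⟩) := by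
    refine Finset.sum_subtype _ (fun i => ?_) _
    simp
  exact h2

/-- splitting a labelling of a forest -/
def spl (j : ι) : ((Sig T).X → ZMod N) ≃
    ((T j).X → ZMod N) × ((Sig (rst T j)).X → ZMod N) where
  toFun k := (fun a => k ⟨j, a⟩, pull T j k)
  invFun x := fun y => if h : y.1 = j then x.1 (h ▸ y.2) else x.2 ⟨⟨y.1, h⟩, y.2⟩
  left_inv := by
    intro k
    funext y
    rcases y with ⟨i, a⟩
    by_cases h : i = j
    · subst h
      simp
    · simp only [dif_neg h]
      rfl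
  right_inv := by
    rintro ⟨a, b⟩
    refine Prod.ext ?_ ?_
    · funext x
      simp
    · funext y
      rcases y with ⟨⟨i, hi⟩, x⟩
      unfold pull
      simp only [dif_neg hi]

theorem card_pull_fiber (j : ι) (κ : (Sig (rst T j)).X → ZMod N) :
    #(univ.filter fun k : (Sig T).X → ZMod N => pull T j k = κ) = N ^ Fintype.card (T j).X := by
  have h1 : #(univ.filter fun k : (Sig T).X → ZMod N => pull T j k = κ) =
      #(univ : Finset ((T j).X → ZMod N)) := by
    refine Finset.card_nbij' (fun k => (spl T j k).1) (fun a => (spl T j).symm (a, κ)) ?_ ?_ ?_ ?_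
    · intro k _
      exact mem_coe.2 (mem_univ _)
    · intro a _
      rw [mem_coe, mem_filter]
      refine ⟨mem_univ _, ?_⟩
      have := congrArg Prod.snd ((spl T j).apply_symm_apply (a, κ))
      exact this
    · intro k hk
      rw [mem_coe, mem_filter] at hk
      have : ((spl T j k).1, κ) = spl T j k := Prod.ext rfl hk.2.symm
      simp only [this]
      exact (spl T j).symm_apply_apply k
    · intro a _
      have := congrArg Prod.fst ((spl T j).apply_symm_apply (a, κ))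
      exact this
  rw [h1, card_univ, Fintype.card_fun, ZMod.card]

theorem card_split (j : ι) :
    Fintype.card (Sig T).X = Fintype.card (T j).X + Fintype.card (Sig (rst T j)).X := by
  have h1 : Fintype.card (Sig T).X = ∑ i, Fintype.card (T i).X := Fintype.card_sigma
  have h2 : Fintype.card (Sig (rst T j)).X = ∑ i : {i // i ≠ j}, Fintype.card (T i.1).X :=
    Fintype.card_sigma
  rw [h1, h2, Fintype.sum_eq_add_sum_compl j]
  congr 1
  refine Finset.sum_subtype _ (fun i => ?_) _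
  simp

theorem pull_gs (j : ι) (k : (Sig T).X → ZMod N) (hk : k ∈ (Sig T).gs N) :
    pull T j k ∈ (Sig (rst T j)).gs N := by
  rw [Shp.mem_gs] at hk ⊢
  intro u _ w _
  rw [pull_vl, pull_vl]
  obtain ⟨a1, a2⟩ := hk (embV T j u) (mem_univ _) (embV T j w) (mem_univ _)
  exact ⟨a1, fun hne => a2 fun h => hne (embV_inj T j h)⟩

variable {τ T} {R : Finset (τ.V × (Sig T).V × Bool)}

theorem Sig_root_mem (T : ι → Tree) (i : ι) (y : (Sig T).X) (h : y.1 = i) :
    y ∈ (Sig T).S ⟨i, (T i).root⟩ := by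
  rcases y with ⟨j, a⟩
  change j = i at h
  subst h
  refine (Sig_mem T j a _).2 ?_
  rw [(T j).rootS]
  exact mem_univ _

theorem sgz_ne (s : Bool) : sgz s ≠ 0 := by
  rcases s <;> simp [sgz]

/-- A perfect pattern of a tree and a forest matches one component. -/
theorem PF_comp (hR : PF (H1 := τ.toShp) (H2 := Sig T) τ.root R) :
    ∃ j, ∀ y : (Sig T).X, ((Sig T).leaf y ∈ M2 R ↔ y.1 = j) := by
  obtain ⟨q, hq, hqr⟩ := mem_M1.1 (hR.m1 τ.root)
  refine ⟨q.2.1.1, ?_⟩
  have h1 : ∀ y, y ∈ (Sig T).S q.2.1 ↔ (Sig T).leaf y ∈ M2 R := by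
    intro y
    have h2 := hR.tot y
    rw [← hqr, EE_of hR.fn hq] at h2
    by_cases a : y ∈ (Sig T).S q.2.1 <;> by_cases b : (Sig T).leaf y ∈ M2 R
    · exact ⟨fun _ => b, fun _ => a⟩
    · rw [if_pos a, if_neg b] at h2
      exact absurd h2 (sgz_ne _)
    · rw [if_neg a, if_pos b] at h2
      exact absurd h2 (by norm_num)
    · exact ⟨fun h => absurd h a, fun h => absurd h b⟩
  intro y
  constructor
  · intro h
    exact Sig_fst T y _ ((h1 y).2 h)
  · intro h
    obtain ⟨y0, hy0⟩ := (Sig T).ne q.2.1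
    have h2 := (h1 y0).1 hy0
    have h3 := Sig_fst T y0 _ hy0
    have h4 := Sig_root_mem T _ y0 h3
    have h5 := (hR.m2 _ y0 h4).2 h2
    have h6 := Sig_root_mem T _ y h
    exact (hR.m2 _ y h6).1 h5

theorem PF_comp_node (hR : PF (H1 := τ.toShp) (H2 := Sig T) τ.root R) {j : ι}
    (hj : ∀ y : (Sig T).X, ((Sig T).leaf y ∈ M2 R ↔ y.1 = j)) (w : (Sig T).V) :
    w ∈ M2 R ↔ w.1 = j := by
  obtain ⟨y, hy⟩ := (Sig T).ne w
  rw [hR.m2 w y hy, hj, Sig_fst T y w hy]

theorem PF_card (hR : PF (H1 := τ.toShp) (H2 := Sig T) τ.root R) {j : ι}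
    (hj : ∀ y : (Sig T).X, ((Sig T).leaf y ∈ M2 R ↔ y.1 = j)) :
    Fintype.card (T j).X = Fintype.card τ.X := by
  rw [← hR.card]
  have h1 : #(univ.filter fun y : (Sig T).X => (Sig T).leaf y ∈ M2 R) =
      #(univ : Finset (T j).X) := by
    symm
    refine Finset.card_nbij (fun a => (⟨j, a⟩ : (Sig T).X)) ?_ ?_ ?_
    · intro a _
      rw [mem_coe, mem_filter]
      exact ⟨mem_univ _, (hj _).2 rfl⟩
    · intro a _ b _ h
      exact eq_of_heq (Sigma.mk.inj h).2
    · rintro ⟨i, a⟩ h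
      rw [mem_coe, mem_filter] at h
      have h2 := (hj _).1 h.2
      simp only at h2
      subst h2
      exact ⟨a, mem_coe.2 (mem_univ _), rfl⟩
  rw [h1, card_univ]

/-- the first labelling is determined by the second -/
def lft (R : Finset (τ.V × (Sig T).V × Bool)) (k : (Sig T).X → ZMod N) : τ.X → ZMod N :=
  fun a => lf (EE (H1 := τ.toShp) (H2 := Sig T) R (τ.leaf a)) k

theorem lft_vl (hR : PF (H1 := τ.toShp) (H2 := Sig T) τ.root R) (k : (Sig T).X → ZMod N)
    {q : τ.V × (Sig T).V × Bool} (hq : q ∈ R) :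
    τ.vl (lft R k) q.1 = sg q.2.2 ((Sig T).vl k q.2.1) := by
  rw [← lf_EE (H1 := τ.toShp) (H2 := Sig T) hR.fn hq]
  unfold Shp.vl lft
  rw [← lf_sum]
  congr 1
  funext y
  exact hR.idn q.1 y

theorem lft_mem (hR : PF (H1 := τ.toShp) (H2 := Sig T) τ.root R) (k : (Sig T).X → ZMod N)
    (hk : k ∈ (Sig T).gs N) : (lft R k, k) ∈ PP (H1 := τ.toShp) (H2 := Sig T) N R := by
  rw [Shp.mem_gs] at hk
  rw [mem_PP]
  refine ⟨⟨?_, hk⟩, ?_⟩
  · intro v _ v' _
    obtain ⟨q, hq, rfl⟩ := mem_M1.1 (hR.m1 v)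
    obtain ⟨q', hq', rfl⟩ := mem_M1.1 (hR.m1 v')
    simp only
    rw [lft_vl hR k hq, lft_vl hR k hq']
    by_cases hw : q.2.1 = q'.2.1
    · have e := (hR.fn q hq q' hq').2 hw
      subst e
      refine ⟨?_, fun h => absurd rfl h⟩
      have h1 := (hk q.2.1 (mem_univ _) q.2.1 (mem_univ _)).1
      rcases q.2.2
      · simp only [sg, Bool.false_eq_true, if_false]
        rw [← neg_add]
        exact neg_ne_zero.2 h1
      · simp only [sg, if_true]
        exact h1
    · obtain ⟨h1, h2⟩ := hk q.2.1 (mem_univ _) q'.2.1 (mem_univ _)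
      have h2 := h2 hw
      rcases q.2.2 <;> rcases q'.2.2 <;> simp only [sg, Bool.false_eq_true, if_false, if_true]
      · refine ⟨?_, fun _ h => h2 (neg_injective h)⟩
        rw [← neg_add]
        exact neg_ne_zero.2 h1
      · refine ⟨fun h => h2 ?_, fun _ h => h1 ?_⟩
        · exact (neg_add_eq_zero.1 h)
        · rw [← h, add_neg_cancel]
      · refine ⟨fun h => h2 ?_, fun _ h => h1 ?_⟩
        · rw [← sub_eq_add_neg] at h
          exact sub_eq_zero.1 h
        · rw [h, neg_add_cancel]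
      · exact ⟨h1, fun _ => h2⟩
  · ext q
    unfold rel
    simp only [mem_filter, mem_univ, true_and]
    constructor
    · intro h
      obtain ⟨q', hq', e⟩ := mem_M1.1 (hR.m1 q.1)
      have h1 := lft_vl hR k hq'
      rw [e, h] at h1
      rcases q with ⟨v, w, s⟩
      rcases q' with ⟨v', w', s'⟩
      simp only at h1 e
      subst e
      have h2 : w = w' ∧ s = s' := by
        rcases s <;> rcases s' <;> simp only [sg, Bool.false_eq_true, if_false, if_true] at h1
        · refine ⟨?_, rfl⟩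
          by_contra hne
          exact (hk w (mem_univ _) w' (mem_univ _)).2 hne (neg_injective h1)
        · exact absurd (by rw [← h1, add_neg_cancel]) (hk w (mem_univ _) w' (mem_univ _)).1
        · exact absurd (by rw [h1, neg_add_cancel]) (hk w (mem_univ _) w' (mem_univ _)).1
        · refine ⟨?_, rfl⟩
          by_contra hne
          exact (hk w (mem_univ _) w' (mem_univ _)).2 hne h1
      rw [h2.1, h2.2]
      exact hq'
    · intro h
      exact lft_vl hR k h

theorem PF_rh (hR : PF (H1 := τ.toShp) (H2 := Sig T) τ.root R) {j : ι}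
    (hj : ∀ y : (Sig T).X, ((Sig T).leaf y ∈ M2 R ↔ y.1 = j))
    {x : (τ.X → ZMod N) × ((Sig T).X → ZMod N)}
    (hx : x ∈ PP (H1 := τ.toShp) (H2 := Sig T) N R) :
    τ.rh x.1 + (Sig T).rh x.2 = (Sig (rst T j)).rh (pull T j x.2) := by
  have h1 : τ.rh x.1 = τ.vl x.1 τ.root := by
    unfold Shp.rh Shp.vl
    rw [τ.rootS]
  obtain ⟨q, hq, hqr⟩ := mem_M1.1 (hR.m1 τ.root)
  have h2 : τ.vl x.1 τ.root = lf (EE (H1 := τ.toShp) (H2 := Sig T) R τ.root) x.2 := by
    rw [← hqr, lf_EE (H1 := τ.toShp) (H2 := Sig T) hR.fn hq]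
    exact (PP_rel hx q).1 hq
  have h3 : lf (EE (H1 := τ.toShp) (H2 := Sig T) R τ.root) x.2 =
      -(T j).rh (fun a => x.2 ⟨j, a⟩) := by
    have h4 : EE (H1 := τ.toShp) (H2 := Sig T) R τ.root = fun y => if y.1 = j then -1 else 0 := by
      funext y
      rw [hR.tot y]
      simp only [hj y]
    rw [h4]
    unfold lf Shp.rh
    have h5 : ∑ y : (Sig T).X, (((if y.1 = j then -1 else 0 : ℤ)) : ZMod N) * x.2 y =
        ∑ i, ∑ a : (T i).X, (((if i = j then -1 else 0 : ℤ)) : ZMod N) * x.2 ⟨i, a⟩ :=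
      Fintype.sum_sigma _
    rw [h5, Finset.sum_eq_single j]
    · simp
    · intro i _ hi
      simp [hi]
    · intro h
      exact absurd (mem_univ _) h
  rw [h1, h2, h3, pull_rh T j x.2]
  ring

theorem PF_mon (p : ℝ) (σ : Cfg (ZMod N)) (hR : PF (H1 := τ.toShp) (H2 := Sig T) τ.root R) {j : ι}
    (hj : ∀ y : (Sig T).X, ((Sig T).leaf y ∈ M2 R ↔ y.1 = j))
    (x : (τ.X → ZMod N) × ((Sig T).X → ZMod N)) :
    monD p σ (Dset (H1 := τ.toShp) (H2 := Sig T) R ∅) (av2 x) =
      monD p σ univ ((Sig (rst T j)).vl (pull T j x.2)) := by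
  have h1 : (univ \ M1 (H1 := τ.toShp) (H2 := Sig T) R) ∪ ∅ = ∅ := by
    rw [union_empty]
    ext v
    simp only [mem_sdiff, mem_univ, true_and, notMem_empty, iff_false, not_not]
    exact hR.m1 v
  unfold monD Dset av2
  rw [h1, Finset.prod_disjSum, Finset.prod_empty, one_mul]
  simp only [Sum.elim_inr]
  symm
  refine Finset.prod_nbij (embV T j) ?_ ?_ ?_ ?_
  · intro u _
    rw [mem_sdiff, PF_comp_node hR hj]
    exact ⟨mem_univ _, u.1.2⟩
  · intro u _ w _ h
    exact embV_inj T j h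
  · rintro ⟨i, a⟩ h
    rw [mem_coe, mem_sdiff, PF_comp_node hR hj] at h
    exact ⟨⟨⟨i, h.2⟩, a⟩, mem_coe.2 (mem_univ _), rfl⟩
  · intro u _
    rw [pull_vl]

/-- The main term of a perfect pattern. -/
theorem HB_perf (p : ℝ) (hp : 0 < p) (hp1 : p < 1)
    (hR : PF (H1 := τ.toShp) (H2 := Sig T) τ.root R) {j : ι}
    (hj : ∀ y : (Sig T).X, ((Sig T).leaf y ∈ M2 R ↔ y.1 = j)) :
    Neg p (fun N _ σ t => HB (H1 := τ.toShp) (H2 := Sig T) p R ∅ N σ t -
      Shp.F p (Sig (rst T j)) N σ t) := by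
  classical
  have hcard := PF_card hR hj
  have hn := card_split T j
  set n := Fintype.card τ.X + Fintype.card (Sig T).X with hn'
  set Hr := Sig (rst T j) with hHr
  have key : Neg p (fun N _ σ t => (∑ k ∈ univ.filter (fun k : (Sig T).X → ZMod N =>
      pull T j k ∈ Hr.gs N ∧ k ∉ (Sig T).gs N), monD p σ univ (Hr.vl (pull T j k)) *
      cs (Hr.rh (pull T j k) * t)) / √N ^ n) := by
    refine neg_of_count p hp hp1 (univ : Finset Hr.V) n
      ((Fintype.card Hr.V * 2) ^ Fintype.card Hr.V * 2 *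
        (3 * Fintype.card ((Sig T).V × (Sig T).V))) _ ?_
    intro N _
    refine ⟨(Sig T).X → ZMod N, univ.filter (fun k : (Sig T).X → ZMod N =>
      pull T j k ∈ Hr.gs N ∧ k ∉ (Sig T).gs N), fun k => Hr.vl (pull T j k),
      fun k => Hr.rh (pull T j k), fun k hk => (Hr.mem_gs _).1 (mem_filter.1 hk).2.1,
      fun σ t => rfl, ?_⟩
    have h1 := cnt (A := (Sig T).X → ZMod N) (univ.filter (fun k : (Sig T).X → ZMod N =>
      pull T j k ∈ Hr.gs N ∧ k ∉ (Sig T).gs N)) (univ : Finset Hr.V)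
      (fun k => Hr.vl (pull T j k)) (fun k => Hr.rh (pull T j k))
      (univ.filter fun k => pull T j k = 0) (by
        intro i _ l _ h _
        rw [mem_filter]
        refine ⟨mem_univ _, ?_⟩
        have h2 : pull T j (i - l) = pull T j i - pull T j l := rfl
        rw [h2, sub_eq_zero]
        funext y
        rw [← Hr.vl_leaf (pull T j i) y, ← Hr.vl_leaf (pull T j l) y]
        exact h _ (mem_univ _))
    rw [card_pull_fiber, hcard] at h1
    have h2 := card_nongen (Sig T) (Sig_inj T) N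
    have h3 : #(univ.filter (fun k : (Sig T).X → ZMod N =>
      pull T j k ∈ Hr.gs N ∧ k ∉ (Sig T).gs N)) ≤
        #(univ.filter fun k : (Sig T).X → ZMod N => k ∉ (Sig T).gs N) := by
      refine Finset.card_le_card ?_
      intro k hk
      rw [mem_filter] at hk ⊢
      exact ⟨mem_univ _, hk.2.2⟩
    generalize #(univ.filter (fun k : (Sig T).X → ZMod N =>
      pull T j k ∈ Hr.gs N ∧ k ∉ (Sig T).gs N)) = A at h1 h3
    generalize #(univ.filter fun k : (Sig T).X → ZMod N => k ∉ (Sig T).gs N) = A' at h2 h3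
    calc _ ≤ (Fintype.card Hr.V * 2) ^ Fintype.card Hr.V * 2 * (A * N ^ Fintype.card τ.X) * N :=
          Nat.mul_le_mul_right _ h1
      _ = (Fintype.card Hr.V * 2) ^ Fintype.card Hr.V * 2 * ((A * N) * N ^ Fintype.card τ.X) := by
          ring
      _ ≤ (Fintype.card Hr.V * 2) ^ Fintype.card Hr.V * 2 *
          ((3 * Fintype.card ((Sig T).V × (Sig T).V) * N ^ Fintype.card (Sig T).X) *
            N ^ Fintype.card τ.X) :=
          Nat.mul_le_mul_left _ (Nat.mul_le_mul_right _ ((Nat.mul_le_mul_right _ h3).trans h2))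
      _ = _ := by rw [hn', pow_add]; ring
  refine (key.smul (-1)).congr fun N _ σ t => ?_
  have e1 : HB (H1 := τ.toShp) (H2 := Sig T) p R ∅ N σ t =
      (∑ k ∈ (Sig T).gs N, monD p σ univ (Hr.vl (pull T j k)) *
        cs (Hr.rh (pull T j k) * t)) / √N ^ n := by
    unfold HB
    congr 1
    refine Finset.sum_nbij' (fun x => x.2) (fun k => (lft R k, k)) ?_ ?_ ?_ ?_ ?_
    · intro x hx
      rw [Shp.mem_gs]
      exact (mem_PP.1 hx).1.2
    · intro k hk
      exact lft_mem hR k hk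
    · intro x hx
      exact PP_inj (lft_mem hR x.2 ((Shp.mem_gs _ _).2 (mem_PP.1 hx).1.2)) hx
        (fun a => hR.m1 _) rfl
    · intro k _
      rfl
    · intro x hx
      rw [PF_mon p σ hR hj x, PF_rh hR hj hx]
  have e2 : Shp.F p Hr N σ t = (∑ k ∈ univ.filter (fun k : (Sig T).X → ZMod N =>
      pull T j k ∈ Hr.gs N), monD p σ univ (Hr.vl (pull T j k)) *
      cs (Hr.rh (pull T j k) * t)) / √N ^ n := by
    unfold Shp.F
    have h1 : ∑ k ∈ univ.filter (fun k : (Sig T).X → ZMod N => pull T j k ∈ Hr.gs N),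
        monD p σ univ (Hr.vl (pull T j k)) * cs (Hr.rh (pull T j k) * t) =
        ∑ κ ∈ Hr.gs N, ∑ k ∈ univ.filter (fun k : (Sig T).X → ZMod N => pull T j k = κ),
          monD p σ univ (Hr.vl κ) * cs (Hr.rh κ * t) := by
      rw [← Finset.sum_fiberwise_of_maps_to (s := univ.filter
        (fun k : (Sig T).X → ZMod N => pull T j k ∈ Hr.gs N)) (t := Hr.gs N)
        (g := fun k => pull T j k) (fun k hk => (mem_filter.1 hk).2)]
      refine Finset.sum_congr rfl fun κ hκ => ?_
      rw [Finset.filter_filter]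
      have h2 : (univ.filter fun k : (Sig T).X → ZMod N => pull T j k ∈ Hr.gs N ∧
          pull T j k = κ) = univ.filter fun k => pull T j k = κ := by
        ext k
        rw [mem_filter, mem_filter]
        exact ⟨fun h => ⟨h.1, h.2.2⟩, fun h => ⟨h.1, by rw [h.2]; exact hκ, h.2⟩⟩
      rw [h2]
      refine Finset.sum_congr rfl fun k hk => ?_
      rw [(mem_filter.1 hk).2]
    rw [h1]
    simp only [Finset.sum_const, card_pull_fiber, nsmul_eq_mul]
    rw [← Finset.mul_sum, hn', hn, hcard, ← add_assoc, pow_add, ← two_mul, pow_mul,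
      Real.sq_sqrt (Nat.cast_nonneg N)]
    push_cast
    rw [mul_div_mul_left _ _ (pow_ne_zero _ Nne)]
  rw [e1, e2]
  have h3 : ∑ k ∈ univ.filter (fun k : (Sig T).X → ZMod N => pull T j k ∈ Hr.gs N),
      monD p σ univ (Hr.vl (pull T j k)) * cs (Hr.rh (pull T j k) * t) =
      ∑ k ∈ (Sig T).gs N, monD p σ univ (Hr.vl (pull T j k)) * cs (Hr.rh (pull T j k) * t) +
      ∑ k ∈ univ.filter (fun k : (Sig T).X → ZMod N =>
        pull T j k ∈ Hr.gs N ∧ k ∉ (Sig T).gs N), monD p σ univ (Hr.vl (pull T j k)) *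
        cs (Hr.rh (pull T j k) * t) := by
    rw [← Finset.sum_filter_add_sum_filter_not (univ.filter
      (fun k : (Sig T).X → ZMod N => pull T j k ∈ Hr.gs N)) (fun k => k ∈ (Sig T).gs N),
      Finset.filter_filter, Finset.filter_filter]
    congr 1
    refine Finset.sum_congr ?_ fun _ _ => rfl
    ext k
    rw [mem_filter]
    exact ⟨fun h => h.2.2, fun h => ⟨mem_univ _, pull_gs T j k h, h⟩⟩
  rw [h3]
  ring

end perf

end Pool.Agent.H976.C
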