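import Pool.Agent.H976.C.L

/-!
# Circulant theta: shapes, negligible families
-/

set_option autoImplicit false
set_option linter.unusedSectionVars false

namespace Pool.Agent.H976.C

open Finset Real

/-- A shape: leaves and nodes, every node is a nonempty set of leaves. -/
structure Shp : Type 1 where
  /-- leaves -/
  X : Type
  /-- nodes -/
  V : Type
  [fX : Fintype X]
  [dX : DecidableEq X]
  [fV : Fintype V]
  [dV : DecidableEq V]
  /-- the leaves below a node -/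
  S : V → Finset X
  /-- the node of a leaf -/
  leaf : X → V
  leafS : ∀ x, S (leaf x) = {x}
  ne : ∀ v, (S v).Nonempty

attribute [instance] Shp.fX Shp.dX Shp.fV Shp.dV

/-- Trees. -/
structure Tree : Type 1 extends Shp where
  /-- the root -/
  root : V
  rootS : S root = univ
  inj : Function.Injective S

/-- Families of random functions. -/
abbrev MF : Type := (N : ℕ) → [NeZero N] → Cfg (ZMod N) → ZMod N → ℝ

/-- Negligible families. -/
def Neg (p : ℝ) (f : MF) : Prop := ∃ (d : ℕ) (C : ℝ), ∀ (N : ℕ) [NeZero N],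
  (∀ t, (fun σ => f N σ t) ∈ Dg p d) ∧ ∑ t, Ep p (fun σ => f N σ t ^ 2) ≤ C

/-- Bounded families. -/
def Bdd (p : ℝ) (f : MF) : Prop := ∃ (d : ℕ) (C : ℝ), ∀ (N : ℕ) [NeZero N],
  (∀ t, (fun σ => f N σ t) ∈ Dg p d) ∧ ∀ t, Ep p (fun σ => f N σ t ^ 2) ≤ C

section closure

variable {p : ℝ}

theorem Ep_sq_nonneg {α : Type} [Fintype α] [DecidableEq α] (hp : 0 < p) (hp1 : p < 1)
    (f : Cfg α → ℝ) : 0 ≤ Ep p (fun σ => f σ ^ 2) :=
  Ep_nonneg p hp.le hp1.le _ fun σ => sq_nonneg _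

theorem Ep_add_sq_le {α : Type} [Fintype α] [DecidableEq α] (hp : 0 < p) (hp1 : p < 1)
    (f g : Cfg α → ℝ) : Ep p (fun σ => (f σ + g σ) ^ 2) ≤
      2 * Ep p (fun σ => f σ ^ 2) + 2 * Ep p (fun σ => g σ ^ 2) := by
  rw [← Ep_mul, ← Ep_mul, ← Ep_add]
  refine Ep_mono p hp.le hp1.le _ _ fun σ => ?_
  nlinarith [sq_nonneg (f σ - g σ)]

theorem Neg.bdd (hp : 0 < p) (hp1 : p < 1) {f : MF} (hf : Neg p f) : Bdd p f := by
  obtain ⟨d, C, h⟩ := hf
  refine ⟨d, C, fun N _ => ⟨(h N).1, fun t => ?_⟩⟩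
  exact (Finset.single_le_sum (f := fun t => Ep p (fun σ => f N σ t ^ 2))
    (fun t _ => Ep_sq_nonneg hp hp1 _) (mem_univ t)).trans (h N).2

theorem Neg.add (hp : 0 < p) (hp1 : p < 1) {f g : MF} (hf : Neg p f) (hg : Neg p g) :
    Neg p (fun N _ σ t => f N σ t + g N σ t) := by
  obtain ⟨d, C, h⟩ := hf
  obtain ⟨d', C', h'⟩ := hg
  refine ⟨d + d', 2 * C + 2 * C', fun N _ => ⟨fun t => ?_, ?_⟩⟩
  · exact Submodule.add_mem _ (Dg_mono p (Nat.le_add_right d d') ((h N).1 t))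
      (Dg_mono p (Nat.le_add_left d' d) ((h' N).1 t))
  · calc ∑ t, Ep p (fun σ => (f N σ t + g N σ t) ^ 2)
        ≤ ∑ t, (2 * Ep p (fun σ => f N σ t ^ 2) + 2 * Ep p (fun σ => g N σ t ^ 2)) :=
          Finset.sum_le_sum fun t _ => Ep_add_sq_le hp hp1 _ _
      _ = 2 * ∑ t, Ep p (fun σ => f N σ t ^ 2) + 2 * ∑ t, Ep p (fun σ => g N σ t ^ 2) := by
          rw [Finset.sum_add_distrib, Finset.mul_sum, Finset.mul_sum]
      _ ≤ _ := by linarith [(h N).2, (h' N).2]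

theorem Bdd.add (hp : 0 < p) (hp1 : p < 1) {f g : MF} (hf : Bdd p f) (hg : Bdd p g) :
    Bdd p (fun N _ σ t => f N σ t + g N σ t) := by
  obtain ⟨d, C, h⟩ := hf
  obtain ⟨d', C', h'⟩ := hg
  refine ⟨d + d', 2 * C + 2 * C', fun N _ => ⟨fun t => ?_, fun t => ?_⟩⟩
  · exact Submodule.add_mem _ (Dg_mono p (Nat.le_add_right d d') ((h N).1 t))
      (Dg_mono p (Nat.le_add_left d' d) ((h' N).1 t))
  · have h1 := Ep_add_sq_le hp hp1 (fun σ => f N σ t) (fun σ => g N σ t)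
    linarith [(h N).2 t, (h' N).2 t]

theorem Neg.smul {f : MF} (hf : Neg p f) (c : ℝ) :
    Neg p (fun N _ σ t => c * f N σ t) := by
  obtain ⟨d, C, h⟩ := hf
  refine ⟨d, c ^ 2 * C, fun N _ => ⟨fun t => Submodule.smul_mem _ c ((h N).1 t), ?_⟩⟩
  have h1 : ∀ t, Ep p (fun σ => (c * f N σ t) ^ 2) = c ^ 2 * Ep p (fun σ => f N σ t ^ 2) := by
    intro t
    rw [← Ep_mul]
    congr 1
    funext σ
    ring
  simp only [h1]
  rw [← Finset.mul_sum]
  exact mul_le_mul_of_nonneg_left (h N).2 (sq_nonneg c)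

theorem Bdd.smul {f : MF} (hf : Bdd p f) (c : ℝ) :
    Bdd p (fun N _ σ t => c * f N σ t) := by
  obtain ⟨d, C, h⟩ := hf
  refine ⟨d, c ^ 2 * C, fun N _ => ⟨fun t => Submodule.smul_mem _ c ((h N).1 t), fun t => ?_⟩⟩
  have h1 : Ep p (fun σ => (c * f N σ t) ^ 2) = c ^ 2 * Ep p (fun σ => f N σ t ^ 2) := by
    rw [← Ep_mul]
    congr 1
    funext σ
    ring
  rw [h1]
  exact mul_le_mul_of_nonneg_left ((h N).2 t) (sq_nonneg c)

theorem Neg.congr {f g : MF} (hf : Neg p f)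
    (h : ∀ (N : ℕ) [NeZero N] (σ : Cfg (ZMod N)) (t : ZMod N), g N σ t = f N σ t) : Neg p g := by
  have e : g = f := by
    funext N _ σ t
    exact h N σ t
  rw [e]
  exact hf

theorem Bdd.congr {f g : MF} (hf : Bdd p f)
    (h : ∀ (N : ℕ) [NeZero N] (σ : Cfg (ZMod N)) (t : ZMod N), g N σ t = f N σ t) : Bdd p g := by
  have e : g = f := by
    funext N _ σ t
    exact h N σ t
  rw [e]
  exact hf

theorem Neg.sub (hp : 0 < p) (hp1 : p < 1) {f g : MF} (hf : Neg p f) (hg : Neg p g) :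
    Neg p (fun N _ σ t => f N σ t - g N σ t) :=
  (hf.add hp hp1 (hg.smul (-1))).congr fun N _ σ t => by ring

theorem Bdd.sub (hp : 0 < p) (hp1 : p < 1) {f g : MF} (hf : Bdd p f) (hg : Bdd p g) :
    Bdd p (fun N _ σ t => f N σ t - g N σ t) :=
  (hf.add hp hp1 (hg.smul (-1))).congr fun N _ σ t => by ring

theorem Neg.zero : Neg p (fun _ _ _ _ => 0) :=
  ⟨0, 0, fun N _ => ⟨fun t => const_mem p 0 0, by simp [Ep_const]⟩⟩

theorem Bdd.const (c : ℝ) : Bdd p (fun _ _ _ _ => c) :=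
  ⟨0, c ^ 2, fun N _ => ⟨fun t => const_mem p 0 c, fun t => by rw [Ep_const]⟩⟩

theorem Neg.sum (hp : 0 < p) (hp1 : p < 1) {ι : Type} (s : Finset ι) (f : ι → MF)
    (h : ∀ i ∈ s, Neg p (f i)) : Neg p (fun N _ σ t => ∑ i ∈ s, f i N σ t) := by
  classical
  induction s using Finset.induction_on with
  | empty => exact Neg.zero.congr fun N _ σ t => by simp
  | insert i s hi ih =>
    have h1 := (h i (mem_insert_self i s)).add hp hp1
      (ih fun j hj => h j (mem_insert_of_mem hj))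
    exact h1.congr fun N _ σ t => by rw [Finset.sum_insert hi]

theorem Bdd.sum (hp : 0 < p) (hp1 : p < 1) {ι : Type} (s : Finset ι) (f : ι → MF)
    (h : ∀ i ∈ s, Bdd p (f i)) : Bdd p (fun N _ σ t => ∑ i ∈ s, f i N σ t) := by
  classical
  induction s using Finset.induction_on with
  | empty => exact (Bdd.const 0).congr fun N _ σ t => by simp
  | insert i s hi ih =>
    have h1 := (h i (mem_insert_self i s)).add hp hp1
      (ih fun j hj => h j (mem_insert_of_mem hj))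
    exact h1.congr fun N _ σ t => by rw [Finset.sum_insert hi]

theorem Neg.mul_bdd (hp : 0 < p) (hp1 : p < 1) {f g : MF} (hf : Neg p f) (hg : Bdd p g) :
    Neg p (fun N _ σ t => f N σ t * g N σ t) := by
  obtain ⟨d, C, h⟩ := hf
  obtain ⟨d', C', h'⟩ := hg
  refine ⟨d + d', kk p ^ (d + d') * (C * C'), fun N _ => ⟨fun t =>
    mul_mem p hp hp1 d d' _ _ ((h N).1 t) ((h' N).1 t), ?_⟩⟩
  have hK : 0 ≤ kk p ^ (d + d') := pow_nonneg (kk_pos p).le _
  have hC' : 0 ≤ C' := (Ep_sq_nonneg hp hp1 _).trans ((h' N).2 0)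
  calc ∑ t, Ep p (fun σ => (f N σ t * g N σ t) ^ 2)
      ≤ ∑ t, kk p ^ (d + d') * (Ep p (fun σ => f N σ t ^ 2) * C') := by
        refine Finset.sum_le_sum fun t _ => ?_
        refine (hyp_mul p hp hp1 d d' _ _ ((h N).1 t) ((h' N).1 t)).trans ?_
        exact mul_le_mul_of_nonneg_left (mul_le_mul_of_nonneg_left ((h' N).2 t)
          (Ep_sq_nonneg hp hp1 _)) hK
    _ = kk p ^ (d + d') * ((∑ t, Ep p (fun σ => f N σ t ^ 2)) * C') := by
        rw [← Finset.mul_sum, ← Finset.sum_mul]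
    _ ≤ _ := mul_le_mul_of_nonneg_left (mul_le_mul_of_nonneg_right (h N).2 hC') hK

theorem Bdd.mul (hp : 0 < p) (hp1 : p < 1) {f g : MF} (hf : Bdd p f) (hg : Bdd p g) :
    Bdd p (fun N _ σ t => f N σ t * g N σ t) := by
  obtain ⟨d, C, h⟩ := hf
  obtain ⟨d', C', h'⟩ := hg
  refine ⟨d + d', kk p ^ (d + d') * (C * C'), fun N _ => ⟨fun t =>
    mul_mem p hp hp1 d d' _ _ ((h N).1 t) ((h' N).1 t), fun t => ?_⟩⟩
  have hK : 0 ≤ kk p ^ (d + d') := pow_nonneg (kk_pos p).le _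
  have hC : 0 ≤ C := (Ep_sq_nonneg hp hp1 _).trans ((h N).2 0)
  refine (hyp_mul p hp hp1 d d' _ _ ((h N).1 t) ((h' N).1 t)).trans ?_
  exact mul_le_mul_of_nonneg_left (mul_le_mul ((h N).2 t) ((h' N).2 t)
    (Ep_sq_nonneg hp hp1 _) hC) hK

theorem Bdd.mul_neg (hp : 0 < p) (hp1 : p < 1) {f g : MF} (hf : Bdd p f) (hg : Neg p g) :
    Neg p (fun N _ σ t => f N σ t * g N σ t) :=
  (hg.mul_bdd hp hp1 hf).congr fun N _ σ t => mul_comm _ _

theorem ww_mem {N : ℕ} [NeZero N] (k : ZMod N) :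
    (fun σ => ww p σ k) ∈ (Dg p 1 : Submodule ℝ (Cfg (ZMod N) → ℝ)) := by
  by_cases h : k + k = 0
  · have e : (fun σ => ww p σ k) = fun _ : Cfg (ZMod N) => (0 : ℝ) := by
      funext σ
      simp [ww, h]
    rw [e]
    exact const_mem p 1 0
  · have e : (fun σ => ww p σ k) = chi p {cls k} := by
      funext σ
      simp [ww, h, chi]
    rw [e]
    exact chi_mem p 1 _ (by simp)

theorem TT_mem (hp : 0 < p) (hp1 : p < 1) {N : ℕ} [NeZero N] (d : ℕ)
    (f : Cfg (ZMod N) → ZMod N → ℝ) (h : ∀ t, (fun σ => f σ t) ∈ Dg p d) (t : ZMod N) :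
    (fun σ => TT p σ (f σ) t) ∈ Dg p (1 + d) := by
  have e : (fun σ => TT p σ (f σ) t) = ∑ k, ∑ s, ((cs (k * s) * cs (k * t)) / N) •
      fun σ => ww p σ k * f σ s := by
    funext σ
    unfold TT sy ft
    simp only [Finset.sum_apply, Pi.smul_apply, smul_eq_mul]
    refine Finset.sum_congr rfl fun k _ => ?_
    rw [Finset.sum_div, Finset.mul_sum, Finset.sum_mul]
    exact Finset.sum_congr rfl fun s _ => by ring
  rw [e]
  refine Submodule.sum_mem _ fun k _ => Submodule.sum_mem _ fun s _ => Submodule.smul_mem _ _ ?_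
  exact mul_mem p hp hp1 1 d _ _ (ww_mem k) (h s)

theorem Neg.TT (hp : 0 < p) (hp1 : p < 1) {f : MF} (hf : Neg p f) :
    Neg p (fun N _ σ => C.TT p σ (f N σ)) := by
  obtain ⟨d, K, h⟩ := hf
  refine ⟨1 + d, MM p ^ 2 * K, fun N _ => ⟨fun t => TT_mem hp hp1 d _ (h N).1 t, ?_⟩⟩
  have h1 : ∀ σ : Cfg (ZMod N), ∑ t, C.TT p σ (f N σ) t ^ 2 ≤ MM p ^ 2 * ∑ t, f N σ t ^ 2 := by
    intro σ
    have h2 := TT_norm p σ (f N σ)
    unfold av at h2
    rw [← mul_div_assoc] at h2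
    exact (div_le_div_iff_of_pos_right Npos).1 h2
  rw [← Ep_sum]
  refine (Ep_mono p hp.le hp1.le _ _ h1).trans ?_
  rw [Ep_mul, Ep_sum]
  exact mul_le_mul_of_nonneg_left (h N).2 (sq_nonneg _)

end closure

/-! ### Chaoses -/

namespace Shp

variable (H : Shp) {N : ℕ} [NeZero N]

/-- value of a node -/
def vl (k : H.X → ZMod N) (v : H.V) : ZMod N := ∑ x ∈ H.S v, k x

/-- total value -/
def rh (k : H.X → ZMod N) : ZMod N := ∑ x, k x

theorem vl_leaf (k : H.X → ZMod N) (x : H.X) : H.vl k (H.leaf x) = k x := by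
  unfold vl
  rw [H.leafS, Finset.sum_singleton]

theorem vl_sub (k l : H.X → ZMod N) (v : H.V) : H.vl (k - l) v = H.vl k v - H.vl l v := by
  unfold vl
  simp only [Pi.sub_apply]
  exact Finset.sum_sub_distrib _ _

theorem vl_add (k l : H.X → ZMod N) (v : H.V) : H.vl (k + l) v = H.vl k v + H.vl l v := by
  unfold vl
  simp only [Pi.add_apply]
  exact Finset.sum_add_distrib

theorem vl_neg (k : H.X → ZMod N) (v : H.V) : H.vl (-k) v = -H.vl k v := by
  unfold vl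
  simp only [Pi.neg_apply]
  exact Finset.sum_neg_distrib _

theorem rh_sub (k l : H.X → ZMod N) : H.rh (k - l) = H.rh k - H.rh l := by
  unfold rh
  simp only [Pi.sub_apply]
  exact Finset.sum_sub_distrib _ _

theorem rh_neg (k : H.X → ZMod N) : H.rh (-k) = -H.rh k := by
  unfold rh
  simp only [Pi.neg_apply]
  exact Finset.sum_neg_distrib _

open Classical in
/-- generic labellings -/
noncomputable def gs (N : ℕ) [NeZero N] : Finset (H.X → ZMod N) :=
  univ.filter fun k => GenD univ (H.vl k)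

theorem mem_gs (k : H.X → ZMod N) : k ∈ H.gs N ↔ GenD univ (H.vl k) := by
  unfold gs
  simp

theorem neg_mem_gs (k : H.X → ZMod N) (h : k ∈ H.gs N) : -k ∈ H.gs N := by
  rw [mem_gs] at h ⊢
  intro u hu w hw
  obtain ⟨h1, h2⟩ := h u hu w hw
  rw [vl_neg, vl_neg]
  refine ⟨fun h3 => h1 ?_, fun h3 h4 => h2 h3 (neg_injective h4)⟩
  rw [← neg_add] at h3
  exact neg_eq_zero.1 h3

/-- the chaos of a shape -/
noncomputable def F (p : ℝ) (H : Shp) : MF := fun N _ σ t =>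
  (∑ k ∈ H.gs N, monD p σ univ (H.vl k) * cs (H.rh k * t)) / √N ^ Fintype.card H.X

theorem F_ev (p : ℝ) (σ : Cfg (ZMod N)) : Ev (F p H N σ) := by
  intro t
  unfold F
  congr 1
  exact Finset.sum_congr rfl fun k _ => by rw [mul_neg, cs_neg]

end Shp

theorem monD_mem {p : ℝ} {N : ℕ} [NeZero N] {U : Type} (D : Finset U) (a : U → ZMod N)
    (h : GenD D a) : (fun σ => monD p σ D a) ∈ Dg p #D := by
  have e : (fun σ => monD p σ D a) = chi p (cset D a) := funext fun σ => monD_eq p σ D a h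
  rw [e]
  exact chi_mem p _ _ (card_cset D a)

theorem sqrtN_pow (N : ℕ) (n : ℕ) : (√(N : ℝ) ^ n) ^ 2 = (N : ℝ) ^ n := by
  rw [← pow_mul, mul_comm, pow_mul, Real.sq_sqrt (Nat.cast_nonneg N)]

theorem sqrtN_pos (N : ℕ) [NeZero N] : 0 < √(N : ℝ) :=
  Real.sqrt_pos.2 (Nat.cast_pos.2 (NeZero.pos N))

/-- A sum over a set of labellings is negligible. -/
theorem neg_of_count (p : ℝ) (hp : 0 < p) (hp1 : p < 1) {U : Type} (D : Finset U) (n : ℕ)
    (C : ℕ) (f : MF)
    (h : ∀ (N : ℕ) [NeZero N], ∃ (ι : Type) (I : Finset ι) (a : ι → U → ZMod N) (r : ι → ZMod N),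
      (∀ i ∈ I, GenD D (a i)) ∧
      (∀ σ t, f N σ t = (∑ i ∈ I, monD p σ D (a i) * cs (r i * t)) / √N ^ n) ∧
      #{x ∈ I ×ˢ I | cset D (a x.1) = cset D (a x.2) ∧ (r x.1 = r x.2 ∨ r x.1 = -r x.2)} * N ≤
        C * N ^ n) : Neg p f := by
  refine ⟨#D, C, fun N _ => ?_⟩
  obtain ⟨ι, I, a, r, hG, hf, hc⟩ := h N
  constructor
  · intro t
    have e : (fun σ => f N σ t) = ∑ i ∈ I, (cs (r i * t) / √N ^ n) • fun σ => monD p σ D (a i) := by
      funext σ
      rw [hf, Finset.sum_apply, Finset.sum_div]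
      refine Finset.sum_congr rfl fun i _ => ?_
      simp only [Pi.smul_apply, smul_eq_mul]
      ring
    rw [e]
    exact Submodule.sum_mem _ fun i hi => Submodule.smul_mem _ _ (monD_mem D _ (hG i hi))
  · have h1 := L2 p hp hp1 I D (fun _ => 1 / √N ^ n) a r (1 / √N ^ n)
      (fun i _ => by rw [abs_of_nonneg (by positivity)]) hG
    have h2 : ∀ t, Ep p (fun σ => f N σ t ^ 2) =
        Ep p (fun σ => (∑ i ∈ I, 1 / √N ^ n * (monD p σ D (a i) * cs (r i * t))) ^ 2) := by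
      intro t
      congr 1
      funext σ
      rw [hf, ← Finset.mul_sum]
      ring
    simp only [h2]
    refine h1.trans ?_
    have h3 : (N : ℝ) * (1 / √N ^ n) ^ 2 = N / N ^ n := by
      rw [div_pow, one_pow, sqrtN_pow]
      ring
    have hN : (0 : ℝ) < (N : ℝ) ^ n := pow_pos Npos n
    rw [h3, div_mul_eq_mul_div, div_le_iff₀ hN]
    have h4 : ((#{x ∈ I ×ˢ I | cset D (a x.1) = cset D (a x.2) ∧
        (r x.1 = r x.2 ∨ r x.1 = -r x.2)} * N : ℕ) : ℝ) ≤ ((C * N ^ n : ℕ) : ℝ) := by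
      exact_mod_cast hc
    push_cast at h4
    linarith

/-- A sum over a set of labellings is bounded. -/
theorem bdd_of_count (p : ℝ) (hp : 0 < p) (hp1 : p < 1) {U : Type} (D : Finset U) (n : ℕ)
    (C : ℕ) (f : MF)
    (h : ∀ (N : ℕ) [NeZero N], ∃ (ι : Type) (I : Finset ι) (a : ι → U → ZMod N) (r : ι → ZMod N),
      (∀ i ∈ I, GenD D (a i)) ∧
      (∀ σ t, f N σ t = (∑ i ∈ I, monD p σ D (a i) * cs (r i * t)) / √N ^ n) ∧
      #{x ∈ I ×ˢ I | cset D (a x.1) = cset D (a x.2)} ≤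
        C * N ^ n) : Bdd p f := by
  refine ⟨#D, C, fun N _ => ?_⟩
  obtain ⟨ι, I, a, r, hG, hf, hc⟩ := h N
  constructor
  · intro t
    have e : (fun σ => f N σ t) = ∑ i ∈ I, (cs (r i * t) / √N ^ n) • fun σ => monD p σ D (a i) := by
      funext σ
      rw [hf, Finset.sum_apply, Finset.sum_div]
      refine Finset.sum_congr rfl fun i _ => ?_
      simp only [Pi.smul_apply, smul_eq_mul]
      ring
    rw [e]
    exact Submodule.sum_mem _ fun i hi => Submodule.smul_mem _ _ (monD_mem D _ (hG i hi))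
  · intro t
    have h1 := L2p p hp hp1 I D (fun _ => 1 / √N ^ n) a r (1 / √N ^ n)
      (fun i _ => by rw [abs_of_nonneg (by positivity)]) hG t
    have h2 : Ep p (fun σ => f N σ t ^ 2) =
        Ep p (fun σ => (∑ i ∈ I, 1 / √N ^ n * (monD p σ D (a i) * cs (r i * t))) ^ 2) := by
      congr 1
      funext σ
      rw [hf, ← Finset.mul_sum]
      ring
    rw [h2]
    refine h1.trans ?_
    have h3 : (1 / √(N : ℝ) ^ n) ^ 2 = 1 / N ^ n := by
      rw [div_pow, one_pow, sqrtN_pow]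
    have hN : (0 : ℝ) < (N : ℝ) ^ n := pow_pos Npos n
    rw [h3, div_mul_eq_mul_div, div_le_iff₀ hN]
    have h4 : ((#{x ∈ I ×ˢ I | cset D (a x.1) = cset D (a x.2)} : ℕ) : ℝ) ≤
        ((C * N ^ n : ℕ) : ℝ) := by
      exact_mod_cast hc
    push_cast at h4
    linarith

/-- Chaoses are bounded. -/
theorem F_bdd (p : ℝ) (hp : 0 < p) (hp1 : p < 1) (H : Shp) : Bdd p (Shp.F p H) := by
  classical
  refine bdd_of_count p hp hp1 (univ : Finset H.V) (Fintype.card H.X)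
    ((Fintype.card H.V * 2) ^ Fintype.card H.V * 2) (Shp.F p H) ?_
  intro N _
  refine ⟨H.X → ZMod N, H.gs N, fun k => H.vl k, fun k => H.rh k, fun k hk => (H.mem_gs k).1 hk,
    fun σ t => rfl, ?_⟩
  have h1 := cnt (A := H.X → ZMod N) (H.gs N) (univ : Finset H.V) (fun k => H.vl k)
    (fun _ => 0) {0} (by
      intro i _ j _ hij _
      rw [mem_singleton, sub_eq_zero]
      funext x
      rw [← H.vl_leaf i x, ← H.vl_leaf j x]
      exact hij _ (mem_univ _))
  simp only [true_or, and_true, card_singleton, mul_one] at h1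
  refine h1.trans (Nat.mul_le_mul_left _ ?_)
  refine (Finset.card_le_univ _).trans ?_
  rw [Fintype.card_fun, ZMod.card]

end Pool.Agent.H976.C
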