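import Pool.Agent.H976.C.M1

/-!
# Circulant theta: the theta function
-/

set_option autoImplicit false
set_option linter.unusedSectionVars false

namespace Pool.Agent.H976.C

open Finset Real

/-- the theta function of the circulant graph whose edges are the pairs with class in `τ` -/
noncomputable def Th {N : ℕ} [NeZero N] (τ : Cfg (ZMod N)) : ℝ :=
  sSup {r : ℝ | ∃ B : Matrix (ZMod N) (ZMod N) ℝ, B.PosSemidef ∧ B.trace = 1 ∧
    (∀ i j, i ≠ j → τ (cls (i - j)) = true → B i j = 0) ∧ r = ∑ i, ∑ j, B i j}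

section th

variable {N : ℕ} [NeZero N]

theorem psd_nonneg {B : Matrix (ZMod N) (ZMod N) ℝ} (h : B.PosSemidef) (x : ZMod N → ℝ) :
    0 ≤ ∑ i, ∑ j, x i * B i j * x j := by
  have h1 := h.dotProduct_mulVec_nonneg x
  have h2 : ∑ i, ∑ j, x i * B i j * x j = star x ⬝ᵥ B.mulVec x := by
    simp only [dotProduct, Matrix.mulVec, Pi.star_apply, star_trivial, Finset.mul_sum]
    refine Finset.sum_congr rfl fun i _ => Finset.sum_congr rfl fun j _ => ?_
    ring
  rw [h2]
  exact h1

theorem psd_cs {B : Matrix (ZMod N) (ZMod N) ℝ} (h : B.PosSemidef) (t : ZMod N) :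
    0 ≤ ∑ i, ∑ j, B i j * cs ((i - j) * t) := by
  have h1 := psd_nonneg h (fun i => cs (i * t))
  have h2 := psd_nonneg h (fun i => sn (i * t))
  have h3 : ∑ i, ∑ j, B i j * cs ((i - j) * t) =
      ∑ i, ∑ j, cs (i * t) * B i j * cs (j * t) + ∑ i, ∑ j, sn (i * t) * B i j * sn (j * t) := by
    rw [← Finset.sum_add_distrib]
    refine Finset.sum_congr rfl fun i _ => ?_
    rw [← Finset.sum_add_distrib]
    refine Finset.sum_congr rfl fun j _ => ?_
    rw [sub_mul, cs_sub]
    ring
  rw [h3]
  exact add_nonneg h1 h2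

theorem psd_le {B : Matrix (ZMod N) (ZMod N) ℝ} (h : B.PosSemidef) (ht : B.trace = 1) :
    ∑ i, ∑ j, B i j ≤ N := by
  have hsym : ∀ i j, B i j = B j i := by
    intro i j
    have := h.1.apply j i
    simpa using this
  have h1 : ∀ i j, 2 * B i j ≤ B i i + B j j := by
    intro i j
    by_cases hij : i = j
    · rw [hij]
      linarith
    have h2 := psd_nonneg h (fun k => if k = i then 1 else if k = j then -1 else 0)
    have h3 : ∀ k, (∑ l, (if k = i then (1 : ℝ) else if k = j then -1 else 0) * B k l *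
        (if l = i then (1 : ℝ) else if l = j then -1 else 0)) =
        (if k = i then (1 : ℝ) else if k = j then -1 else 0) * (B k i - B k j) := by
      intro k
      have h4 : ∀ l, (if k = i then (1 : ℝ) else if k = j then -1 else 0) * B k l *
          (if l = i then (1 : ℝ) else if l = j then -1 else 0) =
          (if l = i then (if k = i then (1 : ℝ) else if k = j then -1 else 0) * B k l else 0) -
          (if l = j then (if k = i then (1 : ℝ) else if k = j then -1 else 0) * B k l else 0) := by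
        intro l
        by_cases h5 : l = i
        · have h6 : ¬ l = j := by
            rw [h5]
            exact hij
          rw [if_pos h5, if_pos h5, if_neg h6]
          ring
        · rw [if_neg h5, if_neg h5]
          split_ifs <;> ring
      simp only [h4]
      rw [Finset.sum_sub_distrib, Finset.sum_ite_eq', Finset.sum_ite_eq', if_pos (mem_univ _),
        if_pos (mem_univ _)]
      ring
    simp only [h3] at h2
    have h4 : ∀ k, (if k = i then (1 : ℝ) else if k = j then -1 else 0) * (B k i - B k j) =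
        (if k = i then (B k i - B k j) else 0) - (if k = j then (B k i - B k j) else 0) := by
      intro k
      by_cases h5 : k = i
      · have h6 : ¬ k = j := by
          rw [h5]
          exact hij
        rw [if_pos h5, if_pos h5, if_neg h6]
        ring
      · rw [if_neg h5, if_neg h5]
        split_ifs <;> ring
    simp only [h4] at h2
    rw [Finset.sum_sub_distrib, Finset.sum_ite_eq', Finset.sum_ite_eq', if_pos (mem_univ _),
      if_pos (mem_univ _)] at h2
    have := hsym i j
    linarith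
  have h2 : 2 * ∑ i, ∑ j, B i j ≤ ∑ i : ZMod N, ∑ j : ZMod N, (B i i + B j j) := by
    rw [Finset.mul_sum]
    refine Finset.sum_le_sum fun i _ => ?_
    rw [Finset.mul_sum]
    exact Finset.sum_le_sum fun j _ => h1 i j
  have h3 : ∑ i : ZMod N, B i i = 1 := ht
  have h4 : ∑ i : ZMod N, ∑ j : ZMod N, (B i i + B j j) = 2 * N := by
    simp only [Finset.sum_add_distrib, Finset.sum_const, card_univ, ZMod.card, nsmul_eq_mul]
    rw [← Finset.mul_sum, h3]
    ring
  linarith

theorem Th_bdd (τ : Cfg (ZMod N)) : BddAbove {r : ℝ | ∃ B : Matrix (ZMod N) (ZMod N) ℝ,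
    B.PosSemidef ∧ B.trace = 1 ∧
    (∀ i j, i ≠ j → τ (cls (i - j)) = true → B i j = 0) ∧ r = ∑ i, ∑ j, B i j} := by
  refine ⟨N, ?_⟩
  rintro r ⟨B, h1, h2, -, rfl⟩
  exact psd_le h1 h2

theorem Th_nonneg (τ : Cfg (ZMod N)) : 0 ≤ Th τ := by
  unfold Th
  refine Real.sSup_nonneg ?_
  rintro r ⟨B, h1, -, -, rfl⟩
  have := psd_nonneg h1 (fun _ => 1)
  simpa using this

theorem Th_le (τ : Cfg (ZMod N)) : Th τ ≤ N := by
  unfold Th
  refine Real.sSup_le ?_ (Nat.cast_nonneg N)
  rintro r ⟨B, h1, h2, -, rfl⟩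
  exact psd_le h1 h2

theorem Th_anti {σ τ : Cfg (ZMod N)} (h : ∀ e, σ e = true → τ e = true) : Th τ ≤ Th σ := by
  unfold Th
  refine Real.sSup_le ?_ (Th_nonneg σ)
  rintro r ⟨B, h1, h2, h3, rfl⟩
  exact le_csSup (Th_bdd σ) ⟨B, h1, h2, fun i j hij hs => h3 i j hij (h _ hs), rfl⟩

/-- coefficients with the constant term -/
noncomputable def aa (c0 : ℝ) (V : ZMod N → ℝ) (k : ZMod N) : ℝ := (if k = 0 then c0 else 0) + V k

theorem aa_ev (c0 : ℝ) {V : ZMod N → ℝ} (hV : Ev V) : Ev (aa c0 V) := by
  intro k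
  unfold aa
  rw [hV k]
  simp only [neg_eq_zero]

theorem sy_aa (c0 : ℝ) (V : ZMod N → ℝ) (t : ZMod N) : sy (aa c0 V) t = c0 + sy V t := by
  unfold sy aa
  simp only [add_mul, ite_mul, zero_mul]
  rw [Finset.sum_add_distrib, Finset.sum_ite_eq', if_pos (mem_univ _), zero_mul, cs_zero, mul_one]

/-- The upper bound by duality. -/
theorem Th_up {τ : Cfg (ZMod N)} {V : ZMod N → ℝ} {c0 : ℝ} (hc : 0 < c0) (hV : Sup τ V)
    (hpos : ∀ t, 0 ≤ c0 + sy V t) (h0 : 0 < c0 + sy V 0) : Th τ ≤ N * c0 / (c0 + sy V 0) := by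
  unfold Th
  have hN := Npos (N := N)
  refine Real.sSup_le ?_ (by positivity)
  rintro r ⟨B, h1, h2, h3, rfl⟩
  have e1 : ∑ i, ∑ j, B i j * aa c0 V (i - j) = c0 := by
    have e2 : ∀ i j, B i j * aa c0 V (i - j) = if j = i then B i i * c0 else 0 := by
      intro i j
      unfold aa
      by_cases hij : j = i
      · rw [if_pos hij, hij, sub_self, if_pos rfl, hV.2.1 0 (add_zero 0), add_zero]
      · rw [if_neg hij, if_neg (fun h => hij (sub_eq_zero.1 h).symm), zero_add]
        by_cases hs : τ (cls (i - j)) = true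
        · rw [h3 i j (Ne.symm hij) hs, zero_mul]
        · rw [hV.2.2 (i - j) (Bool.eq_false_iff.2 hs), mul_zero]
    simp only [e2]
    simp only [Finset.sum_ite_eq', mem_univ, if_true]
    rw [← Finset.sum_mul]
    have h4 : ∑ i : ZMod N, B i i = 1 := h2
    rw [h4, one_mul]
  have e2 : ∑ i, ∑ j, B i j * aa c0 V (i - j) =
      (∑ t, (c0 + sy V t) * ∑ i, ∑ j, B i j * cs ((i - j) * t)) / N := by
    have e3 : ∀ k, aa c0 V k = (∑ t, (c0 + sy V t) * cs (k * t)) / N := by
      intro k
      rw [← ft_sy (aa c0 V) (aa_ev c0 hV.1) k]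
      unfold ft
      simp only [sy_aa]
    have e4 : ∀ i j : ZMod N, B i j * aa c0 V (i - j) =
        ∑ t, (c0 + sy V t) * (B i j * cs ((i - j) * t)) / N := by
      intro i j
      rw [e3, ← mul_div_assoc, Finset.mul_sum, Finset.sum_div]
      exact Finset.sum_congr rfl fun t _ => by ring
    simp only [e4]
    rw [Finset.sum_congr rfl fun i _ => Finset.sum_comm, Finset.sum_comm, Finset.sum_div]
    refine Finset.sum_congr rfl fun t _ => ?_
    rw [Finset.mul_sum, Finset.sum_div]
    refine Finset.sum_congr rfl fun i _ => ?_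
    rw [Finset.mul_sum, Finset.sum_div]
  have e5 : (c0 + sy V 0) * ∑ i, ∑ j, B i j ≤
      ∑ t, (c0 + sy V t) * ∑ i, ∑ j, B i j * cs ((i - j) * t) := by
    have e6 := Finset.single_le_sum (f := fun t => (c0 + sy V t) *
      ∑ i, ∑ j, B i j * cs ((i - j) * t)) (fun t _ => mul_nonneg (hpos t) (psd_cs h1 t))
      (mem_univ (0 : ZMod N))
    simp only [mul_zero, cs_zero, mul_one] at e6
    exact e6
  rw [e1] at e2
  rw [le_div_iff₀ h0]
  rw [eq_div_iff hN.ne'] at e2
  linarith

/-- The lower bound. -/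
theorem Th_lo {τ : Cfg (ZMod N)} {V : ZMod N → ℝ} {c0 : ℝ} (hc : 0 < c0)
    (hV : Sup (fun e => !τ e) V) (hpos : ∀ t, 0 ≤ c0 + sy V t) :
    (c0 + sy V 0) / c0 ≤ Th τ := by
  have hN := Npos (N := N)
  unfold Th
  refine le_csSup (Th_bdd τ) ⟨Matrix.of fun i j => aa c0 V (i - j) / (c0 * N), ?_, ?_, ?_, ?_⟩
  · refine Matrix.PosSemidef.of_dotProduct_mulVec_nonneg ?_ ?_
    · ext i j
      rw [Matrix.conjTranspose_apply, Matrix.of_apply, Matrix.of_apply, star_trivial]
      have h : j - i = -(i - j) := by ring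
      rw [h, aa_ev c0 hV.1 (i - j)]
    · intro x
      have e3 : ∀ k, aa c0 V k = (∑ t, (c0 + sy V t) * cs (k * t)) / N := by
        intro k
        rw [← ft_sy (aa c0 V) (aa_ev c0 hV.1) k]
        unfold ft
        simp only [sy_aa]
      have h2 : star x ⬝ᵥ (Matrix.of fun i j => aa c0 V (i - j) / (c0 * N)).mulVec x =
          (∑ t, (c0 + sy V t) * ((∑ i, x i * cs (i * t)) ^ 2 + (∑ i, x i * sn (i * t)) ^ 2)) /
            (c0 * N * N) := by
        simp only [dotProduct, Matrix.mulVec, Pi.star_apply, star_trivial, Finset.mul_sum,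
          Matrix.of_apply]
        have e4 : ∀ i j : ZMod N, x i * (aa c0 V (i - j) / (c0 * N) * x j) =
            ∑ t, (c0 + sy V t) * (x i * x j * (cs (i * t) * cs (j * t) + sn (i * t) * sn (j * t))) /
              (c0 * N * N) := by
          intro i j
          rw [e3, ← Finset.sum_div]
          have e5 : ∑ t, (c0 + sy V t) * (x i * x j * (cs (i * t) * cs (j * t) +
              sn (i * t) * sn (j * t))) = (∑ t, (c0 + sy V t) * cs ((i - j) * t)) * (x i * x j) := by
            rw [Finset.sum_mul]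
            refine Finset.sum_congr rfl fun t _ => ?_
            rw [sub_mul, cs_sub]
            ring
          rw [e5]
          field_simp
        simp only [e4]
        rw [Finset.sum_congr rfl fun i _ => Finset.sum_comm, Finset.sum_comm, Finset.sum_div]
        refine Finset.sum_congr rfl fun t _ => ?_
        have e6 : (∑ i, x i * cs (i * t)) ^ 2 + (∑ i, x i * sn (i * t)) ^ 2 =
            ∑ i, ∑ j, x i * x j * (cs (i * t) * cs (j * t) + sn (i * t) * sn (j * t)) := by
          rw [sq, sq, Finset.sum_mul_sum, Finset.sum_mul_sum, ← Finset.sum_add_distrib]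
          refine Finset.sum_congr rfl fun i _ => ?_
          rw [← Finset.sum_add_distrib]
          exact Finset.sum_congr rfl fun j _ => by ring
        rw [e6, Finset.mul_sum, Finset.sum_div]
        refine Finset.sum_congr rfl fun i _ => ?_
        rw [Finset.mul_sum, Finset.sum_div]
      rw [h2]
      refine div_nonneg (Finset.sum_nonneg fun t _ => mul_nonneg (hpos t) ?_) (by positivity)
      positivity
  · unfold Matrix.trace
    simp only [Matrix.diag_apply, Matrix.of_apply, sub_self]
    rw [Finset.sum_const, card_univ, ZMod.card, nsmul_eq_mul]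
    unfold aa
    rw [if_pos rfl, hV.2.1 0 (add_zero 0), add_zero]
    field_simp
  · intro i j hij hs
    rw [Matrix.of_apply]
    unfold aa
    rw [if_neg (fun h => hij (sub_eq_zero.1 h)), hV.2.2 (i - j) (by simp [hs])]
    simp
  · have e1 : ∀ i : ZMod N, ∑ j, (Matrix.of fun i j => aa c0 V (i - j) / (c0 * N)) i j =
        (∑ k, aa c0 V k) / (c0 * N) := by
      intro i
      simp only [Matrix.of_apply]
      rw [← Finset.sum_div]
      congr 1
      exact Fintype.sum_equiv (Equiv.subLeft i) _ _ fun j => rfl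
    simp only [e1]
    rw [Finset.sum_const, card_univ, ZMod.card, nsmul_eq_mul, ← sy_aa]
    unfold sy
    simp only [mul_zero, cs_zero, mul_one]
    field_simp

end th

end Pool.Agent.H976.C
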