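import Pool.Agent.H976.C.Y3

/-!
# Circulant theta: the profile
-/

set_option autoImplicit false
set_option linter.unusedSectionVars false

namespace Pool.Agent.H976.C

open Finset Real MeasureTheory ProbabilityTheory Filter

theorem nice_abs : Nice (fun x => |x|) := by
  refine ⟨measurable_id.abs, 1, 1, by norm_num, by norm_num, fun x => ?_⟩
  have := Real.add_one_le_exp |x|
  rw [one_mul, one_mul, abs_abs]
  linarith

/-- density of the squares of polynomials -/
theorem dens {y δ : ℝ} (hy : 0 ≤ y) (hδ : 0 < δ) :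
    ∃ (E : ℕ) (r : ℕ → ℝ), (∀ x, 0 ≤ ∑ d ∈ range E, r d * He d x) ∧
      ∫ x, (∑ d ∈ range E, r d * He d x - hh y x) ^ 2 ∂gm ≤ δ := by
  set B : ℝ → ℝ := fun x => 2 * ((2 * (|x| + y) + 2) * (2 * (|x| + y) + 2)) +
    2 * ((|x| + y) * (|x| + y)) with hB
  have nB : Nice B := by
    have n1 : Nice (fun x => |x| + y) := nice_abs.add (nice_const y)
    have n2 : Nice (fun x => 2 * (|x| + y) + 2) := (n1.smul 2).add (nice_const 2)
    exact ((n2.mul n2).smul 2).add ((n1.mul n1).smul 2)
  have hB0 : ∀ x, 0 ≤ B x := by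
    intro x
    simp only [hB]
    nlinarith [mul_self_nonneg (2 * (|x| + y) + 2), mul_self_nonneg (|x| + y)]
  set K : ℝ := ∫ x, |x| * B x ∂gm with hK
  have hK0 : 0 ≤ K := integral_nonneg fun x => mul_nonneg (abs_nonneg x) (hB0 x)
  set L : ℝ := 4 * K / δ + 1 with hL
  have hL1 : 1 ≤ L := by
    have : 0 ≤ 4 * K / δ := by positivity
    linarith
  have hL0 : 0 < L := by linarith
  have hKL : K / L ≤ δ / 4 := by
    rw [div_le_iff₀ hL0, hL]
    have : δ / 4 * (4 * K / δ + 1) = K + δ / 4 := by field_simp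
    rw [this]
    linarith
  set R : ℝ := 2 * √(L + y) + 1 with hR
  have hR1 : 1 ≤ R := by
    have := Real.sqrt_nonneg (L + y)
    linarith
  set η : ℝ := min 1 (δ / 4 / R ^ 2) with hη
  have hη0 : 0 < η := lt_min one_pos (by positivity)
  have hη1 : η ≤ 1 := min_le_left _ _
  have hη2 : η ^ 2 * R ^ 2 ≤ δ / 4 := by
    have h1 : η ^ 2 ≤ η := by nlinarith
    have h2 : η ≤ δ / 4 / R ^ 2 := min_le_right _ _
    calc η ^ 2 * R ^ 2 ≤ (δ / 4 / R ^ 2) * R ^ 2 :=
          mul_le_mul_of_nonneg_right (h1.trans h2) (sq_nonneg _)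
      _ = δ / 4 := by
          have : R ^ 2 ≠ 0 := by positivity
          field_simp
  obtain ⟨W, hW, hWc, hWb, hWa⟩ := trig_approx hy hL0 hη0
  have hs0 : 0 ≤ √(L + y) := Real.sqrt_nonneg _
  have hs2 : √(L + y) * √(L + y) = L + y := Real.mul_self_sqrt (by linarith)
  have key : ∀ x, (W x ^ 2 - hh y x) ^ 2 ≤ η ^ 2 * R ^ 2 + (1 / L) * (|x| * B x) := by
    intro x
    have hB1 : 0 ≤ (1 / L) * (|x| * B x) :=
      mul_nonneg (by positivity) (mul_nonneg (abs_nonneg x) (hB0 x))
    rcases lt_or_ge |x| L with h | h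
    · have h1 := hWa x h
      have h2 : √(hh y x) ≤ √(L + y) := by
        refine Real.sqrt_le_sqrt ?_
        rw [hh_eq]
        exact max_le (by linarith [le_abs_self x]) (by linarith)
      have h3 : √(hh y x) ^ 2 = hh y x := Real.sq_sqrt (hh_nonneg y x)
      have h4 : (W x ^ 2 - hh y x) = (W x - √(hh y x)) * (W x + √(hh y x)) := by
        linear_combination h3
      have h5 : |W x + √(hh y x)| ≤ R := by
        refine (abs_add_le _ _).trans ?_
        rw [abs_of_nonneg (Real.sqrt_nonneg (hh y x))]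
        have := hWb x
        linarith
      have h6 : (W x ^ 2 - hh y x) ^ 2 ≤ η ^ 2 * R ^ 2 := by
        rw [h4, mul_pow]
        refine mul_le_mul ?_ ?_ (sq_nonneg _) (sq_nonneg _)
        · rw [← sq_abs]
          exact pow_le_pow_left₀ (abs_nonneg _) h1 2
        · rw [← sq_abs (W x + _)]
          exact pow_le_pow_left₀ (abs_nonneg _) h5 2
      linarith
    · have h1 : |W x| ≤ √(L + y) + 1 := (hWb x).trans (by linarith)
      have h2 : W x ^ 2 ≤ 2 * (|x| + y) + 2 := by
        rw [← sq_abs]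
        calc |W x| ^ 2 ≤ (√(L + y) + 1) ^ 2 := pow_le_pow_left₀ (abs_nonneg _) h1 2
          _ ≤ 2 * (√(L + y) * √(L + y)) + 2 := by nlinarith [sq_nonneg (√(L + y) - 1)]
          _ = 2 * (L + y) + 2 := by rw [hs2]
          _ ≤ _ := by linarith
      have h3 : hh y x ≤ |x| + y := by
        rw [hh_eq]
        exact max_le (by linarith [le_abs_self x]) (by positivity)
      have h4 := hh_nonneg y x
      have h5 : 0 ≤ |x| + y := by positivity
      have h6 : (W x ^ 2 - hh y x) ^ 2 ≤ B x := by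
        have a1 : (W x ^ 2) * (W x ^ 2) ≤ (2 * (|x| + y) + 2) * (2 * (|x| + y) + 2) :=
          mul_le_mul h2 h2 (sq_nonneg _) (by linarith)
        have a2 : hh y x * hh y x ≤ (|x| + y) * (|x| + y) := mul_le_mul h3 h3 h4 h5
        simp only [hB]
        nlinarith [sq_nonneg (W x ^ 2 + hh y x)]
      have h7 : B x ≤ (1 / L) * (|x| * B x) := by
        have a1 : 1 ≤ (1 / L) * |x| := by
          rw [one_div, ← div_eq_inv_mul, one_le_div hL0]
          exact h
        calc B x = 1 * B x := by ring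
          _ ≤ ((1 / L) * |x|) * B x := mul_le_mul_of_nonneg_right a1 (hB0 x)
          _ = _ := by ring
      have h8 : 0 ≤ η ^ 2 * R ^ 2 := by positivity
      linarith
  have nW : Nice W := by
    refine ⟨hWc.measurable, √(L + y) + η, 0, by positivity, le_rfl, fun x => ?_⟩
    rw [zero_mul, Real.exp_zero, mul_one]
    exact hWb x
  have hint : ∫ x, (W x ^ 2 - hh y x) ^ 2 ∂gm ≤ δ / 2 := by
    have n1 : Nice (fun x => (W x ^ 2 - hh y x) ^ 2) :=
      (((nW.mul nW).sub (nice_hh y)).mul ((nW.mul nW).sub (nice_hh y))).congr fun x => by ring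
    have n2 : Nice (fun x => η ^ 2 * R ^ 2 + (1 / L) * (|x| * B x)) :=
      (nice_const _).add ((nice_abs.mul nB).smul _)
    calc ∫ x, (W x ^ 2 - hh y x) ^ 2 ∂gm ≤
          ∫ x, (η ^ 2 * R ^ 2 + (1 / L) * (|x| * B x)) ∂gm :=
          integral_mono n1.integrable n2.integrable key
      _ = η ^ 2 * R ^ 2 + (1 / L) * K := by
          have e1 : ∫ _x : ℝ, (η ^ 2 * R ^ 2) ∂gm = η ^ 2 * R ^ 2 := by simp
          rw [integral_add (nice_const _).integrable ((nice_abs.mul nB).smul _).integrable,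
            e1, integral_const_mul]
      _ ≤ δ / 4 + δ / 4 := by
          refine add_le_add hη2 ?_
          rw [one_div, ← div_eq_inv_mul]
          exact hKL
      _ = _ := by ring
  obtain ⟨P, hP⟩ := hW.approx (nice_hh y) (half_pos hδ)
  obtain ⟨E, r, hr⟩ := HS_rep (HS_poly (P ^ 2))
  refine ⟨E, r, fun x => ?_, ?_⟩
  · rw [← hr, Polynomial.eval_pow]
    exact sq_nonneg _
  · have e : (fun x => (∑ d ∈ range E, r d * He d x - hh y x) ^ 2) =
        fun x => (P.eval x ^ 2 - hh y x) ^ 2 := by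
      funext x
      rw [← hr, Polynomial.eval_pow]
    rw [e]
    linarith

/-- The profile. -/
theorem profile {ε : ℝ} (hε : 0 < ε) (hε1 : ε < 1) :
    ∃ p : ℝ, 0 < p ∧ p < 1 / 2 ∧ ∀ δ : ℝ, 0 < δ →
      ∃ (D : ℕ) (a s : ℝ) (c : Fin D → ℝ) (E : ℕ) (r : ℕ → ℝ), 0 < s ∧ 0 ≤ a ∧
        s ^ 2 = a ^ 2 + ∑ d : Fin D, c d ^ 2 * (((d : ℕ) + 2).factorial : ℝ) ∧
        ∑ d : Fin D, ((d : ℕ) + 2 : ℝ) * (c d ^ 2 * (((d : ℕ) + 2).factorial : ℝ)) < s ^ 2 ∧
        1 - ε ≤ p * a ∧
        (∀ x : ℝ, 0 ≤ 1 / p + √((1 - p) / p) * s * x +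
          ∑ d : Fin D, c d * He ((d : ℕ) + 2) x + ∑ d ∈ range E, r d * He d x) ∧
        ∑ d ∈ range E, r d ^ 2 * (d.factorial : ℝ) ≤ δ := by
  have hφ := phi_pos 0
  set y : ℝ := ε * phi 0 with hy
  have hy0 : 0 < y := by positivity
  have hM := Mh_mono hy0.le
  have hM0 := Mh_pos hy0.le
  have hP1 := Ph_gt hy0
  have hP2 := Ph_le_one y
  set Φ := Ph y with hΦ
  set M := Mh y with hMd
  set p : ℝ := (3 / 2 - Φ) / 2 with hp
  have hp0 : 0 < p := by rw [hp]; linarith
  have hp1 : p < 1 / 2 := by rw [hp]; linarith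
  have hpΦ : 1 - p < Φ := by rw [hp]; linarith
  refine ⟨p, hp0, hp1, fun δ hδ => ?_⟩
  set θ : ℝ := 1 / (p * M) with hθ
  have hθ0 : 0 < θ := by positivity
  set κ : ℝ := √((1 - p) / p) with hκ
  have hκ0 : 0 < κ := Real.sqrt_pos.2 (div_pos (by linarith) hp0)
  have hκ2 : κ ^ 2 = (1 - p) / p := Real.sq_sqrt (div_nonneg (by linarith) hp0.le)
  obtain ⟨E', r', hr1, hr2⟩ := dens (y := y) (δ := δ / θ ^ 2) hy0.le (by positivity)
  -- pass to at least two coefficients
  set E : ℕ := E' + 2 with hE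
  set S : ℕ → ℝ := fun d => if d < E' then θ * r' d else 0 with hS
  have hSx : ∀ x, ∑ d ∈ range E, S d * He d x = θ * ∑ d ∈ range E', r' d * He d x := by
    intro x
    rw [← Finset.sum_subset (s₁ := range E') (fun d hd => by rw [mem_range] at *; omega)]
    · rw [Finset.mul_sum]
      refine Finset.sum_congr rfl fun d hd => ?_
      rw [mem_range] at hd
      simp only [hS]
      rw [if_pos hd, mul_assoc]
    · intro d _ hd
      rw [mem_range] at hd
      simp only [hS]
      rw [if_neg hd, zero_mul]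
  set h : ℕ → ℝ := fun d => (∫ x, hh y x * He d x ∂gm) / (d.factorial : ℝ) with hhd
  have hfac : ∀ d : ℕ, (0 : ℝ) < (d.factorial : ℝ) := fun d => Nat.cast_pos.2 (Nat.factorial_pos d)
  have hf : ∀ d, h d ^ 2 * (d.factorial : ℝ) = (∫ x, hh y x * He d x ∂gm) ^ 2 / (d.factorial : ℝ) := by
    intro d
    have := hfac d
    simp only [hhd]
    field_simp
  have h0 : h 0 = M := by
    simp only [hhd]
    have : (fun x => hh y x * He 0 x) = hh y := by
      funext x
      rw [He_zero, mul_one]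
    rw [this, Nat.factorial_zero, Nat.cast_one, div_one]
    rfl
  have h1 : h 1 = Φ := by
    simp only [hhd]
    rw [hh_one, Nat.factorial_one, Nat.cast_one, div_one]
  set D : ℕ := E' with hD
  -- Bessel for h
  have bes1 : ∑ d : Fin D, h ((d : ℕ) + 2) ^ 2 * (((d : ℕ) + 2).factorial : ℝ) ≤
      Φ + y * M - M ^ 2 - Φ ^ 2 := by
    have b1 := gbessel (nice_hh y) (D + 2)
    rw [hh_sq] at b1
    rw [Finset.sum_range_succ', Finset.sum_range_succ'] at b1
    rw [← hf, ← hf, h0, h1, Nat.factorial_zero, Nat.factorial_one] at b1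
    simp only [Nat.cast_one, mul_one] at b1
    have b2 : ∑ d : Fin D, h ((d : ℕ) + 2) ^ 2 * (((d : ℕ) + 2).factorial : ℝ) =
        ∑ d ∈ range D, (∫ x, hh y x * He (d + 1 + 1) x ∂gm) ^ 2 / ((d + 1 + 1).factorial : ℝ) := by
      rw [Finset.sum_range]
      exact Finset.sum_congr rfl fun d _ => hf _
    rw [b2]
    linarith
  -- Bessel for the indicator
  have bes2 : ∑ d : Fin D, ((d : ℕ) + 2 : ℝ) *
      (h ((d : ℕ) + 2) ^ 2 * (((d : ℕ) + 2).factorial : ℝ)) ≤ Φ - Φ ^ 2 := by
    have b1 := gbessel (nice_ia y) (D + 1)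
    have b3 : ∫ x, ia y x ^ 2 ∂gm = Φ := by
      rw [hΦ]
      unfold Ph
      congr 1
      funext x
      unfold ia
      split_ifs <;> norm_num
    rw [b3, Finset.sum_range_succ'] at b1
    have b4 : ∫ x, ia y x * He 0 x ∂gm = Φ := by
      rw [hΦ]
      unfold Ph
      congr 1
      funext x
      rw [He_zero, mul_one]
    rw [b4, Nat.factorial_zero, Nat.cast_one, div_one] at b1
    have b2 : ∑ d : Fin D, ((d : ℕ) + 2 : ℝ) *
        (h ((d : ℕ) + 2) ^ 2 * (((d : ℕ) + 2).factorial : ℝ)) =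
        ∑ d ∈ range D, (∫ x, ia y x * He (d + 1) x ∂gm) ^ 2 / ((d + 1).factorial : ℝ) := by
      rw [Finset.sum_range]
      refine Finset.sum_congr rfl fun d _ => ?_
      rw [hf, hh_He, Nat.factorial_succ ((d : ℕ) + 1)]
      have e1 := hfac ((d : ℕ) + 1)
      push_cast
      have e2 : (0 : ℝ) < (d : ℝ) + 1 + 1 := by positivity
      field_simp
      ring
    rw [b2]
    linarith
  set s : ℝ := θ * Φ / κ with hs
  have hΦ0 : 0 < Φ := by linarith
  have hs0 : 0 < s := by positivity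
  have hs2 : s ^ 2 = θ ^ 2 * (Φ ^ 2 * p / (1 - p)) := by
    rw [hs, div_pow, mul_pow, hκ2]
    have : (0 : ℝ) < 1 - p := by linarith
    field_simp
  set c : Fin D → ℝ := fun d => θ * h ((d : ℕ) + 2) with hc
  have hcs : ∑ d : Fin D, c d ^ 2 * (((d : ℕ) + 2).factorial : ℝ) =
      θ ^ 2 * ∑ d : Fin D, h ((d : ℕ) + 2) ^ 2 * (((d : ℕ) + 2).factorial : ℝ) := by
    rw [Finset.mul_sum]
    refine Finset.sum_congr rfl fun d _ => ?_
    simp only [hc]
    ring
  have hA : θ ^ 2 * (M ^ 2 - y * M) ≤ s ^ 2 - ∑ d : Fin D, c d ^ 2 * (((d : ℕ) + 2).factorial : ℝ) := by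
    rw [hcs, hs2, ← mul_sub]
    refine mul_le_mul_of_nonneg_left ?_ (sq_nonneg θ)
    have e1 : Φ ≤ Φ ^ 2 * p / (1 - p) + Φ ^ 2 := by
      have e2 : (0 : ℝ) < 1 - p := by linarith
      have e3 : Φ ^ 2 * p / (1 - p) + Φ ^ 2 = Φ ^ 2 / (1 - p) := by
        field_simp
        ring
      rw [e3, le_div_iff₀ e2, sq]
      exact mul_le_mul_of_nonneg_left hpΦ.le hΦ0.le
    linarith
  have hyM : y ≤ ε * M := mul_le_mul_of_nonneg_left hM hε.le
  have hMy : 0 ≤ M ^ 2 - y * M := by nlinarith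
  set a : ℝ := √(s ^ 2 - ∑ d : Fin D, c d ^ 2 * (((d : ℕ) + 2).factorial : ℝ)) with ha
  have ha2 : a ^ 2 = s ^ 2 - ∑ d : Fin D, c d ^ 2 * (((d : ℕ) + 2).factorial : ℝ) :=
    Real.sq_sqrt ((mul_nonneg (sq_nonneg θ) hMy).trans hA)
  have ha0 : 0 ≤ a := Real.sqrt_nonneg _
  refine ⟨D, a, s, c, E, fun d => S d - θ * h d, hs0, ha0, by linarith, ?_, ?_, ?_, ?_⟩
  · -- contraction
    have e1 : ∑ d : Fin D, ((d : ℕ) + 2 : ℝ) * (c d ^ 2 * (((d : ℕ) + 2).factorial : ℝ)) =
        θ ^ 2 * ∑ d : Fin D, ((d : ℕ) + 2 : ℝ) *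
          (h ((d : ℕ) + 2) ^ 2 * (((d : ℕ) + 2).factorial : ℝ)) := by
      rw [Finset.mul_sum]
      refine Finset.sum_congr rfl fun d _ => ?_
      simp only [hc]
      ring
    rw [e1, hs2]
    refine mul_lt_mul_of_pos_left (bes2.trans_lt ?_) (by positivity)
    have e2 : (0 : ℝ) < 1 - p := by linarith
    rw [lt_div_iff₀ e2]
    nlinarith
  · -- size of a
    have e1 : (p * a) ^ 2 = p ^ 2 * (s ^ 2 - ∑ d : Fin D, c d ^ 2 * (((d : ℕ) + 2).factorial : ℝ)) := by
      rw [mul_pow, ha2]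
    have e2 : p ^ 2 * (θ ^ 2 * (M ^ 2 - y * M)) = 1 - y / M := by
      rw [hθ]
      field_simp
    have e3 : 1 - ε ≤ (p * a) ^ 2 := by
      rw [e1]
      refine le_trans ?_ (mul_le_mul_of_nonneg_left hA (sq_nonneg p))
      rw [e2]
      have : y / M ≤ ε := by
        rw [div_le_iff₀ hM0]
        exact hyM
      linarith
    by_contra hcon
    push Not at hcon
    have e4 : 0 ≤ p * a := by positivity
    nlinarith
  · -- positivity
    intro x
    have e1 : 1 / p + κ * s * x + ∑ d : Fin D, c d * He ((d : ℕ) + 2) x =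
        ∑ d ∈ range E, θ * h d * He d x := by
      rw [hE, Finset.sum_range_succ', Finset.sum_range_succ', h0, h1, He_zero, He_one,
        Finset.sum_range]
      have e2 : θ * M = 1 / p := by
        rw [hθ]
        field_simp
      have e3 : κ * s = θ * Φ := by
        rw [hs]
        field_simp
      rw [e2, e3]
      simp only [hc]
      ring
    have e2 : ∑ d ∈ range E, (S d - θ * h d) * He d x =
        ∑ d ∈ range E, S d * He d x - ∑ d ∈ range E, θ * h d * He d x := by
      rw [← Finset.sum_sub_distrib]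
      exact Finset.sum_congr rfl fun d _ => by ring
    rw [e1, e2, hSx]
    have := mul_nonneg hθ0.le (hr1 x)
    linarith
  · -- the remainder
    set P : ℝ → ℝ := fun x => ∑ d ∈ range E, S d * He d x with hP
    have nP : Nice P := Nice.sum _ (fun d => fun x => S d * He d x) fun d _ => (nice_He d).smul _
    have nf : Nice (fun x => P x - θ * hh y x) := nP.sub ((nice_hh y).smul θ)
    have b1 := gbessel nf E
    have b2 : ∫ x, (P x - θ * hh y x) ^ 2 ∂gm ≤ δ := by
      have e1 : (fun x => (P x - θ * hh y x) ^ 2) = fun x =>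
          θ ^ 2 * (∑ d ∈ range E', r' d * He d x - hh y x) ^ 2 := by
        funext x
        simp only [hP]
        rw [hSx]
        ring
      rw [e1, integral_const_mul]
      calc θ ^ 2 * _ ≤ θ ^ 2 * (δ / θ ^ 2) := mul_le_mul_of_nonneg_left hr2 (sq_nonneg θ)
        _ = δ := by field_simp
    refine le_trans (le_of_eq ?_) (b1.trans b2)
    refine Finset.sum_congr rfl fun d hd => ?_
    have e2 : ∫ x, (P x - θ * hh y x) * He d x ∂gm = (S d - θ * h d) * (d.factorial : ℝ) := by
      have e3 : (fun x => (P x - θ * hh y x) * He d x) = fun x =>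
          ∑ e ∈ range E, S e * (He e x * He d x) - θ * (hh y x * He d x) := by
        funext x
        simp only [hP]
        rw [sub_mul, Finset.sum_mul]
        congr 1
        · exact Finset.sum_congr rfl fun e _ => by ring
        · ring
      have n1 : ∀ e, Nice (fun x => S e * (He e x * He d x)) := fun e =>
        ((nice_He e).mul (nice_He d)).smul _
      rw [e3, integral_sub (Nice.sum _ (fun e => fun x => S e * (He e x * He d x))
        fun e _ => n1 e).integrable (((nice_hh y).mul (nice_He d)).smul θ).integrable,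
        integral_finsetSum _ fun e _ => (n1 e).integrable]
      simp only [integral_const_mul, He_orth]
      rw [Finset.sum_eq_single d]
      · rw [if_pos rfl]
        simp only [hhd]
        have := (hfac d).ne'
        field_simp
      · intro e _ he
        rw [if_neg he, mul_zero]
      · intro h
        exact absurd hd h
    rw [e2]
    have := (hfac d).ne'
    field_simp

end Pool.Agent.H976.C
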