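import Pool.Agent.H976.C.X
import Pool.Agent.H976.C.Y4

/-!
# Circulant theta: approximate solutions exist
-/

set_option autoImplicit false
set_option linter.unusedSectionVars false

namespace Pool.Agent.H976.C

open Finset Real

theorem rho_bounds {D : ℕ} (a s : ℝ) (c : Fin D → ℝ) (hs : 0 < s) (ha : 0 ≤ a)
    (hs2 : s ^ 2 = a ^ 2 + ∑ d : Fin D, c d ^ 2 * (((d : ℕ) + 2).factorial : ℝ)) (m : ℕ) :
    0 ≤ rho a s c m ∧ rho a s c m ≤ 1 := by
  have hnn : ∀ d : Fin D, 0 ≤ c d ^ 2 * (((d : ℕ) + 2).factorial : ℝ) := fun d => by positivity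
  induction m with
  | zero =>
    refine ⟨mul_nonneg (inv_nonneg.2 hs.le) ha, ?_⟩
    show s⁻¹ * a ≤ 1
    rw [inv_mul_le_iff₀ hs, mul_one]
    have h1 : a ^ 2 ≤ s ^ 2 := by
      rw [hs2]
      linarith [Finset.sum_nonneg fun d (_ : d ∈ (univ : Finset (Fin D))) => hnn d]
    exact le_of_sq_le_sq h1 hs.le
  | succ m ih =>
    obtain ⟨h0, h1⟩ := ih
    have e : rho a s c (m + 1) = s⁻¹ ^ 2 * (a ^ 2 + ∑ d : Fin D, c d ^ 2 *
      (((d : ℕ) + 2).factorial : ℝ) * rho a s c m ^ ((d : ℕ) + 2)) := rfl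
    rw [e]
    constructor
    · have : 0 ≤ ∑ d : Fin D, c d ^ 2 *
          (((d : ℕ) + 2).factorial : ℝ) * rho a s c m ^ ((d : ℕ) + 2) :=
        Finset.sum_nonneg fun d _ => mul_nonneg (hnn d) (pow_nonneg h0 _)
      positivity
    · rw [inv_pow, inv_mul_le_iff₀ (by positivity), mul_one, hs2]
      have : ∑ d : Fin D, c d ^ 2 * (((d : ℕ) + 2).factorial : ℝ) *
          rho a s c m ^ ((d : ℕ) + 2) ≤ ∑ d : Fin D, c d ^ 2 * (((d : ℕ) + 2).factorial : ℝ) :=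
        Finset.sum_le_sum fun d _ => mul_le_of_le_one_right (hnn d) (pow_le_one₀ h0 h1)
      linarith

theorem rho_lim {D : ℕ} (a s : ℝ) (c : Fin D → ℝ) (hs : 0 < s) (ha : 0 ≤ a)
    (hs2 : s ^ 2 = a ^ 2 + ∑ d : Fin D, c d ^ 2 * (((d : ℕ) + 2).factorial : ℝ))
    (hc : ∑ d : Fin D, ((d : ℕ) + 2 : ℝ) * (c d ^ 2 * (((d : ℕ) + 2).factorial : ℝ)) < s ^ 2)
    {ε : ℝ} (hε : 0 < ε) : ∃ m, 1 - rho a s c m ≤ ε := by
  have hnn : ∀ d : Fin D, 0 ≤ c d ^ 2 * (((d : ℕ) + 2).factorial : ℝ) := fun d => by positivity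
  set r : ℝ := s⁻¹ ^ 2 *
    ∑ d : Fin D, ((d : ℕ) + 2 : ℝ) * (c d ^ 2 * (((d : ℕ) + 2).factorial : ℝ)) with hr
  have hr0 : 0 ≤ r := by
    have : 0 ≤ ∑ d : Fin D, ((d : ℕ) + 2 : ℝ) * (c d ^ 2 * (((d : ℕ) + 2).factorial : ℝ)) :=
      Finset.sum_nonneg fun d _ => mul_nonneg (by positivity) (hnn d)
    positivity
  have hr1 : r < 1 := by
    rw [hr, inv_pow, inv_mul_lt_iff₀ (by positivity), mul_one]
    exact hc
  have key : ∀ m, 1 - rho a s c m ≤ r ^ m := by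
    intro m
    induction m with
    | zero =>
      rw [pow_zero]
      linarith [(rho_bounds a s c hs ha hs2 0).1]
    | succ m ih =>
      obtain ⟨h0, h1⟩ := rho_bounds a s c hs ha hs2 m
      have e : rho a s c (m + 1) = s⁻¹ ^ 2 * (a ^ 2 + ∑ d : Fin D, c d ^ 2 *
        (((d : ℕ) + 2).factorial : ℝ) * rho a s c m ^ ((d : ℕ) + 2)) := rfl
      have e1 : s⁻¹ ^ 2 * s ^ 2 = 1 := by
        rw [← mul_pow, inv_mul_cancel₀ hs.ne', one_pow]
      have e2 : 1 - rho a s c (m + 1) = s⁻¹ ^ 2 * ∑ d : Fin D,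
          c d ^ 2 * (((d : ℕ) + 2).factorial : ℝ) * (1 - rho a s c m ^ ((d : ℕ) + 2)) := by
        have e3 : ∑ d : Fin D,
            c d ^ 2 * (((d : ℕ) + 2).factorial : ℝ) * (1 - rho a s c m ^ ((d : ℕ) + 2)) =
            ∑ d : Fin D, c d ^ 2 * (((d : ℕ) + 2).factorial : ℝ) -
            ∑ d : Fin D, c d ^ 2 * (((d : ℕ) + 2).factorial : ℝ) *
              rho a s c m ^ ((d : ℕ) + 2) := by
          rw [← Finset.sum_sub_distrib]
          exact Finset.sum_congr rfl fun d _ => by ring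
        rw [e3, e]
        linear_combination (-1 : ℝ) * e1 + s⁻¹ ^ 2 * hs2
      rw [e2]
      have h2 : ∑ d : Fin D,
          c d ^ 2 * (((d : ℕ) + 2).factorial : ℝ) * (1 - rho a s c m ^ ((d : ℕ) + 2)) ≤
          (∑ d : Fin D, ((d : ℕ) + 2 : ℝ) * (c d ^ 2 * (((d : ℕ) + 2).factorial : ℝ))) *
            (1 - rho a s c m) := by
        rw [Finset.sum_mul]
        refine Finset.sum_le_sum fun d _ => ?_
        have h3 := one_add_mul_le_pow (show (-2 : ℝ) ≤ rho a s c m - 1 by linarith) ((d : ℕ) + 2)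
        have h4 : 1 - rho a s c m ^ ((d : ℕ) + 2) ≤ ((d : ℕ) + 2 : ℝ) * (1 - rho a s c m) := by
          have h5 : 1 + (rho a s c m - 1) = rho a s c m := by ring
          rw [h5] at h3
          push_cast at h3
          linarith
        calc _ ≤ c d ^ 2 * (((d : ℕ) + 2).factorial : ℝ) *
              (((d : ℕ) + 2 : ℝ) * (1 - rho a s c m)) := mul_le_mul_of_nonneg_left h4 (hnn d)
          _ = _ := by ring
      calc _ ≤ s⁻¹ ^ 2 * ((∑ d : Fin D, ((d : ℕ) + 2 : ℝ) *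
              (c d ^ 2 * (((d : ℕ) + 2).factorial : ℝ))) * (1 - rho a s c m)) :=
            mul_le_mul_of_nonneg_left h2 (by positivity)
        _ = r * (1 - rho a s c m) := by rw [hr]; ring
        _ ≤ r * r ^ m := mul_le_mul_of_nonneg_left ih hr0
        _ = _ := by ring
  obtain ⟨m, hm⟩ := exists_pow_lt_of_lt_one hε hr1
  exact ⟨m, (key m).trans hm.le⟩

/-- Approximate solutions exist. -/
theorem AMF {ε : ℝ} (hε : 0 < ε) (hε1 : ε < 1) :
    ∃ p : ℝ, 0 < p ∧ p < 1 / 2 ∧ ∀ u : ℝ, 0 < u →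
      ∃ K : ℝ, 0 ≤ K ∧ ∀ (N : ℕ) [NeZero N], ∃ b Y : Cfg (ZMod N) → ZMod N → ℝ,
      (∀ σ, Ev (b σ)) ∧ (∀ σ k, k + k = 0 → b σ k = 0) ∧
      (∀ σ k, σ (cls k) = false → b σ k = 0) ∧ (∀ σ, Ev (Y σ)) ∧ (∀ σ t, 0 ≤ Y σ t) ∧
      (∀ σ t, (1 - ε) * ee N t ≤ 1 + sy (b σ) t + Y σ t) ∧
      Ep p (fun σ => av (fun t => Y σ t ^ 2)) ≤ u + K / √N := by
  obtain ⟨p, hp, hp2, hprof⟩ := profile hε hε1
  have hp1 : p < 1 := by linarith
  refine ⟨p, hp, hp2, fun u hu => ?_⟩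
  obtain ⟨D, a, s, c, E, r, hs, ha, hs2, hcon, hpa, hpos, hr⟩ :=
    hprof (u / (6 * p ^ 2)) (by positivity)
  set κ := √((1 - p) / p) with hκ
  obtain ⟨m, hm⟩ := rho_lim a s c hs ha hs2 hcon
    (ε := u / (12 * ((p * κ * s) ^ 2 + 1))) (by positivity)
  obtain ⟨K, hK0, hK⟩ := approx hp hp1 a s c hs.ne' hs2 E r hpos m
  refine ⟨K, hK0, fun N _ => ?_⟩
  obtain ⟨b, Y, h1, h2, h3, h4, h5, h6, h7⟩ := hK N
  refine ⟨b, Y, h1, h2, h3, h4, h5, fun σ t => ?_, h7.trans ?_⟩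
  · refine le_trans ?_ (h6 σ t)
    refine mul_le_mul_of_nonneg_right hpa ?_
    unfold ee
    split_ifs
    · exact Real.sqrt_nonneg _
    · exact le_rfl
  · refine add_le_add ?_ le_rfl
    have e1 : 3 * (p ^ 2 * ∑ d ∈ range E, r d ^ 2 * (d.factorial : ℝ)) ≤ u / 2 := by
      calc _ ≤ 3 * (p ^ 2 * (u / (6 * p ^ 2))) := by
            refine mul_le_mul_of_nonneg_left ?_ (by norm_num)
            exact mul_le_mul_of_nonneg_left hr (sq_nonneg p)
        _ = u / 2 := by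
            field_simp
            norm_num
    have e2 : 3 * ((p * κ * s) ^ 2 * (2 - 2 * rho a s c m)) ≤ u / 2 := by
      have h8 : 0 ≤ 1 - rho a s c m := by
        linarith [(rho_bounds a s c hs ha hs2 m).2]
      calc 3 * ((p * κ * s) ^ 2 * (2 - 2 * rho a s c m))
          = 6 * ((p * κ * s) ^ 2 * (1 - rho a s c m)) := by ring
        _ ≤ 6 * (((p * κ * s) ^ 2 + 1) * (u / (12 * ((p * κ * s) ^ 2 + 1)))) := by
            refine mul_le_mul_of_nonneg_left ?_ (by norm_num)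
            exact mul_le_mul (by linarith) hm h8 (by positivity)
        _ = u / 2 := by
            have : (0 : ℝ) < (p * κ * s) ^ 2 + 1 := by positivity
            field_simp
            norm_num
    linarith

end Pool.Agent.H976.C
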