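import Pool.Agent.H976.C.T1
import Pool.Agent.H976.C.Z

/-!
# Circulant theta: bounds of the expectation
-/

set_option autoImplicit false
set_option linter.unusedSectionVars false

namespace Pool.Agent.H976.C

open Finset Real

theorem dyadic (J : ℕ) (x : ℝ) (hx : x ≤ 2 ^ J) :
    x ≤ 1 + ∑ j ∈ range J, 2 ^ (j + 1) * (if 2 ^ j < x then (1 : ℝ) else 0) := by
  induction J with
  | zero => simpa using hx
  | succ J ih =>
    rw [Finset.sum_range_succ]
    by_cases h : x ≤ 2 ^ J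
    · have h1 := ih h
      have h2 : (0 : ℝ) ≤ 2 ^ (J + 1) * (if 2 ^ J < x then (1 : ℝ) else 0) := by
        split_ifs <;> positivity
      linarith
    · push Not at h
      rw [if_pos h, mul_one]
      have h2 : (0 : ℝ) ≤ ∑ j ∈ range J, 2 ^ (j + 1) * (if 2 ^ j < x then (1 : ℝ) else 0) := by
        refine Finset.sum_nonneg fun j _ => ?_
        split_ifs <;> positivity
      linarith

theorem ee_ev (N : ℕ) [NeZero N] : Ev (ee N) := by
  intro t
  unfold ee
  simp only [neg_eq_zero]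

theorem ee_nonneg (N : ℕ) [NeZero N] (t : ZMod N) : 0 ≤ ee N t := by
  unfold ee
  split_ifs
  · exact Real.sqrt_nonneg _
  · exact le_rfl

theorem ee_zero (N : ℕ) [NeZero N] : ee N 0 = √N := by
  unfold ee
  rw [if_pos rfl]

theorem av_ee_sq (N : ℕ) [NeZero N] (α : ℝ) : av (fun t => (α * ee N t) ^ 2) = α ^ 2 := by
  unfold av ee
  rw [Finset.sum_eq_single 0 (fun t _ ht => by rw [if_neg ht]; ring)
    (fun h => absurd (mem_univ _) h), if_pos rfl, mul_pow, Real.sq_sqrt (Nat.cast_nonneg N)]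
  have := Nne (N := N)
  field_simp

theorem Th_tail {q : ℝ} (hq : 0 < q) (hq2 : q ≤ 1 / 2) {N : ℕ} [NeZero N] {α : ℝ} (hα : 0 < α) :
    Pp q (fun τ : Cfg (ZMod N) => √N / α < Th τ) ≤ 32768 * α ^ 2 / q ^ 3 := by
  have h1 := dom' q 1 (α ^ 2) (fun t : ZMod N => α * ee N t) hq hq2 one_pos (by positivity)
    (fun t => by simp only [ee_ev N t]) (av_ee_sq N α).le
  rw [one_pow, one_mul] at h1
  refine le_trans (Pp_mono q hq.le (by linarith) _ _ fun τ hτ h2 => ?_) h1
  obtain ⟨V, hV, hVt⟩ := h2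
  have hs := sqrtN_pos N
  have h3 := hVt 0
  rw [ee_zero] at h3
  have h4 : 0 < α * √N := by positivity
  have h5 := Th_up one_pos hV (fun t => (mul_nonneg hα.le (ee_nonneg N t)).trans (hVt t))
    (h4.trans_le h3)
  have h6 : (N : ℝ) * 1 / (1 + sy V 0) ≤ √N / α := by
    rw [mul_one]
    calc (N : ℝ) / (1 + sy V 0) ≤ N / (α * √N) :=
          div_le_div_of_nonneg_left (Nat.cast_nonneg N) h4 h3
      _ = √N / α := by
          rw [div_eq_div_iff h4.ne' hα.ne']
          have := Real.mul_self_sqrt (Nat.cast_nonneg (α := ℝ) N)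
          linear_combination (-α) * this
  linarith

/-- A bound of the right order. -/
theorem GB {q : ℝ} (hq : 0 < q) (hq2 : q ≤ 1 / 2) : ∃ K : ℝ, 0 ≤ K ∧ ∀ (N : ℕ) [NeZero N],
    Ep q (fun τ : Cfg (ZMod N) => Th τ) ≤ K * √N := by
  have hq1 : q ≤ 1 := by linarith
  set B : ℝ := 32768 / q ^ 3 with hB
  have hB0 : 0 ≤ B := by positivity
  refine ⟨1 + 4 * B, by positivity, fun N _ => ?_⟩
  have hs := sqrtN_pos N
  obtain ⟨J, hJ⟩ := pow_unbounded_of_one_lt (√(N : ℝ)) (show (1 : ℝ) < 2 by norm_num)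
  have h1 : ∀ τ : Cfg (ZMod N), Th τ ≤ √N * (1 + ∑ j ∈ range J, 2 ^ (j + 1) *
      (if 2 ^ j < Th τ / √N then (1 : ℝ) else 0)) := by
    intro τ
    have h2 : Th τ / √N ≤ 2 ^ J := by
      rw [div_le_iff₀ hs]
      have h3 := Th_le τ
      have h4 := Real.mul_self_sqrt (Nat.cast_nonneg (α := ℝ) N)
      nlinarith
    have h3 := dyadic J _ h2
    rw [div_le_iff₀ hs] at h3
    linarith
  refine (Ep_mono q hq.le hq1 _ _ h1).trans ?_
  rw [Ep_mul, Ep_add, Ep_const, Ep_sum, mul_comm]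
  refine mul_le_mul_of_nonneg_right ?_ hs.le
  have h2 : ∀ j ∈ range J, Ep q (fun τ : Cfg (ZMod N) => 2 ^ (j + 1) *
      (if 2 ^ j < Th τ / √N then (1 : ℝ) else 0)) ≤ 2 * B * (1 / 2) ^ j := by
    intro j _
    rw [Ep_mul]
    have h3 := Th_tail (N := N) hq hq2 (α := (1 / 2) ^ j) (by positivity)
    have h4 : Ep q (fun τ : Cfg (ZMod N) => if 2 ^ j < Th τ / √N then (1 : ℝ) else 0) ≤
        32768 * ((1 / 2) ^ j) ^ 2 / q ^ 3 := by
      refine le_trans (le_of_eq ?_) h3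
      unfold Pp
      congr 1
      funext τ
      have h5 : (2 ^ j < Th τ / √N) ↔ (√N / (1 / 2) ^ j < Th τ) := by
        rw [lt_div_iff₀ hs]
        have h6 : √(N : ℝ) / (1 / 2) ^ j = 2 ^ j * √N := by
          rw [one_div, inv_pow, div_inv_eq_mul, mul_comm]
        rw [h6]
      simp only [h5]
    calc (2 : ℝ) ^ (j + 1) * Ep q (fun τ : Cfg (ZMod N) => if 2 ^ j < Th τ / √N then (1 : ℝ) else 0)
        ≤ 2 ^ (j + 1) * (32768 * ((1 / 2) ^ j) ^ 2 / q ^ 3) :=
          mul_le_mul_of_nonneg_left h4 (by positivity)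
      _ = 2 * B * (1 / 2) ^ j := by
          have h5 : (2 : ℝ) ^ j * (1 / 2) ^ j = 1 := by
            rw [← mul_pow]
            norm_num
          rw [hB, pow_succ]
          have h6 : (2 : ℝ) ^ j * 2 * (32768 * ((1 / 2) ^ j) ^ 2 / q ^ 3) =
            (2 ^ j * (1 / 2) ^ j) * (2 * (32768 / q ^ 3) * (1 / 2) ^ j) := by ring
          rw [h6, h5, one_mul]
  have h3 : ∑ j ∈ range J, 2 * B * (1 / 2 : ℝ) ^ j ≤ 4 * B := by
    rw [← Finset.mul_sum]
    have h4 : ∑ j ∈ range J, (1 / 2 : ℝ) ^ j ≤ 2 := by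
      have h5 := Summable.sum_le_tsum (range J) (fun j _ => by positivity)
        (summable_geometric_of_lt_one (show (0 : ℝ) ≤ 1 / 2 by norm_num) (by norm_num))
      rw [tsum_geometric_two] at h5
      exact h5
    nlinarith
  linarith [Finset.sum_le_sum h2]

end Pool.Agent.H976.C
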