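import Pool.Agent.H976.C.T2

/-!
# Circulant theta: upper and lower bounds
-/

set_option autoImplicit false
set_option linter.unusedSectionVars false

namespace Pool.Agent.H976.C

open Finset Real

open Classical in
/-- indicator -/
noncomputable def ind (P : Prop) : ℝ := if P then 1 else 0

theorem ind_pos {P : Prop} (h : P) : ind P = 1 := if_pos h

theorem ind_neg {P : Prop} (h : ¬ P) : ind P = 0 := if_neg h

/-- good configurations -/
def Good {N : ℕ} [NeZero N] (ε : ℝ) (τ : Cfg (ZMod N)) : Prop :=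
  ∃ V, Sup τ V ∧ (∀ t, 0 ≤ 1 + ε + sy V t) ∧ (1 - ε) * √N ≤ 1 + ε + sy V 0

theorem Sup.mono {N : ℕ} [NeZero N] {σ τ : Cfg (ZMod N)} (h : ∀ e, σ e = true → τ e = true)
    {V : ZMod N → ℝ} (hV : Sup σ V) : Sup τ V := by
  refine ⟨hV.1, hV.2.1, fun k hk => hV.2.2 k ?_⟩
  by_contra hcon
  rw [Bool.not_eq_false] at hcon
  rw [h _ hcon] at hk
  exact Bool.noConfusion hk

theorem cup_left {α : Type} (σ τ : Cfg α) (e : α) (h : σ e = true) : cup σ τ e = true := by
  unfold cup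
  rw [h, Bool.true_or]

theorem cup_right {α : Type} (σ τ : Cfg α) (e : α) (h : τ e = true) : cup σ τ e = true := by
  unfold cup
  rw [h, Bool.or_true]

theorem Good_up {N : ℕ} [NeZero N] {ε : ℝ} (hε : 0 < ε) (hε1 : ε < 1) {τ : Cfg (ZMod N)}
    (h : Good ε τ) : Th τ ≤ (1 + ε) / (1 - ε) * √N := by
  obtain ⟨V, hV, h1, h2⟩ := h
  have hs := sqrtN_pos N
  have h0 : 0 < (1 - ε) * √(N : ℝ) := mul_pos (by linarith) hs
  refine (Th_up (by linarith) hV h1 (h0.trans_le h2)).trans ?_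
  have hN := Npos (N := N)
  calc (N : ℝ) * (1 + ε) / (1 + ε + sy V 0) ≤ N * (1 + ε) / ((1 - ε) * √N) :=
        div_le_div_of_nonneg_left (by positivity) h0 h2
    _ = _ := by
        have h3 := Real.mul_self_sqrt (Nat.cast_nonneg (α := ℝ) N)
        have h4 : (1 - ε) ≠ 0 := by linarith
        rw [div_mul_eq_mul_div, div_eq_div_iff h0.ne' h4]
        linear_combination (-(1 + ε) * (1 - ε)) * h3

theorem Good_lo {N : ℕ} [NeZero N] {ε : ℝ} (hε : 0 < ε) {τ : Cfg (ZMod N)}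
    (h : Good ε τ) : (1 - ε) / (1 + ε) * √N ≤ Th (fun e => !τ e) := by
  obtain ⟨V, hV, h1, h2⟩ := h
  have h3 : Sup (fun e => !(fun e => !τ e) e) V := by
    have : (fun e => !(fun e => !τ e) e) = τ := by
      funext e
      simp
    rw [this]
    exact hV
  refine le_trans ?_ (Th_lo (by linarith) h3 h1)
  rw [div_mul_eq_mul_div]
  exact div_le_div_of_nonneg_right h2 (by linarith)

/-- Good configurations are likely. -/
theorem good_likely {ε : ℝ} (hε : 0 < ε) (hε1 : ε < 1) :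
    ∃ p q : ℝ, 0 < p ∧ p < 1 ∧ 0 < q ∧ q ≤ 1 / 2 ∧ (1 - p) * ((1 - q) * (1 - q)) = 1 / 2 ∧
      ∀ δ : ℝ, 0 < δ → ∃ n₀ : ℕ, ∀ (N : ℕ) [NeZero N], n₀ ≤ N →
        Ep p (fun σ : Cfg (ZMod N) => Pp q (fun τ => ¬ Good ε (cup σ τ))) ≤ δ := by
  obtain ⟨p, hp, hp2, hA⟩ := AMF hε hε1
  have hp1 : p < 1 := by linarith
  set r : ℝ := √(1 / (2 * (1 - p))) with hr
  have h1p : 0 < 1 - p := by linarith
  have hr2 : r * r = 1 / (2 * (1 - p)) := Real.mul_self_sqrt (by positivity)
  have hr0 : 0 ≤ r := Real.sqrt_nonneg _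
  have hlt : 1 / (2 * (1 - p)) < 1 := by
    rw [div_lt_one (by positivity)]
    linarith
  have hge : 1 / 2 ≤ 1 / (2 * (1 - p)) := by
    rw [div_le_div_iff₀ (by norm_num) (by positivity)]
    linarith
  have hr1 : r < 1 := by nlinarith
  have hr3 : 1 / 2 ≤ r := by nlinarith
  refine ⟨p, 1 - r, hp, hp1, by linarith, by linarith, ?_, fun δ hδ => ?_⟩
  · have : (1 - (1 - r)) * (1 - (1 - r)) = r * r := by ring
    rw [this, hr2]
    field_simp
  set q : ℝ := 1 - r with hq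
  have hq0 : 0 < q := by linarith
  have hq2 : q ≤ 1 / 2 := by linarith
  set C : ℝ := 32768 / (ε ^ 2 * q ^ 3) with hC
  have hC0 : 0 < C := by positivity
  set u : ℝ := δ / (2 * C) with hu
  have hu0 : 0 < u := by positivity
  obtain ⟨K, hK0, hK⟩ := hA (δ / 4 * u) (by positivity)
  obtain ⟨n₀, hn₀⟩ := exists_nat_gt ((4 * K / (δ * u)) ^ 2)
  refine ⟨n₀, fun N _ hN => ?_⟩
  obtain ⟨b, Y, h1, h2, h3, h4, h5, h6, h7⟩ := hK N
  have hs := sqrtN_pos N
  have hKN : K / √N ≤ δ / 4 * u := by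
    rw [div_le_iff₀ hs]
    have a1 : 4 * K / (δ * u) ≤ √N := by
      refine Real.le_sqrt_of_sq_le (hn₀.le.trans ?_)
      exact_mod_cast hN
    rw [div_le_iff₀ (by positivity)] at a1
    linarith
  have key : ∀ σ : Cfg (ZMod N), Pp q (fun τ => ¬ Good ε (cup σ τ)) ≤
      (if u < av (fun t => Y σ t ^ 2) then (1 : ℝ) else 0) + δ / 2 := by
    intro σ
    by_cases hb : u < av (fun t => Y σ t ^ 2)
    · rw [if_pos hb]
      have := Pp_le_one q hq0.le (by linarith) (fun τ => ¬ Good ε (cup σ τ))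
      linarith
    · rw [if_neg hb, zero_add]
      push Not at hb
      have d1 := dom' q ε u (Y σ) hq0 hq2 hε hu0 (h4 σ) hb
      have d2 : 32768 * u / (ε ^ 2 * q ^ 3) = δ / 2 := by
        rw [hu, hC]
        field_simp
      rw [d2] at d1
      refine le_trans (Pp_mono q hq0.le (by linarith) (fun τ => ¬ Good ε (cup σ τ))
        (fun τ => ¬ ∃ V, Sup τ V ∧ ∀ t, Y σ t ≤ ε + sy V t) ?_) d1
      intro τ hτ hV
      refine hτ ?_
      obtain ⟨V, hV, hVt⟩ := hV
      refine ⟨fun k => b σ k + V k, Sup.add ⟨h1 σ, h2 σ, h3 σ⟩ hV, fun t => ?_, ?_⟩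
      · rw [sy_add]
        have a1 := h6 σ t
        have a2 := hVt t
        have a3 : 0 ≤ (1 - ε) * ee N t := mul_nonneg (by linarith) (ee_nonneg N t)
        linarith
      · rw [sy_add]
        have a1 := h6 σ 0
        have a2 := hVt 0
        rw [ee_zero] at a1
        linarith
  refine (Ep_mono p hp.le hp1.le _ _ key).trans ?_
  rw [Ep_add, Ep_const]
  have hm := Pp_markov p hp.le hp1.le (fun σ => av (fun t => Y σ t ^ 2))
    (fun σ => av_nonneg _ fun t => sq_nonneg _) u hu0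
  have hm2 : Ep p (fun σ : Cfg (ZMod N) => if u < av (fun t => Y σ t ^ 2) then (1 : ℝ) else 0) ≤
      δ / 2 := by
    have e : Ep p (fun σ : Cfg (ZMod N) => if u < av (fun t => Y σ t ^ 2) then (1 : ℝ) else 0) =
        Pp p (fun σ => u < av (fun t => Y σ t ^ 2)) := by
      unfold Pp
      congr 1
    rw [e]
    refine hm.trans ?_
    rw [div_le_iff₀ hu0]
    linarith
  linarith

/-- The upper bound. -/
theorem UP {ε : ℝ} (hε : 0 < ε) : ∃ n₀ : ℕ, ∀ (N : ℕ) [NeZero N], n₀ ≤ N →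
    Ep (1 / 2) (fun τ : Cfg (ZMod N) => Th τ) ≤ (1 + ε) * √N := by
  -- choose the parameters
  set e : ℝ := min (1 / 2) (ε / 8) with he
  have he0 : 0 < e := lt_min (by norm_num) (by positivity)
  have he1 : e ≤ 1 / 2 := min_le_left _ _
  have he2 : e ≤ ε / 8 := min_le_right _ _
  have hc : (1 + e) / (1 - e) ≤ 1 + ε / 2 := by
    rw [div_le_iff₀ (by linarith)]
    nlinarith
  obtain ⟨p, q, hp, hp1, hq, hq2, hpq, hg⟩ := good_likely he0 (by linarith)
  have hq1 : q ≤ 1 := by linarith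
  obtain ⟨K, hK0, hK⟩ := GB hq hq2
  obtain ⟨n₀, hn₀⟩ := hg (ε / (2 * (K + 1))) (by positivity)
  refine ⟨n₀, fun N _ hN => ?_⟩
  have h1 := hn₀ N hN
  have hs := sqrtN_pos N
  have hhalf : (1 : ℝ) / 2 = p + (q + q - q * q) - p * (q + q - q * q) := by linarith
  rw [hhalf, ← Ep_cup p (q + q - q * q) (fun τ : Cfg (ZMod N) => Th τ)]
  have e1 : ∀ σ : Cfg (ZMod N), Ep (q + q - q * q) (fun τ => Th (cup σ τ)) =
      Ep q (fun τ => Ep q (fun υ => Th (cup σ (cup τ υ)))) := by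
    intro σ
    rw [Ep_cup q q (fun τ : Cfg (ZMod N) => Th (cup σ τ))]
  simp only [e1]
  have key : ∀ σ τ : Cfg (ZMod N), Ep q (fun υ => Th (cup σ (cup τ υ))) ≤
      (1 + e) / (1 - e) * √N + (K * √N) * ind (¬ Good e (cup σ τ)) := by
    intro σ τ
    by_cases hgood : Good e (cup σ τ)
    · rw [ind_neg (not_not.2 hgood), mul_zero, add_zero]
      have h2 : ∀ υ : Cfg (ZMod N), Th (cup σ (cup τ υ)) ≤ (1 + e) / (1 - e) * √N := by
        intro υ
        refine le_trans (Th_anti fun x hx => ?_) (Good_up he0 (by linarith) hgood)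
        unfold cup at hx ⊢
        rw [Bool.or_eq_true] at hx ⊢
        rcases hx with h | h
        · exact Or.inl h
        · right
          rw [h, Bool.true_or]
      have h3 := Ep_mono q hq.le hq1 _ _ h2
      rw [Ep_const] at h3
      exact h3
    · rw [ind_pos hgood, mul_one]
      have h2 : ∀ υ : Cfg (ZMod N), Th (cup σ (cup τ υ)) ≤ Th υ := by
        intro υ
        exact Th_anti fun x hx => cup_right _ _ _ (cup_right _ _ _ hx)
      have h3 := (Ep_mono q hq.le hq1 _ _ h2).trans (hK N)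
      have h4 : 0 ≤ (1 + e) / (1 - e) * √(N : ℝ) := by
        have : 0 < 1 - e := by linarith
        positivity
      linarith
  have key2 : ∀ σ : Cfg (ZMod N), Ep q (fun τ => Ep q (fun υ => Th (cup σ (cup τ υ)))) ≤
      (1 + e) / (1 - e) * √N + (K * √N) * Pp q (fun τ => ¬ Good e (cup σ τ)) := by
    intro σ
    refine (Ep_mono q hq.le hq1 _ _ (key σ)).trans ?_
    rw [Ep_add, Ep_const, Ep_mul]
    apply le_of_eq
    rfl
  refine (Ep_mono p hp.le hp1.le _ _ key2).trans ?_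
  rw [Ep_add, Ep_const, Ep_mul]
  have h5 : (K * √N) * Ep p (fun σ : Cfg (ZMod N) => Pp q (fun τ => ¬ Good e (cup σ τ))) ≤
      ε / 2 * √N := by
    calc _ ≤ (K * √N) * (ε / (2 * (K + 1))) := mul_le_mul_of_nonneg_left h1 (by positivity)
      _ = (K / (K + 1)) * (ε / 2 * √N) := by
          have : K + 1 ≠ 0 := by positivity
          field_simp
      _ ≤ 1 * (ε / 2 * √N) := by
          refine mul_le_mul_of_nonneg_right ?_ (by positivity)
          rw [div_le_one (by positivity)]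
          linarith
      _ = _ := one_mul _
  have h6 := mul_le_mul_of_nonneg_right hc hs.le
  linarith

/-- The lower bound. -/
theorem LO {ε : ℝ} (hε : 0 < ε) : ∃ n₀ : ℕ, ∀ (N : ℕ) [NeZero N], n₀ ≤ N →
    (1 - ε) * √N ≤ Ep (1 / 2) (fun τ : Cfg (ZMod N) => Th τ) := by
  set e : ℝ := min (1 / 2) (ε / 8) with he
  have he0 : 0 < e := lt_min (by norm_num) (by positivity)
  have he1 : e ≤ 1 / 2 := min_le_left _ _
  have he2 : e ≤ ε / 8 := min_le_right _ _
  have hc : 1 - ε / 2 ≤ (1 - e) / (1 + e) := by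
    rw [le_div_iff₀ (by linarith)]
    nlinarith
  have hc1 : (1 - e) / (1 + e) ≤ 1 := by
    rw [div_le_one (by linarith)]
    linarith
  have hc0 : 0 ≤ (1 - e) / (1 + e) := div_nonneg (by linarith) (by linarith)
  obtain ⟨p, q, hp, hp1, hq, hq2, hpq, hg⟩ := good_likely he0 (by linarith)
  have hq1 : q ≤ 1 := by linarith
  obtain ⟨n₀, hn₀⟩ := hg (ε / 2) (by positivity)
  refine ⟨n₀, fun N _ hN => ?_⟩
  have h1 := hn₀ N hN
  have hs := sqrtN_pos N
  have hcomp := Ep_compl (α := ZMod N) (1 / 2) (fun τ => Th τ)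
  rw [show (1 : ℝ) - 1 / 2 = 1 / 2 by norm_num] at hcomp
  rw [← hcomp]
  have hhalf : (1 : ℝ) / 2 = p + (q + q - q * q) - p * (q + q - q * q) := by linarith
  rw [hhalf, ← Ep_cup p (q + q - q * q) (fun τ : Cfg (ZMod N) => Th (fun e => !τ e))]
  have e1 : ∀ σ : Cfg (ZMod N), Ep (q + q - q * q) (fun τ => Th (fun e => !cup σ τ e)) =
      Ep q (fun τ => Ep q (fun υ => Th (fun e => !cup σ (cup τ υ) e))) := by
    intro σ
    rw [Ep_cup q q (fun τ : Cfg (ZMod N) => Th (fun e => !cup σ τ e))]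
  simp only [e1]
  have key : ∀ σ τ : Cfg (ZMod N), (1 - e) / (1 + e) * √N - √N *
      ind (¬ Good e (cup σ τ)) ≤
      Ep q (fun υ => Th (fun e => !cup σ (cup τ υ) e)) := by
    intro σ τ
    by_cases hgood : Good e (cup σ τ)
    · rw [ind_neg (not_not.2 hgood), mul_zero, sub_zero]
      have h2 : ∀ υ : Cfg (ZMod N), (1 - e) / (1 + e) * √N ≤
          Th (fun e => !cup σ (cup τ υ) e) := by
        intro υ
        refine Good_lo he0 ?_
        obtain ⟨V, hV, h3, h4⟩ := hgood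
        refine ⟨V, hV.mono fun x hx => ?_, h3, h4⟩
        unfold cup at hx ⊢
        rw [Bool.or_eq_true] at hx ⊢
        rcases hx with h | h
        · exact Or.inl h
        · right
          rw [h, Bool.true_or]
      have h3 := Ep_mono q hq.le hq1 _ _ h2
      rw [Ep_const] at h3
      exact h3
    · rw [ind_pos hgood, mul_one]
      have h2 : 0 ≤ Ep q (fun υ => Th (fun e => !cup σ (cup τ υ) e)) :=
        Ep_nonneg q hq.le hq1 _ fun υ => Th_nonneg _
      have h3 := mul_le_mul_of_nonneg_right hc1 hs.le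
      linarith
  have key2 : ∀ σ : Cfg (ZMod N), (1 - e) / (1 + e) * √N -
      √N * Pp q (fun τ => ¬ Good e (cup σ τ)) ≤
      Ep q (fun τ => Ep q (fun υ => Th (fun e => !cup σ (cup τ υ) e))) := by
    intro σ
    refine le_trans ?_ (Ep_mono q hq.le hq1 _ _ (key σ))
    rw [Ep_sub, Ep_const, Ep_mul]
    apply le_of_eq
    rfl
  refine le_trans ?_ (Ep_mono p hp.le hp1.le _ _ key2)
  rw [Ep_sub, Ep_const, Ep_mul]
  have h5 := mul_le_mul_of_nonneg_left h1 hs.le
  have h6 := mul_le_mul_of_nonneg_right hc hs.le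
  linarith

end Pool.Agent.H976.C
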