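import Pool.Agent.H976.C.J

/-!
# Circulant theta: covariances
-/

set_option autoImplicit false
set_option linter.unusedSectionVars false

namespace Pool.Agent.H976.C

open Finset Real

/-- inner product -/
noncomputable def ip (p : ℝ) (f g : MF) (N : ℕ) [NeZero N] : ℝ :=
  Ep p (fun σ => av (fun t => f N σ t * g N σ t))

/-- asymptotic covariance -/
def Cv (p : ℝ) (f g : MF) (c : ℝ) : Prop :=
  ∃ K : ℝ, ∀ (N : ℕ) [NeZero N], |ip p f g N - c| ≤ K / √N

section cv

variable {p : ℝ}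

theorem ip_add_left (f f' g : MF) (N : ℕ) [NeZero N] :
    ip p (fun N _ σ t => f N σ t + f' N σ t) g N = ip p f g N + ip p f' g N := by
  unfold ip
  rw [← Ep_add]
  congr 1
  funext σ
  rw [← av_add]
  congr 1
  funext t
  ring

theorem ip_smul_left (c : ℝ) (f g : MF) (N : ℕ) [NeZero N] :
    ip p (fun N _ σ t => c * f N σ t) g N = c * ip p f g N := by
  unfold ip
  rw [← Ep_mul]
  congr 1
  funext σ
  rw [← av_mul]
  congr 1
  funext t
  ring

theorem ip_comm (f g : MF) (N : ℕ) [NeZero N] : ip p f g N = ip p g f N := by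
  unfold ip
  congr 1
  funext σ
  congr 1
  funext t
  ring

theorem Cv.symm {f g : MF} {c : ℝ} (h : Cv p f g c) : Cv p g f c := by
  obtain ⟨K, hK⟩ := h
  exact ⟨K, fun N _ => by rw [ip_comm]; exact hK N⟩

theorem Cv.add_left {f f' g : MF} {c c' : ℝ} (h : Cv p f g c) (h' : Cv p f' g c') :
    Cv p (fun N _ σ t => f N σ t + f' N σ t) g (c + c') := by
  obtain ⟨K, hK⟩ := h
  obtain ⟨K', hK'⟩ := h'
  refine ⟨K + K', fun N _ => ?_⟩
  rw [ip_add_left]
  calc |ip p f g N + ip p f' g N - (c + c')| = |(ip p f g N - c) + (ip p f' g N - c')| := by ring_nf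
    _ ≤ |ip p f g N - c| + |ip p f' g N - c'| := abs_add_le _ _
    _ ≤ K / √N + K' / √N := add_le_add (hK N) (hK' N)
    _ = _ := by ring

theorem Cv.smul_left {f g : MF} {c : ℝ} (h : Cv p f g c) (a : ℝ) :
    Cv p (fun N _ σ t => a * f N σ t) g (a * c) := by
  obtain ⟨K, hK⟩ := h
  refine ⟨|a| * K, fun N _ => ?_⟩
  rw [ip_smul_left, ← mul_sub, abs_mul, mul_div_assoc]
  exact mul_le_mul_of_nonneg_left (hK N) (abs_nonneg a)

theorem Cv.congr {f f' g g' : MF} {c c' : ℝ} (h : Cv p f g c)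
    (hf : ∀ (N : ℕ) [NeZero N] (σ : Cfg (ZMod N)) (t : ZMod N), f' N σ t = f N σ t)
    (hg : ∀ (N : ℕ) [NeZero N] (σ : Cfg (ZMod N)) (t : ZMod N), g' N σ t = g N σ t)
    (hc : c' = c) : Cv p f' g' c' := by
  have e1 : f' = f := by
    funext N _ σ t
    exact hf N σ t
  have e2 : g' = g := by
    funext N _ σ t
    exact hg N σ t
  rw [e1, e2, hc]
  exact h

theorem Cv.zero_left (g : MF) : Cv p (fun _ _ _ _ => 0) g 0 := by
  refine ⟨0, fun N _ => ?_⟩
  unfold ip
  simp [av, Ep]

theorem Cv.sum_left {ι : Type} (s : Finset ι) (f : ι → MF) (g : MF) (c : ι → ℝ)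
    (h : ∀ i ∈ s, Cv p (f i) g (c i)) :
    Cv p (fun N _ σ t => ∑ i ∈ s, f i N σ t) g (∑ i ∈ s, c i) := by
  classical
  induction s using Finset.induction_on with
  | empty => exact (Cv.zero_left g).congr (fun N _ σ t => by simp) (fun N _ σ t => rfl) (by simp)
  | insert i s hi ih =>
    have h1 := (h i (mem_insert_self i s)).add_left (ih fun j hj => h j (mem_insert_of_mem hj))
    exact h1.congr (fun N _ σ t => by rw [Finset.sum_insert hi]) (fun N _ σ t => rfl)
      (by rw [Finset.sum_insert hi])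

theorem Cv.add_right {f g g' : MF} {c c' : ℝ} (h : Cv p f g c) (h' : Cv p f g' c') :
    Cv p f (fun N _ σ t => g N σ t + g' N σ t) (c + c') :=
  (h.symm.add_left h'.symm).symm

theorem Cv.smul_right {f g : MF} {c : ℝ} (h : Cv p f g c) (a : ℝ) :
    Cv p f (fun N _ σ t => a * g N σ t) (a * c) :=
  (h.symm.smul_left a).symm

theorem Cv.sum_right {ι : Type} (s : Finset ι) (f : MF) (g : ι → MF) (c : ι → ℝ)
    (h : ∀ i ∈ s, Cv p f (g i) (c i)) :
    Cv p f (fun N _ σ t => ∑ i ∈ s, g i N σ t) (∑ i ∈ s, c i) :=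
  (Cv.sum_left s g f c fun i hi => (h i hi).symm).symm

theorem sqrt_le_div (C : ℝ) (hC : 0 ≤ C) (N : ℕ) [NeZero N] : √(C / N) = √C / √N :=
  Real.sqrt_div hC N

theorem Neg.cv (hp : 0 < p) (hp1 : p < 1) {f g : MF} (hf : Neg p f) (hg : Bdd p g) :
    Cv p f g 0 := by
  obtain ⟨d, C, hC⟩ := hf
  obtain ⟨d', C', hC'⟩ := hg
  have hC0 : 0 ≤ C := (Finset.sum_nonneg fun t _ => Ep_sq_nonneg hp hp1 _).trans (hC 1).2
  have hC0' : 0 ≤ C' := (Ep_sq_nonneg hp hp1 _).trans ((hC' 1).2 0)
  refine ⟨√(C * C'), fun N _ => ?_⟩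
  rw [sub_zero, ← Real.sqrt_div (mul_nonneg hC0 hC0')]
  refine Real.abs_le_sqrt ?_
  have h1 : (ip p f g N) ^ 2 ≤ Ep p (fun σ => av (fun t => f N σ t ^ 2)) *
      Ep p (fun σ => av (fun t => g N σ t ^ 2)) := by
    have h2 := Ep_cs p hp.le hp1.le (fun σ => √(av (fun t => f N σ t ^ 2)))
      (fun σ => √(av (fun t => g N σ t ^ 2)))
    have e1 : (fun σ => √(av (fun t => f N σ t ^ 2)) ^ 2) = fun σ => av (fun t => f N σ t ^ 2) := by
      funext σ
      exact Real.sq_sqrt (av_nonneg _ fun t => sq_nonneg _)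
    have e2 : (fun σ => √(av (fun t => g N σ t ^ 2)) ^ 2) = fun σ => av (fun t => g N σ t ^ 2) := by
      funext σ
      exact Real.sq_sqrt (av_nonneg _ fun t => sq_nonneg _)
    rw [e1, e2] at h2
    refine le_trans ?_ h2
    rw [sq_le_sq, abs_of_nonneg (Ep_nonneg p hp.le hp1.le (fun σ =>
      √(av (fun t => f N σ t ^ 2)) * √(av (fun t => g N σ t ^ 2))) (fun σ => by positivity))]
    refine (abs_Ep_le p hp.le hp1.le _).trans (Ep_mono p hp.le hp1.le _ _ ?_)
    intro σ
    rw [← Real.sqrt_mul (av_nonneg _ fun t => sq_nonneg _)]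
    exact Real.abs_le_sqrt (av_cs _ _)
  have h2 : Ep p (fun σ => av (fun t => f N σ t ^ 2)) ≤ C / N := by
    unfold av
    rw [Ep_div, Ep_sum]
    exact div_le_div_of_nonneg_right (hC N).2 Npos.le
  have h3 : Ep p (fun σ => av (fun t => g N σ t ^ 2)) ≤ C' := by
    unfold av
    rw [Ep_div, Ep_sum, div_le_iff₀ Npos]
    calc ∑ t, Ep p (fun σ => g N σ t ^ 2) ≤ ∑ _t : ZMod N, C' :=
          Finset.sum_le_sum fun t _ => (hC' N).2 t
      _ = C' * N := by rw [Finset.sum_const, card_univ, ZMod.card, nsmul_eq_mul, mul_comm]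
  calc (ip p f g N) ^ 2 ≤ _ := h1
    _ ≤ (C / N) * C' := by
        refine mul_le_mul h2 h3 ?_ (div_nonneg hC0 Npos.le)
        exact Ep_nonneg p hp.le hp1.le _ fun σ => av_nonneg _ fun t => sq_nonneg _
    _ = C * C' / N := by ring

theorem Cv.of_neg_left (hp : 0 < p) (hp1 : p < 1) {f f' g : MF} {c : ℝ} (h : Cv p f g c)
    (hn : Neg p (fun N _ σ t => f' N σ t - f N σ t)) (hg : Bdd p g) : Cv p f' g c := by
  have h1 := h.add_left (hn.cv hp hp1 hg)
  exact h1.congr (fun N _ σ t => by ring) (fun N _ σ t => rfl) (by ring)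

theorem Cv.of_neg_right (hp : 0 < p) (hp1 : p < 1) {f g g' : MF} {c : ℝ} (h : Cv p f g c)
    (hn : Neg p (fun N _ σ t => g' N σ t - g N σ t)) (hf : Bdd p f) : Cv p f g' c :=
  (h.symm.of_neg_left hp hp1 hn hf).symm

theorem Cv.unique {f g : MF} {c c' : ℝ} (h : Cv p f g c) (h' : Cv p f g c') : c = c' := by
  obtain ⟨K, hK⟩ := h
  obtain ⟨K', hK'⟩ := h'
  have h1 : ∀ (N : ℕ) [NeZero N], |c - c'| ≤ (K + K') / √N := by
    intro N _
    have h2 := hK N
    have h3 := hK' N
    rw [abs_sub_comm] at h2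
    calc |c - c'| = |(c - ip p f g N) + (ip p f g N - c')| := by ring_nf
      _ ≤ |c - ip p f g N| + |ip p f g N - c'| := abs_add_le _ _
      _ ≤ K / √N + K' / √N := add_le_add h2 h3
      _ = _ := by ring
  by_contra hne
  have h4 : 0 < |c - c'| := abs_pos.2 (sub_ne_zero.2 hne)
  obtain ⟨n, hn⟩ := exists_nat_gt (((K + K') / |c - c'|) ^ 2)
  have h5 := h1 (n + 1)
  have h6 : 0 < √((n + 1 : ℕ) : ℝ) := sqrtN_pos (n + 1)
  rw [le_div_iff₀ h6] at h5
  have h7 : (K + K') / |c - c'| < √((n + 1 : ℕ) : ℝ) := by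
    refine Real.lt_sqrt_of_sq_lt (hn.trans ?_)
    push_cast
    linarith
  rw [div_lt_iff₀ h4] at h7
  linarith

/-- the mean of a chaos -/
theorem Cv_F_one (hp : 0 < p) (hp1 : p < 1) (H : Shp) (hV : Nonempty H.V) (g : MF)
    (hg : ∀ (N : ℕ) [NeZero N] (σ : Cfg (ZMod N)) (t : ZMod N), g N σ t = 1) :
    Cv p (Shp.F p H) g 0 := by
  refine ⟨0, fun N _ => ?_⟩
  have h1 : ip p (Shp.F p H) g N = 0 := by
    unfold ip av
    rw [Ep_div, Ep_sum]
    simp only [hg, mul_one]
    have h2 : ∀ t : ZMod N, Ep p (fun σ => Shp.F p H N σ t) = 0 := by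
      intro t
      unfold Shp.F
      rw [Ep_div, Ep_sum, Finset.sum_eq_zero, zero_div]
      intro k hk
      rw [Ep_mul_right]
      have h3 : (fun σ => monD p σ univ (H.vl k)) = fun σ => chi p (cset univ (H.vl k)) σ :=
        funext fun σ => monD_eq p σ univ _ ((H.mem_gs k).1 hk)
      rw [h3, Ep_chi_one p hp hp1, if_neg, zero_mul]
      intro h4
      obtain ⟨v⟩ := hV
      have h5 : cls (H.vl k v) ∈ cset univ (H.vl k) := mem_image_of_mem _ (mem_univ v)
      rw [h4] at h5
      simp at h5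
    simp only [h2, sum_const_zero, zero_div]
  rw [h1]
  simp

/-- the inner product of two chaoses -/
theorem ip_F (hp : 0 < p) (hp1 : p < 1) (H H' : Shp) (N : ℕ) [NeZero N] :
    ip p (Shp.F p H) (Shp.F p H') N = (∑ x ∈ H.gs N ×ˢ H'.gs N,
      if cset univ (H.vl x.1) = cset univ (H'.vl x.2) then
        ((if H.rh x.1 = H'.rh x.2 then (1 : ℝ) else 0) +
          (if H.rh x.1 = -H'.rh x.2 then (1 : ℝ) else 0)) / 2 else 0) /
      √N ^ (Fintype.card H.X + Fintype.card H'.X) := by
  have h1 : ∀ σ : Cfg (ZMod N), av (fun t => Shp.F p H N σ t * Shp.F p H' N σ t) =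
      (∑ x ∈ H.gs N ×ˢ H'.gs N, (chi p (cset univ (H.vl x.1)) σ * chi p (cset univ (H'.vl x.2)) σ) *
        (((if H.rh x.1 = H'.rh x.2 then (1 : ℝ) else 0) +
          (if H.rh x.1 = -H'.rh x.2 then (1 : ℝ) else 0)) / 2)) /
      √N ^ (Fintype.card H.X + Fintype.card H'.X) := by
    intro σ
    have h2 : (fun t => Shp.F p H N σ t * Shp.F p H' N σ t) = fun t => ∑ x ∈ H.gs N ×ˢ H'.gs N,
        ((chi p (cset univ (H.vl x.1)) σ * chi p (cset univ (H'.vl x.2)) σ) /
          √N ^ (Fintype.card H.X + Fintype.card H'.X)) *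
          (cs (H.rh x.1 * t) * cs (H'.rh x.2 * t)) := by
      funext t
      unfold Shp.F
      rw [div_mul_div_comm, Finset.sum_mul_sum, ← Finset.sum_product', ← pow_add, Finset.sum_div]
      refine Finset.sum_congr rfl fun x hx => ?_
      rw [mem_product] at hx
      rw [monD_eq p σ univ _ ((H.mem_gs _).1 hx.1), monD_eq p σ univ _ ((H'.mem_gs _).1 hx.2)]
      ring
    rw [h2, av_sum, Finset.sum_div]
    refine Finset.sum_congr rfl fun x _ => ?_
    rw [av_mul]
    unfold av
    rw [cs_orth]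
    have hN := Nne (N := N)
    field_simp
  unfold ip
  simp only [h1]
  rw [Ep_div, Ep_sum]
  congr 1
  refine Finset.sum_congr rfl fun x _ => ?_
  rw [Ep_mul_right, Ep_chi p hp hp1]
  split_ifs <;> ring

/-- number of pairs with the same classes -/
theorem cnt2 (H H' : Shp) (N : ℕ) [NeZero N] (I : Finset (H.X → ZMod N))
    (I' : Finset (H'.X → ZMod N)) :
    #((I ×ˢ I').filter fun x => cset univ (H.vl x.1) = cset univ (H'.vl x.2)) ≤
      (Fintype.card H.V * 2) ^ Fintype.card H'.V * #I := by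
  classical
  set Q : (H'.V → H.V × Bool) → Finset ((H.X → ZMod N) × (H'.X → ZMod N)) := fun q =>
    (I ×ˢ I').filter fun x => ∀ u, H'.vl x.2 u = sg (q u).2 (H.vl x.1 (q u).1) with hQ
  have h1 : ((I ×ˢ I').filter fun x => cset univ (H.vl x.1) = cset univ (H'.vl x.2)) ⊆
      (univ : Finset (H'.V → H.V × Bool)).biUnion Q := by
    intro x hx
    rw [mem_filter] at hx
    have h2 : ∀ u, ∃ q : H.V × Bool, H'.vl x.2 u = sg q.2 (H.vl x.1 q.1) := by
      intro u
      have h3 : cls (H'.vl x.2 u) ∈ cset univ (H.vl x.1) := by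
        rw [hx.2]
        exact Finset.mem_image_of_mem _ (mem_univ u)
      obtain ⟨u', -, hu'⟩ := Finset.mem_image.1 h3
      obtain ⟨s, hs⟩ := sg_of_cls _ _ hu'
      exact ⟨(u', s), hs⟩
    choose q hq using h2
    rw [mem_biUnion]
    exact ⟨q, mem_univ _, by rw [hQ, mem_filter]; exact ⟨hx.1, hq⟩⟩
  have h2 : ∀ q ∈ (univ : Finset (H'.V → H.V × Bool)), #(Q q) ≤ #I := by
    intro q _
    refine Finset.card_le_card_of_injOn (fun x => x.1) ?_ ?_
    · intro x hx
      simp only [hQ, mem_coe, mem_filter, mem_product] at hx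
      exact hx.1.1
    · intro x hx y hy h
      simp only [hQ, mem_coe, mem_filter] at hx hy
      have h' : x.1 = y.1 := h
      refine Prod.ext h' ?_
      funext a
      rw [← H'.vl_leaf x.2 a, ← H'.vl_leaf y.2 a, hx.2, hy.2, h']
  refine (Finset.card_le_card h1).trans ((Finset.card_biUnion_le_card_mul _ _ _ h2).trans ?_)
  rw [card_univ, Fintype.card_fun, Fintype.card_prod, Fintype.card_bool]

/-- The covariance of two trees. -/
theorem Cv_kap (hp : 0 < p) (hp1 : p < 1) (τ τ' : Tree) :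
    Cv p (Shp.F p τ.toShp) (Shp.F p τ'.toShp) (kap τ τ') := by
  set T : Unit → Tree := fun _ => τ' with hT
  have h1 := PR p hp hp1 τ T
  have h2 : Cv p (fun N _ σ t => Shp.F p τ.toShp N σ t * Shp.F p τ'.toShp N σ t)
      (fun _ _ _ _ => 1) (kap τ τ') := by
    have a1 := h1.cv hp hp1 (Bdd.const (p := p) 1)
    have a2 : Cv p (Shp.F p (Sig (opt τ T))) (fun _ _ _ _ => 1) 0 :=
      Cv_F_one hp hp1 _ ⟨(⟨none, τ.root⟩ : Σ o, (opt τ T o).V)⟩ _ fun _ _ _ _ => rfl
    have a3 : Cv p (fun N _ σ t => ∑ j, kap τ (T j) * Shp.F p (Sig (rst T j)) N σ t)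
        (fun _ _ _ _ => 1) (kap τ τ') := by
      refine ⟨0, fun N _ => ?_⟩
      have e1 : ∀ (N : ℕ) [NeZero N] (σ : Cfg (ZMod N)) (t : ZMod N) (j : Unit),
          Shp.F p (Sig (rst T j)) N σ t = 1 := by
        intro N _ σ t j
        haveI : IsEmpty {i // i ≠ j} := ⟨fun i => i.2 (Subsingleton.elim _ _)⟩
        exact F_empty p _ N σ t
      unfold ip
      have e2 : (fun σ : Cfg (ZMod N) => av (fun t : ZMod N =>
          (∑ j, kap τ (T j) * Shp.F p (Sig (rst T j)) N σ t) * 1)) = fun _ => kap τ τ' := by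
        funext σ
        simp only [e1, mul_one]
        rw [av_const]
        simp [hT]
      rw [e2, Ep_const]
      simp
    have a4 := (a1.add_left a2).add_left a3
    exact a4.congr (fun N _ σ t => by rw [F_one p T]; ring) (fun N _ σ t => rfl) (by ring)
  obtain ⟨K, hK⟩ := h2
  refine ⟨K, fun N _ => ?_⟩
  have := hK N
  unfold ip at this ⊢
  simp only [mul_one] at this
  exact this

section jn

variable {ι ι' : Type} [Fintype ι] [DecidableEq ι] [Nontrivial ι] [Fintype ι'] [DecidableEq ι']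
  [Nontrivial ι'] (T : ι → Tree) (T' : ι' → Tree)

theorem card_notjoin (N : ℕ) [NeZero N] :
    #((Sig T).gs N |>.filter fun k => k ∉ (join T).gs N) * N ≤
      (2 + 2 * Fintype.card (Sig T).V) * N ^ Fintype.card (Sig T).X := by
  classical
  have h1 : ((Sig T).gs N |>.filter fun k => k ∉ (join T).gs N) ⊆
      (univ.filter fun k : (Sig T).X → ZMod N => (Sig T).rh k + (Sig T).rh k = 0) ∪
      (univ : Finset ((Sig T).V × Bool)).biUnion fun q =>
        ((Sig T).gs N).filter fun k => (Sig T).rh k = sg q.2 ((Sig T).vl k q.1) := by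
    intro k hk
    rw [mem_filter] at hk
    rw [mem_union]
    by_cases h0 : (Sig T).rh k + (Sig T).rh k = 0
    · exact Or.inl (mem_filter.2 ⟨mem_univ _, h0⟩)
    · right
      have h2 : ∃ v s, (Sig T).rh k = sg s ((Sig T).vl k v) := by
        by_contra hcon
        push Not at hcon
        exact hk.2 ((join_gs T k).2 ⟨hk.1, h0, hcon⟩)
      obtain ⟨v, s, hvs⟩ := h2
      rw [mem_biUnion]
      exact ⟨(v, s), mem_univ _, mem_filter.2 ⟨hk.1, hvs⟩⟩
  have h2 : #(univ.filter fun k : (Sig T).X → ZMod N => (Sig T).rh k + (Sig T).rh k = 0) * N ≤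
      2 * N ^ Fintype.card (Sig T).X := by
    obtain ⟨i, -⟩ := exists_pair_ne ι
    obtain ⟨y, -⟩ := Sig_X_nonempty T i
    have h3 := card_lf (N := N) (fun _ : (Sig T).X => (2 : ℤ)) y (by norm_num) 0
    refine le_trans (Nat.mul_le_mul_right _ (Finset.card_le_card ?_)) h3
    intro k hk
    rw [mem_filter] at hk ⊢
    refine ⟨mem_univ _, ?_⟩
    rw [← hk.2]
    unfold lf Shp.rh
    rw [← Finset.sum_add_distrib]
    exact Finset.sum_congr rfl fun x _ => by push_cast; ring
  have h3 : #((univ : Finset ((Sig T).V × Bool)).biUnion fun q =>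
        ((Sig T).gs N).filter fun k => (Sig T).rh k = sg q.2 ((Sig T).vl k q.1)) * N ≤
      2 * Fintype.card (Sig T).V * N ^ Fintype.card (Sig T).X := by
    calc _ ≤ (∑ q : (Sig T).V × Bool,
          #(((Sig T).gs N).filter fun k => (Sig T).rh k = sg q.2 ((Sig T).vl k q.1))) * N :=
          Nat.mul_le_mul_right _ Finset.card_biUnion_le
      _ = ∑ q : (Sig T).V × Bool,
          #(((Sig T).gs N).filter fun k => (Sig T).rh k = sg q.2 ((Sig T).vl k q.1)) * N :=
          Finset.sum_mul _ _ _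
      _ ≤ ∑ _q : (Sig T).V × Bool, 1 * N ^ Fintype.card (Sig T).X :=
          Finset.sum_le_sum fun q _ => card_bad T q.1 q.2
      _ = _ := by
          rw [Finset.sum_const, card_univ, Fintype.card_prod, Fintype.card_bool, smul_eq_mul]
          ring
  calc _ ≤ (#(univ.filter fun k : (Sig T).X → ZMod N => (Sig T).rh k + (Sig T).rh k = 0) +
        #((univ : Finset ((Sig T).V × Bool)).biUnion fun q =>
        ((Sig T).gs N).filter fun k => (Sig T).rh k = sg q.2 ((Sig T).vl k q.1))) * N :=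
        Nat.mul_le_mul_right _ ((Finset.card_le_card h1).trans (Finset.card_union_le _ _))
    _ ≤ 2 * N ^ Fintype.card (Sig T).X +
        2 * Fintype.card (Sig T).V * N ^ Fintype.card (Sig T).X := by
        rw [add_mul]
        exact Nat.add_le_add h2 h3
    _ = _ := by ring

theorem cset_join (N : ℕ) [NeZero N] (k : (Sig T).X → ZMod N) :
    cset univ ((join T).vl k) = insert (cls ((Sig T).rh k)) (cset univ ((Sig T).vl k)) := by
  ext c
  rw [mem_insert]
  unfold cset
  rw [mem_image, mem_image]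
  constructor
  · rintro ⟨_ | v, -, h⟩
    · exact Or.inl h.symm
    · exact Or.inr ⟨v, mem_univ _, h⟩
  · rintro (h | ⟨v, -, h⟩)
    · exact ⟨none, mem_univ _, h.symm⟩
    · exact ⟨some v, mem_univ _, h⟩

theorem notMem_cset {N : ℕ} [NeZero N] {k : (Sig T).X → ZMod N} (hk : k ∈ (join T).gs N) :
    cls ((Sig T).rh k) ∉ cset univ ((Sig T).vl k) := by
  intro h
  obtain ⟨v, -, hv⟩ := mem_image.1 h
  obtain ⟨s, hs⟩ := sg_of_cls _ _ hv
  exact ((join_gs T k).1 hk).2.2 v s hs

theorem join_transfer {N : ℕ} [NeZero N] {k : (Sig T).X → ZMod N} {k' : (Sig T').X → ZMod N}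
    (hk' : k' ∈ (Sig T').gs N)
    (h1 : cset univ ((Sig T).vl k) = cset univ ((Sig T').vl k'))
    (h2 : cls ((Sig T).rh k) = cls ((Sig T').rh k')) (hk : k ∈ (join T).gs N) :
    k' ∈ (join T').gs N := by
  rw [join_gs]
  refine ⟨hk', fun h => ?_, fun v s h => ?_⟩
  · have h3 := ((join_gs T k).1 hk).2.1
    rcases (cls_eq_iff _ _).1 h2 with h4 | h4
    · rw [h4] at h3
      exact h3 h
    · rw [h4, ← neg_add, neg_ne_zero] at h3
      exact h3 h
  · refine notMem_cset T hk ?_
    rw [h1, h2, h, cls_sg]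
    exact mem_image_of_mem _ (mem_univ v)

theorem summand_join {N : ℕ} [NeZero N] {k : (Sig T).X → ZMod N} {k' : (Sig T').X → ZMod N}
    (hk : k ∈ (join T).gs N) (hk' : k' ∈ (join T').gs N) :
    (if cset univ ((join T).vl k) = cset univ ((join T').vl k') then
        ((if (join T).rh k = (join T').rh k' then (1 : ℝ) else 0) +
          (if (join T).rh k = -(join T').rh k' then (1 : ℝ) else 0)) / 2 else 0) =
    (if cset univ ((Sig T).vl k) = cset univ ((Sig T').vl k') then
        ((if (Sig T).rh k = (Sig T').rh k' then (1 : ℝ) else 0) +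
          (if (Sig T).rh k = -(Sig T').rh k' then (1 : ℝ) else 0)) / 2 else 0) := by
  classical
  rw [cset_join T N k, cset_join T' N k', join_rh T k, join_rh T' k']
  by_cases hr : (Sig T).rh k = (Sig T').rh k' ∨ (Sig T).rh k = -(Sig T').rh k'
  · have hr' : cls ((Sig T).rh k) = cls ((Sig T').rh k') := (cls_eq_iff _ _).2 hr
    have n1 := notMem_cset T hk
    have n2 := notMem_cset T' hk'
    have h3 : (insert (cls ((Sig T).rh k)) (cset univ ((Sig T).vl k)) =
        insert (cls ((Sig T').rh k')) (cset univ ((Sig T').vl k'))) ↔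
        cset univ ((Sig T).vl k) = cset univ ((Sig T').vl k') := by
      constructor
      · intro h4
        rw [← Finset.erase_insert n1, h4, hr', Finset.erase_insert n2]
      · intro h4
        rw [hr', h4]
    exact if_congr h3 rfl rfl
  · push Not at hr
    rw [if_neg hr.1, if_neg hr.2]
    simp

/-- Joining does not change covariances. -/
theorem join_diff (hp : 0 < p) (hp1 : p < 1) : ∃ K : ℝ, ∀ (N : ℕ) [NeZero N],
    |ip p (Shp.F p (Sig T)) (Shp.F p (Sig T')) N -
      ip p (Shp.F p (join T).toShp) (Shp.F p (join T').toShp) N| ≤ K / √N := by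
  classical
  set H := Sig T with hH
  set H' := Sig T' with hH'
  set C1 : ℕ := (Fintype.card H.V * 2) ^ Fintype.card H'.V * (2 + 2 * Fintype.card H.V) with hC1
  set C2 : ℕ := (Fintype.card H'.V * 2) ^ Fintype.card H.V * (2 + 2 * Fintype.card H'.V) with hC2
  refine ⟨C1 + C2, fun N _ => ?_⟩
  set g : (H.X → ZMod N) × (H'.X → ZMod N) → ℝ := fun x =>
    if cset univ (H.vl x.1) = cset univ (H'.vl x.2) then
        ((if H.rh x.1 = H'.rh x.2 then (1 : ℝ) else 0) +
          (if H.rh x.1 = -H'.rh x.2 then (1 : ℝ) else 0)) / 2 else 0 with hg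
  obtain ⟨J, hJ⟩ : ∃ J : Finset (H.X → ZMod N), J = (join T).gs N := ⟨_, rfl⟩
  obtain ⟨J', hJ'⟩ : ∃ J : Finset (H'.X → ZMod N), J = (join T').gs N := ⟨_, rfl⟩
  have hJm : ∀ k : H.X → ZMod N, k ∈ J ↔ k ∈ (join T).gs N := by
    intro k
    rw [hJ]
    exact Iff.rfl
  have hJm' : ∀ k : H'.X → ZMod N, k ∈ J' ↔ k ∈ (join T').gs N := by
    intro k
    rw [hJ']
    exact Iff.rfl
  have hsub : J ⊆ H.gs N := fun k hk => ((join_gs T k).1 ((hJm k).1 hk)).1
  have hsub' : J' ⊆ H'.gs N := fun k hk => ((join_gs T' k).1 ((hJm' k).1 hk)).1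
  have e1 : ip p (Shp.F p H) (Shp.F p H') N = (∑ x ∈ H.gs N ×ˢ H'.gs N, g x) /
      √N ^ (Fintype.card H.X + Fintype.card H'.X) := ip_F hp hp1 H H' N
  have hcl : ∀ x : (H.X → ZMod N) × (H'.X → ZMod N),
      (H.rh x.1 = H'.rh x.2 ∨ H.rh x.1 = -H'.rh x.2) ↔ cls (H.rh x.1) = cls (H'.rh x.2) :=
    fun x => (cls_eq_iff _ _).symm
  have e2 : ip p (Shp.F p (join T).toShp) (Shp.F p (join T').toShp) N = (∑ x ∈ J ×ˢ J', g x) /
      √N ^ (Fintype.card H.X + Fintype.card H'.X) := by
    rw [ip_F hp hp1 (join T).toShp (join T').toShp N, hJ, hJ']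
    congr 1
    refine Finset.sum_congr rfl fun x hx => ?_
    have hx := Finset.mem_product.1 hx
    exact summand_join T T' hx.1 hx.2
  -- the difference
  set A : ℕ := #(((H.gs N).filter (fun k => k ∉ J) ×ˢ (H'.gs N).filter (fun k => k ∉ J')).filter
    fun x => cset univ (H.vl x.1) = cset univ (H'.vl x.2)) with hA
  have hdiff : |∑ x ∈ H.gs N ×ˢ H'.gs N, g x - ∑ x ∈ J ×ˢ J', g x| ≤ A := by
    have h1 : ∑ x ∈ H.gs N ×ˢ H'.gs N, g x - ∑ x ∈ J ×ˢ J', g x =
        ∑ x ∈ (H.gs N ×ˢ H'.gs N) \ (J ×ˢ J'), g x := by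
      rw [← Finset.sum_sdiff (Finset.product_subset_product hsub hsub')]
      ring
    have h2 : ∀ x ∈ (H.gs N ×ˢ H'.gs N) \ (J ×ˢ J'), |g x| ≤
        if x ∈ (((H.gs N).filter (fun k => k ∉ J) ×ˢ (H'.gs N).filter (fun k => k ∉ J')).filter
          fun x => cset univ (H.vl x.1) = cset univ (H'.vl x.2)) then (1 : ℝ) else 0 := by
      intro x hx
      rw [mem_sdiff, mem_product, mem_product] at hx
      by_cases hc : cset univ (H.vl x.1) = cset univ (H'.vl x.2)
      · by_cases hr : H.rh x.1 = H'.rh x.2 ∨ H.rh x.1 = -H'.rh x.2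
        · have hr' := (hcl x).1 hr
          have h3 : x.1 ∉ J := by
            intro h3
            refine hx.2 ⟨h3, (hJm' _).2 ?_⟩
            exact join_transfer T T' hx.1.2 hc hr' ((hJm _).1 h3)
          have h4 : x.2 ∉ J' := by
            intro h4
            refine h3 ((hJm _).2 ?_)
            exact join_transfer T' T hx.1.1 hc.symm hr'.symm ((hJm' _).1 h4)
          rw [if_pos]
          · simp only [hg]
            rw [if_pos hc]
            split_ifs <;> norm_num
          · rw [mem_filter, mem_product, mem_filter, mem_filter]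
            exact ⟨⟨⟨hx.1.1, h3⟩, ⟨hx.1.2, h4⟩⟩, hc⟩
        · push Not at hr
          simp only [hg]
          rw [if_neg hr.1, if_neg hr.2]
          split_ifs <;> norm_num
      · simp only [hg]
        rw [if_neg hc, abs_zero]
        split_ifs <;> norm_num
    rw [h1]
    refine (Finset.abs_sum_le_sum_abs _ _).trans ((Finset.sum_le_sum h2).trans ?_)
    rw [← Finset.sum_filter, Finset.sum_const, nsmul_eq_mul, mul_one]
    have h3 : #(((H.gs N ×ˢ H'.gs N) \ (J ×ˢ J')).filter fun x =>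
        x ∈ (((H.gs N).filter (fun k => k ∉ J) ×ˢ (H'.gs N).filter (fun k => k ∉ J')).filter
          fun x => cset univ (H.vl x.1) = cset univ (H'.vl x.2))) ≤ A := by
      refine Finset.card_le_card ?_
      intro x hx
      exact (mem_filter.1 hx).2
    exact_mod_cast h3
  have hA1 : A * N ≤ C1 * N ^ Fintype.card H.X := by
    have h1 := cnt2 H H' N ((H.gs N).filter (fun k => k ∉ J)) ((H'.gs N).filter (fun k => k ∉ J'))
    have h2 := card_notjoin T N
    rw [← hA] at h1
    obtain ⟨B, hB⟩ : ∃ B : ℕ, B = #((H.gs N).filter fun k => k ∉ J) := ⟨_, rfl⟩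
    have h2' : B * N ≤ (2 + 2 * Fintype.card H.V) * N ^ Fintype.card H.X := by
      rw [hB]
      refine le_trans (Nat.mul_le_mul_right _ (Finset.card_le_card ?_)) h2
      intro k hk
      have hk := Finset.mem_filter.1 hk
      exact Finset.mem_filter.2 ⟨hk.1, fun h => hk.2 ((hJm k).2 h)⟩
    rw [← hB] at h1
    clear h2
    have h2 := h2'
    calc A * N ≤ (Fintype.card H.V * 2) ^ Fintype.card H'.V * B * N := Nat.mul_le_mul_right _ h1
      _ = (Fintype.card H.V * 2) ^ Fintype.card H'.V * (B * N) := by ring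
      _ ≤ _ := Nat.mul_le_mul_left _ h2
      _ = _ := by rw [hC1]; ring
  have hA2 : A * N ≤ C2 * N ^ Fintype.card H'.X := by
    have h1 := cnt2 H' H N ((H'.gs N).filter (fun k => k ∉ J')) ((H.gs N).filter (fun k => k ∉ J))
    have h2 := card_notjoin T' N
    have h4 : A ≤ #(((H'.gs N).filter (fun k => k ∉ J') ×ˢ
        (H.gs N).filter (fun k => k ∉ J)).filter
        fun x => cset univ (H'.vl x.1) = cset univ (H.vl x.2)) := by
      refine Finset.card_le_card_of_injOn Prod.swap ?_ (fun _ _ _ _ h => Prod.swap_injective h)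
      intro x hx
      simp only [mem_coe, mem_filter, mem_product] at hx ⊢
      exact ⟨⟨hx.1.2, hx.1.1⟩, hx.2.symm⟩
    obtain ⟨B, hB⟩ : ∃ B : ℕ, B = #((H'.gs N).filter fun k => k ∉ J') := ⟨_, rfl⟩
    have h2' : B * N ≤ (2 + 2 * Fintype.card H'.V) * N ^ Fintype.card H'.X := by
      rw [hB]
      refine le_trans (Nat.mul_le_mul_right _ (Finset.card_le_card ?_)) h2
      intro k hk
      have hk := Finset.mem_filter.1 hk
      exact Finset.mem_filter.2 ⟨hk.1, fun h => hk.2 ((hJm' k).2 h)⟩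
    rw [← hB] at h1
    clear h2
    have h2 := h2'
    calc A * N ≤ (Fintype.card H'.V * 2) ^ Fintype.card H.V * B * N :=
          Nat.mul_le_mul_right _ (h4.trans h1)
      _ = (Fintype.card H'.V * 2) ^ Fintype.card H.V * (B * N) := by ring
      _ ≤ _ := Nat.mul_le_mul_left _ h2
      _ = _ := by rw [hC2]; ring
  have hs := sqrtN_pos N
  have hs1 : (1 : ℝ) ≤ √N := by
    rw [Real.one_le_sqrt]
    exact_mod_cast NeZero.one_le (n := N)
  have hN1 : (1 : ℝ) ≤ N := by exact_mod_cast NeZero.one_le (n := N)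
  have hfin : (A : ℝ) / √N ^ (Fintype.card H.X + Fintype.card H'.X) ≤ (C1 + C2) / √N := by
    have hB : (A : ℝ) * N ≤ (C1 + C2) * √N ^ (Fintype.card H.X + Fintype.card H'.X) := by
      rcases le_total (Fintype.card H.X) (Fintype.card H'.X) with h1 | h1
      · have h2 : (A : ℝ) * N ≤ C1 * (N : ℝ) ^ Fintype.card H.X := by exact_mod_cast hA1
        have h3 : (N : ℝ) ^ Fintype.card H.X ≤ √N ^ (Fintype.card H.X + Fintype.card H'.X) := by
          calc (N : ℝ) ^ Fintype.card H.X = √N ^ (Fintype.card H.X + Fintype.card H.X) := by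
                rw [← two_mul, pow_mul, Real.sq_sqrt (Nat.cast_nonneg N)]
            _ ≤ _ := pow_le_pow_right₀ hs1 (by omega)
        calc (A : ℝ) * N ≤ C1 * (N : ℝ) ^ Fintype.card H.X := h2
          _ ≤ C1 * √N ^ (Fintype.card H.X + Fintype.card H'.X) :=
              mul_le_mul_of_nonneg_left h3 (Nat.cast_nonneg _)
          _ ≤ _ := mul_le_mul_of_nonneg_right (by linarith [Nat.cast_nonneg (α := ℝ) C2])
              (by positivity)
      · have h2 : (A : ℝ) * N ≤ C2 * (N : ℝ) ^ Fintype.card H'.X := by exact_mod_cast hA2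
        have h3 : (N : ℝ) ^ Fintype.card H'.X ≤ √N ^ (Fintype.card H.X + Fintype.card H'.X) := by
          calc (N : ℝ) ^ Fintype.card H'.X = √N ^ (Fintype.card H'.X + Fintype.card H'.X) := by
                rw [← two_mul, pow_mul, Real.sq_sqrt (Nat.cast_nonneg N)]
            _ ≤ _ := pow_le_pow_right₀ hs1 (by omega)
        calc (A : ℝ) * N ≤ C2 * (N : ℝ) ^ Fintype.card H'.X := h2
          _ ≤ C2 * √N ^ (Fintype.card H.X + Fintype.card H'.X) :=
              mul_le_mul_of_nonneg_left h3 (Nat.cast_nonneg _)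
          _ ≤ _ := mul_le_mul_of_nonneg_right (by linarith [Nat.cast_nonneg (α := ℝ) C1])
              (by positivity)
    have hpow : 0 < √(N : ℝ) ^ (Fintype.card H.X + Fintype.card H'.X) := pow_pos hs _
    calc (A : ℝ) / √N ^ (Fintype.card H.X + Fintype.card H'.X) ≤ (C1 + C2) / N := by
          rw [div_le_div_iff₀ hpow Npos]
          exact hB
      _ ≤ (C1 + C2) / √N := by
          refine div_le_div_of_nonneg_left (by positivity) hs ?_
          have h4 : √(N : ℝ) * 1 ≤ √N * √N := mul_le_mul_of_nonneg_left hs1 hs.le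
          rw [mul_one, Real.mul_self_sqrt (Nat.cast_nonneg N)] at h4
          exact h4
  have hpow : 0 < √(N : ℝ) ^ (Fintype.card H.X + Fintype.card H'.X) := pow_pos hs _
  rw [e1, e2, ← sub_div, abs_div, abs_of_pos hpow]
  exact (div_le_div_of_nonneg_right hdiff hpow.le).trans hfin

theorem Cv_Sig (hp : 0 < p) (hp1 : p < 1) :
    Cv p (Shp.F p (Sig T)) (Shp.F p (Sig T')) (kap (join T) (join T')) := by
  obtain ⟨K, hK⟩ := join_diff T T' hp hp1
  obtain ⟨K', hK'⟩ := Cv_kap hp hp1 (join T) (join T')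
  refine ⟨K + K', fun N _ => ?_⟩
  calc |ip p (Shp.F p (Sig T)) (Shp.F p (Sig T')) N - kap (join T) (join T')|
      = |(ip p (Shp.F p (Sig T)) (Shp.F p (Sig T')) N -
          ip p (Shp.F p (join T).toShp) (Shp.F p (join T').toShp) N) +
          (ip p (Shp.F p (join T).toShp) (Shp.F p (join T').toShp) N -
            kap (join T) (join T'))| := by ring_nf
    _ ≤ _ := abs_add_le _ _
    _ ≤ K / √N + K' / √N := add_le_add (hK N) (hK' N)
    _ = _ := by ring

end jn

end cv

end Pool.Agent.H976.C
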