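import Pool.Agent.H976.C.V

/-!
# Circulant theta: Wick calculus
-/

set_option autoImplicit false
set_option linter.unusedSectionVars false

namespace Pool.Agent.H976.C

open Finset Real

/-- Hermite polynomials -/
noncomputable def He : ℕ → ℝ → ℝ
  | 0, _ => 1
  | 1, x => x
  | (d + 2), x => x * He (d + 1) x - (d + 1) * He d x

theorem He_zero (x : ℝ) : He 0 x = 1 := by
  rw [He]

theorem He_one (x : ℝ) : He 1 x = x := by
  rw [He]

theorem He_two (d : ℕ) (x : ℝ) : He (d + 2) x = x * He (d + 1) x - (d + 1) * He d x := by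
  rw [He]

theorem He_succ (d : ℕ) (x : ℝ) : He (d + 1) x = x * He d x - d * He (d - 1) x := by
  rcases d with _ | d
  · rw [He_one, He_zero]
    simp
  · rw [He_two]
    push_cast
    rfl

/-- linear combinations of trees -/
noncomputable def Gf (p : ℝ) {J : Type} [Fintype J] (tr : J → Tree) (α : J → ℝ) : MF :=
  fun N _ σ t => ∑ j, α j * Shp.F p (tr j).toShp N σ t

/-- Wick products of linear combinations of trees -/
noncomputable def Wk (p : ℝ) {J : Type} [Fintype J] (tr : J → Tree) {ι : Type} [Fintype ι]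
    [DecidableEq ι] (γ : ι → J → ℝ) : MF :=
  fun N _ σ t => ∑ j : ι → J, (∏ i, γ i (j i)) * Shp.F p (Sig fun i => tr (j i)) N σ t

/-- covariances of linear combinations of trees -/
noncomputable def CC {J : Type} [Fintype J] (tr : J → Tree) (α β : J → ℝ) : ℝ :=
  ∑ j, ∑ j', α j * β j' * kap (tr j) (tr j')

section wick

variable {p : ℝ} {J : Type} [Fintype J] {tr : J → Tree}

theorem Gf_bdd (hp : 0 < p) (hp1 : p < 1) (α : J → ℝ) : Bdd p (Gf p tr α) :=
  Bdd.sum hp hp1 univ (fun j => fun N _ σ t => α j * Shp.F p (tr j).toShp N σ t)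
    fun j _ => (F_bdd p hp hp1 (tr j).toShp).smul (α j)

theorem Wk_bdd (hp : 0 < p) (hp1 : p < 1) {ι : Type} [Fintype ι] [DecidableEq ι]
    (γ : ι → J → ℝ) : Bdd p (Wk p tr γ) :=
  Bdd.sum hp hp1 univ (fun j : ι → J => fun N _ σ t =>
    (∏ i, γ i (j i)) * Shp.F p (Sig fun i => tr (j i)) N σ t)
    fun j _ => (F_bdd p hp hp1 _).smul _

/-- The Wick rule. -/
theorem wick (hp : 0 < p) (hp1 : p < 1) {ι : Type} [Fintype ι] [DecidableEq ι] (α : J → ℝ)
    (γ : ι → J → ℝ) :
    Neg p (fun N _ σ t => Gf p tr α N σ t * Wk p tr γ N σ t -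
      Wk p tr (fun o : Option ι => o.elim α γ) N σ t -
      ∑ i, CC tr α (γ i) * Wk p tr (fun i' : {i' // i' ≠ i} => γ i'.1) N σ t) := by
  have h1 : Neg p (fun N _ σ t => ∑ x : J × (ι → J), (α x.1 * ∏ i, γ i (x.2 i)) *
      (Shp.F p (tr x.1).toShp N σ t * Shp.F p (Sig fun i => tr (x.2 i)) N σ t -
      Shp.F p (Sig (opt (tr x.1) fun i => tr (x.2 i))) N σ t -
      ∑ j, kap (tr x.1) (tr (x.2 j)) *
        Shp.F p (Sig (rst (fun i => tr (x.2 i)) j)) N σ t)) :=
    Neg.sum hp hp1 univ _ fun x _ => (PR p hp hp1 (tr x.1) fun i => tr (x.2 i)).smul _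
  refine h1.congr fun N _ σ t => ?_
  have e1 : Gf p tr α N σ t * Wk p tr γ N σ t = ∑ x : J × (ι → J),
      (α x.1 * ∏ i, γ i (x.2 i)) *
      (Shp.F p (tr x.1).toShp N σ t * Shp.F p (Sig fun i => tr (x.2 i)) N σ t) := by
    unfold Gf Wk
    rw [Fintype.sum_mul_sum, Fintype.sum_prod_type]
    exact Finset.sum_congr rfl fun x _ => Finset.sum_congr rfl fun y _ => by ring
  have e2 : Wk p tr (fun o : Option ι => o.elim α γ) N σ t = ∑ x : J × (ι → J),
      (α x.1 * ∏ i, γ i (x.2 i)) * Shp.F p (Sig (opt (tr x.1) fun i => tr (x.2 i))) N σ t := by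
    unfold Wk
    refine Fintype.sum_equiv (Equiv.piOptionEquivProd (β := fun _ => J)) _ _ fun j => ?_
    rw [Fintype.prod_option]
    have e3 : (fun o => tr (j o)) = opt (tr (j none)) fun i => tr (j (some i)) := by
      funext o
      cases o <;> rfl
    rw [e3]
    rfl
  have e3 : ∀ i, CC tr α (γ i) * Wk p tr (fun i' : {i' // i' ≠ i} => γ i'.1) N σ t =
      ∑ x : J × (ι → J), (α x.1 * ∏ i, γ i (x.2 i)) * (kap (tr x.1) (tr (x.2 i)) *
        Shp.F p (Sig (rst (fun i => tr (x.2 i)) i)) N σ t) := by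
    intro i
    unfold CC Wk
    rw [Fintype.sum_prod_type, Finset.sum_mul]
    refine Finset.sum_congr rfl fun a _ => ?_
    rw [Fintype.sum_mul_sum, ← Fintype.sum_prod_type']
    symm
    refine Fintype.sum_equiv (Equiv.funSplitAt i J) _ _ fun j => ?_
    rw [Fintype.prod_eq_mul_prod_subtype_ne _ i]
    have e4 : (Sig (rst (fun i => tr (j i)) i)) =
      Sig (fun i' : {i' // i' ≠ i} => tr (((Equiv.funSplitAt i J) j).2 i')) := rfl
    rw [e4]
    have e5 : ((Equiv.funSplitAt i J) j).1 = j i := rfl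
    rw [e5]
    have e6 : ∏ i', γ (i' : {i' // i' ≠ i}).1 (((Equiv.funSplitAt i J) j).2 i') =
      ∏ i' : {i' // i' ≠ i}, γ i'.1 (j i'.1) := rfl
    rw [e6]
    ring
  rw [e1, e2]
  simp only [e3]
  rw [Finset.sum_comm, ← Finset.sum_sub_distrib, ← Finset.sum_sub_distrib]
  refine Finset.sum_congr rfl fun x _ => ?_
  rw [← Finset.mul_sum]
  ring

theorem Wk_reindex {ι ι' : Type} [Fintype ι] [DecidableEq ι] [Fintype ι'] [DecidableEq ι']
    (e : ι ≃ ι') (γ : ι' → J → ℝ) (N : ℕ) [NeZero N] (σ : Cfg (ZMod N)) (t : ZMod N) :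
    Wk p tr (fun i => γ (e i)) N σ t = Wk p tr γ N σ t := by
  unfold Wk
  symm
  refine Fintype.sum_bijective (fun j : ι' → J => fun i => j (e i))
    (e.arrowCongr (Equiv.refl J)).symm.bijective _ _ fun j => ?_
  rw [F_reindex p e (fun i => tr (j i)), Equiv.prod_comp e (fun i' => γ i' (j i'))]

theorem Wk_empty {ι : Type} [Fintype ι] [DecidableEq ι] [IsEmpty ι] (γ : ι → J → ℝ) (N : ℕ)
    [NeZero N] (σ : Cfg (ZMod N)) (t : ZMod N) : Wk p tr γ N σ t = 1 := by
  unfold Wk
  simp only [F_empty, Fintype.prod_empty, mul_one]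
  rw [Finset.sum_const, card_univ, Fintype.card_fun, Fintype.card_eq_zero (α := ι), pow_zero,
    one_smul]

theorem Wk_one (α : J → ℝ) (N : ℕ) [NeZero N] (σ : Cfg (ZMod N)) (t : ZMod N) :
    Wk p tr (fun _ : Fin 1 => α) N σ t = Gf p tr α N σ t := by
  unfold Wk Gf
  refine Fintype.sum_bijective (fun j : Fin 1 → J => j 0)
    (Equiv.funUnique (Fin 1) J).bijective _ _ fun j => ?_
  rw [F_one p (fun i => tr (j i))]
  simp

theorem He_bdd (hp : 0 < p) (hp1 : p < 1) {G : MF} (hG : Bdd p G) :
    ∀ d, Bdd p (fun N _ σ t => He d (G N σ t)) := by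
  intro d
  induction d using Nat.strong_induction_on with
  | _ d ih =>
    rcases d with _ | _ | d
    · exact (Bdd.const (p := p) 1).congr fun N _ σ t => by rw [He_zero]
    · exact hG.congr fun N _ σ t => by rw [He_one]
    · have h1 := ih (d + 1) (by omega)
      have h2 := ih d (by omega)
      exact ((hG.mul hp hp1 h1).sub hp hp1 (h2.smul (d + 1))).congr
        fun N _ σ t => by rw [He_two]

theorem He_Wk (hp : 0 < p) (hp1 : p < 1) {G : MF} {α : J → ℝ} (hα : CC tr α α = 1)
    (hG : Neg p (fun N _ σ t => G N σ t - Gf p tr α N σ t)) :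
    ∀ d, Neg p (fun N _ σ t => He d (G N σ t) - Wk p tr (fun _ : Fin d => α) N σ t) := by
  have hGb : Bdd p G :=
    ((hG.bdd hp hp1).add hp hp1 (Gf_bdd (tr := tr) hp hp1 α)).congr fun N _ σ t => by ring
  intro d
  induction d using Nat.strong_induction_on with
  | _ d ih =>
    rcases d with _ | _ | d
    · exact (Neg.zero (p := p)).congr fun N _ σ t => by rw [He_zero, Wk_empty, sub_self]
    · exact hG.congr fun N _ σ t => by rw [He_one, Wk_one]
    · have h1 := ih (d + 1) (by omega)
      have h2 := ih d (by omega)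
      have h3 := wick (tr := tr) hp hp1 (ι := Fin (d + 1)) α (fun _ => α)
      have h4 := hG.mul_bdd hp hp1 (He_bdd hp hp1 hGb (d + 1))
      have h5 := (Gf_bdd (tr := tr) hp hp1 α).mul_neg hp hp1 h1
      have h6 := h2.smul (-((d : ℝ) + 1))
      refine (((h3.add hp hp1 h4).add hp hp1 h5).add hp hp1 h6).congr fun N _ σ t => ?_
      rw [He_two]
      have e1 : Wk p tr (fun o : Option (Fin (d + 1)) => o.elim α (fun _ => α)) N σ t =
          Wk p tr (fun _ : Fin (d + 2) => α) N σ t := by
        rw [← Wk_reindex (finSuccEquiv (d + 1)).symm (fun _ : Fin (d + 2) => α)]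
        congr 1
        funext o
        cases o <;> rfl
      have e2 : ∀ i : Fin (d + 1), Wk p tr (fun _ : {i' : Fin (d + 1) // i' ≠ i} => α) N σ t =
          Wk p tr (fun _ : Fin d => α) N σ t := by
        intro i
        have hc : Fintype.card {i' : Fin (d + 1) // i' ≠ i} = Fintype.card (Fin d) := by
          have := Fintype.card_congr (Equiv.optionSubtypeNe i)
          rw [Fintype.card_option, Fintype.card_fin] at this
          rw [Fintype.card_fin]
          omega
        exact Wk_reindex (Fintype.equivOfCardEq hc) (fun _ : Fin d => α) N σ t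
      simp only [e1, e2, hα, one_mul]
      rw [Finset.sum_const, card_univ, Fintype.card_fin, nsmul_eq_mul]
      push_cast
      ring

theorem Cv.move {f g h : MF} {c : ℝ} (hc : Cv p f (fun N _ σ t => g N σ t * h N σ t) c) :
    Cv p (fun N _ σ t => g N σ t * f N σ t) h c := by
  obtain ⟨K, hK⟩ := hc
  refine ⟨K, fun N _ => ?_⟩
  have h1 := hK N
  unfold ip at h1 ⊢
  have e : (fun σ : Cfg (ZMod N) => av (fun t => g N σ t * f N σ t * h N σ t)) =
      fun σ => av (fun t => f N σ t * (g N σ t * h N σ t)) := by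
    funext σ
    congr 1
    funext t
    ring
  rw [e]
  exact h1

theorem Cv_one_one : Cv p (fun _ _ _ _ => 1) (fun _ _ _ _ => 1) 1 := by
  refine ⟨0, fun N _ => ?_⟩
  unfold ip
  simp only [mul_one]
  have e : (fun _ : Cfg (ZMod N) => av (fun _ : ZMod N => (1 : ℝ))) = fun _ => 1 := by
    funext σ
    exact av_const 1
  rw [e, Ep_const]
  simp

theorem Cv_Wk (hp : 0 < p) (hp1 : p < 1) {G : MF} {α : J → ℝ} (hα : CC tr α α = 1)
    (hG : Neg p (fun N _ σ t => G N σ t - Gf p tr α N σ t)) :
    ∀ (d : ℕ) (ι : Type) [Fintype ι] [DecidableEq ι] (γ : ι → J → ℝ),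
      Cv p (fun N _ σ t => He d (G N σ t)) (Wk p tr γ)
        (if d = Fintype.card ι then (d.factorial : ℝ) * ∏ i, CC tr α (γ i) else 0) := by
  have hGb : Bdd p G :=
    ((hG.bdd hp hp1).add hp hp1 (Gf_bdd (tr := tr) hp hp1 α)).congr fun N _ σ t => by ring
  intro d
  induction d using Nat.strong_induction_on with
  | _ d ih =>
    intro ι _ _ γ
    rcases d with _ | d
    · -- d = 0
      by_cases h0 : Fintype.card ι = 0
      · haveI : IsEmpty ι := Fintype.card_eq_zero_iff.1 h0
        refine (Cv_one_one (p := p)).congr (fun N _ σ t => by rw [He_zero])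
          (fun N _ σ t => Wk_empty γ N σ t) ?_
        rw [if_pos h0.symm]
        simp
      · rw [if_neg (fun h => h0 h.symm)]
        have hne : Nonempty ι := by
          rw [← not_isEmpty_iff]
          intro h
          exact h0 Fintype.card_eq_zero
        obtain ⟨i⟩ := hne
        have h1 : ∀ j ∈ (univ : Finset (ι → J)), Cv p (fun N _ σ t => He 0 (G N σ t))
            (fun N _ σ t => (∏ i, γ i (j i)) * Shp.F p (Sig fun i => tr (j i)) N σ t) 0 := by
          intro j _
          have h2 : Cv p (Shp.F p (Sig fun i => tr (j i)))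
              (fun N _ σ t => He 0 (G N σ t)) 0 :=
            Cv_F_one hp hp1 (Sig fun i => tr (j i)) ⟨⟨i, (tr (j i)).root⟩⟩ _
              (fun N _ σ t => He_zero _)
          exact (h2.symm.smul_right _).congr (fun N _ σ t => rfl) (fun N _ σ t => rfl) (by ring)
        exact (Cv.sum_right univ _ _ (fun _ => 0) h1).congr (fun N _ σ t => rfl)
          (fun N _ σ t => rfl) (by simp)
    · -- d + 1
      have hd := ih d (by omega)
      -- the first term
      have h1 := hd (Option ι) (fun o => o.elim α γ)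
      have h2 : Cv p (fun N _ σ t => He d (G N σ t))
          (fun N _ σ t => ∑ i, CC tr α (γ i) * Wk p tr (fun i' : {i' // i' ≠ i} => γ i'.1) N σ t)
          (∑ i, CC tr α (γ i) * (if d = Fintype.card {i' // i' ≠ i} then
            (d.factorial : ℝ) * ∏ i' : {i' // i' ≠ i}, CC tr α (γ i'.1) else 0)) :=
        Cv.sum_right univ _ _ _ fun i _ =>
          (hd {i' // i' ≠ i} (fun i' : {i' // i' ≠ i} => γ i'.1)).smul_right _
      have h3 : Neg p (fun N _ σ t => G N σ t * Wk p tr γ N σ t -
          (Wk p tr (fun o : Option ι => o.elim α γ) N σ t +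
          ∑ i, CC tr α (γ i) * Wk p tr (fun i' : {i' // i' ≠ i} => γ i'.1) N σ t)) :=
        ((wick (tr := tr) hp hp1 α γ).add hp hp1
          (hG.mul_bdd hp hp1 (Wk_bdd (tr := tr) hp hp1 γ))).congr fun N _ σ t => by ring
      have h4 := ((h1.add_right h2).of_neg_right hp hp1 h3 (He_bdd hp hp1 hGb d)).move
      have h5 : Cv p (fun N _ σ t => (-(d : ℝ)) * He (d - 1) (G N σ t)) (Wk p tr γ)
          (-(d : ℝ) * (if d - 1 = Fintype.card ι then
            ((d - 1).factorial : ℝ) * ∏ i, CC tr α (γ i) else 0)) :=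
        (ih (d - 1) (by omega) ι γ).smul_left (-(d : ℝ))
      refine (h4.add_left h5).congr (fun N _ σ t => ?_) (fun N _ σ t => rfl) ?_
      · rw [He_succ]
        ring
      · have hcard : ∀ i : ι, Fintype.card {i' // i' ≠ i} + 1 = Fintype.card ι := by
          intro i
          rw [← Fintype.card_congr (Equiv.optionSubtypeNe i), Fintype.card_option]
        have hs : (∑ i, CC tr α (γ i) * (if d = Fintype.card {i' // i' ≠ i} then
            (d.factorial : ℝ) * ∏ i' : {i' // i' ≠ i}, CC tr α (γ i'.1) else 0)) =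
            if d + 1 = Fintype.card ι then ((d + 1).factorial : ℝ) * ∏ i, CC tr α (γ i) else 0 := by
          have h6 : ∀ i : ι, CC tr α (γ i) * (if d = Fintype.card {i' // i' ≠ i} then
              (d.factorial : ℝ) * ∏ i' : {i' // i' ≠ i}, CC tr α (γ i'.1) else 0) =
              if d + 1 = Fintype.card ι then (d.factorial : ℝ) * ∏ i, CC tr α (γ i) else 0 := by
            intro i
            have h7 := hcard i
            by_cases h8 : d + 1 = Fintype.card ι
            · rw [if_pos h8, if_pos (by omega),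
                Fintype.prod_eq_mul_prod_subtype_ne (fun i => CC tr α (γ i)) i]
              ring
            · rw [if_neg h8, if_neg (by omega), mul_zero]
          simp only [h6]
          rw [Finset.sum_const, card_univ, nsmul_eq_mul]
          by_cases h8 : d + 1 = Fintype.card ι
          · rw [if_pos h8, if_pos h8, ← h8, Nat.factorial_succ]
            push_cast
            ring
          · rw [if_neg h8, if_neg h8, mul_zero]
        rw [hs, Fintype.card_option, Fintype.prod_option]
        simp only [Option.elim]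
        rw [hα, one_mul]
        rcases d with _ | d
        · rw [if_neg (by omega : ¬ (0 = Fintype.card ι + 1))]
          simp
        · have h9 : (d + 1 = Fintype.card ι + 1) ↔ (d + 1 - 1 = Fintype.card ι) := by omega
          by_cases h10 : d + 1 - 1 = Fintype.card ι
          · rw [if_pos (h9.2 h10), if_pos h10, Nat.add_sub_cancel, Nat.factorial_succ d]
            push_cast
            ring
          · rw [if_neg (fun h => h10 (h9.1 h)), if_neg h10]
            ring

theorem Cv_HH (hp : 0 < p) (hp1 : p < 1) {G H : MF} {α β : J → ℝ} (hα : CC tr α α = 1)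
    (hβ : CC tr β β = 1)
    (hG : Neg p (fun N _ σ t => G N σ t - Gf p tr α N σ t))
    (hH : Neg p (fun N _ σ t => H N σ t - Gf p tr β N σ t)) (d e : ℕ) :
    Cv p (fun N _ σ t => He d (G N σ t)) (fun N _ σ t => He e (H N σ t))
      (if d = e then (d.factorial : ℝ) * CC tr α β ^ d else 0) := by
  have hGb : Bdd p G :=
    ((hG.bdd hp hp1).add hp hp1 (Gf_bdd (tr := tr) hp hp1 α)).congr fun N _ σ t => by ring
  have h1 := Cv_Wk hp hp1 hα hG d (Fin e) (fun _ => β)
  refine (h1.of_neg_right hp hp1 (He_Wk hp hp1 hβ hH e) (He_bdd hp hp1 hGb d)).congr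
    (fun N _ σ t => rfl) (fun N _ σ t => rfl) ?_
  rw [Fintype.card_fin]
  by_cases h : d = e
  · rw [if_pos h, if_pos h, Finset.prod_const, card_univ, Fintype.card_fin, h]
  · rw [if_neg h, if_neg h]

theorem Cv_WW (hp : 0 < p) (hp1 : p < 1) {α β : J → ℝ} (hα : CC tr α α = 1)
    (hβ : CC tr β β = 1) (d e : ℕ) :
    Cv p (Wk p tr (fun _ : Fin d => α)) (Wk p tr (fun _ : Fin e => β))
      (if d = e then (d.factorial : ℝ) * CC tr α β ^ d else 0) := by
  have z : ∀ γ : J → ℝ, Neg p (fun N _ σ t => Gf p tr γ N σ t - Gf p tr γ N σ t) := fun γ =>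
    (Neg.zero (p := p)).congr fun N _ σ t => by rw [sub_self]
  have h1 := Cv_Wk hp hp1 hα (z α) d (Fin e) (fun _ => β)
  have h2 : Neg p (fun N _ σ t => Wk p tr (fun _ : Fin d => α) N σ t -
      He d (Gf p tr α N σ t)) :=
    ((He_Wk hp hp1 hα (z α) d).smul (-1)).congr fun N _ σ t => by ring
  refine (h1.of_neg_left hp hp1 h2 (Wk_bdd hp hp1 _)).congr
    (fun N _ σ t => rfl) (fun N _ σ t => rfl) ?_
  rw [Fintype.card_fin]
  by_cases h : d = e
  · rw [if_pos h, if_pos h, Finset.prod_const, card_univ, Fintype.card_fin, h]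
  · rw [if_neg h, if_neg h]

end wick

end Pool.Agent.H976.C
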