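import Pool.Agent.H976.C.I

/-!
# Circulant theta: approximate solutions
-/

set_option autoImplicit false
set_option linter.unusedSectionVars false

namespace Pool.Agent.H976.C

open Finset Real

/-- families with small transform at every point -/
def Sml (p : ℝ) (f : MF) : Prop := ∃ C : ℝ, 0 ≤ C ∧ ∀ (N : ℕ) [NeZero N] (k : ZMod N),
  Ep p (fun σ => ft (f N σ) k ^ 2) ≤ C / N

section sml

variable {p : ℝ}

theorem Sml.add (hp : 0 < p) (hp1 : p < 1) {f g : MF} (hf : Sml p f) (hg : Sml p g) :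
    Sml p (fun N _ σ t => f N σ t + g N σ t) := by
  obtain ⟨C, h0, h⟩ := hf
  obtain ⟨C', h0', h'⟩ := hg
  refine ⟨2 * C + 2 * C', by positivity, fun N _ k => ?_⟩
  have e : (fun σ : Cfg (ZMod N) => ft (fun t => f N σ t + g N σ t) k ^ 2) =
      fun σ => (ft (f N σ) k + ft (g N σ) k) ^ 2 := by
    funext σ
    rw [ft_add (f N σ) (g N σ)]
  rw [e]
  refine (Ep_add_sq_le hp hp1 _ _).trans ?_
  have h1 := h N k
  have h2 := h' N k
  have h3 : (2 * C + 2 * C') / N = 2 * (C / N) + 2 * (C' / N) := by ring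
  rw [h3]
  linarith

theorem Sml.smul {f : MF} (hf : Sml p f) (c : ℝ) : Sml p (fun N _ σ t => c * f N σ t) := by
  obtain ⟨C, h0, h⟩ := hf
  refine ⟨c ^ 2 * C, by positivity, fun N _ k => ?_⟩
  have e : (fun σ : Cfg (ZMod N) => ft (fun t => c * f N σ t) k ^ 2) =
      fun σ => c ^ 2 * ft (f N σ) k ^ 2 := by
    funext σ
    rw [ft_mul c (f N σ), mul_pow]
  rw [e, Ep_mul, mul_div_assoc]
  exact mul_le_mul_of_nonneg_left (h N k) (sq_nonneg c)

theorem Sml.congr {f g : MF} (hf : Sml p f)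
    (h : ∀ (N : ℕ) [NeZero N] (σ : Cfg (ZMod N)) (t : ZMod N), g N σ t = f N σ t) : Sml p g := by
  have e : g = f := by
    funext N _ σ t
    exact h N σ t
  rw [e]
  exact hf

theorem Sml.zero : Sml p (fun _ _ _ _ => 0) := by
  refine ⟨0, le_rfl, fun N _ k => ?_⟩
  have e : (fun _ : Cfg (ZMod N) => ft (fun _ : ZMod N => (0 : ℝ)) k ^ 2) = fun _ => 0 := by
    funext σ
    unfold ft
    simp
  rw [e, Ep_const]
  simp

theorem Sml.sum (hp : 0 < p) (hp1 : p < 1) {ι : Type} (s : Finset ι) (f : ι → MF)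
    (h : ∀ i ∈ s, Sml p (f i)) : Sml p (fun N _ σ t => ∑ i ∈ s, f i N σ t) := by
  classical
  induction s using Finset.induction_on with
  | empty => exact (Sml.zero (p := p)).congr fun N _ σ t => by simp
  | insert i s hi ih =>
    have h1 := (h i (mem_insert_self i s)).add hp hp1 (ih fun j hj => h j (mem_insert_of_mem hj))
    exact h1.congr fun N _ σ t => by rw [Finset.sum_insert hi]

theorem Neg.sml (hp : 0 < p) (hp1 : p < 1) {f : MF} (hf : Neg p f) : Sml p f := by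
  obtain ⟨d, C, h⟩ := hf
  have hC0 : 0 ≤ C := (Finset.sum_nonneg fun t _ => Ep_sq_nonneg hp hp1 _).trans (h 1).2
  refine ⟨C, hC0, fun N _ k => ?_⟩
  calc Ep p (fun σ => ft (f N σ) k ^ 2) ≤ Ep p (fun σ => av (fun t => f N σ t ^ 2)) := by
        refine Ep_mono p hp.le hp1.le _ _ fun σ => ?_
        refine le_trans ?_ (bessel (f N σ))
        exact Finset.single_le_sum (f := fun k => ft (f N σ) k ^ 2) (fun k _ => sq_nonneg _)
          (mem_univ k)
    _ ≤ C / N := by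
        unfold av
        rw [Ep_div, Ep_sum]
        exact div_le_div_of_nonneg_right (h N).2 Npos.le

theorem Sml_F (hp : 0 < p) (hp1 : p < 1) (H : Shp) (x0 : H.X) : Sml p (Shp.F p H) := by
  classical
  set C0 : ℕ := (Fintype.card H.V * 2) ^ Fintype.card H.V * 2 with hC0
  refine ⟨C0, Nat.cast_nonneg _, fun N _ k0 => ?_⟩
  set n := Fintype.card H.X with hn
  set I : Finset (H.X → ZMod N) := (H.gs N).filter fun k => H.rh k = k0 ∨ H.rh k = -k0 with hI
  set β : (H.X → ZMod N) → ℝ := fun k =>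
    ((if H.rh k = k0 then 1 else 0) + (if H.rh k = -k0 then 1 else 0)) / 2 with hβ
  have e1 : ∀ σ : Cfg (ZMod N), ft (Shp.F p H N σ) k0 =
      (∑ k ∈ I, β k * (monD p σ univ (H.vl k) * cs (0 * (0 : ZMod N)))) / √N ^ n := by
    intro σ
    have e2 : Shp.F p H N σ = fun t => ∑ k ∈ H.gs N,
        (monD p σ univ (H.vl k) / √N ^ n) * cs (H.rh k * t) := by
      funext t
      unfold Shp.F
      rw [Finset.sum_div]
      exact Finset.sum_congr rfl fun k _ => by ring
    rw [e2, ft_sum (H.gs N) (fun k => monD p σ univ (H.vl k) / √N ^ n)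
      (fun k => fun t => cs (H.rh k * t)), Finset.sum_div, hI, Finset.sum_filter]
    refine Finset.sum_congr rfl fun k _ => ?_
    rw [ft_cs, zero_mul, cs_zero, hβ]
    by_cases h : H.rh k = k0 ∨ H.rh k = -k0
    · rw [if_pos h]
      ring
    · rw [if_neg h]
      push Not at h
      rw [if_neg h.1, if_neg h.2]
      ring
  have h1 := L2 p hp hp1 I univ β (fun k => H.vl k) (fun _ => (0 : ZMod N)) 1 (by
      intro k _
      simp only [hβ]
      split_ifs <;> norm_num) (fun k hk => (H.mem_gs k).1 (mem_filter.1 hk).1)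
  have h2 : Ep p (fun σ => (∑ k ∈ I, β k * (monD p σ univ (H.vl k) *
      cs (0 * (0 : ZMod N)))) ^ 2) * N ≤
      N * #{x ∈ I ×ˢ I | cset univ (H.vl x.1) = cset univ (H.vl x.2)} := by
    have h3 : ∀ t : ZMod N, cs ((0 : ZMod N) * t) = cs (0 * (0 : ZMod N)) := by
      intro t
      rw [zero_mul, zero_mul]
    simp only [h3] at h1
    rw [Finset.sum_const, card_univ, ZMod.card, nsmul_eq_mul] at h1
    simp only [true_or, and_true, one_pow, mul_one] at h1
    rw [mul_comm]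
    exact h1
  have h3 : Ep p (fun σ => (∑ k ∈ I, β k * (monD p σ univ (H.vl k) *
      cs (0 * (0 : ZMod N)))) ^ 2) ≤
      #{x ∈ I ×ˢ I | cset univ (H.vl x.1) = cset univ (H.vl x.2)} := by
    rw [mul_comm (N : ℝ) _] at h2
    exact le_of_mul_le_mul_right h2 Npos
  have h4 := cnt2 H H N I I
  have h5 : #I * N ≤ 2 * N ^ n := by
    have a1 := card_lf (N := N) (fun _ : H.X => (1 : ℤ)) x0 one_ne_zero k0
    have a2 := card_lf (N := N) (fun _ : H.X => (1 : ℤ)) x0 one_ne_zero (-k0)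
    have a3 : I ⊆ (univ.filter fun k => lf (fun _ : H.X => (1 : ℤ)) k = k0) ∪
        (univ.filter fun k => lf (fun _ : H.X => (1 : ℤ)) k = -k0) := by
      intro k hk
      have hlf : lf (fun _ : H.X => (1 : ℤ)) k = H.rh k := by
        unfold lf Shp.rh
        exact Finset.sum_congr rfl fun x _ => by rw [Int.cast_one, one_mul]
      rw [mem_union, mem_filter, mem_filter, hlf]
      rcases (mem_filter.1 hk).2 with h | h
      · exact Or.inl ⟨mem_univ _, h⟩
      · exact Or.inr ⟨mem_univ _, h⟩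
    have a4 := (Finset.card_le_card a3).trans (Finset.card_union_le _ _)
    have a5 : (1 : ℤ).natAbs = 1 := rfl
    rw [a5] at a1 a2
    calc #I * N ≤ (#(univ.filter fun k => lf (fun _ : H.X => (1 : ℤ)) k = k0) +
          #(univ.filter fun k => lf (fun _ : H.X => (1 : ℤ)) k = -k0)) * N :=
          Nat.mul_le_mul_right _ a4
      _ = #(univ.filter fun k => lf (fun _ : H.X => (1 : ℤ)) k = k0) * N +
          #(univ.filter fun k => lf (fun _ : H.X => (1 : ℤ)) k = -k0) * N := by ring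
      _ ≤ 1 * N ^ n + 1 * N ^ n := Nat.add_le_add a1 a2
      _ = _ := by ring
  have h6 : Ep p (fun σ => ft (Shp.F p H N σ) k0 ^ 2) =
      Ep p (fun σ => (∑ k ∈ I, β k * (monD p σ univ (H.vl k) *
        cs (0 * (0 : ZMod N)))) ^ 2) / (N : ℝ) ^ n := by
    rw [← Ep_div]
    congr 1
    funext σ
    rw [e1, div_pow, sqrtN_pow]
  rw [h6]
  have hN := Npos (N := N)
  rw [div_le_div_iff₀ (pow_pos hN n) hN]
  have h7 : (#{x ∈ I ×ˢ I | cset univ (H.vl x.1) = cset univ (H.vl x.2)} : ℝ) * N ≤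
      C0 * (N : ℝ) ^ n := by
    have h8 : #{x ∈ I ×ˢ I | cset univ (H.vl x.1) = cset univ (H.vl x.2)} * N ≤
        C0 * N ^ n := by
      calc _ ≤ (Fintype.card H.V * 2) ^ Fintype.card H.V * #I * N := Nat.mul_le_mul_right _ h4
        _ = (Fintype.card H.V * 2) ^ Fintype.card H.V * (#I * N) := by ring
        _ ≤ (Fintype.card H.V * 2) ^ Fintype.card H.V * (2 * N ^ n) := Nat.mul_le_mul_left _ h5
        _ = _ := by rw [hC0]; ring
    exact_mod_cast h8
  exact (mul_le_mul_of_nonneg_right h3 hN.le).trans h7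

theorem Sml_ee : Sml p (fun N _ _ t => ee N t) := by
  refine ⟨1, by norm_num, fun N _ k => ?_⟩
  have e : (fun _ : Cfg (ZMod N) => ft (fun t => ee N t) k ^ 2) = fun _ => (1 : ℝ) / N := by
    funext σ
    rw [ft_ee, inv_pow, Real.sq_sqrt (Nat.cast_nonneg N), one_div]
  rw [e, Ep_const]

theorem Sml_He (hp : 0 < p) (hp1 : p < 1) {J : Type} [Fintype J] {tr : J → Tree} {G : MF}
    {α : J → ℝ} (hα : CC tr α α = 1)
    (hG : Neg p (fun N _ σ t => G N σ t - Gf p tr α N σ t)) (d : ℕ) :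
    Sml p (fun N _ σ t => He (d + 1) (G N σ t)) := by
  have h1 := (He_Wk hp hp1 hα hG (d + 1)).sml hp hp1
  have h2 : Sml p (Wk p tr (fun _ : Fin (d + 1) => α)) := by
    refine Sml.sum hp hp1 univ (fun j : Fin (d + 1) → J => fun N _ σ t =>
      (∏ i, α (j i)) * Shp.F p (Sig fun i => tr (j i)) N σ t) fun j _ => ?_
    obtain ⟨y, -⟩ := (tr (j 0)).ne (tr (j 0)).root
    exact (Sml_F hp hp1 (Sig fun i : Fin (d + 1) => tr (j i)) ⟨0, y⟩).smul _
  exact (h1.add hp hp1 h2).congr fun N _ σ t => by ring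

end sml

/-! ### The approximate solution -/

section approx

variable {p : ℝ}

theorem F_leaf_ev (N : ℕ) [NeZero N] (σ : Cfg (ZMod N)) {D : ℕ} (a s : ℝ) (c : Fin D → ℝ)
    (m : ℕ) : Ev (GG p a s c m N σ) := by
  rcases m with _ | m
  · exact Shp.F_ev (H := leafT.toShp) p σ
  · intro t
    show s⁻¹ * TT p σ (Psi a c (GG p a s c m) N σ) (-t) =
      s⁻¹ * TT p σ (Psi a c (GG p a s c m) N σ) t
    rw [TT_ev]

theorem Psi_ev (N : ℕ) [NeZero N] (σ : Cfg (ZMod N)) {D : ℕ} (a : ℝ) (c : Fin D → ℝ)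
    (G : MF) (hG : Ev (G N σ)) : Ev (Psi a c G N σ) := by
  intro t
  unfold Psi ee
  rw [hG t]
  simp only [neg_eq_zero]

theorem Psi_Sml (hp : 0 < p) (hp1 : p < 1) {J : Type} [Fintype J] {tr : J → Tree} {G : MF}
    {α : J → ℝ} (hα : CC tr α α = 1)
    (hG : Neg p (fun N _ σ t => G N σ t - Gf p tr α N σ t)) {D : ℕ} (a : ℝ) (c : Fin D → ℝ) :
    Sml p (Psi a c G) :=
  ((Sml_ee (p := p)).smul a).add hp hp1 (Sml.sum hp hp1 univ
    (fun d : Fin D => fun N _ σ t => c d * He ((d : ℕ) + 2) (G N σ t))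
    fun d _ => (Sml_He hp hp1 hα hG ((d : ℕ) + 1)).smul (c d))

/-- the coefficients of the approximate solution -/
noncomputable def bc {N : ℕ} [NeZero N] (σ : Cfg (ZMod N)) (Ψ : ZMod N → ℝ) (k : ZMod N) : ℝ :=
  if k + k = 0 then 0 else if σ (cls k) = true then ft Ψ k else 0

/-- the part of the exceptional frequencies -/
noncomputable def ZZ {N : ℕ} [NeZero N] (Ψ : ZMod N → ℝ) (t : ZMod N) : ℝ :=
  ∑ k ∈ univ.filter (fun k : ZMod N => k + k = 0), ft Ψ k * cs (k * t)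

theorem bc_sy (hp : 0 < p) (hp1 : p < 1) {N : ℕ} [NeZero N] (σ : Cfg (ZMod N))
    (Ψ : ZMod N → ℝ) (hΨ : Ev Ψ) (t : ZMod N) :
    sy (bc σ Ψ) t = p * Ψ t - p * ZZ Ψ t + p * √((1 - p) / p) * TT p σ Ψ t := by
  have h1 : ∀ b : Bool, (if b = true then (1 : ℝ) else 0) = p + p * √((1 - p) / p) * om p b := by
    intro b
    have ha : 0 < √p := Real.sqrt_pos.2 hp
    have hb : 0 < √(1 - p) := Real.sqrt_pos.2 (by linarith)
    have h2 : √p ^ 2 = p := Real.sq_sqrt hp.le
    have h3 : √(1 - p) ^ 2 = 1 - p := Real.sq_sqrt (by linarith)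
    unfold om
    rw [Real.sqrt_div (by linarith), Real.sqrt_div hp.le]
    cases b
    · simp only [Bool.false_eq_true, if_false]
      have h4 : √(1 - p) / √p * (√p / √(1 - p)) = 1 := by
        field_simp
      linear_combination p * h4
    · simp only [if_true]
      have h4 : √(1 - p) / √p * (√(1 - p) / √p) = (1 - p) / p := by
        rw [div_mul_div_comm, ← sq, ← sq, h2, h3]
      have h5 : p * ((1 - p) / p) = 1 - p := by field_simp
      linear_combination (-p) * h4 - h5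
  have h2 : ∀ k : ZMod N, bc σ Ψ k * cs (k * t) = p * (ft Ψ k * cs (k * t)) -
      p * (if k + k = 0 then ft Ψ k * cs (k * t) else 0) +
      p * √((1 - p) / p) * (ww p σ k * ft Ψ k * cs (k * t)) := by
    intro k
    unfold bc ww
    by_cases h : k + k = 0
    · rw [if_pos h, if_pos h, if_pos h]
      ring
    · rw [if_neg h, if_neg h, if_neg h]
      have h3 : (if σ (cls k) = true then ft Ψ k else 0) =
          (if σ (cls k) = true then (1 : ℝ) else 0) * ft Ψ k := by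
        split_ifs <;> ring
      rw [h3, h1]
      ring
  unfold ZZ TT
  rw [← sy_ft Ψ hΨ t]
  unfold sy
  rw [Finset.sum_congr rfl fun k _ => h2 k, Finset.sum_add_distrib, Finset.sum_sub_distrib,
    ← Finset.mul_sum, ← Finset.mul_sum, ← Finset.mul_sum, Finset.sum_filter]

theorem ZZ_sq {N : ℕ} [NeZero N] (Ψ : ZMod N → ℝ) (t : ZMod N) :
    ZZ Ψ t ^ 2 ≤ 2 * ∑ k ∈ univ.filter (fun k : ZMod N => k + k = 0), ft Ψ k ^ 2 := by
  unfold ZZ
  refine (sq_sum_le_card_mul_sum_sq).trans ?_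
  have h1 : (#(univ.filter fun k : ZMod N => k + k = 0) : ℝ) ≤ 2 := by
    exact_mod_cast card_two N
  have h2 : ∑ k ∈ univ.filter (fun k : ZMod N => k + k = 0), (ft Ψ k * cs (k * t)) ^ 2 ≤
      ∑ k ∈ univ.filter (fun k : ZMod N => k + k = 0), ft Ψ k ^ 2 := by
    refine Finset.sum_le_sum fun k _ => ?_
    rw [mul_pow]
    refine mul_le_of_le_one_right (sq_nonneg _) ?_
    rw [sq_le_one_iff_abs_le_one]
    exact abs_cs_le _
  exact mul_le_mul h1 h2 (Finset.sum_nonneg fun k _ => sq_nonneg _) (by norm_num)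

theorem ZZ_small (hp : 0 < p) (hp1 : p < 1) {f : MF} (hf : Sml p f) :
    ∃ K : ℝ, 0 ≤ K ∧ ∀ (N : ℕ) [NeZero N],
      Ep p (fun σ => av (fun t => ZZ (f N σ) t ^ 2)) ≤ K / √N := by
  obtain ⟨C, hC0, hC⟩ := hf
  refine ⟨4 * C, by positivity, fun N _ => ?_⟩
  have h1 : Ep p (fun σ => av (fun t => ZZ (f N σ) t ^ 2)) ≤
      Ep p (fun σ => 2 * ∑ k ∈ univ.filter (fun k : ZMod N => k + k = 0), ft (f N σ) k ^ 2) := by
    refine Ep_mono p hp.le hp1.le _ _ fun σ => ?_
    calc av (fun t => ZZ (f N σ) t ^ 2) ≤ av (fun _ : ZMod N => 2 * ∑ k ∈ univ.filter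
          (fun k : ZMod N => k + k = 0), ft (f N σ) k ^ 2) := av_mono _ _ fun t => ZZ_sq _ t
      _ = _ := av_const _
  have h2 : Ep p (fun σ => 2 * ∑ k ∈ univ.filter (fun k : ZMod N => k + k = 0),
      ft (f N σ) k ^ 2) ≤ 4 * (C / N) := by
    rw [Ep_mul, Ep_sum]
    have h3 : ∑ k ∈ univ.filter (fun k : ZMod N => k + k = 0),
        Ep p (fun σ => ft (f N σ) k ^ 2) ≤ 2 * (C / N) := by
      calc _ ≤ ∑ _k ∈ univ.filter (fun k : ZMod N => k + k = 0), C / N :=
            Finset.sum_le_sum fun k _ => hC N k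
        _ = (#(univ.filter fun k : ZMod N => k + k = 0) : ℝ) * (C / N) := by
            rw [Finset.sum_const, nsmul_eq_mul]
        _ ≤ _ := by
            refine mul_le_mul_of_nonneg_right ?_ (by positivity)
            exact_mod_cast card_two N
    linarith
  refine h1.trans (h2.trans ?_)
  have hs := sqrtN_pos N
  have hs1 : (1 : ℝ) ≤ √N := by
    rw [Real.one_le_sqrt]
    exact_mod_cast NeZero.one_le (n := N)
  have h4 : √(N : ℝ) * 1 ≤ √N * √N := mul_le_mul_of_nonneg_left hs1 hs.le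
  rw [mul_one, Real.mul_self_sqrt (Nat.cast_nonneg N)] at h4
  rw [← mul_div_assoc]
  exact div_le_div_of_nonneg_left (by positivity) hs h4

/-- second moment of a Hermite combination -/
theorem He_norm (hp : 0 < p) (hp1 : p < 1) {G H : MF} {ρ : ℝ} (h : Pair p G H ρ)
    (E : ℕ) (r : ℕ → ℝ) :
    Cv p (fun N _ σ t => ∑ d ∈ range E, r d * He d (G N σ t))
      (fun N _ σ t => ∑ d ∈ range E, r d * He d (G N σ t))
      (∑ d ∈ range E, r d ^ 2 * (d.factorial : ℝ)) := by
  obtain ⟨J, _, tr, α, β, hα, hβ, hαβ, hG, hH⟩ := h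
  have h1 := Cv_HH hp hp1 hα hα hG hG
  refine (Cv.sum_left (range E) (fun d => fun N _ σ t => r d * He d (G N σ t)) _ _
    fun d hd => (Cv.sum_right (range E) (fun N _ σ t => r d * He d (G N σ t))
      (fun e => fun N _ σ t => r e * He e (G N σ t)) _ fun e _ =>
      ((h1 d e).smul_left (r d)).smul_right (r e))).congr (fun N _ σ t => rfl)
      (fun N _ σ t => rfl) ?_
  refine Finset.sum_congr rfl fun d hd => ?_
  rw [Finset.sum_eq_single d]
  · rw [if_pos rfl, hα, one_pow]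
    ring
  · intro e _ he
    rw [if_neg (Ne.symm he)]
    ring
  · intro h
    exact absurd hd h

/-- the distance of two consecutive iterates -/
theorem pair_diff (hp : 0 < p) (hp1 : p < 1) {G H : MF} {ρ : ℝ} (h : Pair p G H ρ) :
    Cv p (fun N _ σ t => H N σ t - G N σ t) (fun N _ σ t => H N σ t - G N σ t)
      (2 - 2 * ρ) := by
  obtain ⟨J, _, tr, α, β, hα, hβ, hαβ, hG, hH⟩ := h
  have h11 := Cv_HH hp hp1 hα hα hG hG 1 1
  have h12 := Cv_HH hp hp1 hα hβ hG hH 1 1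
  have h22 := Cv_HH hp hp1 hβ hβ hH hH 1 1
  rw [if_pos rfl, Nat.factorial_one, pow_one] at h11 h12 h22
  rw [hα] at h11
  rw [hβ] at h22
  rw [hαβ] at h12
  have a1 := (h22.add_right (h12.symm.smul_right (-1))).add_left
    ((h12.add_right (h11.smul_right (-1))).smul_left (-1))
  refine a1.congr (fun N _ σ t => ?_) (fun N _ σ t => ?_) ?_
  · rw [He_one, He_one]
    ring
  · rw [He_one, He_one]
    ring
  · push_cast
    ring

theorem approx (hp : 0 < p) (hp1 : p < 1) {D : ℕ} (a s : ℝ) (c : Fin D → ℝ) (hs : s ≠ 0)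
    (hs2 : s ^ 2 = a ^ 2 + ∑ d : Fin D, c d ^ 2 * (((d : ℕ) + 2).factorial : ℝ))
    (E : ℕ) (r : ℕ → ℝ)
    (hpos : ∀ x : ℝ, 0 ≤ 1 / p + √((1 - p) / p) * s * x +
      ∑ d : Fin D, c d * He ((d : ℕ) + 2) x + ∑ d ∈ range E, r d * He d x) (m : ℕ) :
    ∃ K : ℝ, 0 ≤ K ∧ ∀ (N : ℕ) [NeZero N], ∃ b Y : Cfg (ZMod N) → ZMod N → ℝ,
      (∀ σ, Ev (b σ)) ∧ (∀ σ k, k + k = 0 → b σ k = 0) ∧
      (∀ σ k, σ (cls k) = false → b σ k = 0) ∧ (∀ σ, Ev (Y σ)) ∧ (∀ σ t, 0 ≤ Y σ t) ∧
      (∀ σ t, p * a * ee N t ≤ 1 + sy (b σ) t + Y σ t) ∧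
      Ep p (fun σ => av (fun t => Y σ t ^ 2)) ≤
        3 * (p ^ 2 * ∑ d ∈ range E, r d ^ 2 * (d.factorial : ℝ)) +
        3 * ((p * √((1 - p) / p) * s) ^ 2 * (2 - 2 * rho a s c m)) + K / √N := by
  set κ := √((1 - p) / p) with hκ
  have hP := pair_GG hp hp1 a s c hs hs2 m
  obtain ⟨K1, hK1⟩ := He_norm hp hp1 hP E r
  obtain ⟨K2, hK2⟩ := pair_diff hp hp1 hP
  have hS : Sml p (Psi a c (GG p a s c m)) := by
    obtain ⟨J, _, tr, α, β, hα, hβ, hαβ, hG, hH⟩ := hP
    exact Psi_Sml hp hp1 hα hG a c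
  obtain ⟨K3, hK30, hK3⟩ := ZZ_small hp hp1 hS
  refine ⟨3 * (p ^ 2 * |K1|) + 3 * ((p * κ * s) ^ 2 * |K2|) + 3 * (p ^ 2 * K3), by positivity,
    fun N _ => ?_⟩
  set G := GG p a s c m with hG
  set G' := GG p a s c (m + 1) with hG'
  set R : ℝ → ℝ := fun x => ∑ d ∈ range E, r d * He d x with hR
  refine ⟨fun σ => bc σ (Psi a c G N σ), fun σ t =>
    |-(p * R (G N σ t)) + p * κ * s * (G' N σ t - G N σ t) - p * ZZ (Psi a c G N σ) t|,
    ?_, ?_, ?_, ?_, ?_, ?_, ?_⟩
  · intro σ k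
    show bc σ (Psi a c G N σ) (-k) = bc σ (Psi a c G N σ) k
    have h : -k + -k = 0 ↔ k + k = 0 := by rw [← neg_add, neg_eq_zero]
    unfold bc
    rw [cls_neg, ft_ev (Psi a c G N σ) k]
    simp only [h]
  · intro σ k hk
    show bc σ _ k = 0
    unfold bc
    rw [if_pos hk]
  · intro σ k hk
    show bc σ _ k = 0
    unfold bc
    rw [hk]
    simp
  · intro σ t
    have h1 := F_leaf_ev (p := p) N σ a s c m t
    have h2 := F_leaf_ev (p := p) N σ a s c (m + 1) t
    have h3 : ZZ (Psi a c G N σ) (-t) = ZZ (Psi a c G N σ) t := by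
      unfold ZZ
      exact Finset.sum_congr rfl fun k _ => by rw [mul_neg, cs_neg]
    simp only [hG, hG'] at h1 h2 h3 ⊢
    rw [h1, h2, h3]
  · intro σ t
    exact abs_nonneg _
  · intro σ t
    have h1 := bc_sy hp hp1 σ (Psi a c G N σ)
      (Psi_ev N σ a c G (F_leaf_ev (p := p) N σ a s c m)) t
    have h2 : TT p σ (Psi a c G N σ) t = s * G' N σ t := by
      have h3 : G' N σ t = s⁻¹ * TT p σ (Psi a c G N σ) t := rfl
      rw [h3, ← mul_assoc, mul_inv_cancel₀ hs, one_mul]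
    rw [← hκ, h2] at h1
    have h4 := hpos (G N σ t)
    have h5 := mul_nonneg hp.le h4
    have h6 : Psi a c G N σ t = a * ee N t + ∑ d : Fin D, c d * He ((d : ℕ) + 2) (G N σ t) := rfl
    have h7 := le_abs_self (-(-(p * R (G N σ t)) + p * κ * s * (G' N σ t - G N σ t) -
      p * ZZ (Psi a c G N σ) t))
    rw [abs_neg] at h7
    have h8 : R (G N σ t) = ∑ d ∈ range E, r d * He d (G N σ t) := rfl
    have h9 : p * (1 / p) = 1 := by field_simp
    simp only
    rw [h1, h6]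
    rw [← h8] at h5
    linarith
  · have e1 : ∀ σ : Cfg (ZMod N), av (fun t => |-(p * R (G N σ t)) +
        p * κ * s * (G' N σ t - G N σ t) - p * ZZ (Psi a c G N σ) t| ^ 2) ≤
        3 * (p ^ 2 * av (fun t => R (G N σ t) * R (G N σ t))) +
        3 * ((p * κ * s) ^ 2 * av (fun t => (G' N σ t - G N σ t) * (G' N σ t - G N σ t))) +
        3 * (p ^ 2 * av (fun t => ZZ (Psi a c G N σ) t ^ 2)) := by
      intro σ
      rw [← av_mul, ← av_mul, ← av_mul, ← av_mul, ← av_mul, ← av_mul, ← av_add, ← av_add]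
      refine av_mono _ _ fun t => ?_
      rw [sq_abs]
      nlinarith [sq_nonneg (-(p * R (G N σ t)) - p * κ * s * (G' N σ t - G N σ t)),
        sq_nonneg (-(p * R (G N σ t)) + p * ZZ (Psi a c G N σ) t),
        sq_nonneg (p * κ * s * (G' N σ t - G N σ t) + p * ZZ (Psi a c G N σ) t)]
    have e2 := Ep_mono p hp.le hp1.le _ _ e1
    refine e2.trans ?_
    rw [Ep_add, Ep_add, Ep_mul, Ep_mul, Ep_mul, Ep_mul, Ep_mul, Ep_mul]
    have f1 := hK1 N
    have f2 := hK2 N
    have f3 := hK3 N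
    have g1 : Ep p (fun σ => av (fun t => R (G N σ t) * R (G N σ t))) ≤
        ∑ d ∈ range E, r d ^ 2 * (d.factorial : ℝ) + |K1| / √N := by
      have h1 := (abs_le.1 f1).2
      have h2 : K1 / √N ≤ |K1| / √N := div_le_div_of_nonneg_right (le_abs_self _) (sqrtN_pos N).le
      have h3 : Ep p (fun σ => av (fun t => R (G N σ t) * R (G N σ t))) =
        ip p (fun N _ σ t => ∑ d ∈ range E, r d * He d (GG p a s c m N σ t))
          (fun N _ σ t => ∑ d ∈ range E, r d * He d (GG p a s c m N σ t)) N := rfl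
      rw [h3]
      linarith
    have g2 : Ep p (fun σ => av (fun t => (G' N σ t - G N σ t) * (G' N σ t - G N σ t))) ≤
        2 - 2 * rho a s c m + |K2| / √N := by
      have h1 := (abs_le.1 f2).2
      have h2 : K2 / √N ≤ |K2| / √N := div_le_div_of_nonneg_right (le_abs_self _) (sqrtN_pos N).le
      have h3 : Ep p (fun σ => av (fun t => (G' N σ t - G N σ t) * (G' N σ t - G N σ t))) =
        ip p (fun N _ σ t => GG p a s c (m + 1) N σ t - GG p a s c m N σ t)
          (fun N _ σ t => GG p a s c (m + 1) N σ t - GG p a s c m N σ t) N := rfl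
      rw [h3]
      linarith
    have i1 := mul_le_mul_of_nonneg_left g1 (sq_nonneg p)
    have i2 := mul_le_mul_of_nonneg_left g2 (sq_nonneg (p * κ * s))
    have i3 := mul_le_mul_of_nonneg_left f3 (sq_nonneg p)
    have i4 : (3 * (p ^ 2 * |K1|) + 3 * ((p * κ * s) ^ 2 * |K2|) + 3 * (p ^ 2 * K3)) / √N =
        3 * (p ^ 2 * (|K1| / √N)) + 3 * ((p * κ * s) ^ 2 * (|K2| / √N)) +
        3 * (p ^ 2 * (K3 / √N)) := by ring
    rw [i4]
    linarith

end approx

end Pool.Agent.H976.C
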