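import Pool.Agent.H976.C.W

/-!
# Circulant theta: Gaussian integrals
-/

set_option autoImplicit false
set_option linter.unusedSectionVars false

namespace Pool.Agent.H976.C

open Finset Real MeasureTheory ProbabilityTheory Filter

/-- the standard Gaussian measure -/
noncomputable abbrev gm : Measure ℝ := gaussianReal 0 1

/-- the Gaussian density -/
noncomputable def phi (x : ℝ) : ℝ := gaussianPDFReal 0 1 x

/-- measurable functions of exponential growth -/
def Nice (f : ℝ → ℝ) : Prop :=
  Measurable f ∧ ∃ C L : ℝ, 0 ≤ C ∧ 0 ≤ L ∧ ∀ x, |f x| ≤ C * Real.exp (L * |x|)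

theorem Nice.add {f g : ℝ → ℝ} (hf : Nice f) (hg : Nice g) : Nice (fun x => f x + g x) := by
  obtain ⟨mf, C, L, hC, hL, h⟩ := hf
  obtain ⟨mg, C', L', hC', hL', h'⟩ := hg
  refine ⟨mf.add mg, C + C', L + L', by positivity, by positivity, fun x => ?_⟩
  have h1 : Real.exp (L * |x|) ≤ Real.exp ((L + L') * |x|) :=
    Real.exp_le_exp.2 (by nlinarith [abs_nonneg x])
  have h2 : Real.exp (L' * |x|) ≤ Real.exp ((L + L') * |x|) :=
    Real.exp_le_exp.2 (by nlinarith [abs_nonneg x])
  calc |f x + g x| ≤ |f x| + |g x| := abs_add_le _ _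
    _ ≤ C * Real.exp (L * |x|) + C' * Real.exp (L' * |x|) := add_le_add (h x) (h' x)
    _ ≤ C * Real.exp ((L + L') * |x|) + C' * Real.exp ((L + L') * |x|) :=
        add_le_add (mul_le_mul_of_nonneg_left h1 hC) (mul_le_mul_of_nonneg_left h2 hC')
    _ = _ := by ring

theorem Nice.mul {f g : ℝ → ℝ} (hf : Nice f) (hg : Nice g) : Nice (fun x => f x * g x) := by
  obtain ⟨mf, C, L, hC, hL, h⟩ := hf
  obtain ⟨mg, C', L', hC', hL', h'⟩ := hg
  refine ⟨mf.mul mg, C * C', L + L', by positivity, by positivity, fun x => ?_⟩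
  rw [abs_mul, add_mul, Real.exp_add]
  calc |f x| * |g x| ≤ (C * Real.exp (L * |x|)) * (C' * Real.exp (L' * |x|)) :=
        mul_le_mul (h x) (h' x) (abs_nonneg _) (by positivity)
    _ = _ := by ring

theorem Nice.congr {f g : ℝ → ℝ} (hf : Nice f) (h : ∀ x, g x = f x) : Nice g := by
  have e : g = f := funext h
  rw [e]
  exact hf

theorem nice_const (c : ℝ) : Nice (fun _ => c) :=
  ⟨measurable_const, |c|, 0, abs_nonneg c, le_rfl, fun x => by simp⟩

theorem nice_id : Nice (fun x => x) := by
  refine ⟨measurable_id, 1, 1, by norm_num, by norm_num, fun x => ?_⟩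
  have := Real.add_one_le_exp |x|
  rw [one_mul, one_mul]
  linarith

theorem Nice.smul {f : ℝ → ℝ} (hf : Nice f) (c : ℝ) : Nice (fun x => c * f x) :=
  (nice_const c).mul hf

theorem Nice.sub {f g : ℝ → ℝ} (hf : Nice f) (hg : Nice g) : Nice (fun x => f x - g x) :=
  (hf.add (hg.smul (-1))).congr fun x => by ring

theorem Nice.sum {ι : Type} (s : Finset ι) (f : ι → ℝ → ℝ) (h : ∀ i ∈ s, Nice (f i)) :
    Nice (fun x => ∑ i ∈ s, f i x) := by
  classical
  induction s using Finset.induction_on with
  | empty => exact (nice_const 0).congr fun x => by simp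
  | insert i s hi ih =>
    exact ((h i (mem_insert_self i s)).add (ih fun j hj => h j (mem_insert_of_mem hj))).congr
      fun x => by rw [Finset.sum_insert hi]

theorem Nice.integrable {f : ℝ → ℝ} (hf : Nice f) : Integrable f gm := by
  obtain ⟨mf, C, L, hC, hL, h⟩ := hf
  have h1 : Integrable (fun x => C * (Real.exp (L * x) + Real.exp ((-L) * x))) gm :=
    ((integrable_exp_mul_gaussianReal L).add (integrable_exp_mul_gaussianReal (-L))).const_mul C
  refine h1.mono' mf.aestronglyMeasurable (Eventually.of_forall fun x => ?_)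
  rw [Real.norm_eq_abs]
  refine (h x).trans (mul_le_mul_of_nonneg_left ?_ hC)
  rcases abs_cases x with ⟨h2, -⟩ | ⟨h2, -⟩
  · rw [h2]
    linarith [Real.exp_pos ((-L) * x)]
  · rw [h2, mul_neg, ← neg_mul]
    linarith [Real.exp_pos (L * x)]

theorem nice_He (d : ℕ) : Nice (He d) := by
  induction d using Nat.strong_induction_on with
  | _ d ih =>
    rcases d with _ | _ | d
    · exact (nice_const 1).congr fun x => He_zero x
    · exact nice_id.congr fun x => He_one x
    · exact ((nice_id.mul (ih (d + 1) (by omega))).sub ((ih d (by omega)).smul (d + 1))).congr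
        fun x => He_two d x

theorem hasDerivAt_He (d : ℕ) (x : ℝ) : HasDerivAt (He d) (d * He (d - 1) x) x := by
  induction d using Nat.strong_induction_on with
  | _ d ih =>
    rcases d with _ | _ | d
    · have e : He 0 = fun _ => 1 := funext He_zero
      rw [e]
      simpa using hasDerivAt_const x (1 : ℝ)
    · have e : He 1 = fun x => x := funext He_one
      rw [e]
      have := hasDerivAt_id' x
      simpa [He_zero] using this
    · have h1 := ih (d + 1) (by omega)
      have h2 := ih d (by omega)
      have e : He (d + 2) = fun x => x * He (d + 1) x - (d + 1) * He d x := funext (He_two d)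
      rw [e]
      have h3 := ((hasDerivAt_id x).mul h1).sub (h2.const_mul ((d : ℝ) + 1))
      refine h3.congr_deriv ?_
      have h4 := He_succ d x
      simp only [id, Nat.add_sub_cancel]
      push_cast
      rw [h4]
      ring

theorem hasDerivAt_phi (x : ℝ) : HasDerivAt phi (-(x * phi x)) x := by
  unfold phi gaussianPDFReal
  have h1 : HasDerivAt (fun x : ℝ => -(x - 0) ^ 2 / (2 * ((1 : NNReal) : ℝ))) (-x) x := by
    have h2 := (((hasDerivAt_id x).sub_const 0).pow 2).neg.div_const (2 * ((1 : NNReal) : ℝ))
    refine h2.congr_deriv ?_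
    simp
    ring
  have h3 := (h1.exp).const_mul ((√(2 * π * ((1 : NNReal) : ℝ)))⁻¹)
  refine h3.congr_deriv ?_
  ring

theorem phi_pos (x : ℝ) : 0 < phi x := gaussianPDFReal_pos 0 1 x one_ne_zero

theorem gE_eq (f : ℝ → ℝ) : ∫ x, f x ∂gm = ∫ x, phi x * f x := by
  rw [integral_gaussianReal_eq_integral_smul one_ne_zero]
  rfl

theorem Nice.phi_integrable {f : ℝ → ℝ} (hf : Nice f) : Integrable (fun x => phi x * f x) := by
  have h : Integrable f (gaussianReal 0 1) := hf.integrable
  rw [gaussianReal_of_var_ne_zero _ one_ne_zero,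
    integrable_withDensity_iff_integrable_smul' (measurable_gaussianPDF 0 1)
      (Eventually.of_forall fun x => gaussianPDF_lt_top)] at h
  refine h.congr (Eventually.of_forall fun x => ?_)
  simp only [toReal_gaussianPDF, smul_eq_mul]
  rfl

/-- integration by parts -/
theorem ibp {g g' : ℝ → ℝ} (hg : Nice g) (hg' : Nice g') (hd : ∀ x, HasDerivAt g (g' x) x) :
    ∫ x, (g' x - x * g x) ∂gm = 0 := by
  rw [gE_eq]
  refine integral_eq_zero_of_hasDerivAt_of_integrable (f := fun x => phi x * g x) (fun x => ?_)
    (hg'.sub (nice_id.mul hg)).phi_integrable hg.phi_integrable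
  refine ((hasDerivAt_phi x).mul (hd x)).congr_deriv ?_
  ring

/-- indicator of a half line -/
noncomputable def ia (y x : ℝ) : ℝ := if -y < x then 1 else 0

theorem nice_ia (y : ℝ) : Nice (ia y) := by
  refine ⟨Measurable.ite measurableSet_Ioi measurable_const measurable_const, 1, 0, by norm_num,
    le_rfl, fun x => ?_⟩
  unfold ia
  rw [zero_mul, Real.exp_zero, mul_one]
  split_ifs <;> simp

theorem ibp_half {g g' : ℝ → ℝ} (hg : Nice g) (hg' : Nice g') (hd : ∀ x, HasDerivAt g (g' x) x)
    (y : ℝ) : ∫ x, ia y x * (g' x - x * g x) ∂gm = -(phi (-y) * g (-y)) := by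
  rw [gE_eq]
  have e : (fun x => phi x * (ia y x * (g' x - x * g x))) =
      (Set.Ioi (-y)).indicator (fun x => phi x * (g' x - x * g x)) := by
    funext x
    unfold ia Set.indicator
    simp only [Set.mem_Ioi]
    split_ifs <;> simp
  rw [e, integral_indicator measurableSet_Ioi]
  have i1 := (hg'.sub (nice_id.mul hg)).phi_integrable
  have i2 := hg.phi_integrable
  have hder : ∀ x, HasDerivAt (fun x => phi x * g x) (phi x * (g' x - x * g x)) x := by
    intro x
    refine ((hasDerivAt_phi x).mul (hd x)).congr_deriv ?_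
    ring
  have ht := tendsto_zero_of_hasDerivAt_of_integrableOn_Ioi (a := -y) (fun x _ => hder x)
    i1.integrableOn i2.integrableOn
  rw [integral_Ioi_of_hasDerivAt_of_tendsto' (fun x _ => hder x) i1.integrableOn ht]
  ring

theorem He_int (d : ℕ) : ∫ x, He (d + 1) x ∂gm = 0 := by
  have h := ibp (nice_He d) ((nice_He (d - 1)).smul d) (hasDerivAt_He d)
  have h2 : ∫ x, He (d + 1) x ∂gm = -∫ x, (d * He (d - 1) x - x * He d x) ∂gm := by
    rw [← integral_neg]
    congr 1
    funext x
    rw [He_succ]
    ring
  rw [h2, h, neg_zero]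

theorem He_orth (d e : ℕ) : ∫ x, He d x * He e x ∂gm = if d = e then (d.factorial : ℝ) else 0 := by
  induction d generalizing e with
  | zero =>
    rcases e with _ | e
    · simp [He_zero]
    · have h := He_int e
      simp only [He_zero, one_mul]
      rw [h]
      simp
  | succ d ih =>
    have h := ibp ((nice_He d).mul (nice_He e))
      ((((nice_He (d - 1)).smul d).mul (nice_He e)).add ((nice_He d).mul
        ((nice_He (e - 1)).smul e)))
      (fun x => (hasDerivAt_He d x).mul (hasDerivAt_He e x))
    have h2 : ∫ x, He (d + 1) x * He e x ∂gm = e * ∫ x, He d x * He (e - 1) x ∂gm := by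
      rw [← integral_const_mul, ← sub_eq_zero, ← integral_sub]
      · rw [← neg_eq_zero, ← h, ← integral_neg]
        congr 1
        funext x
        rw [He_succ]
        ring
      · exact ((nice_He (d + 1)).mul (nice_He e)).integrable
      · exact (((nice_He d).mul (nice_He (e - 1))).smul e).integrable
    rw [h2, ih]
    rcases e with _ | e
    · simp
    · rw [Nat.add_sub_cancel]
      by_cases h3 : d = e
      · rw [if_pos h3, if_pos (by omega), h3, Nat.factorial_succ]
        push_cast
        ring
      · rw [if_neg h3, if_neg (by omega), mul_zero]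

/-- Bessel's inequality -/
theorem gbessel {f : ℝ → ℝ} (hf : Nice f) (n : ℕ) :
    ∑ d ∈ range n, (∫ x, f x * He d x ∂gm) ^ 2 / (d.factorial : ℝ) ≤ ∫ x, f x ^ 2 ∂gm := by
  set r : ℕ → ℝ := fun d => (∫ x, f x * He d x ∂gm) / (d.factorial : ℝ) with hr
  have hfac : ∀ d : ℕ, (d.factorial : ℝ) ≠ 0 := fun d => Nat.cast_ne_zero.2 (Nat.factorial_ne_zero d)
  set P : ℝ → ℝ := fun x => ∑ d ∈ range n, r d * He d x with hP
  have nP : Nice P := Nice.sum _ (fun d => fun x => r d * He d x) fun d _ => (nice_He d).smul _
  have h0 : 0 ≤ ∫ x, (f x - P x) ^ 2 ∂gm := integral_nonneg fun x => sq_nonneg _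
  have e1 : ∫ x, f x * P x ∂gm = ∑ d ∈ range n, (∫ x, f x * He d x ∂gm) ^ 2 / (d.factorial : ℝ) := by
    have : (fun x => f x * P x) = fun x => ∑ d ∈ range n, r d * (f x * He d x) := by
      funext x
      simp only [hP]
      rw [Finset.mul_sum]
      exact Finset.sum_congr rfl fun d _ => by ring
    rw [this, integral_finsetSum _ fun d _ => ((hf.mul (nice_He d)).smul _).integrable]
    refine Finset.sum_congr rfl fun d _ => ?_
    rw [integral_const_mul]
    simp only [hr]
    ring
  have e2 : ∫ x, P x * P x ∂gm = ∑ d ∈ range n, (∫ x, f x * He d x ∂gm) ^ 2 / (d.factorial : ℝ) := by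
    have : (fun x => P x * P x) = fun x => ∑ d ∈ range n, ∑ e ∈ range n,
        r d * r e * (He d x * He e x) := by
      funext x
      simp only [hP]
      rw [Finset.sum_mul_sum]
      exact Finset.sum_congr rfl fun d _ => Finset.sum_congr rfl fun e _ => by ring
    rw [this, integral_finsetSum _ fun d _ => (Nice.sum _ (fun e => fun x =>
      r d * r e * (He d x * He e x)) fun e _ => ((nice_He d).mul (nice_He e)).smul _).integrable]
    refine Finset.sum_congr rfl fun d hd => ?_
    rw [integral_finsetSum _ fun e _ => (((nice_He d).mul (nice_He e)).smul _).integrable]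
    simp only [integral_const_mul, He_orth]
    rw [Finset.sum_eq_single d]
    · rw [if_pos rfl]
      simp only [hr]
      have := hfac d
      field_simp
    · intro e _ he
      rw [if_neg (Ne.symm he), mul_zero]
    · intro h
      exact absurd hd h
  have e3 : ∫ x, (f x - P x) ^ 2 ∂gm = ∫ x, f x ^ 2 ∂gm - 2 * ∫ x, f x * P x ∂gm +
      ∫ x, P x * P x ∂gm := by
    have i1 : Integrable (fun x => f x ^ 2) gm := (hf.mul hf).integrable.congr
      (Eventually.of_forall fun x => by simp only [sq])
    have i2 : Integrable (fun x => 2 * (f x * P x)) gm := ((hf.mul nP).smul 2).integrable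
    have i3 : Integrable (fun x => P x * P x) gm := (nP.mul nP).integrable
    have i4 : Integrable (fun x => f x ^ 2 - 2 * (f x * P x)) gm := i1.sub i2
    rw [← integral_const_mul, ← integral_sub i1 i2, ← integral_add i4 i3]
    congr 1
    funext x
    ring
  rw [e3, e1, e2] at h0
  linarith

end Pool.Agent.H976.C
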