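import Pool.Agent.H976.C.Y

/-!
# Circulant theta: the positive part
-/

set_option autoImplicit false
set_option linter.unusedSectionVars false

namespace Pool.Agent.H976.C

open Finset Real MeasureTheory ProbabilityTheory Filter

/-- the shifted positive part -/
noncomputable def hh (y x : ℝ) : ℝ := ia y x * (x + y)

theorem nice_hh (y : ℝ) : Nice (hh y) := (nice_ia y).mul (nice_id.add (nice_const y))

theorem hh_nonneg (y x : ℝ) : 0 ≤ hh y x := by
  unfold hh ia
  split_ifs with h
  · linarith
  · simp

theorem hh_eq (y x : ℝ) : hh y x = max (x + y) 0 := by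
  unfold hh ia
  split_ifs with h
  · rw [one_mul, max_eq_left (by linarith)]
  · rw [zero_mul, max_eq_right (by linarith)]

theorem hh_sq_eq (y x : ℝ) : hh y x ^ 2 = hh y x * He 1 x + y * hh y x := by
  rw [He_one]
  unfold hh ia
  split_ifs with h
  · ring
  · ring

/-- the mass of the half line -/
noncomputable def Ph (y : ℝ) : ℝ := ∫ x, ia y x ∂gm

/-- the mean of the positive part -/
noncomputable def Mh (y : ℝ) : ℝ := ∫ x, hh y x ∂gm

theorem hh_He (y : ℝ) (d : ℕ) : ∫ x, hh y x * He (d + 1) x ∂gm = ∫ x, ia y x * He d x ∂gm := by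
  have h := ibp_half (g := fun x => (x + y) * He d x)
    (g' := fun x => He d x + (x + y) * (d * He (d - 1) x))
    ((nice_id.add (nice_const y)).mul (nice_He d))
    ((nice_He d).add ((nice_id.add (nice_const y)).mul ((nice_He (d - 1)).smul d)))
    (fun x => by
      have h1 := ((hasDerivAt_id x).add_const y).mul (hasDerivAt_He d x)
      refine h1.congr_deriv ?_
      simp) y
  have h2 : ∫ x, ia y x * (He d x + (x + y) * (d * He (d - 1) x) - x * ((x + y) * He d x)) ∂gm =
      ∫ x, (ia y x * He d x - hh y x * He (d + 1) x) ∂gm := by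
    congr 1
    funext x
    unfold hh
    rw [He_succ]
    ring
  rw [h2, integral_sub ((nice_ia y).mul (nice_He d)).integrable
    ((nice_hh y).mul (nice_He (d + 1))).integrable] at h
  have h3 : -(phi (-y) * ((-y + y) * He d (-y))) = 0 := by ring
  rw [h3] at h
  linarith

theorem hh_one (y : ℝ) : ∫ x, hh y x * He 1 x ∂gm = Ph y := by
  have h := hh_He y 0
  rw [h]
  unfold Ph
  congr 1
  funext x
  rw [He_zero, mul_one]

theorem hh_sq (y : ℝ) : ∫ x, hh y x ^ 2 ∂gm = Ph y + y * Mh y := by
  simp only [hh_sq_eq]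
  rw [integral_add ((nice_hh y).mul (nice_He 1)).integrable ((nice_hh y).smul y).integrable,
    hh_one, integral_const_mul]
  rfl

theorem Mh_zero : Mh 0 = phi 0 := by
  have h := ibp_half (g := fun _ => 1) (g' := fun _ => 0) (nice_const 1) (nice_const 0)
    (fun x => hasDerivAt_const x 1) 0
  have h2 : ∫ x, ia 0 x * (0 - x * 1) ∂gm = -Mh 0 := by
    unfold Mh
    rw [← integral_neg]
    congr 1
    funext x
    unfold hh
    ring
  rw [h2, neg_zero, mul_one] at h
  exact neg_injective h

theorem Mh_mono {y : ℝ} (hy : 0 ≤ y) : phi 0 ≤ Mh y := by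
  rw [← Mh_zero]
  refine integral_mono (nice_hh 0).integrable (nice_hh y).integrable fun x => ?_
  rw [hh_eq, hh_eq]
  exact max_le_max (by linarith) le_rfl

theorem Mh_pos {y : ℝ} (hy : 0 ≤ y) : 0 < Mh y := (phi_pos 0).trans_le (Mh_mono hy)

theorem Ph_le_one (y : ℝ) : Ph y ≤ 1 := by
  have h : Ph y ≤ ∫ _x, (1 : ℝ) ∂gm := by
    refine integral_mono (nice_ia y).integrable (nice_const 1).integrable fun x => ?_
    unfold ia
    split_ifs <;> norm_num
  simpa using h

theorem g_symm (f : ℝ → ℝ) : ∫ x, f (-x) ∂gm = ∫ x, f x ∂gm := by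
  rw [gE_eq, gE_eq]
  have h : ∀ x, phi x = phi (-x) := by
    intro x
    unfold phi gaussianPDFReal
    congr 3
    ring
  have h2 : (fun x => phi x * f (-x)) = fun x => (fun x => phi x * f x) (-x) := by
    funext x
    rw [h x]
  rw [h2]
  exact integral_neg_eq_self (fun x => phi x * f x) volume

theorem Ph_gt {y : ℝ} (hy : 0 < y) : 1 / 2 < Ph y := by
  have h1 : Ph y + Ph y = ∫ x, (ia y x + ia y (-x)) ∂gm := by
    rw [integral_add (nice_ia y).integrable, g_symm]
    · rfl
    · have h2 : Nice (fun x => ia y (-x)) := by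
        refine ⟨(nice_ia y).1.comp measurable_neg, 1, 0, by norm_num, le_rfl, fun x => ?_⟩
        rw [zero_mul, Real.exp_zero, mul_one]
        show |ia y (-x)| ≤ 1
        unfold ia
        split_ifs <;> simp
      exact h2.integrable
  have h2 : (1 : ℝ) + ∫ x, (Set.Ioo (-y) y).indicator (fun _ => (1 : ℝ)) x ∂gm ≤
      ∫ x, (ia y x + ia y (-x)) ∂gm := by
    have h3 : (1 : ℝ) = ∫ _x, (1 : ℝ) ∂gm := by simp
    have i1 : Integrable (fun x => (Set.Ioo (-y) y).indicator (fun _ => (1 : ℝ)) x) gm :=
      (integrable_const (1 : ℝ)).indicator measurableSet_Ioo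
    have i2 : Integrable (fun x => ia y x + ia y (-x)) gm := by
      have h2 : Nice (fun x => ia y (-x)) := by
        refine ⟨(nice_ia y).1.comp measurable_neg, 1, 0, by norm_num, le_rfl, fun x => ?_⟩
        rw [zero_mul, Real.exp_zero, mul_one]
        show |ia y (-x)| ≤ 1
        unfold ia
        split_ifs <;> simp
      exact ((nice_ia y).add h2).integrable
    calc (1 : ℝ) + ∫ x, (Set.Ioo (-y) y).indicator (fun _ => (1 : ℝ)) x ∂gm =
        ∫ x, ((1 : ℝ) + (Set.Ioo (-y) y).indicator (fun _ => (1 : ℝ)) x) ∂gm := by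
          rw [integral_add (integrable_const _) i1, ← h3]
      _ ≤ _ := by
          refine integral_mono ((integrable_const _).add i1) i2 fun x => ?_
          show (1 : ℝ) + (Set.Ioo (-y) y).indicator (fun _ => (1 : ℝ)) x ≤ ia y x + ia y (-x)
          unfold ia Set.indicator
          simp only [Set.mem_Ioo]
          by_cases a1 : -y < x
          · by_cases a2 : x < y
            · rw [if_pos ⟨a1, a2⟩, if_pos a1, if_pos (by linarith)]
            · rw [if_neg (fun h => a2 h.2), if_pos a1]
              split_ifs <;> norm_num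
          · rw [if_neg (fun h => a1 h.1), if_neg a1, if_pos (by linarith)]
            norm_num
  have h3 : 0 < ∫ x, (Set.Ioo (-y) y).indicator (fun _ => (1 : ℝ)) x ∂gm := by
    rw [integral_indicator measurableSet_Ioo, setIntegral_const, smul_eq_mul, mul_one]
    rw [Measure.real, ENNReal.toReal_pos_iff]
    refine ⟨?_, measure_lt_top _ _⟩
    rw [pos_iff_ne_zero]
    intro h4
    have h5 := gaussianReal_absolutelyContinuous' 0 (v := 1) one_ne_zero h4
    rw [Real.volume_Ioo, ENNReal.ofReal_eq_zero] at h5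
    linarith
  linarith

end Pool.Agent.H976.C
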