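import Pool.Agent.H976.C.Y2
import Mathlib.Analysis.Fourier.AddCircle

/-!
# Circulant theta: nonnegative polynomials are dense
-/

set_option autoImplicit false
set_option linter.unusedSectionVars false

namespace Pool.Agent.H976.C

open Finset Real MeasureTheory ProbabilityTheory Filter

/-- linear combinations of Hermite polynomials -/
def HS (f : ℝ → ℝ) : Prop := f ∈ Submodule.span ℝ (Set.range He)

theorem HS_mul_x {f : ℝ → ℝ} (hf : HS f) : HS (fun x => x * f x) := by
  unfold HS at hf
  induction hf using Submodule.span_induction with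
  | mem f h =>
    obtain ⟨d, rfl⟩ := h
    have e : (fun x => x * He d x) = He (d + 1) + (d : ℝ) • He (d - 1) := by
      funext x
      simp only [Pi.add_apply, Pi.smul_apply, smul_eq_mul]
      rw [He_succ]
      ring
    unfold HS
    rw [e]
    exact Submodule.add_mem _ (Submodule.subset_span ⟨d + 1, rfl⟩)
      (Submodule.smul_mem _ _ (Submodule.subset_span ⟨d - 1, rfl⟩))
  | zero =>
    have e : (fun x : ℝ => x * (0 : ℝ → ℝ) x) = 0 := by
      funext x
      simp
    unfold HS
    rw [e]
    exact Submodule.zero_mem _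
  | add f g _ _ h1 h2 =>
    have e : (fun x : ℝ => x * (f + g) x) = (fun x => x * f x) + fun x => x * g x := by
      funext x
      simp only [Pi.add_apply]
      ring
    unfold HS
    rw [e]
    exact Submodule.add_mem _ h1 h2
  | smul c f _ h1 =>
    have e : (fun x : ℝ => x * (c • f) x) = c • fun x => x * f x := by
      funext x
      simp only [Pi.smul_apply, smul_eq_mul]
      ring
    unfold HS
    rw [e]
    exact Submodule.smul_mem _ _ h1

theorem HS_pow (n : ℕ) : HS (fun x => x ^ n) := by
  induction n with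
  | zero =>
    have e : (fun x : ℝ => x ^ 0) = He 0 := by
      funext x
      rw [He_zero, pow_zero]
    unfold HS
    rw [e]
    exact Submodule.subset_span ⟨0, rfl⟩
  | succ n ih =>
    have h := HS_mul_x ih
    have e : (fun x : ℝ => x ^ (n + 1)) = fun x => x * x ^ n := by
      funext x
      rw [pow_succ']
    rw [e]
    exact h

theorem HS_poly (P : Polynomial ℝ) : HS (fun x => P.eval x) := by
  induction P using Polynomial.induction_on' with
  | add p q hp hq =>
    have e : (fun x => (p + q).eval x) = (fun x => p.eval x) + fun x => q.eval x := by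
      funext x
      simp
    unfold HS at *
    rw [e]
    exact Submodule.add_mem _ hp hq
  | monomial n a =>
    have e : (fun x => (Polynomial.monomial n a).eval x) = a • fun x : ℝ => x ^ n := by
      funext x
      simp
    have h := HS_pow n
    unfold HS at *
    rw [e]
    exact Submodule.smul_mem _ _ h

theorem HS_rep {f : ℝ → ℝ} (hf : HS f) :
    ∃ (E : ℕ) (r : ℕ → ℝ), ∀ x, f x = ∑ d ∈ range E, r d * He d x := by
  unfold HS at hf
  rw [Finsupp.mem_span_range_iff_exists_finsupp] at hf
  obtain ⟨c, hc⟩ := hf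
  refine ⟨c.support.sup id + 1, c, fun x => ?_⟩
  rw [← hc, Finsupp.sum]
  rw [Finset.sum_apply]
  simp only [Pi.smul_apply, smul_eq_mul]
  refine Finset.sum_subset ?_ ?_
  · intro d hd
    rw [mem_range]
    exact Nat.lt_succ_of_le (Finset.le_sup (f := id) hd)
  · intro d _ hd
    rw [Finsupp.notMem_support_iff] at hd
    rw [hd, zero_mul]

/-! ### Entire functions of exponential type -/

/-- real entire functions of exponential type -/
def Ent (W : ℝ → ℝ) : Prop := ∃ (u : ℕ → ℝ) (C l : ℝ), 0 ≤ C ∧ 0 ≤ l ∧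
  (∀ k, |u k| ≤ C * (l ^ k / (k.factorial : ℝ))) ∧ ∀ x, HasSum (fun k => u k * x ^ k) (W x)

theorem Ent.add {W W' : ℝ → ℝ} (h : Ent W) (h' : Ent W') : Ent (fun x => W x + W' x) := by
  obtain ⟨u, C, l, hC, hl, hu, hs⟩ := h
  obtain ⟨u', C', l', hC', hl', hu', hs'⟩ := h'
  refine ⟨fun k => u k + u' k, C + C', l + l', by positivity, by positivity, fun k => ?_,
    fun x => ?_⟩
  · have h1 : l ^ k / (k.factorial : ℝ) ≤ (l + l') ^ k / (k.factorial : ℝ) :=
      div_le_div_of_nonneg_right (pow_le_pow_left₀ hl (by linarith) k) (Nat.cast_nonneg _)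
    have h2 : l' ^ k / (k.factorial : ℝ) ≤ (l + l') ^ k / (k.factorial : ℝ) :=
      div_le_div_of_nonneg_right (pow_le_pow_left₀ hl' (by linarith) k) (Nat.cast_nonneg _)
    calc |u k + u' k| ≤ |u k| + |u' k| := abs_add_le _ _
      _ ≤ C * (l ^ k / (k.factorial : ℝ)) + C' * (l' ^ k / (k.factorial : ℝ)) :=
          add_le_add (hu k) (hu' k)
      _ ≤ C * ((l + l') ^ k / (k.factorial : ℝ)) + C' * ((l + l') ^ k / (k.factorial : ℝ)) :=
          add_le_add (mul_le_mul_of_nonneg_left h1 hC) (mul_le_mul_of_nonneg_left h2 hC')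
      _ = _ := by ring
  · refine ((hs x).add (hs' x)).congr_fun ?_
    intro k
    ring

theorem Ent.zero : Ent (fun _ => 0) := by
  refine ⟨fun _ => 0, 0, 0, le_rfl, le_rfl, fun k => by simp, fun x => ?_⟩
  simpa using hasSum_zero

theorem Ent_exp (c : ℂ) (l : ℝ) : Ent (fun x => (c * Complex.exp (Complex.I * l * x)).re) := by
  refine ⟨fun k => (c * ((Complex.I * l) ^ k / (k.factorial : ℂ))).re, ‖c‖, |l|, norm_nonneg _,
    abs_nonneg _, fun k => ?_, fun x => ?_⟩
  · refine (Complex.abs_re_le_norm _).trans ?_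
    rw [norm_mul, norm_div, norm_pow, norm_mul, Complex.norm_I, one_mul, Complex.norm_real,
      Real.norm_eq_abs, Complex.norm_natCast]
  · have h1 := NormedSpace.expSeries_div_hasSum_exp (𝔸 := ℂ) (Complex.I * l * x)
    rw [← Complex.exp_eq_exp_ℂ] at h1
    have h2 := Complex.hasSum_re (h1.mul_left c)
    refine h2.congr_fun fun k => ?_
    have h3 : c * ((Complex.I * l * x) ^ k / (k.factorial : ℂ)) =
        (c * ((Complex.I * l) ^ k / (k.factorial : ℂ))) * ((x ^ k : ℝ) : ℂ) := by
      push_cast
      rw [mul_pow]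
      ring
    rw [h3, Complex.re_mul_ofReal]

theorem Ent.approx {W : ℝ → ℝ} (hW : Ent W) {h : ℝ → ℝ} (hh : Nice h) {δ : ℝ} (hδ : 0 < δ) :
    ∃ P : Polynomial ℝ, ∫ x, ((P.eval x) ^ 2 - h x) ^ 2 ∂gm ≤
      ∫ x, (W x ^ 2 - h x) ^ 2 ∂gm + δ := by
  obtain ⟨u, C, l, hC, hl, hu, hs⟩ := hW
  set U : ℕ → Polynomial ℝ := fun M => ∑ k ∈ range M, Polynomial.monomial k (u k) with hU
  have hUe : ∀ M x, (U M).eval x = ∑ k ∈ range M, u k * x ^ k := by
    intro M x
    simp only [hU]
    rw [Polynomial.eval_finsetSum]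
    exact Finset.sum_congr rfl fun k _ => by rw [Polynomial.eval_monomial]
  have hb : ∀ M x, |(U M).eval x| ≤ C * Real.exp (l * |x|) := by
    intro M x
    rw [hUe]
    calc |∑ k ∈ range M, u k * x ^ k| ≤ ∑ k ∈ range M, |u k * x ^ k| :=
          Finset.abs_sum_le_sum_abs _ _
      _ ≤ ∑ k ∈ range M, C * ((l * |x|) ^ k / (k.factorial : ℝ)) := by
          refine Finset.sum_le_sum fun k _ => ?_
          rw [abs_mul, abs_pow]
          calc |u k| * |x| ^ k ≤ (C * (l ^ k / (k.factorial : ℝ))) * |x| ^ k :=
                mul_le_mul_of_nonneg_right (hu k) (by positivity)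
            _ = _ := by
                rw [mul_pow]
                ring
      _ = C * ∑ k ∈ range M, (l * |x|) ^ k / (k.factorial : ℝ) := by rw [Finset.mul_sum]
      _ ≤ _ := mul_le_mul_of_nonneg_left (Real.sum_le_exp_of_nonneg (by positivity) M) hC
  have ht : ∀ x, Tendsto (fun M => (U M).eval x) atTop (nhds (W x)) := by
    intro x
    simp only [hUe]
    exact (hs x).tendsto_sum_nat
  set b : ℝ → ℝ := fun x => (C * Real.exp (l * |x|) * (C * Real.exp (l * |x|)) + |h x|) *
    (C * Real.exp (l * |x|) * (C * Real.exp (l * |x|)) + |h x|) with hbd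
  have nE : Nice (fun x => C * Real.exp (l * |x|)) := by
    refine ⟨by fun_prop, C, l, hC, hl, fun x => ?_⟩
    rw [abs_of_nonneg (by positivity)]
  have nA : Nice (fun x => |h x|) := by
    obtain ⟨m1, C1, l1, hC1, hl1, h1⟩ := hh
    exact ⟨m1.abs, C1, l1, hC1, hl1, fun x => by rw [abs_abs]; exact h1 x⟩
  have nb : Nice b := ((nE.mul nE).add nA).mul ((nE.mul nE).add nA)
  have hlim : Tendsto (fun M => ∫ x, (((U M).eval x) ^ 2 - h x) ^ 2 ∂gm) atTop
      (nhds (∫ x, (W x ^ 2 - h x) ^ 2 ∂gm)) := by
    refine tendsto_integral_of_dominated_convergence b (fun M => ?_) nb.integrable (fun M => ?_) ?_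
    · have m1 : Measurable fun x => (U M).eval x := (U M).continuous.measurable
      exact (((m1.pow_const 2).sub hh.1).pow_const 2).aestronglyMeasurable
    · refine Eventually.of_forall fun x => ?_
      rw [Real.norm_eq_abs, abs_of_nonneg (sq_nonneg _), sq]
      have h1 : |(U M).eval x ^ 2 - h x| ≤
          C * Real.exp (l * |x|) * (C * Real.exp (l * |x|)) + |h x| := by
        refine (abs_sub _ _).trans (add_le_add ?_ le_rfl)
        rw [abs_pow, sq]
        exact mul_le_mul (hb M x) (hb M x) (abs_nonneg _) (by positivity)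
      rw [← abs_mul_abs_self]
      exact mul_le_mul h1 h1 (abs_nonneg _) ((abs_nonneg _).trans h1)
    · refine Eventually.of_forall fun x => ?_
      exact (((ht x).pow 2).sub_const _).pow 2
  have hev := hlim.eventually (ge_mem_nhds (show ∫ x, (W x ^ 2 - h x) ^ 2 ∂gm <
    ∫ x, (W x ^ 2 - h x) ^ 2 ∂gm + δ by linarith))
  obtain ⟨M, hM⟩ := hev.exists
  exact ⟨U M, hM⟩

/-! ### Trigonometric approximation -/

theorem trig_approx {y L η : ℝ} (hy : 0 ≤ y) (hL : 0 < L) (hη : 0 < η) :
    ∃ W : ℝ → ℝ, Ent W ∧ Continuous W ∧ (∀ x, |W x| ≤ √(L + y) + η) ∧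
      ∀ x, |x| < L → |W x - √(hh y x)| ≤ η := by
  set T : ℝ := 4 * L with hT
  haveI : Fact (0 < T) := ⟨by positivity⟩
  set f : ℝ → ℝ := fun x => √(max (min x (2 * L - x) + y) 0) with hf
  have fc : Continuous f := by
    simp only [hf]
    fun_prop
  set F : AddCircle T → ℂ := AddCircle.liftIco T (-L) (fun x => ((f x : ℝ) : ℂ)) with hF
  have Fc : Continuous F := by
    refine AddCircle.liftIco_continuous ?_ (Continuous.continuousOn (by fun_prop))
    simp only [hf, hT]
    rw [min_eq_left (by linarith), min_eq_right (by linarith)]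
    ring_nf
  have h1 : (⟨F, Fc⟩ : C(AddCircle T, ℂ)) ∈
      closure ((Submodule.span ℂ (Set.range (@fourier T)) : Submodule ℂ C(AddCircle T, ℂ)) :
        Set C(AddCircle T, ℂ)) := by
    rw [← Submodule.topologicalClosure_coe, span_fourier_closure_eq_top]
    trivial
  obtain ⟨V, hV, hd⟩ := Metric.mem_closure_iff.1 h1 η hη
  have hdx : ∀ a : AddCircle T, ‖F a - V a‖ ≤ η := by
    intro a
    have h2 := ContinuousMap.dist_apply_le_dist (f := (⟨F, Fc⟩ : C(AddCircle T, ℂ))) (g := V) a
    rw [dist_eq_norm] at h2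
    exact h2.trans hd.le
  have hent : ∀ c : ℂ, Ent (fun x : ℝ => (c * V (x : AddCircle T)).re) := by
    have hV' : V ∈ Submodule.span ℂ (Set.range (@fourier T)) := hV
    clear hd hdx hV
    induction hV' using Submodule.span_induction with
    | mem g hg =>
      obtain ⟨n, rfl⟩ := hg
      intro c
      have h3 := Ent_exp c (2 * π * n / T)
      refine (congrArg Ent ?_).mpr h3
      funext x
      rw [fourier_coe_apply]
      congr 3
      push_cast
      ring
    | zero =>
      intro c
      refine (congrArg Ent ?_).mpr Ent.zero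
      funext x
      simp
    | add g g' _ _ i1 i2 =>
      intro c
      refine (congrArg Ent ?_).mpr ((i1 c).add (i2 c))
      funext x
      simp [mul_add]
    | smul a g _ i1 =>
      intro c
      refine (congrArg Ent ?_).mpr (i1 (c * a))
      funext x
      simp only [ContinuousMap.coe_smul, Pi.smul_apply, smul_eq_mul]
      rw [mul_assoc]
  refine ⟨fun x => (V (x : AddCircle T)).re, ?_, ?_, ?_, ?_⟩
  · have := hent 1
    simp only [one_mul] at this
    exact this
  · exact Complex.continuous_re.comp (V.continuous.comp (AddCircle.continuous_mk' T))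
  · intro x
    have h2 : ‖F (x : AddCircle T)‖ ≤ √(L + y) := by
      have h3 : F (x : AddCircle T) =
        ((f ((AddCircle.equivIco T (-L) (x : AddCircle T)) : ℝ) : ℝ) : ℂ) := rfl
      rw [h3, Complex.norm_real, Real.norm_eq_abs]
      generalize ((AddCircle.equivIco T (-L) (x : AddCircle T)) : ℝ) = b
      simp only [hf]
      rw [abs_of_nonneg (Real.sqrt_nonneg _)]
      refine Real.sqrt_le_sqrt (max_le ?_ (by linarith))
      have h4 : min b (2 * L - b) ≤ L := by
        rcases le_total b L with h5 | h5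
        · exact (min_le_left _ _).trans h5
        · exact (min_le_right _ _).trans (by linarith)
      linarith
    calc |(V (x : AddCircle T)).re| ≤ ‖V (x : AddCircle T)‖ := Complex.abs_re_le_norm _
      _ = ‖F (x : AddCircle T) - (F (x : AddCircle T) - V (x : AddCircle T))‖ := by
          congr 1
          ring
      _ ≤ ‖F (x : AddCircle T)‖ + ‖F (x : AddCircle T) - V (x : AddCircle T)‖ := norm_sub_le _ _
      _ ≤ _ := add_le_add h2 (hdx _)
  · intro x hx
    rw [abs_lt] at hx
    have h2 : F (x : AddCircle T) = ((√(hh y x) : ℝ) : ℂ) := by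
      rw [hF, AddCircle.liftIco_coe_apply (by
        constructor
        · linarith
        · rw [hT]
          linarith)]
      simp only [hf]
      rw [min_eq_left (by linarith), hh_eq]
    have h3 := hdx (x : AddCircle T)
    rw [h2] at h3
    have h4 := (Complex.abs_re_le_norm _).trans h3
    rw [Complex.sub_re, Complex.ofReal_re, abs_sub_comm] at h4
    exact h4

end Pool.Agent.H976.C
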